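import Pool.Agent.Lib.MP_f80667_ag.Dc.Dl
import Pool.Agent.Lib.MP_f80667_ag.Cv.DgQ

/-! Algebraic relations between functions on a curve and tangent vectors. -/

namespace DC

open CV Polynomial

variable {k A : Type} [Field k] [CommRing A] [Algebra k A]

section deg

variable (G : Dg k A)

private theorem dle_mul {a b : A} {m n : ℕ} (ha : G.d a ≤ m) (hb : G.d b ≤ n) :
    G.d (a * b) ≤ (m + n : ℕ) := by
  rw [G.mul, Nat.cast_add]
  exact add_le_add ha hb

private theorem dle_pow {a : A} {m : ℕ} (ha : G.d a ≤ m) (j : ℕ) : G.d (a ^ j) ≤ (j * m : ℕ) := by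
  have := G.nontrivial
  induction j with
  | zero => rw [pow_zero, G.one, zero_mul]; exact le_rfl
  | succ j ih =>
    rw [pow_succ, Nat.succ_mul]
    exact dle_mul G ih ha

private theorem exists_dle (a : A) : ∃ m : ℕ, G.d a ≤ m := by
  by_cases ha : a = 0
  · exact ⟨0, by rw [ha, G.zero]; exact bot_le⟩
  · obtain ⟨m, hm⟩ := G.exists_nat ha
    exact ⟨m, hm.le⟩

end deg

section rel

variable {f h : A} (x : A) {B : Type} [CommRing B] [Algebra A B] [Algebra k B]
  [IsScalarTower k A B]

/-- `X ↦ q`, `Y ↦ x`. -/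
private noncomputable def th (q : B) (x : A) : k[X][X] →+* B :=
  eval₂RingHom (aeval q : k[X] →ₐ[k] B).toRingHom (algebraMap A B x)

omit [Algebra k A] [IsScalarTower k A B] in
private theorem th_mon (q : B) (x : A) (i j : ℕ) (c : k) :
    th q x (monomial i (monomial j c)) = algebraMap k B c * q ^ j * algebraMap A B x ^ i := by
  unfold th
  rw [coe_eval₂RingHom, eval₂_monomial]
  congr 1
  change aeval q (monomial j c) = _
  rw [aeval_monomial]

/-- There is an algebraic relation between `f / h` and `x`. Proof: the dimensions of the spaces of functions. -/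
private theorem exists_rel (G : Dg k A) {q : B} (hq : q * algebraMap A B h = algebraMap A B f)
    (hu : IsUnit (algebraMap A B h)) : ∃ P : k[X][X], P ≠ 0 ∧ th q x P = 0 := by
  classical
  obtain ⟨m1, hm1⟩ := exists_dle G f
  obtain ⟨m2, hm2⟩ := exists_dle G h
  obtain ⟨d, hd⟩ := exists_dle G x
  set m := max m1 m2 with hm
  have hf : G.d f ≤ m := hm1.trans (by exact_mod_cast le_max_left m1 m2)
  have hh : G.d h ≤ m := hm2.trans (by exact_mod_cast le_max_right m1 m2)
  set N := m * d + 1 with hN
  let v : Fin (m + 1) × Fin (N + 1) → G.L (m * d + N * m) := fun p =>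
    ⟨x ^ (p.1 : ℕ) * (f ^ (p.2 : ℕ) * h ^ (N - p.2)), by
      have h1 := dle_pow G hd (p.1 : ℕ)
      have h2 := dle_pow G hf (p.2 : ℕ)
      have h3 := dle_pow G hh (N - p.2)
      refine (dle_mul G h1 (dle_mul G h2 h3)).trans ?_
      have h4 : (p.1 : ℕ) ≤ m := Nat.lt_succ_iff.1 p.1.2
      have h5 : (p.2 : ℕ) ≤ N := Nat.lt_succ_iff.1 p.2.2
      have h6 : (p.1 : ℕ) * d ≤ m * d := Nat.mul_le_mul_right d h4
      have h7 : (p.2 : ℕ) * m + (N - p.2) * m = N * m := by
        rw [← Nat.add_mul, Nat.add_sub_cancel' h5]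
      exact_mod_cast (by omega : (p.1 : ℕ) * d + ((p.2 : ℕ) * m + (N - p.2) * m) ≤ m * d + N * m)⟩
  have hli : ¬ LinearIndependent k v := by
    intro hli
    have hfin : Module.Finite k (G.L (m * d + N * m)) := inferInstance
    have h1 := hli.fintype_card_le_finrank
    rw [Fintype.card_prod, Fintype.card_fin, Fintype.card_fin] at h1
    have h2 := h1.trans (G.finrank_L_le _)
    have h3 : (m + 1) * (N + 1) = m * N + m + N + 1 := by ring
    rw [h3, mul_comm m N] at h2
    omega
  rw [Fintype.not_linearIndependent_iff] at hli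
  obtain ⟨g, hg, p₀, hp₀⟩ := hli
  let P : k[X][X] := ∑ p : Fin (m + 1) × Fin (N + 1), monomial (p.1 : ℕ) (monomial (p.2 : ℕ) (g p))
  refine ⟨P, ?_, ?_⟩
  · intro h0
    have h1 : (P.coeff (p₀.1 : ℕ)).coeff (p₀.2 : ℕ) = g p₀ := by
      simp only [P, finsetSum_coeff, coeff_monomial]
      rw [Finset.sum_eq_single p₀]
      · simp
      · intro p _ hp
        by_cases h2 : (p.1 : ℕ) = p₀.1
        · rw [if_pos h2, coeff_monomial, if_neg]
          intro h3
          exact hp (Prod.ext (Fin.ext h2) (Fin.ext h3))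
        · rw [if_neg h2, coeff_zero]
      · intro h2
        exact absurd (Finset.mem_univ _) h2
    rw [h0, coeff_zero, coeff_zero] at h1
    exact hp₀ h1.symm
  · have h1 : th q x P * algebraMap A B h ^ N = 0 := by
      have h2 := congrArg (fun z : G.L (m * d + N * m) => algebraMap A B (z : A)) hg
      simp only [AddSubmonoidClass.coe_finsetSum, map_sum] at h2
      rw [map_sum, Finset.sum_mul]
      have h3 : algebraMap A B ((0 : G.L (m * d + N * m)) : A) = 0 := by
        rw [ZeroMemClass.coe_zero, map_zero]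
      rw [h3] at h2
      rw [← h2]
      refine Finset.sum_congr rfl fun p _ => ?_
      rw [th_mon]
      change _ = algebraMap A B (g p • (x ^ (p.1 : ℕ) * (f ^ (p.2 : ℕ) * h ^ (N - p.2))))
      rw [Algebra.smul_def, map_mul, map_mul, map_mul, map_pow, map_pow, map_pow,
        ← IsScalarTower.algebraMap_apply, ← hq]
      have h5 : (p.2 : ℕ) ≤ N := Nat.lt_succ_iff.1 p.2.2
      have h6 : algebraMap A B h ^ N =
          algebraMap A B h ^ (p.2 : ℕ) * algebraMap A B h ^ (N - p.2) := by
        rw [← pow_add, Nat.add_sub_cancel' h5]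
      rw [h6, mul_pow]
      ring
    exact ((hu.pow N).mul_left_eq_zero).1 h1

/-- The relation of minimal degree. -/
private theorem exists_min [CharZero k] [IsAlgClosed k] [IsDomain B] (G : Dg k A) {q : B}
    (hq : q * algebraMap A B h = algebraMap A B f) (hu : IsUnit (algebraMap A B h))
    (hn : ∀ c : k, q ≠ algebraMap k B c) :
    ∃ P : k[X][X], th q x P = 0 ∧ th q x (derivative P) ≠ 0 := by
  classical
  have hex : ∃ n, ∃ P : k[X][X], P ≠ 0 ∧ th q x P = 0 ∧ P.natDegree = n := by
    obtain ⟨P, h1, h2⟩ := exists_rel x G hq hu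
    exact ⟨_, P, h1, h2, rfl⟩
  obtain ⟨P, h1, h2, h3⟩ := Nat.find_spec hex
  refine ⟨P, h2, fun h4 => ?_⟩
  by_cases h0 : P.natDegree = 0
  · obtain ⟨c, rfl⟩ := natDegree_eq_zero.1 h0
    have hc : c ≠ 0 := fun h5 => h1 (by rw [h5, C_0])
    have h5 : aeval q c = 0 := by
      have h6 : th q x (C c) = aeval q c := by
        unfold th
        rw [coe_eval₂RingHom, eval₂_C]
        rfl
      rw [← h6, h2]
    have h6a : IsAlgebraic k q := ⟨c, hc, h5⟩
    have h6 : IsIntegral k q := h6a.isIntegral
    obtain ⟨a, ha⟩ := minpoly.mem_range_of_degree_eq_one k q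
      (IsAlgClosed.degree_eq_one_of_irreducible k (minpoly.irreducible h6))
    exact hn a ha.symm
  · have h5 : derivative P ≠ 0 := fun h6 => h0 (derivative_eq_zero.1 h6)
    have h6 : (derivative P).natDegree < P.natDegree := natDegree_derivative_lt h0
    exact Nat.find_min hex (by rw [← h3]; exact h6) ⟨_, h5, h4, rfl⟩

end rel

section dl

/-- The value of a polynomial at a dual number. -/
private theorem aeval_dl (p : k[X]) (z : DualNumber k) :
    (aeval z p).fst = eval z.fst p ∧ (aeval z p).snd = eval z.fst (derivative p) * z.snd := by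
  induction p using Polynomial.induction_on' with
  | add p q hp hq =>
    rw [map_add, TrivSqZeroExt.fst_add, TrivSqZeroExt.snd_add, hp.1, hp.2, hq.1, hq.2, eval_add,
      derivative_add, eval_add, add_mul]
    exact ⟨rfl, rfl⟩
  | monomial n a =>
    have h1 : ∀ n : ℕ, (z ^ n).fst = z.fst ^ n ∧ (z ^ n).snd = n * z.fst ^ (n - 1) * z.snd := by
      intro n
      refine ⟨TrivSqZeroExt.fst_pow z n, ?_⟩
      rw [TrivSqZeroExt.snd_pow]
      simp only [nsmul_eq_mul, smul_eq_mul, Nat.pred_eq_sub_one]
      ring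
    rw [aeval_monomial, eval_monomial, derivative_monomial, eval_monomial]
    have h2 : (algebraMap k (DualNumber k) a) = TrivSqZeroExt.inl a := rfl
    rw [h2]
    constructor
    · rw [TrivSqZeroExt.fst_mul, TrivSqZeroExt.fst_inl, (h1 n).1]
    · rw [TrivSqZeroExt.snd_mul, TrivSqZeroExt.fst_inl, TrivSqZeroExt.snd_inl, (h1 n).2]
      simp only [smul_eq_mul, MulOpposite.smul_eq_mul_unop, MulOpposite.unop_op]
      ring

variable {f h : A} (x : A)

/-- **Tangent vectors and double zeros.** If `f / h` is not constant then, outside finitely many points (the zeros of `a`, `h`), a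
homomorphism to the dual numbers which maps some `f + s h` to `0` maps `x` to a constant. -/
theorem rel_dl [CharZero k] [IsAlgClosed k] (G : Dg k A) (hh : h ≠ 0) (hn : ∀ c : k, f ≠ c • h) :
    ∃ a : A, a ≠ 0 ∧ ∀ (φ : A →ₐ[k] k) (δ : A →ₐ[k] DualNumber k), (∀ a, (δ a).fst = φ a) →
      ∀ s : k, φ h ≠ 0 → φ a ≠ 0 → δ (f + s • h) = 0 → (δ x).snd = 0 := by
  have hdom := G.isDomain
  have hle : Submonoid.powers h ≤ nonZeroDivisors A := powers_le_nonZeroDivisors_of_noZeroDivisors hh
  have hdB : IsDomain (Localization.Away h) := IsLocalization.isDomain_localization hle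
  have hinj : Function.Injective (algebraMap A (Localization.Away h)) :=
    IsLocalization.injective _ hle
  have hu : IsUnit (algebraMap A (Localization.Away h) h) :=
    IsLocalization.Away.algebraMap_isUnit h
  obtain ⟨u, hu'⟩ := hu
  have hu : IsUnit (algebraMap A (Localization.Away h) h) := ⟨u, hu'⟩
  obtain ⟨q, hq⟩ : ∃ q, q * algebraMap A (Localization.Away h) h =
      algebraMap A (Localization.Away h) f :=
    ⟨algebraMap A _ f * ↑u⁻¹, by rw [← hu', mul_assoc, Units.inv_mul, mul_one]⟩
  have hqn : ∀ c : k, q ≠ algebraMap k (Localization.Away h) c := by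
    intro c hc
    apply hn c
    apply hinj
    rw [← hq, hc, Algebra.smul_def, map_mul,
      ← IsScalarTower.algebraMap_apply k A (Localization.Away h)]
  obtain ⟨P, hP, hP'⟩ := exists_min x G hq hu hqn
  obtain ⟨n, a, ha⟩ := IsLocalization.Away.surj h (th q x (derivative P))
  have ha0 : a ≠ 0 := by
    rintro rfl
    rw [map_zero] at ha
    rw [← map_pow] at ha
    have h1 : IsUnit (algebraMap A (Localization.Away h) (h ^ n)) := by
      rw [map_pow]
      exact hu.pow n
    exact hP' (h1.mul_left_eq_zero.1 ha)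
  refine ⟨a, ha0, fun φ δ hδ s hφ hφa h0 => ?_⟩
  have hud : IsUnit (δ h) := by
    rw [TrivSqZeroExt.isUnit_iff_isUnit_fst, hδ]
    exact hφ.isUnit
  let δ' : Localization.Away h →+* DualNumber k :=
    IsLocalization.Away.lift h (g := (δ : A →+* DualNumber k)) hud
  have hδ' : ∀ b, δ' (algebraMap A (Localization.Away h) b) = δ b := fun b =>
    IsLocalization.Away.lift_eq h hud b
  have hq' : δ' q = algebraMap k (DualNumber k) (-s) := by
    have h1 : δ' q * δ h = δ f := by rw [← hδ', ← map_mul, hq, hδ']
    have h2 : δ f = algebraMap k (DualNumber k) (-s) * δ h := by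
      rw [map_add, map_smul, Algebra.smul_def] at h0
      rw [map_neg, neg_mul]
      exact eq_neg_of_add_eq_zero_left h0
    rw [h2] at h1
    exact hud.mul_right_cancel h1
  have key : ∀ Q : k[X][X], δ' (th q x Q) = aeval (δ x) (Q.map (evalRingHom (-s))) := by
    intro Q
    induction Q using Polynomial.induction_on' with
    | add Q Q' h1 h2 => rw [map_add, map_add, h1, h2, Polynomial.map_add, map_add]
    | monomial i c =>
      induction c using Polynomial.induction_on' with
      | add c c' h1 h2 =>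
        rw [map_add, map_add, map_add, h1, h2, Polynomial.map_add, map_add]
      | monomial j c =>
        rw [th_mon, map_mul, map_mul, map_pow, map_pow, hδ', hq', map_monomial,
          coe_evalRingHom, eval_monomial, aeval_monomial, map_mul, map_pow,
          IsScalarTower.algebraMap_apply k A (Localization.Away h), hδ', AlgHom.commutes]
  have h1 := key P
  rw [hP, map_zero] at h1
  have h2 := (aeval_dl (P.map (evalRingHom (-s))) (δ x)).2
  rw [← h1, TrivSqZeroExt.snd_zero, derivative_map] at h2
  have h3 := (aeval_dl ((derivative P).map (evalRingHom (-s))) (δ x)).1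
  rw [← key] at h3
  have h4 := congrArg δ' ha
  rw [map_mul, ← map_pow, hδ', hδ', map_pow] at h4
  have h5 := congrArg TrivSqZeroExt.fst h4
  rw [TrivSqZeroExt.fst_mul, TrivSqZeroExt.fst_pow, hδ, hδ, h3] at h5
  rcases mul_eq_zero.1 h2.symm with h6 | h6
  · rw [h6, zero_mul] at h5
    exact absurd h5.symm hφa
  · exact h6

end dl

end DC
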