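import Pool.Agent.Lib.MP_f80667_ag.Dc.Alr

/-! Bertini's theorem for pencils of functions on a curve. -/

namespace DC

open CV

variable {k A : Type} [Field k] [CommRing A] [Algebra k A]

/-- **Bertini's theorem.** `δ φ` are homomorphisms to the dual numbers above the points `φ`. For all but finitely many `s` the double zeros
of `f + s h` are double zeros of `f` and of `h`. -/
theorem bert [CharZero k] [IsAlgClosed k] [Algebra.FiniteType k A] (G : Dg k A)
    {δ : (A →ₐ[k] k) → A →ₐ[k] DualNumber k} (hδ : ∀ φ a, (δ φ a).fst = φ a)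
    (hne : ∀ φ, ∃ a, (δ φ a).snd ≠ 0) {f : A} (hf : f ≠ 0) (h : A) :
    {s : k | ∃ φ, δ φ (f + s • h) = 0 ∧ ¬ (δ φ f = 0 ∧ δ φ h = 0)}.Finite := by
  classical
  have hdom := G.isDomain
  by_cases hh : h = 0
  · subst hh
    refine Set.finite_empty.subset ?_
    rintro s ⟨φ, h1, h2⟩
    rw [smul_zero, add_zero] at h1
    exact h2 ⟨h1, map_zero _⟩
  by_cases hc : ∃ c : k, f = c • h
  · obtain ⟨c, rfl⟩ := hc
    refine (Set.finite_singleton (-c)).subset ?_
    rintro s ⟨φ, h1, h2⟩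
    by_contra hs
    rw [Set.mem_singleton_iff] at hs
    rw [← add_smul, map_smul] at h1
    have h3 : c + s ≠ 0 := fun h3 => hs (by rw [eq_neg_iff_add_eq_zero, add_comm]; exact h3)
    have h4 : δ φ h = 0 := by
      have h5 := congrArg (fun z => (c + s)⁻¹ • z) h1
      simpa [smul_smul, inv_mul_cancel₀ h3] using h5
    exact h2 ⟨by rw [map_smul, h4, smul_zero], h4⟩
  push Not at hc
  obtain ⟨T, hT⟩ := (inferInstance : Algebra.FiniteType k A).out
  choose a ha ha' using fun x : A => rel_dl x G hh hc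
  have hprod : ∏ x ∈ T, a x ≠ 0 := Finset.prod_ne_zero_iff.2 fun x _ => ha x
  have hΦ : ({φ : A →ₐ[k] k | φ f = 0} ∪ {φ : A →ₐ[k] k | φ (∏ x ∈ T, a x) = 0}).Finite :=
    (G.zeros_fin hf).union (G.zeros_fin hprod)
  have hsub : {s : k | ∃ φ, δ φ (f + s • h) = 0 ∧ ¬ (δ φ f = 0 ∧ δ φ h = 0)} ⊆
      ⋃ φ ∈ ({φ : A →ₐ[k] k | φ f = 0} ∪ {φ : A →ₐ[k] k | φ (∏ x ∈ T, a x) = 0}),
        {s : k | δ φ (f + s • h) = 0 ∧ ¬ (δ φ f = 0 ∧ δ φ h = 0)} := by
    rintro s ⟨φ, h1, h2⟩
    refine Set.mem_biUnion ?_ ⟨h1, h2⟩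
    by_cases h3 : φ h = 0
    · left
      have h4 := congrArg TrivSqZeroExt.fst h1
      rw [hδ, map_add, map_smul, h3, smul_zero, add_zero] at h4
      exact h4
    · right
      by_contra h4
      have h4' : φ (∏ x ∈ T, a x) ≠ 0 := h4
      rw [map_prod, Finset.prod_ne_zero_iff] at h4'
      have h5 : ∀ x ∈ T, (δ φ x).snd = 0 := fun x hx =>
        ha' x φ (δ φ) (hδ φ) s h3 (h4' x hx) h1
      have h6 : ∀ b ∈ Algebra.adjoin k (T : Set A), (δ φ b).snd = 0 := by
        intro b hb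
        induction hb using Algebra.adjoin_induction with
        | mem x hx => exact h5 x (Finset.mem_coe.1 hx)
        | algebraMap c =>
          rw [AlgHom.commutes]
          rfl
        | add x y _ _ hx hy => rw [map_add, TrivSqZeroExt.snd_add, hx, hy, add_zero]
        | mul x y _ _ hx hy =>
          rw [map_mul, TrivSqZeroExt.snd_mul, hx, hy, smul_zero, smul_zero, add_zero]
      obtain ⟨b, hb⟩ := hne φ
      exact hb (h6 b (by rw [hT]; exact Algebra.mem_top))
  refine (hΦ.biUnion fun φ _ => ?_).subset hsub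
  refine Set.Subsingleton.finite ?_
  rintro s ⟨h1, h2⟩ s' ⟨h1', -⟩
  by_contra hs
  apply h2
  have h3 : δ φ h = 0 := by
    have h4 : (s - s') • δ φ h = 0 := by
      have h5 : δ φ (f + s • h) - δ φ (f + s' • h) = 0 := by rw [h1, h1', sub_self]
      rw [← map_sub] at h5
      have h6 : f + s • h - (f + s' • h) = (s - s') • h := by
        rw [sub_smul]
        abel
      rwa [h6, map_smul] at h5
    have h5 := congrArg (fun z => (s - s')⁻¹ • z) h4
    simpa [smul_smul, inv_mul_cancel₀ (sub_ne_zero.2 hs)] using h5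
  refine ⟨?_, h3⟩
  rw [map_add, map_smul, h3, smul_zero, add_zero] at h1
  exact h1

end DC
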