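import Pool.Agent.Lib.MP_f80667_ag.Dc.Fv
import Pool.Agent.Lib.MP_f80667_ag.Do.Fib
import Pool.Agent.Lib.MP_f80667_ag.Cv.Xp5
import Pool.Agent.Lib.MP_f80667_ag.Cv.HdA

/-! The pull-back of cycles. -/

open ZC BE PE CV TensorProduct

namespace DC

private theorem fib_ext {X G : Type} [AddCommGroup G] {ψ ψ' : (X →₀ ℤ) →+ G} {z : X →₀ ℤ}
    (h : ∀ P ∈ z.support, ψ (Finsupp.single P 1) = ψ' (Finsupp.single P 1)) : ψ z = ψ' z := by
  have e : z = ∑ P ∈ z.support, z P • Finsupp.single P (1 : ℤ) := by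
    refine (Finsupp.sum_single z).symm.trans ?_
    exact Finset.sum_congr rfl fun P _ => by rw [Finsupp.smul_single, smul_eq_mul, mul_one]
  have e1 : ∀ φ : (X →₀ ℤ) →+ G, φ z = ∑ P ∈ z.support, z P • φ (Finsupp.single P 1) := by
    intro φ
    refine (congrArg φ e).trans ?_
    rw [map_sum]
    exact Finset.sum_congr rfl fun P _ => map_zsmul φ _ _
  rw [e1, e1]
  exact Finset.sum_congr rfl fun P hP => by rw [h P hP]

section fib

variable {F F' : Type} [Field F] [Field F'] {N n : ℕ} {ι : Type}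
  {f : ι → MvPolynomial (Fin N) F} {Ω : Type} [Field Ω] [Algebra F Ω] [Algebra F' Ω]

/-- The points above `P`. -/
private def fbs (C : Fin n → Crv F') (Φ : Fin N → MvPolynomial (Σ i, (C i).A) F')
    (P : (GX.Xf f).pt Ω) : Set (∀ i, (C i).V.pt Ω) :=
  {Q | ∃ x, GX.Co P x ∧ Vl C Φ Q x}

/-- The sum of the points above `P`. -/
private noncomputable def pbk (C : Fin n → Crv F')
    (Φ : Fin N → MvPolynomial (Σ i, (C i).A) F') (P : (GX.Xf f).pt Ω) :
    (∀ i, (C i).V.pt Ω) →₀ ℤ :=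
  ∑ᶠ Q ∈ fbs C Φ P, Finsupp.single Q 1

/-- The pull-back of cycles. -/
private noncomputable def kp (C : Fin n → Crv F')
    (Φ : Fin N → MvPolynomial (Σ i, (C i).A) F') :
    ((GX.Xf f).pt Ω →₀ ℤ) →+ ((∀ i, (C i).V.pt Ω) →₀ ℤ) :=
  Finsupp.liftAddHom fun P => zmultiplesHom _ (pbk C Φ P)

variable {C : Fin n → Crv F'} {Φ : Fin N → MvPolynomial (Σ i, (C i).A) F'}

private theorem kp_single (P : (GX.Xf f).pt Ω) : kp C Φ (Finsupp.single P 1) = pbk C Φ P := by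
  rw [kp, Finsupp.liftAddHom_apply_single, zmultiplesHom_apply, one_zsmul]

private theorem pbk_hom {G : Type} [AddCommGroup G] {P : (GX.Xf f).pt Ω}
    (hP : (fbs C Φ P).Finite) (φ : ((∀ i, (C i).V.pt Ω) →₀ ℤ) →+ G) :
    φ (pbk C Φ P) = ∑ᶠ Q ∈ fbs C Φ P, φ (Finsupp.single Q 1) :=
  φ.map_finsum_mem _ hP

variable [Algebra F F'] [IsScalarTower F F' Ω] {h : MvPolynomial (Fin N) F} {D : ℕ}

private theorem fbs_eq (hD : Dom f C Φ h D) {P : (GX.Xf f).pt Ω} {x : Fin N → Ω}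
    (hx : GX.Co P x) : fbs C Φ P = Fb C Φ x := by
  ext Q
  constructor
  · rintro ⟨x', h1, h2⟩
    obtain ⟨c, hc, h3⟩ := GX.co_rel hx h1
    refine ⟨c, hc, ?_⟩
    have h4 : x' = fun j => c * x j := funext h3
    rwa [h4] at h2
  · rintro ⟨c, hc, h2⟩
    refine ⟨_, ?_, h2⟩
    have h1 := hD.eq Ω Q _ h2
    have h0 : (fun j => c * x j) ≠ 0 := by
      obtain ⟨_, _, h0, _⟩ := h2
      exact h0
    obtain ⟨R, rfl, rfl⟩ := hx
    exact ⟨⟨fun j => c * R.x j, h0, h1⟩, Quotient.sound ⟨c, hc, rfl⟩, rfl⟩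

private theorem fib_gp {P : (GX.Xf f).pt Ω} (hP : DN.Hn h P) {x : Fin N → Ω}
    (hx : GX.Co P x) : DN.Gp f h x :=
  ⟨GX.co_ne hx, GX.co_zero hx, hP x hx⟩

private theorem fbs_card [IsAlgClosed Ω] (hD : Dom f C Φ h D) {P : (GX.Xf f).pt Ω}
    (hP : DN.Hn h P) : (fbs C Φ P).ncard = D := by
  obtain ⟨x, hx⟩ := GX.exists_co P
  rw [fbs_eq hD hx]
  exact hD.deg Ω x (fib_gp hP hx)

private theorem fbs_fin [IsAlgClosed Ω] (hD : Dom f C Φ h D) (hD0 : D ≠ 0)
    {P : (GX.Xf f).pt Ω} (hP : DN.Hn h P) : (fbs C Φ P).Finite := by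
  refine Set.finite_of_ncard_ne_zero ?_
  rw [fbs_card hD hP]
  exact hD0

private theorem pbk_const [IsAlgClosed Ω] (hD : Dom f C Φ h D) (hD0 : D ≠ 0) {G : Type}
    [AddCommGroup G] {P : (GX.Xf f).pt Ω} (hP : DN.Hn h P)
    (φ : ((∀ i, (C i).V.pt Ω) →₀ ℤ) →+ G) (g : G)
    (hg : ∀ Q ∈ fbs C Φ P, φ (Finsupp.single Q 1) = g) : φ (pbk C Φ P) = D • g := by
  have hf := fbs_fin hD hD0 hP
  rw [pbk_hom hf, finsum_mem_congr rfl hg, finsum_mem_eq_finite_toFinset_sum _ hf,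
    Finset.sum_const, ← Set.ncard_eq_toFinset_card _ hf, fbs_card hD hP]

end fib

section act

variable {F F' : Type} [Field F] [Field F'] {N n : ℕ} {ι : Type}
  {f : ι → MvPolynomial (Fin N) F} {C : Fin n → Crv F'}
  {Φ : Fin N → MvPolynomial (Σ i, (C i).A) F'} {K Ω : Type}
  [Field K] [Field Ω] [Algebra K Ω] [Algebra F K] [Algebra F Ω] [IsScalarTower F K Ω]
  [Algebra F' K] [Algebra F' Ω] [IsScalarTower F' K Ω]

private theorem fib_inv (γ : Ω ≃ₐ[K] Ω) (Q : ∀ i, (C i).V.pt Ω) :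
    (Vpi fun i => (C i).V).act γ ((Vpi fun i => (C i).V).act γ.symm Q) = Q := by
  have hF : Fct (Vpi fun i => (C i).V) := Hf.out
  rw [← act_mul hF]
  have e : γ * γ.symm = 1 := AlgEquiv.ext fun a => γ.apply_symm_apply a
  rw [e, act_one hF]

private theorem fbs_act (γ : Ω ≃ₐ[K] Ω) (P : (GX.Xf f).pt Ω) :
    fbs C Φ ((GX.Xf f).act γ P) = (Vpi fun i => (C i).V).act γ '' fbs C Φ P := by
  ext Q
  constructor
  · rintro ⟨x, h1, h2⟩
    refine ⟨(Vpi fun i => (C i).V).act γ.symm Q,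
      ⟨fun j => γ.symm (x j), ?_, vl_act γ.symm h2⟩, fib_inv γ Q⟩
    have h3 := GX.co_act γ.symm h1
    have h4 : (GX.Xf f).act γ.symm ((GX.Xf f).act γ P) = P := by
      rw [← act_mul (GX.fct f)]
      have e : γ.symm * γ = 1 := AlgEquiv.ext fun a => γ.symm_apply_apply a
      rw [e, act_one (GX.fct f)]
    rwa [h4] at h3
  · rintro ⟨Q', ⟨x, h1, h2⟩, rfl⟩
    exact ⟨_, GX.co_act γ h1, vl_act γ h2⟩

/-- A principal cycle of degree `0` over `K` on a curve is rationally equivalent to `0`. -/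
private theorem fib_re [CharZero K] [IsAlgClosure K Ω] (C : Crv F') {z : C.V.pt Ω →₀ ℤ}
    (hz : z ∈ C.V.D0 K Ω) (hp : z ∈ Pc C Ω) : z ∈ C.V.ratEq K Ω := by
  have hf : FiniteDimensional K (⊥ : IntermediateField K Ω) := inferInstance
  have hfx : Fx (⊥ : IntermediateField K Ω) z := fun γ _ => hz.1 γ
  have h1 : z ∈ Zd C.V (⊥ : IntermediateField K Ω) := ⟨hfx, hz.2⟩
  have h3 := nm_ratEq (exPr C ⊥ hf z hp h1) hfx
  rwa [nm_const le_rfl hfx, Subgroup.relIndex_self, one_smul] at h3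

end act

variable {F F' : Type} [Field F] [Field F'] [Algebra F F'] {N n : ℕ} {ι : Type}
  {f : ι → MvPolynomial (Fin N) F} {C : Fin n → Crv F'}
  {Φ : Fin N → MvPolynomial (Σ i, (C i).A) F'} {h : MvPolynomial (Fin N) F} {D : ℕ} {K Ω : Type}
  [Field K] [CharZero K] [Field Ω] [Algebra K Ω] [IsAlgClosure K Ω] [Algebra F K] [Algebra F Ω]
  [IsScalarTower F K Ω] [Algebra F' K] [Algebra F' Ω] [IsScalarTower F' K Ω] [IsScalarTower F F' Ω]

/-- **The pull-back**, if its push-forwards to the curves are principal over `Ω`. -/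
theorem exists_pull_of (hD : Dom f C Φ h D) (hD0 : D ≠ 0) (o : (GX.Xf f).pt Ω)
    {z : (GX.Xf f).pt Ω →₀ ℤ} (hz : z ∈ (GX.Xf f).D0 K Ω) (hs : ∀ P ∈ z.support, DN.Hn h P)
    (H : ∀ i, (z.sum fun P m => m • ∑ᶠ Q ∈ {Q | ∃ x, GX.Co P x ∧ Vl C Φ Q x},
      Finsupp.single (Q i) (1 : ℤ)) ∈ Pc (C i) Ω) :
    ∃ w : (∀ i, (C i).V.pt Ω) →₀ ℤ, w ∈ (Vpi fun i => (C i).V).D0 K Ω ∧
      (∀ i, Finsupp.mapDomain ((pr (V := fun i => (C i).V) i).f Ω) w ∈ (C i).V.ratEq K Ω) ∧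
      (∀ Q ∈ w.support, Q ∈ Dn C Φ Ω) ∧ Finsupp.mapDomain (fv o Φ) w = D • z := by
  have hO : IsAlgClosed Ω := IsAlgClosure.isAlgClosed K
  have hd0 : dg z = 0 := hz.2
  have hdg : dg (kp C Φ z) = 0 := by
    have h1 : (dg.comp (kp C Φ) : ((GX.Xf f).pt Ω →₀ ℤ) →+ ℤ) z = (D • dg) z :=
      fib_ext fun P hP => by
        change dg (kp C Φ (Finsupp.single P 1)) = D • dg (Finsupp.single P (1 : ℤ))
        rw [kp_single, sib_dg_single]
        exact pbk_const hD hD0 (hs P hP) dg 1 fun Q _ => sib_dg_single Q 1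
    refine h1.trans ?_
    change D • dg z = 0
    rw [hd0, smul_zero]
  have hact : ∀ γ : Ω ≃ₐ[K] Ω, Finsupp.mapDomain ((Vpi fun i => (C i).V).act γ) (kp C Φ z) =
      kp C Φ z := by
    intro γ
    let α : (∀ i, (C i).V.pt Ω) → ∀ i, (C i).V.pt Ω := (Vpi fun i => (C i).V).act γ
    have h1 : ((Finsupp.mapDomain.addMonoidHom (M := ℤ) α).comp (kp C Φ)) z =
        ((kp C Φ).comp (Finsupp.mapDomain.addMonoidHom (M := ℤ) ((GX.Xf f).act γ))) z :=
      fib_ext fun P hP => by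
        change Finsupp.mapDomain.addMonoidHom (M := ℤ) α (kp C Φ (Finsupp.single P 1)) =
          kp C Φ (Finsupp.mapDomain ((GX.Xf f).act γ) (Finsupp.single P 1))
        rw [Finsupp.mapDomain_single, kp_single, kp_single,
          pbk_hom (fbs_fin hD hD0 (hs P hP)), pbk]
        have hS : fbs C Φ ((GX.Xf f).act γ P) = α '' fbs C Φ P := fbs_act γ P
        rw [hS]
        have hi : Set.InjOn α (fbs C Φ P) := by
          intro Q _ Q' _ e
          have e1 := fib_inv (C := C) γ.symm Q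
          have e2 := fib_inv (C := C) γ.symm Q'
          rw [AlgEquiv.symm_symm] at e1 e2
          rw [← e1, ← e2]
          exact congrArg _ e
        rw [finsum_mem_image hi]
        refine finsum_mem_congr rfl fun Q _ => ?_
        exact Finsupp.mapDomain_single
    refine h1.trans ?_
    exact congrArg (kp C Φ) (hz.1 γ)
  have hw : (kp C Φ z : (∀ i, (C i).V.pt Ω) →₀ ℤ) ∈ (Vpi fun i => (C i).V).D0 K Ω :=
    ⟨hact, hdg⟩
  refine ⟨kp C Φ z, hw, fun i => ?_, fun Q hQ => ?_, ?_⟩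
  · refine fib_re (C i) ((pr (V := fun i => (C i).V) i).D0 hw) ?_
    have h1 : ((Finsupp.mapDomain.addMonoidHom (M := ℤ)
        fun Q : (∀ i, (C i).V.pt Ω) => Q i).comp (kp C Φ)) z =
          (Finsupp.liftAddHom fun P : (GX.Xf f).pt Ω =>
            zmultiplesHom ((C i).V.pt Ω →₀ ℤ)
              (∑ᶠ Q ∈ fbs C Φ P, Finsupp.single (Q i) (1 : ℤ))) z :=
      fib_ext fun P hP => by
        change (Finsupp.mapDomain.addMonoidHom (M := ℤ) fun Q : (∀ i, (C i).V.pt Ω) => Q i)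
            (kp C Φ (Finsupp.single P 1)) = _
        rw [kp_single, Finsupp.liftAddHom_apply_single, zmultiplesHom_apply, one_zsmul,
          pbk_hom (fbs_fin hD hD0 (hs P hP))]
        refine finsum_mem_congr rfl fun Q _ => ?_
        exact Finsupp.mapDomain_single
    have h2 : Finsupp.mapDomain ((pr (V := fun i => (C i).V) i).f Ω) (kp C Φ z) =
        z.sum fun P m => m • ∑ᶠ Q ∈ {Q | ∃ x, GX.Co P x ∧ Vl C Φ Q x},
          Finsupp.single (Q i) (1 : ℤ) := h1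
    rw [h2]
    exact H i
  · by_contra hn
    have h1 : ((Finsupp.applyAddHom Q).comp (kp C Φ) : ((GX.Xf f).pt Ω →₀ ℤ) →+ ℤ) z =
        (0 : ((GX.Xf f).pt Ω →₀ ℤ) →+ ℤ) z :=
      fib_ext fun P hP => by
        change Finsupp.applyAddHom Q (kp C Φ (Finsupp.single P 1)) = 0
        rw [kp_single, pbk_hom (fbs_fin hD hD0 (hs P hP))]
        refine finsum_mem_eq_zero_of_forall_eq_zero fun Q' hQ' => ?_
        obtain ⟨x, -, hx⟩ := hQ'
        have hne : Q' ≠ Q := by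
          rintro rfl
          exact hn ⟨x, hx⟩
        exact Finsupp.single_eq_of_ne hne.symm
    exact (Finsupp.mem_support_iff.1 hQ) h1
  · have h1 : ((Finsupp.mapDomain.addMonoidHom (M := ℤ) (fv o Φ)).comp (kp C Φ)) z =
        (D • AddMonoidHom.id ((GX.Xf f).pt Ω →₀ ℤ)) z :=
      fib_ext fun P hP => by
        change Finsupp.mapDomain.addMonoidHom (M := ℤ) (fv o Φ) (kp C Φ (Finsupp.single P 1)) =
          D • Finsupp.single P (1 : ℤ)
        rw [kp_single]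
        refine pbk_const hD hD0 (hs P hP) _ _ fun Q hQ => ?_
        obtain ⟨x, hx, hx'⟩ := hQ
        change Finsupp.mapDomain (fv o Φ) (Finsupp.single Q 1) = Finsupp.single P (1 : ℤ)
        rw [Finsupp.mapDomain_single, fv_eq hx' hx]
    exact h1

/-- The push-forwards of the pull-back are principal if the classes of the preimages are constant. -/
theorem pull_sum (hD : Dom f C Φ h D) (hC : Cst f C Φ h) {z : (GX.Xf f).pt Ω →₀ ℤ}
    (hz : z ∈ (GX.Xf f).D0 K Ω) (hs : ∀ P ∈ z.support, DN.Hn h P) (i : Fin n) :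
    (z.sum fun P m => m • ∑ᶠ Q ∈ {Q | ∃ x, GX.Co P x ∧ Vl C Φ Q x},
      Finsupp.single (Q i) (1 : ℤ)) ∈ Pc (C i) Ω := by
  have hO : IsAlgClosed Ω := IsAlgClosure.isAlgClosed K
  have hd0 : dg z = 0 := hz.2
  rcases z.support.eq_empty_or_nonempty with h0 | ⟨P₀, hP₀⟩
  · rw [Finsupp.support_eq_empty.1 h0, Finsupp.sum_zero_index]
    exact zero_mem _
  obtain ⟨x₀, hx₀⟩ := GX.exists_co P₀
  have h1 : (((QuotientAddGroup.mk' (Pc (C i) Ω)).comp
      (Finsupp.liftAddHom fun P : (GX.Xf f).pt Ω =>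
        zmultiplesHom ((C i).V.pt Ω →₀ ℤ)
          (∑ᶠ Q ∈ fbs C Φ P, Finsupp.single (Q i) (1 : ℤ)))) :
      ((GX.Xf f).pt Ω →₀ ℤ) →+ _) z =
        ((zmultiplesHom _ (QuotientAddGroup.mk' (Pc (C i) Ω)
          (∑ᶠ Q ∈ Fb C Φ x₀, Finsupp.single (Q i) (1 : ℤ)))).comp dg) z :=
    fib_ext fun P hP => by
      obtain ⟨x, hx⟩ := GX.exists_co P
      change QuotientAddGroup.mk' (Pc (C i) Ω) _ = zmultiplesHom _
        (QuotientAddGroup.mk' (Pc (C i) Ω) (∑ᶠ Q ∈ Fb C Φ x₀, Finsupp.single (Q i) (1 : ℤ)))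
          (dg (Finsupp.single P (1 : ℤ)))
      rw [sib_dg_single, zmultiplesHom_apply, one_zsmul, Finsupp.liftAddHom_apply_single,
        zmultiplesHom_apply, one_zsmul, fbs_eq hD hx]
      refine QuotientAddGroup.eq.2 ?_
      have h2 := hC Ω x₀ x (fib_gp (hs P₀ hP₀) hx₀) (fib_gp (hs P hP) hx) i
      rwa [sub_eq_neg_add] at h2
  refine (QuotientAddGroup.eq_zero_iff _).1 (h1.trans ?_)
  change zmultiplesHom _ (QuotientAddGroup.mk' (Pc (C i) Ω)
    (∑ᶠ Q ∈ Fb C Φ x₀, Finsupp.single (Q i) (1 : ℤ))) (dg z) = 0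
  rw [hd0, map_zero]

end DC
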