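import Pool.Agent.Lib.MP_f80667_ag.Dc.Fv
import Pool.Agent.Lib.MP_f80667_ag.Cv.Xp5

/-! The domain of the rational map contains almost all points of a line parallel to a coordinate axis. -/

open ZC BE PE CV TensorProduct

namespace DC

variable {F' : Type} [Field F'] {N n : ℕ} {C : Fin n → Crv F'}
  {Φ : Fin N → MvPolynomial (Σ i, (C i).A) F'} {Ω : Type} [Field Ω] [CharZero Ω] [IsAlgClosed Ω]
  [Algebra F' Ω]

/-- A function `≠ 0` on the affine curve has finitely many zeros. Proof: `od` and `sum_od` (`Cv/Xp5.lean`, for `K = M = Ω`), or `Dg.finite_quot` (`Cv/DgQ.lean`) for `(C.G.bc Ω)`: the homomorphisms `Ω ⊗ A / (x) → Ω` are finitely many (`exists_xl`, linear independence of characters). -/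
theorem fin_zero {C : Crv F'} {x : Ω ⊗[F'] C.A} (hx : x ≠ 0) :
    {φ : C.A →ₐ[F'] Ω | xl Ω φ x = 0}.Finite := by
  have h1 := (C.G.bc Ω).zeros_fin (Ω := Ω) hx
  exact h1.preimage (f := fun φ : C.A →ₐ[F'] Ω => xl Ω φ) (fun φ _ φ' _ h => xl_inj h)

open Classical in
/-- The functions on the product, with all coordinates except `i` fixed. -/
private noncomputable def fndg (φ : ∀ i, (C i).A →ₐ[F'] Ω) (i : Fin n) (s : Σ i, (C i).A) :
    Ω ⊗[F'] (C i).A :=
  if h : s.1 = i then (1 : Ω) ⊗ₜ[F'] (h ▸ s.2 : (C i).A) else (φ s.1 s.2) ⊗ₜ[F'] (1 : (C i).A)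

omit [CharZero Ω] [IsAlgClosed Ω] in
private theorem fnd_xl (φ : ∀ i, (C i).A →ₐ[F'] Ω) (i : Fin n) (ψ : (C i).A →ₐ[F'] Ω)
    (s : Σ i, (C i).A) : xl Ω ψ (fndg φ i s) = (Function.update φ i ψ) s.1 s.2 := by
  obtain ⟨j, a⟩ := s
  by_cases h : j = i
  · subst h
    unfold fndg
    rw [dif_pos rfl, Function.update_self, xl_tmul, map_one, one_mul]
  · unfold fndg
    rw [dif_neg h, Function.update_of_ne h, xl_tmul, map_one, mul_one]
    rfl

omit [CharZero Ω] [IsAlgClosed Ω] in
private theorem fnd_aeval (φ : ∀ i, (C i).A →ₐ[F'] Ω) (i : Fin n) (ψ : (C i).A →ₐ[F'] Ω)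
    (p : MvPolynomial (Σ i, (C i).A) F') :
    xl Ω ψ (MvPolynomial.aeval (fndg φ i) p) =
      MvPolynomial.aeval (fun s : Σ i, (C i).A => (Function.update φ i ψ) s.1 s.2) p := by
  have h1 : xl Ω ψ (MvPolynomial.aeval (fndg φ i) p) =
      ((xl Ω ψ).restrictScalars F') (MvPolynomial.aeval (fndg φ i) p) := rfl
  have h2 : (fun s : Σ i, (C i).A => (Function.update φ i ψ) s.1 s.2) =
      fun s => ((xl Ω ψ).restrictScalars F') (fndg φ i s) := funext fun s => (fnd_xl φ i ψ s).symm
  rw [h1, MvPolynomial.comp_aeval_apply, h2]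

/-- Proof: `Q j = some (φ j)` for all `j`, and some `Φ_k` has a value `≠ 0` at `Q`. Let `x` in `Ω ⊗ A_i` be the value of `Φ_k` at the functions `φ s.1 s.2 ⊗ 1` for `s.1 ≠ i` and `1 ⊗ s.2` for `s.1 = i`; then `xl Ω ψ x` is the value of `Φ_k` at `Function.update Q i (some ψ)`
for all `ψ` (`MvPolynomial.aeval`, `comp_aeval`), so `x ≠ 0` (for `ψ = φ i`). The set is contained in the union of `{none}` and the points `some ψ` with `xl Ω ψ x = 0`. -/
theorem fin_dn {Q : ∀ i, (C i).V.pt Ω} (hQ : Q ∈ Dn C Φ Ω) (i : Fin n) :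
    {b : (C i).V.pt Ω | Function.update Q i b ∉ Dn C Φ Ω}.Finite := by
  classical
  obtain ⟨x, φ, rfl, h0, hv⟩ := hQ
  obtain ⟨k, hk⟩ := Function.ne_iff.1 h0
  have hx : MvPolynomial.aeval (fndg φ i) (Φ k) ≠ 0 := by
    intro h
    apply hk
    have h1 := fnd_aeval φ i (φ i) (Φ k)
    rw [h, map_zero, Function.update_eq_self] at h1
    rw [hv k, ← h1]
    rfl
  refine Set.Finite.subset (((fin_zero hx).image fun ψ => (some ψ : (C i).V.pt Ω)).union
    (Set.finite_singleton (none : (C i).V.pt Ω))) ?_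
  rintro (_ | ψ) hb
  · exact Or.inr rfl
  · refine Or.inl ⟨ψ, ?_, rfl⟩
    by_contra hne
    apply hb
    refine ⟨fun j => MvPolynomial.aeval
      (fun s : Σ i, (C i).A => (Function.update φ i ψ) s.1 s.2) (Φ j),
      Function.update φ i ψ, ?_, ?_, fun j => rfl⟩
    · funext j
      by_cases hj : j = i
      · subst hj
        have e1 : Function.update (β := fun i => (C i).V.pt Ω)
            (fun i => (some (φ i) : (C i).V.pt Ω)) j (some ψ) j = (some ψ : (C j).V.pt Ω) :=
          Function.update_self _ _ _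
        have e2 : (some ψ : (C j).V.pt Ω) = some (Function.update φ j ψ j) :=
          congrArg (fun t => (some t : (C j).V.pt Ω)) (Function.update_self j ψ φ).symm
        exact e1.trans e2
      · have e1 : Function.update (β := fun i => (C i).V.pt Ω)
            (fun i => (some (φ i) : (C i).V.pt Ω)) i (some ψ) j = (some (φ j) : (C j).V.pt Ω) :=
          Function.update_of_ne hj _ _
        have e2 : (some (φ j) : (C j).V.pt Ω) = some (Function.update φ i ψ j) :=
          congrArg (fun t => (some t : (C j).V.pt Ω)) (Function.update_of_ne hj ψ φ).symm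
        exact e1.trans e2
    · intro h
      apply hne
      exact (fnd_aeval φ i ψ (Φ k)).trans (congrFun h k)

end DC
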