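import Pool.Agent.Lib.MP_f80667_ag.Dc.PenD
import Mathlib

/-! Pencils in general position. -/

open ZC BE PE CV TensorProduct

namespace DC

variable {F : Type} [Field F] {n : ℕ} {C : Fin n → Crv F} {r : Fin n → ℕ} {K Ω : Type} [Field K]
  [CharZero K] [Field Ω] [Algebra K Ω] [IsAlgClosure K Ω] [Algebra F K] [Algebra F Ω]
  [IsScalarTower F K Ω]

omit [CharZero K] [IsAlgClosure K Ω] in
private lemma ms_finite {i : Fin n} {q : Pen (C i) K (r i)} {S B : Set ((C i).V.pt Ω)}
    (h : Pgs q S B) {x : (C i).V.pt Ω} (hx : x ∈ S) : (q.ms x).Finite := by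
  refine (Set.finite_of_ncard_ne_zero ?_).union
    ((Set.finite_of_ncard_ne_zero ?_).subset Set.diff_subset)
  · rw [h.zc]
    exact Nat.succ_ne_zero _
  · rw [h.fc x hx]
    exact Nat.succ_ne_zero _

omit [CharZero K] [IsAlgClosure K Ω] in
private lemma ms_notMem {i : Fin n} {q : Pen (C i) K (r i)} {S B : Set ((C i).V.pt Ω)}
    (h : Pgs q S B) {x : (C i).V.pt Ω} (hx : x ∈ S) {y : (C i).V.pt Ω} (hy : y ∈ q.ms x) :
    y ∉ B := by
  rcases hy with hy | hy
  · exact h.zb y hy
  · exact h.fb x hx y hy.1 hy.2

omit [CharZero K] [IsAlgClosure K Ω] in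
private lemma pgs_empty {i : Fin n} {q : Pen (C i) K (r i)} {S B : Set ((C i).V.pt Ω)}
    (h : Pgs q S B) : Pgs q S ∅ :=
  ⟨h.zc, fun _ _ h1 => h1, h.fc, h.fi, fun _ _ _ _ _ h1 => h1⟩

/-- **General position.** Proof: compare `ND.exists_gen` (`Do/Gn.lean`): the pencils are chosen one after the other. Suppose that `p k` for `k < i` are chosen such that all `y` with `y k = P0 j k` or `y k ∈ ms (p k) (t j k)` for `k < i`, `y k = P0 j k` for `k ≥ i`, are in `G` (for `i = 0`: `h0`). These `y` are finitely many
(`Zh` and `Fib` are finite because their `ncard` is not `0`: the fields `zc`, `fc`; `Set.finite_of_ncard_ne_zero`). Apply `hr i` to the set `S` of all `t j i` and to the union `B` of the finite sets `{b | Function.update y i b ∉ G}` for these `y` (`hG`). -/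
theorem exists_gp (hr : ∀ i, ExPen (C i) (r i)) {G : Set (∀ i, (C i).V.pt Ω)}
    (hG : ∀ P ∈ G, ∀ i, {b : (C i).V.pt Ω | Function.update P i b ∉ G}.Finite)
    {J : Type} [Finite J] (t P0 : J → ∀ i, (C i).V.pt Ω) (h0 : ∀ j, P0 j ∈ G) :
    ∃ p : ∀ i, Pen (C i) K (r i), (∀ i, Pgs (p i) {x | ∃ j, x = t j i} ∅) ∧
      ∀ (j : J) (y : ∀ i, (C i).V.pt Ω), (∀ i, y i = P0 j i ∨ y i ∈ (p i).ms (t j i)) → y ∈ G := by
  classical
  have key : ∀ s : Finset (Fin n), ∃ p : ∀ i, Pen (C i) K (r i),
      (∀ i, Pgs (p i) {x | ∃ j, x = t j i} ∅) ∧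
      ∀ (j : J) (y : ∀ i, (C i).V.pt Ω),
        (∀ i, y i = P0 j i ∨ (i ∈ s ∧ y i ∈ (p i).ms (t j i))) → y ∈ G := by
    intro s
    induction s using Finset.induction_on with
    | empty =>
      have hf : ∀ i, {x | ∃ j, x = t j i}.Finite := by
        intro i
        refine (Set.finite_range fun j => t j i).subset ?_
        rintro x ⟨j, rfl⟩
        exact ⟨j, rfl⟩
      choose p hp using fun i => hr i K Ω {x | ∃ j, x = t j i} ∅ (hf i) Set.finite_empty
      refine ⟨p, hp, fun j y hy => ?_⟩
      have e : y = P0 j := by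
        funext i
        rcases hy i with h | h
        · exact h
        · exact absurd h.1 (Finset.notMem_empty i)
      rw [e]
      exact h0 j
    | insert i s hi ih =>
      obtain ⟨p, hp, h⟩ := ih
      have hf : {x | ∃ j, x = t j i}.Finite := by
        refine (Set.finite_range fun j => t j i).subset ?_
        rintro x ⟨j, rfl⟩
        exact ⟨j, rfl⟩
      let Y : J → Set (∀ k, (C k).V.pt Ω) := fun j =>
        {y | ∀ k, y k = P0 j k ∨ (k ∈ s ∧ y k ∈ (p k).ms (t j k))}
      have hY : ∀ j, (Y j).Finite := by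
        intro j
        refine (Set.Finite.pi' (t := fun k => {P0 j k} ∪ (p k).ms (t j k)) fun k =>
          (Set.finite_singleton _).union (ms_finite (hp k) ⟨j, rfl⟩)).subset ?_
        intro y hy k
        rcases hy k with h1 | h1
        · exact Or.inl h1
        · exact Or.inr h1.2
      have hB : (⋃ j, ⋃ y ∈ Y j, {b : (C i).V.pt Ω | Function.update y i b ∉ G}).Finite :=
        Set.finite_iUnion fun j => (hY j).biUnion fun y hy => hG y (h j y hy) i
      obtain ⟨q, hq⟩ := hr i K Ω {x | ∃ j, x = t j i} _ hf hB
      refine ⟨Function.update p i q, fun k => ?_, fun j y hy => ?_⟩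
      · rcases eq_or_ne k i with rfl | hk
        · rw [Function.update_self]
          exact pgs_empty hq
        · rw [Function.update_of_ne hk]
          exact hp k
      · have h1 : Function.update y i (P0 j i) ∈ Y j := by
          intro k
          rcases eq_or_ne k i with rfl | hk
          · left
            rw [Function.update_self]
          · rw [Function.update_of_ne hk]
            rcases hy k with h2 | ⟨h2, h3⟩
            · exact Or.inl h2
            · rw [Function.update_of_ne hk] at h3
              exact Or.inr ⟨(Finset.mem_insert.1 h2).resolve_left hk, h3⟩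
        have e : y = Function.update (Function.update y i (P0 j i)) i (y i) := by
          rw [Function.update_idem, Function.update_eq_self]
        rcases hy i with h2 | ⟨_, h2⟩
        · have e2 : Function.update y i (P0 j i) = y := by
            rw [← h2, Function.update_eq_self]
          rw [← e2]
          exact h j _ h1
        · rw [Function.update_self] at h2
          have h3 := ms_notMem hq ⟨j, rfl⟩ h2
          by_contra h4
          refine h3 (Set.mem_iUnion.2 ⟨j, Set.mem_iUnion₂.2 ⟨_, h1, ?_⟩⟩)
          show Function.update (Function.update y i (P0 j i)) i (y i) ∉ G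
          rw [← e]
          exact h4
  obtain ⟨p, hp, h⟩ := key Finset.univ
  refine ⟨p, hp, fun j y hy => h j y fun i => ?_⟩
  rcases hy i with h1 | h1
  · exact Or.inl h1
  · exact Or.inr ⟨Finset.mem_univ i, h1⟩

end DC
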