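import Pool.Agent.Lib.MP_f80667_ag.Cv.HdB
import Pool.Agent.Lib.MP_f80667_ag.Cv.HdA
import Pool.Agent.Lib.MP_f80667_ag.Do.GuB

/-! Descent of rational equivalence for sums over Galois invariant cycles. -/

open ZC BE PE CV

namespace DC

section dsc

variable {F F' : Type} [Field F] [Field F'] {V : Vr F} [Hf V] {V' : Vr F'} [Hf V'] {K Ω : Type}
  [Field K] [Field Ω] [Algebra K Ω] [Algebra F K] [Algebra F Ω] [IsScalarTower F K Ω]
  [Algebra F' K] [Algebra F' Ω] [IsScalarTower F' K Ω]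

open Classical in
/-- The homomorphism given by `d` on the points of `P`. -/
private noncomputable def dsc_H (P : Set (V'.pt Ω)) (d : V'.pt Ω → (V.pt Ω →₀ ℤ)) :
    (V'.pt Ω →₀ ℤ) →+ (V.pt Ω →₀ ℤ) :=
  Finsupp.liftAddHom fun Q : V'.pt Ω => zmultiplesHom _ (if Q ∈ P then d Q else 0)

omit [Hf V] [Hf V'] in
open Classical in
private theorem dsc_H_single (P : Set (V'.pt Ω)) (d : V'.pt Ω → (V.pt Ω →₀ ℤ)) (Q : V'.pt Ω)
    (a : ℤ) : dsc_H P d (Finsupp.single Q a) = a • (if Q ∈ P then d Q else 0) := by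
  rw [dsc_H, Finsupp.liftAddHom_apply_single, zmultiplesHom_apply]

private theorem dsc_H_smul {P : Set (V'.pt Ω)} {d : V'.pt Ω → (V.pt Ω →₀ ℤ)}
    (hP : ∀ (γ : Ω ≃ₐ[K] Ω), ∀ Q ∈ P, V'.act γ Q ∈ P)
    (hd : ∀ (γ : Ω ≃ₐ[K] Ω), ∀ Q ∈ P, Finsupp.mapDomain (V.act γ) (d Q) = d (V'.act γ Q))
    (γ : Ω ≃ₐ[K] Ω) (w : V'.pt Ω →₀ ℤ) : dsc_H P d (γ • w) = γ • dsc_H P d w := by
  classical
  have hin : ∀ Q : V'.pt Ω, V'.act γ⁻¹ (V'.act γ Q) = Q := fun Q => by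
    refine (act_mul (V := V') Hf.out γ⁻¹ γ Q).symm.trans ?_
    rw [inv_mul_cancel]
    exact act_one (V := V') Hf.out Q
  induction w using Finsupp.induction_linear with
  | zero => rw [smul_zero, map_zero, smul_zero]
  | add a b ha hb => rw [smul_add, map_add, ha, hb, map_add, smul_add]
  | single Q a =>
    rw [CV.smul_single]
    refine (dsc_H_single P d (V'.act γ Q) a).trans ?_
    refine Eq.trans ?_ (congrArg (fun y => γ • y) (dsc_H_single P d Q a)).symm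
    rw [smul_comm γ a]
    congr 1
    by_cases hQ : Q ∈ P
    · rw [if_pos hQ, if_pos (hP γ Q hQ)]
      exact (hd γ Q hQ).symm
    · rw [if_neg hQ, if_neg, smul_zero]
      intro h'
      apply hQ
      have h2 := hP γ⁻¹ _ h'
      rwa [hin] at h2

omit [Hf V] [Hf V'] in
private theorem dsc_H_sum {P : Set (V'.pt Ω)} {d : V'.pt Ω → (V.pt Ω →₀ ℤ)} {w : V'.pt Ω →₀ ℤ}
    (hs : ∀ Q ∈ w.support, Q ∈ P) : dsc_H P d w = ∑ Q ∈ w.support, w Q • d Q := by
  classical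
  rw [dsc_H, Finsupp.liftAddHom_apply, Finsupp.sum]
  refine Finset.sum_congr rfl fun Q hQ => ?_
  change zmultiplesHom _ (if Q ∈ P then d Q else 0) (w Q) = _
  rw [zmultiplesHom_apply, if_pos (hs Q hQ)]

end dsc

/-- **Descent.** Proof: the same as of `psi_sum` in `Do/PsiB.lean` (`psib_H`, `psib_HN`, `psib_P`, `psib_C`): let `H` be the homomorphism with `H (single Q 1) = d Q` for `Q ∈ P` and `0` for `Q ∉ P`; it commutes with the Galois group. By `DN.desc` (`Do/GuB.lean`) for the subgroup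
`(V.ratEq K Ω).comap H` it is sufficient to consider `Nm ⊥ M (single Q 1)` for points `Q` over `M` in `P`; its image is `Nm ⊥ M (d Q)`, and norms of `V.ratEq M Ω` are in `V.ratEq K Ω` (`Cv/HdA.lean`). -/
theorem desc_sum {F F' : Type} [Field F] [Field F'] {V : Vr F} [Hf V] {V' : Vr F'} [Hf V']
    {K Ω : Type} [Field K] [CharZero K] [Field Ω] [Algebra K Ω] [IsAlgClosure K Ω] [Algebra F K]
    [Algebra F Ω] [IsScalarTower F K Ω] [Algebra F' K] [Algebra F' Ω] [IsScalarTower F' K Ω]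
    (hV : ∀ x : V'.pt Ω, ∃ M : IntermediateField K Ω, FiniteDimensional K M ∧ Fp V' M x)
    {P : Set (V'.pt Ω)} {d : V'.pt Ω → (V.pt Ω →₀ ℤ)}
    (hP : ∀ (γ : Ω ≃ₐ[K] Ω), ∀ Q ∈ P, V'.act γ Q ∈ P)
    (hd : ∀ (γ : Ω ≃ₐ[K] Ω), ∀ Q ∈ P, Finsupp.mapDomain (V.act γ) (d Q) = d (V'.act γ Q))
    (hM : ∀ M : IntermediateField K Ω, FiniteDimensional K M → ∀ Q ∈ P, Fp V' M Q →
      d Q ∈ V.ratEq M Ω) {w : V'.pt Ω →₀ ℤ} (hw : w ∈ V'.cyc K Ω) (hs : ∀ Q ∈ w.support, Q ∈ P) :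
    ∑ Q ∈ w.support, w Q • d Q ∈ V.ratEq K Ω := by
  classical
  have key : w ∈ (V.ratEq K Ω).comap (dsc_H (V := V) (V' := V') P d) := by
    refine DN.desc (V := V') (K := K) (Ω := Ω) hV hw fun M Q hfM hQ hQs => ?_
    have := hfM
    have h1 : dsc_H (V := V) P d (Nm (⊥ : IntermediateField K Ω) M (Finsupp.single Q 1))
        ∈ V.ratEq K Ω := by
      rw [hom_nm (K := K) (dsc_H (V := V) P d) bot_le fun γ _ a => dsc_H_smul hP hd γ a,
        dsc_H_single, if_pos (hs Q hQs), one_smul]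
      refine nm_ratEq (V := V) (hM M hfM Q (hs Q hQs) hQ) fun γ hγ => ?_
      have h2 := hd γ Q (hs Q hQs)
      rw [hQ γ hγ] at h2
      exact h2
    exact h1
  have h3 : dsc_H (V := V) (V' := V') P d w ∈ V.ratEq K Ω := key
  rwa [dsc_H_sum hs] at h3

end DC
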