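import Pool.Agent.Lib.MP_f80667_ag.Dc.One
import Pool.Agent.Lib.MP_f80667_ag.Dc.Dsc

/-! The modification of cycles. -/

open ZC BE PE CV TensorProduct

namespace DC

section ms

variable {F : Type} [Field F] {C : Crv F} {K : Type} [Field K] [Algebra F K] {r : ℕ}
  (p : Pen C K r) {Ω : Type} [Field Ω] [Algebra F Ω] [Algebra K Ω] [IsScalarTower F K Ω]

private theorem act_inv (V : Vr F) [Hf V] (γ : Ω ≃ₐ[K] Ω) (x : V.pt Ω) :
    V.act γ (V.act γ⁻¹ x) = x := by
  rw [← act_mul Hf.out, mul_inv_cancel, act_one Hf.out]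

private theorem act_inj (V : Vr F) [Hf V] (γ : Ω ≃ₐ[K] Ω) : Function.Injective (V.act γ) := by
  intro x y hxy
  have h1 := congrArg (V.act γ⁻¹) hxy
  rwa [← act_mul Hf.out, ← act_mul Hf.out, inv_mul_cancel, act_one Hf.out, act_one Hf.out] at h1

/-- The fibre of the conjugate point. -/
private theorem fib_img (γ : Ω ≃ₐ[K] Ω) (x : C.V.pt Ω) :
    p.Fib (C.V.act γ x) = C.V.act γ '' p.Fib x := by
  ext y
  constructor
  · intro hy
    refine ⟨C.V.act γ⁻¹ y, ?_, act_inv C.V γ y⟩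
    rw [← p.fib_act γ, act_inv]
    exact hy
  · rintro ⟨y, hy, rfl⟩
    exact (p.fib_act γ).2 hy

private theorem ms_img {γ : Ω ≃ₐ[K] Ω} {x y : C.V.pt Ω} (hy : y ∈ p.ms (C.V.act γ x)) :
    ∃ z ∈ p.ms x, y = C.V.act γ z := by
  refine ⟨C.V.act γ⁻¹ y, ?_, (act_inv C.V γ y).symm⟩
  rw [← act_inv C.V γ y] at hy
  rcases hy with hy | ⟨hy, hn⟩
  · exact Or.inl ((p.zh_act γ).1 hy)
  · refine Or.inr ⟨(p.fib_act γ).1 hy, fun h1 => hn ?_⟩
    rw [Set.mem_singleton_iff] at h1 ⊢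
    rw [h1]

private theorem none_fib {γ : Ω ≃ₐ[K] Ω} {x : C.V.pt Ω} (h : (none : C.V.pt Ω) ∉ p.Fib x) :
    (none : C.V.pt Ω) ∉ p.Fib (C.V.act γ x) := fun h1 => h ((p.fib_act γ (y := none)).1 h1)

end ms

variable {F F' : Type} [Field F] [Field F'] [Algebra F F'] {N n : ℕ} {ι : Type}
  {f : ι → MvPolynomial (Fin N) F} {C : Fin n → Crv F'}
  {Φ : Fin N → MvPolynomial (Σ i, (C i).A) F'} {h : MvPolynomial (Fin N) F} {D : ℕ} {K Ω : Type}
  [Field K] [CharZero K] [Field Ω] [Algebra K Ω] [IsAlgClosure K Ω] [Algebra F K] [Algebra F Ω]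
  [IsScalarTower F K Ω] [Algebra F' K] [Algebra F' Ω] [IsScalarTower F' K Ω]
  [IsScalarTower F F' K] [IsScalarTower F F' Ω]

/-- Every point of the product is defined over a finite extension. Proof: the coordinates are `none` or homomorphisms from an algebra of finite type (`(C j).sm`); compare `psib_fp` in `Do/PsiB.lean`. -/
theorem fp_fin (x : (Vpi fun j => (C j).V).pt Ω) : ∃ M : IntermediateField K Ω,
    FiniteDimensional K M ∧ Fp (Vpi fun j => (C j).V) M x := by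
  choose M hM hx using fun j => exists_fp (K := K) (C j) (x j)
  refine ⟨⨆ i, M i, IntermediateField.finiteDimensional_iSup_of_finite, fun γ hγ => ?_⟩
  funext i
  exact hx i γ ((IntermediateField.mem_fixingSubgroup_iff _ γ).2 fun a ha =>
    (IntermediateField.mem_fixingSubgroup_iff _ γ).1 hγ a (le_iSup M i ha))

/-- The points of the domain which are general for the pencil. -/
private def Gd (Φ : Fin N → MvPolynomial (Σ i, (C i).A) F') (i : Fin n) {r : ℕ}
    (p : Pen (C i) K r) (Ω : Type) [Field Ω] [Algebra K Ω] [Algebra F' Ω]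
    [IsScalarTower F' K Ω] : Set (∀ j, (C j).V.pt Ω) :=
  {Q | (p.Fib (Q i)).ncard = r + 1 ∧ (none : (C i).V.pt Ω) ∉ p.Fib (Q i) ∧
      Q ∈ Dn C Φ Ω ∧ ∀ y ∈ p.ms (Q i), Function.update Q i y ∈ Dn C Φ Ω}

/-- The difference for one point. -/
private noncomputable def dd (o : (GX.Xf f).pt Ω) (Φ : Fin N → MvPolynomial (Σ i, (C i).A) F')
    (i : Fin n) {r : ℕ} (p : Pen (C i) K r) (Q : ∀ j, (C j).V.pt Ω) : (GX.Xf f).pt Ω →₀ ℤ :=
  Finsupp.mapDomain (fv o Φ) (Sp i p Ω (Finsupp.single Q 1)) -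
      Finsupp.single (fv (f := f) o Φ Q) 1

omit [Algebra F F'] [CharZero K] [IsAlgClosure K Ω] [Algebra F K] [Algebra F Ω]
  [IsScalarTower F K Ω] [IsScalarTower F F' K] [IsScalarTower F F' Ω] in
private theorem upd_act (γ : Ω ≃ₐ[K] Ω) (Q : ∀ j, (C j).V.pt Ω) (i : Fin n) (y : (C i).V.pt Ω) :
    (Vpi fun j => (C j).V).act γ (Function.update Q i y) =
      Function.update ((Vpi fun j => (C j).V).act γ Q) i ((C i).V.act γ y) := by
  funext j
  change (C j).V.act γ (Function.update Q i y j) = _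
  rcases eq_or_ne j i with rfl | hj
  · rw [Function.update_self, Function.update_self]
  · rw [Function.update_of_ne hj, Function.update_of_ne hj]
    rfl

omit [Algebra F F'] [CharZero K] [IsAlgClosure K Ω] [Algebra F K] [Algebra F Ω]
  [IsScalarTower F K Ω] [IsScalarTower F F' K] [IsScalarTower F F' Ω] in
private theorem gd_act (i : Fin n) {r : ℕ} (p : Pen (C i) K r) (γ : Ω ≃ₐ[K] Ω)
    {Q : ∀ j, (C j).V.pt Ω} (hQ : Q ∈ Gd Φ i p Ω) :
    (Vpi fun j => (C j).V).act γ Q ∈ Gd Φ i p Ω := by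
  obtain ⟨h1, h2, h3, h4⟩ := hQ
  refine ⟨?_, ?_, dn_act γ h3, fun y hy => ?_⟩
  · change (p.Fib ((C i).V.act γ (Q i))).ncard = r + 1
    rw [fib_img, Set.ncard_image_of_injective _ (act_inj (C i).V γ)]
    exact h1
  · exact none_fib p h2
  · obtain ⟨z, hz, rfl⟩ := ms_img p (γ := γ) (x := Q i) hy
    rw [← upd_act]
    exact dn_act γ (h4 z hz)

private theorem dd_act (hD : Dom f C Φ h D) (o : (GX.Xf f).pt Ω) (i : Fin n) {r : ℕ}
    (p : Pen (C i) K r) (γ : Ω ≃ₐ[K] Ω) {Q : ∀ j, (C j).V.pt Ω} (hQ : Q ∈ Gd Φ i p Ω) :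
    Finsupp.mapDomain ((GX.Xf f).act γ) (dd o Φ i p Q) =
      dd o Φ i p ((Vpi fun j => (C j).V).act γ Q) := by
  have e0 : ∀ a b : (GX.Xf f).pt Ω →₀ ℤ, Finsupp.mapDomain ((GX.Xf f).act γ) (a - b) =
      Finsupp.mapDomain ((GX.Xf f).act γ) a - Finsupp.mapDomain ((GX.Xf f).act γ) b :=
    fun a b => map_sub (Finsupp.mapDomain.addMonoidHom ((GX.Xf f).act γ)) a b
  rw [dd, dd, e0, Finsupp.mapDomain_single, fv_act hD o γ hQ.2.2.1]
  refine congrArg (fun z => z - _) ?_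
  rw [← Finsupp.mapDomain_comp]
  have h1 : Finsupp.mapDomain ((GX.Xf f).act γ ∘ fv o Φ) (Sp i p Ω (Finsupp.single Q 1)) =
      Finsupp.mapDomain (fv (f := f) o Φ ∘ (Vpi fun j => (C j).V).act γ)
        (Sp i p Ω (Finsupp.single Q 1)) := by
    refine Finsupp.mapDomain_congr fun R hR => ?_
    obtain ⟨Q', hQ', y, hy, rfl⟩ := sp_supp i p hR
    have h2 : Q' = Q := Finset.mem_singleton.1 (Finsupp.support_single_subset hQ')
    subst h2
    exact fv_act hD o γ (hQ.2.2.2 y hy)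
  rw [h1, Finsupp.mapDomain_comp]
  refine congrArg (Finsupp.mapDomain (fv o Φ)) ?_
  exact (sp_act i p γ (Finsupp.single Q (1 : ℤ))).trans
    (congrArg (Sp i p Ω) Finsupp.mapDomain_single)

/-- **One coordinate.** Proof: `desc_sum` for `V = Xf f`, `V'` = the product, the set `P` of the points `Q` in the domain with the properties `hf`, `hn`, `hy`, and `d Q = mapDomain fv (Sp (single Q 1)) - single (fv Q) 1`: `one_M`, `sp_act`, `dn_act`, `fv_act`, `fib_act`; the sum of `w Q • d Q` is the left side. -/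
theorem one_w (hD : Dom f C Φ h D) (o : (GX.Xf f).pt Ω) (i : Fin n) {r : ℕ} (p : Pen (C i) K r)
    {w : (∀ j, (C j).V.pt Ω) →₀ ℤ} (hw : w ∈ (Vpi fun j => (C j).V).cyc K Ω)
    (hz : (p.Zh Ω).ncard = r + 1)
    (hg : ∀ Q ∈ w.support, (p.Fib (Q i)).ncard = r + 1 ∧ (none : (C i).V.pt Ω) ∉ p.Fib (Q i) ∧
      Q ∈ Dn C Φ Ω ∧ ∀ y ∈ p.ms (Q i), Function.update Q i y ∈ Dn C Φ Ω) :
    Finsupp.mapDomain (fv o Φ) (Sp i p Ω w) - Finsupp.mapDomain (fv o Φ) w ∈
      (GX.Xf f).ratEq K Ω := by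
  have h1 := desc_sum (V := GX.Xf f) (V' := Vpi fun j => (C j).V) (K := K) (Ω := Ω)
    (P := Gd Φ i p Ω) (d := dd o Φ i p) fp_fin (fun γ Q hQ => gd_act i p γ hQ)
    (fun γ Q hQ => dd_act hD o i p γ hQ)
    (fun M hM Q hQ hMQ => one_M hD o i p M hMQ hQ.2.2.1 hz hQ.1 hQ.2.1 hQ.2.2.2) hw hg
  let H : ((∀ j, (C j).V.pt Ω) →₀ ℤ) →+ ((GX.Xf f).pt Ω →₀ ℤ) :=
    (Finsupp.mapDomain.addMonoidHom (fv o Φ)).comp (Sp i p Ω) -
      Finsupp.mapDomain.addMonoidHom (fv o Φ)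
  have h2 : ∀ Q, H (Finsupp.single Q 1) = dd o Φ i p Q := by
    intro Q
    change Finsupp.mapDomain (fv o Φ) (Sp i p Ω (Finsupp.single Q 1)) -
      Finsupp.mapDomain (fv o Φ) (Finsupp.single Q 1) = _
    rw [Finsupp.mapDomain_single]
    rfl
  have h3 : H w = ∑ Q ∈ w.support, w Q • dd o Φ i p Q := by
    have h4 : w = ∑ Q ∈ w.support, w Q • Finsupp.single Q (1 : ℤ) := by
      conv_lhs => rw [← Finsupp.sum_single w]
      refine Finset.sum_congr rfl fun Q _ => ?_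
      rw [Finsupp.smul_single, smul_eq_mul, mul_one]
    conv_lhs => rw [h4]
    rw [map_sum]
    refine Finset.sum_congr rfl fun Q _ => ?_
    rw [map_zsmul, h2]
  change H w ∈ _
  rw [h3]
  exact h1

/-- **All coordinates.** Proof: induction on the list: `one_w` for `Mt p Ω l w` (`mt_cyc`, `mt_supp`; for a point `R` of its support, `i ∉ l`: `R i = Q i` with `Q` in the support of `w`, so the hypotheses about the fibre are fields of `Pgs`, and `none ∉ p.Fib (Q i)` because `Q i ≠ none` for `Q` in the domain (`Vl`)). -/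
theorem mt_w (hD : Dom f C Φ h D) (o : (GX.Xf f).pt Ω) {r : Fin n → ℕ}
    (p : ∀ i, Pen (C i) K (r i)) {S : ∀ i, Set ((C i).V.pt Ω)} (hp : ∀ i, Pgs (p i) (S i) ∅)
    {w : (∀ j, (C j).V.pt Ω) →₀ ℤ} (hw : w ∈ (Vpi fun j => (C j).V).cyc K Ω)
    (hs : ∀ Q ∈ w.support, ∀ i, Q i ∈ S i)
    (hg : ∀ Q ∈ w.support, ∀ R : ∀ j, (C j).V.pt Ω, (∀ j, R j = Q j ∨ R j ∈ (p j).ms (Q j)) →
      R ∈ Dn C Φ Ω) {l : List (Fin n)} (hl : l.Nodup) :
    Finsupp.mapDomain (fv o Φ) (Mt p Ω l w) - Finsupp.mapDomain (fv o Φ) w ∈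
      (GX.Xf f).ratEq K Ω := by
  induction l with
  | nil =>
    have h1 : Mt p Ω [] w = w := rfl
    rw [h1, sub_self]
    exact zero_mem _
  | cons i l ih =>
    obtain ⟨hi, hl'⟩ := List.nodup_cons.1 hl
    have h1 := ih hl'
    have h2 : Finsupp.mapDomain (fv o Φ) (Sp i (p i) Ω (Mt p Ω l w)) -
        Finsupp.mapDomain (fv o Φ) (Mt p Ω l w) ∈ (GX.Xf f).ratEq K Ω := by
      refine one_w hD o i (p i) (mt_cyc p l hw) (hp i).zc fun R hR => ?_
      obtain ⟨Q, hQ, hQl, hQn⟩ := mt_supp p hl' hR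
      have e1 : R i = Q i := hQn i hi
      have e2 : ∀ j, R j = Q j ∨ R j ∈ (p j).ms (Q j) := fun j => by
        by_cases hj : j ∈ l
        · exact Or.inr (hQl j hj)
        · exact Or.inl (hQn j hj)
      have e3 : Q i ≠ none := by
        obtain ⟨x, φ, hφ, -⟩ := hg Q hQ Q fun j => Or.inl rfl
        rw [hφ]
        exact Option.some_ne_none _
      refine ⟨?_, ?_, hg Q hQ R e2, fun y hy => hg Q hQ _ fun j => ?_⟩
      · rw [e1]
        exact (hp i).fc _ (hs Q hQ i)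
      · rw [e1]
        exact (hp i).fi _ (hs Q hQ i) e3
      · rcases eq_or_ne j i with rfl | hj
        · rw [Function.update_self]
          rw [e1] at hy
          exact Or.inr hy
        · rw [Function.update_of_ne hj]
          exact e2 j
    have h3 := add_mem h2 h1
    have h4 : Mt p Ω (i :: l) w = Sp i (p i) Ω (Mt p Ω l w) := rfl
    rw [h4]
    rwa [sub_add_sub_cancel] at h3

end DC
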