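import Pool.Agent.Lib.MP_f80667_ag.Dc.Rel
import Pool.Agent.Lib.MP_f80667_ag.Dc.OneW
import Pool.Agent.Lib.MP_f80667_ag.Dc.Gpo
import Pool.Agent.Lib.MP_f80667_ag.Dc.Fnd
import Pool.Agent.Lib.MP_f80667_ag.Dc.Fib

/-! The core of the theorem over one field. -/

open ZC BE PE CV TensorProduct

namespace DC

/-- The number attached to the degrees of the pencils. -/
def nb {n : ℕ} (r : Fin n → ℕ) : ℕ := ((List.finRange n).map fun i => (2 * (r i + 1)).factorial).prod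

variable {F F' : Type} [Field F] [Field F'] [Algebra F F'] {N n : ℕ} {ι : Type}
  {f : ι → MvPolynomial (Fin N) F} {C : Fin n → Crv F'}
  {Φ : Fin N → MvPolynomial (Σ i, (C i).A) F'} {h : MvPolynomial (Fin N) F} {D : ℕ} {K Ω : Type}
  [Field K] [CharZero K] [Field Ω] [Algebra K Ω] [IsAlgClosure K Ω] [Algebra F K] [Algebra F Ω]
  [IsScalarTower F K Ω] [Algebra F' K] [Algebra F' Ω] [IsScalarTower F' K Ω]
  [IsScalarTower F F' K] [IsScalarTower F F' Ω]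

/-- **The core.** -/
theorem dv_core (hD : Dom f C Φ h D) (h0 : D ≠ 0) {r : Fin n → ℕ} (hr : ∀ i, ExPen (C i) (r i))
    {m : ℕ} (hc : m.Coprime (nb r * D)) (hd : DvG (fun i => (C i).V) K Ω m)
    {z₁ : (GX.Xf f).pt Ω →₀ ℤ} (hz₁ : z₁ ∈ (GX.Xf f).D0 K Ω) (hs₁ : ∀ P ∈ z₁.support, DN.Hn h P)
    (H : ∀ i, (z₁.sum fun P m => m • ∑ᶠ Q ∈ {Q | ∃ x, GX.Co P x ∧ Vl C Φ Q x},
      Finsupp.single (Q i) (1 : ℤ)) ∈ Pc (C i) Ω) :
    ∃ z' ∈ (GX.Xf f).D0 K Ω, z₁ - m • z' ∈ (GX.Xf f).ratEq K Ω := by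
  classical
  by_cases h1 : z₁ = 0
  · subst h1
    refine ⟨0, zero_mem _, ?_⟩
    rw [smul_zero, sub_zero]
    exact zero_mem _
  have hO : IsAlgClosed Ω := IsAlgClosure.isAlgClosed K
  have hczO : CharZero Ω := charZero_of_injective_algebraMap (algebraMap K Ω).injective
  obtain ⟨o, ho⟩ := Finsupp.support_nonempty_iff.2 h1
  obtain ⟨w, hw, hpr, hsw, hpw⟩ := exists_pull_of hD h0 o hz₁ hs₁ H
  obtain ⟨w'', hw'', -, hww''⟩ := hd w hw hpr
  obtain ⟨w', hwe⟩ : ∃ w' : (∀ i, (C i).V.pt Ω) →₀ ℤ, w' = w'' := ⟨w'', rfl⟩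
  have hw' : w' ∈ (Vpi fun i => (C i).V).D0 K Ω := by rw [hwe]; exact hw''
  have hww : w - m • w' ∈ (Vpi fun i => (C i).V).ratEq K Ω := by rw [hwe]; exact hww''
  have hw0 : w ≠ 0 := by
    intro h2
    rw [h2, Finsupp.mapDomain_zero] at hpw
    rcases smul_eq_zero.1 hpw.symm with h3 | h3
    · exact h0 h3
    · exact h1 h3
  obtain ⟨Q₀, hQ₀⟩ := Finsupp.support_nonempty_iff.2 hw0
  obtain ⟨T, hT⟩ := DN.ratEq_gn hww
  let T' : Set (∀ i, (C i).V.pt Ω) := {Q | Q ∈ T}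
  have hTf : T'.Finite := Set.Finite.subset (Finset.finite_toSet T) fun _ h => h
  let Y₁ : Set (∀ i, (C i).V.pt Ω) := T' ∪ {Q | Q ∈ w'.support}
  have hY₁ : Y₁.Finite := hTf.union (Set.Finite.subset (Finset.finite_toSet w'.support) fun _ h => h)
  let Y₂ : Set (∀ i, (C i).V.pt Ω) := {Q | Q ∈ w.support}
  have hY₂ : Y₂.Finite := Set.Finite.subset (Finset.finite_toSet w.support) fun _ h => h
  have i1 : Finite Y₁ := hY₁
  have i2 : Finite Y₂ := hY₂
  obtain ⟨p, hp, hg⟩ := exists_gp (K := K) hr (G := Dn C Φ Ω) (fun Q hQ i => fin_dn hQ i)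
    (J := Y₁ ⊕ Y₂) (Sum.elim (fun t => t.1) fun t => t.1)
    (Sum.elim (fun _ => Q₀) fun t => t.1) (by
      rintro (t | t)
      · exact hsw Q₀ hQ₀
      · exact hsw t.1 t.2)
  have hl : (List.finRange n).Nodup := List.nodup_finRange n
  -- the relation
  have hr1 := gn_mt (K := K) (T := T') p hp (fun t ht i => ⟨Sum.inl ⟨t, Or.inl ht⟩, rfl⟩) hl hT
  have hr2 : Finsupp.mapDomain (fv o Φ) (nb r • Mt p Ω (List.finRange n) (w - m • w')) ∈
      (GX.Xf f).ratEq K Ω := by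
    have hle : AddSubgroup.closure {z | DN.Gn (Vpi fun j => (C j).V) K Ω
        (Tl p (List.finRange n) T') z} ≤
        ((GX.Xf f).ratEq K Ω).comap (Finsupp.mapDomain.addMonoidHom (M := ℤ) (fv (f := f) o Φ)) := by
      refine (AddSubgroup.closure_le _).2 fun z hz => ?_
      refine gn_rp hD o ?_ hz
      rintro R ⟨t, ht, h3, -⟩
      exact hg (Sum.inl ⟨t, Or.inl ht⟩) R fun i => Or.inr (h3 i (List.mem_finRange i))
    exact hle hr1
  -- the point w'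
  have hu : Finsupp.mapDomain (fv o Φ) (Mt p Ω (List.finRange n) w') ∈ (GX.Xf f).D0 K Ω := by
    refine fv_mem hD o (mt_D0 p hp hl hw' fun Q hQ i => ⟨Sum.inl ⟨Q, Or.inr hQ⟩, rfl⟩) ?_
    intro R hR
    obtain ⟨Q, hQ, h3, -⟩ := mt_supp p hl hR
    exact hg (Sum.inl ⟨Q, Or.inr hQ⟩) R fun i => Or.inr (h3 i (List.mem_finRange i))
  -- the point w
  have hr3 := mt_w hD o p hp hw.1 (fun Q hQ i => ⟨Sum.inr ⟨Q, hQ⟩, rfl⟩)
    (fun Q hQ R hR => hg (Sum.inr ⟨Q, hQ⟩) R hR) hl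
  rw [hpw] at hr3
  set u := Finsupp.mapDomain (fv (f := f) o Φ) (Mt p Ω (List.finRange n) w') with hu'
  set A := Finsupp.mapDomain (fv (f := f) o Φ) (Mt p Ω (List.finRange n) w) with hA
  have hr4 : nb r • (A - m • u) ∈ (GX.Xf f).ratEq K Ω := by
    have e : Finsupp.mapDomain (fv (f := f) o Φ) (nb r • Mt p Ω (List.finRange n) (w - m • w')) =
        nb r • (A - m • u) := by
      rw [map_sub, map_nsmul]
      have h3 := map_nsmul (Finsupp.mapDomain.addMonoidHom (M := ℤ) (fv (f := f) o Φ)) (nb r)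
        (Mt p Ω (List.finRange n) w - m • Mt p Ω (List.finRange n) w')
      have h4 := map_sub (Finsupp.mapDomain.addMonoidHom (M := ℤ) (fv (f := f) o Φ))
        (Mt p Ω (List.finRange n) w) (m • Mt p Ω (List.finRange n) w')
      have h5 := map_nsmul (Finsupp.mapDomain.addMonoidHom (M := ℤ) (fv (f := f) o Φ)) m
        (Mt p Ω (List.finRange n) w')
      rw [h5] at h4
      rw [h4] at h3
      exact h3
    rw [← e]
    exact hr2
  have hr5 : (nb r * D) • z₁ - m • (nb r • u) ∈ (GX.Xf f).ratEq K Ω := by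
    have h3 := sub_mem hr4 (nsmul_mem hr3 (nb r))
    have e : nb r • (A - m • u) - nb r • (A - D • z₁) = (nb r * D) • z₁ - m • (nb r • u) := by
      rw [mul_smul, smul_comm m (nb r) u, smul_sub, smul_sub]
      abel
    rwa [e] at h3
  have hb : (m : ℤ) * Nat.gcdA m (nb r * D) + (nb r * D : ℕ) * Nat.gcdB m (nb r * D) = 1 := by
    have h3 := Nat.gcd_eq_gcd_ab m (nb r * D)
    rw [hc.gcd_eq_one] at h3
    exact_mod_cast h3.symm
  refine ⟨Nat.gcdB m (nb r * D) • (nb r • u) + Nat.gcdA m (nb r * D) • z₁,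
    add_mem (zsmul_mem (nsmul_mem hu _) _) (zsmul_mem hz₁ _), ?_⟩
  have h3 := zsmul_mem hr5 (Nat.gcdB m (nb r * D))
  have e : Nat.gcdB m (nb r * D) • ((nb r * D) • z₁ - m • (nb r • u)) =
      z₁ - m • (Nat.gcdB m (nb r * D) • (nb r • u) + Nat.gcdA m (nb r * D) • z₁) := by
    have h4 : z₁ - m • (Nat.gcdB m (nb r * D) • (nb r • u) + Nat.gcdA m (nb r * D) • z₁) =
        ((m : ℤ) * Nat.gcdA m (nb r * D) + (nb r * D : ℕ) * Nat.gcdB m (nb r * D)) • z₁ -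
          m • (Nat.gcdB m (nb r * D) • (nb r • u) + Nat.gcdA m (nb r * D) • z₁) := by
      rw [hb, one_smul]
    rw [h4]
    module
  rw [e] at h3
  exact h3

end DC
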