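import Pool.Agent.Lib.MP_f80667_ag.Do.Def
import Pool.Agent.Lib.MP_f80667_ag.Cv.Lc
import Pool.Agent.Lib.MP_f80667_ag.Sb.A

/-!
Projective varieties dominated by a product of curves: the definitions for the statement.

`F' / F` is an extension of fields, `C i` are pointed curves over `F'`.

* `Vl C Φ P x`: `x` is the value at the point `P` of the product of the vector `Φ` of polynomials in the functions on the affine
  curves.
* `Fb C Φ x`: the points of the product which are mapped to the point with the homogeneous coordinates `x`.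
* `Dom f C Φ h D`: `Φ` is a dominant rational map of degree `D` to the variety `f = 0`: the points `x` with `h (x) ≠ 0` have exactly `D`
  preimages.
* `Cst f C Φ h`: the class of the divisor of the coordinates number `i` of the preimages of `x` does not depend on `x`.
* `Plb C Φ h M`: the pull-back by `Φ` maps the cycles of degree `0` whose sum in the group variety is `0` to cycles whose push-forwards
  to the curves are principal.
-/

open ZC BE PE CV TensorProduct

namespace DC

variable {F F' : Type} [Field F] [Field F'] {N N' n k k' : ℕ} {ι ι' : Type}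

/-- `x ≠ 0` is the value of the vector `Φ` of polynomials in the functions on the affine curves at the point `P`, whose coordinates
are not the points at infinity. -/
def Vl (C : Fin n → Crv F') (Φ : Fin N → MvPolynomial (Σ i, (C i).A) F') {L : Type}
    [Field L] [Algebra F' L] (P : ∀ i, (C i).V.pt L) (x : Fin N → L) : Prop :=
  ∃ φ : ∀ i, (C i).A →ₐ[F'] L, (P = fun i => some (φ i)) ∧ x ≠ 0 ∧
    ∀ j, x j = MvPolynomial.aeval (fun s : Σ i, (C i).A => φ s.1 s.2) (Φ j)

/-- The preimages of the point with the homogeneous coordinates `x`. -/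
def Fb (C : Fin n → Crv F') (Φ : Fin N → MvPolynomial (Σ i, (C i).A) F') {L : Type}
    [Field L] [Algebra F' L] (x : Fin N → L) : Set (∀ i, (C i).V.pt L) :=
  {P | ∃ c : L, c ≠ 0 ∧ Vl C Φ P fun j => c * x j}

/-- `Φ` is a dominant rational map of degree `D` from the product of the curves `C i` to the variety `f = 0`: its values are in
`f = 0`, and the points with `h ≠ 0`, a nonempty open set, have exactly `D` preimages. -/
structure Dom [Algebra F F'] (f : ι → MvPolynomial (Fin N) F) (C : Fin n → Crv F')
    (Φ : Fin N → MvPolynomial (Σ i, (C i).A) F') (h : MvPolynomial (Fin N) F) (D : ℕ) : Prop where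
  eq : ∀ (L : Type) [Field L] [Algebra F L] [Algebra F' L] [IsScalarTower F F' L]
    (P : ∀ i, (C i).V.pt L) (x : Fin N → L), Vl C Φ P x → ∀ i, MvPolynomial.aeval x (f i) = 0
  hom : ∃ e, h.IsHomogeneous e
  ne : h ∉ Ideal.span (Set.range f)
  deg : ∀ (L : Type) [Field L] [IsAlgClosed L] [Algebra F L] [Algebra F' L] [IsScalarTower F F' L]
    (x : Fin N → L), DN.Gp f h x → (Fb C Φ x).ncard = D

/-- The class of the divisor of the coordinates number `i` of the preimages of `x` does not depend on `x`. -/
def Cst [Algebra F F'] (f : ι → MvPolynomial (Fin N) F) (C : Fin n → Crv F')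
    (Φ : Fin N → MvPolynomial (Σ i, (C i).A) F') (h : MvPolynomial (Fin N) F) : Prop :=
  ∀ (L : Type) [Field L] [IsAlgClosed L] [Algebra F L] [Algebra F' L] [IsScalarTower F F' L]
    (x x' : Fin N → L), DN.Gp f h x → DN.Gp f h x' → ∀ i,
      (∑ᶠ P ∈ Fb C Φ x, Finsupp.single (P i) (1 : ℤ)) -
        ∑ᶠ P ∈ Fb C Φ x', Finsupp.single (P i) (1 : ℤ) ∈ Pc (C i) L

/-- The pull-back by `Φ` of a cycle `z` of degree `0` on the part `h ≠ 0` of the variety `f = 0` has principal push-forwards to the
curves `C i` if the sum of `z` in the group variety `A` is `0`. -/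
def Plb [Algebra F F'] {f : ι → MvPolynomial (Fin N) F} {A : GX.Gv F N' k' ι'}
    (C : Fin n → Crv F') (Φ : Fin N → MvPolynomial (Σ i, (C i).A) F')
    (h : MvPolynomial (Fin N) F) (M : GX.Mf f A k) : Prop :=
  ∀ (L : Type) [Field L] [IsAlgClosed L] [Algebra F L] [Algebra F' L] [IsScalarTower F F' L]
    (z : (GX.Xf f).pt L →₀ ℤ),
    (∀ P ∈ z.support, ∃ x, GX.Co P x ∧ MvPolynomial.aeval x h ≠ 0) →
    (z.sum fun _ m => m) = 0 → M.S L z = (A.G.grp L).zero →
      ∀ i, (z.sum fun P m => m • ∑ᶠ Q ∈ {Q | ∃ x, GX.Co P x ∧ Vl C Φ Q x},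
        Finsupp.single (Q i) (1 : ℤ)) ∈ Pc (C i) L

end DC
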