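import Pool.Agent.Lib.MP_f80667_ag.Dc.Sta
import Pool.Agent.Lib.MP_f80667_ag.Dk.Gn
import Pool.Agent.Lib.MP_f80667_ag.Gx.D

/-!
Diagonal hypersurfaces of degree four or of odd prime degree: `DK.all_pl` for the variety `Xf`.

* `ae_dg`: the value of the equation. `toXf`, `ofXf`: the two forms of the variety.
* `dq_iso`: divisibility and isomorphisms. `diag`: the theorem.
-/

open ZC BE PE CV QS DH DK IsDedekindDomain NumberField

namespace DX

section mo

variable {F : Type} [Field F] {d n : ℕ} {a : Fin (n + 2) → F}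

theorem ae_dg {L : Type} [Field L] [Algebra F L] (x : Fin (n + 2) → L) :
    MvPolynomial.aeval x (∑ i, MvPolynomial.C (a i) * MvPolynomial.X i ^ d) =
      ∑ i, algebraMap F L (a i) * x i ^ d := by
  rw [map_sum]
  refine Finset.sum_congr rfl fun i _ => ?_
  rw [map_mul, map_pow, MvPolynomial.aeval_X, MvPolynomial.aeval_C]

/-- The coordinates. -/
noncomputable def hcp {L : Type} [Field L] [Algebra F L] (P : Hc d a L) :
    GX.Hp (fun _ : Unit => ∑ i, MvPolynomial.C (a i) * MvPolynomial.X i ^ d) L where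
  x := P.x
  ne := P.ne
  eq _ := (ae_dg P.x).trans P.eq

/-- The coordinates. -/
noncomputable def hpc {L : Type} [Field L] [Algebra F L]
    (P : GX.Hp (fun _ : Unit => ∑ i, MvPolynomial.C (a i) * MvPolynomial.X i ^ d) L) :
    Hc d a L where
  x := P.x
  ne := P.ne
  eq := (ae_dg P.x).symm.trans (P.eq ())

variable (d a) in
/-- The identity. -/
noncomputable def toXf : Mo (Xd d a)
    (GX.Xf fun _ : Unit => ∑ i, MvPolynomial.C (a i) * MvPolynomial.X i ^ d) where
  f L _ _ := Quotient.map hcp fun _ _ h => h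
  nat L M _ _ _ _ σ x := by
    induction x using Quotient.inductionOn with
    | h P => rfl
  red K L Ω _ _ _ _ _ _ _ w x y h := by
    obtain ⟨P, Q, rfl, rfl, h1⟩ := h
    exact ⟨hcp P, hcp Q, rfl, rfl, h1⟩

variable (d a) in
/-- The identity. -/
noncomputable def ofXf : Mo (GX.Xf fun _ : Unit => ∑ i, MvPolynomial.C (a i) * MvPolynomial.X i ^ d)
    (Xd d a) where
  f L _ _ := Quotient.map hpc fun _ _ h => h
  nat L M _ _ _ _ σ x := by
    induction x using Quotient.inductionOn with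
    | h P => rfl
  red K L Ω _ _ _ _ _ _ _ w x y h := by
    obtain ⟨P, Q, rfl, rfl, h1⟩ := h
    exact ⟨hpc P, hpc Q, rfl, rfl, h1⟩

theorem to_of {L : Type} [Field L] [Algebra F L]
    (x : (GX.Xf fun _ : Unit => ∑ i, MvPolynomial.C (a i) * MvPolynomial.X i ^ d).pt L) :
    (toXf d a).f L ((ofXf d a).f L x) = x := by
  induction x using Quotient.inductionOn with
  | h P => rfl

/-- Divisibility and isomorphisms. -/
theorem dq_iso {V V' : Vr F} (φ : Mo V V') (ψ : Mo V' V) {K Ω : Type} [Field K] [Algebra F K]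
    [Field Ω] [Algebra K Ω] [Algebra F Ω] [IsScalarTower F K Ω]
    (h : ∀ x : V'.pt Ω, φ.f Ω (ψ.f Ω x) = x) {m : ℕ} (hd : Dq V K Ω m) : Dq V' K Ω m := by
  intro z hz
  obtain ⟨w, hw, hr⟩ := hd _ (ψ.D0 hz)
  refine ⟨Finsupp.mapDomain (φ.f Ω) w, φ.D0 hw, ?_⟩
  have h1 := φ.ratEq K Ω hr
  have h2 : Finsupp.mapDomain (φ.f Ω) (Finsupp.mapDomain (ψ.f Ω) z - m • w) =
      z - m • Finsupp.mapDomain (φ.f Ω) w := by
    have h3 : Finsupp.mapDomain (φ.f Ω) (Finsupp.mapDomain (ψ.f Ω) z) = z := by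
      rw [← Finsupp.mapDomain_comp]
      have h4 : φ.f Ω ∘ ψ.f Ω = id := funext h
      rw [h4, Finsupp.mapDomain_id]
    have h5 := map_sub (Finsupp.mapDomain.addMonoidHom (M := ℤ) (φ.f Ω))
      (Finsupp.mapDomain (ψ.f Ω) z) (m • w)
    have h6 := map_nsmul (Finsupp.mapDomain.addMonoidHom (M := ℤ) (φ.f Ω)) m w
    simp only [Finsupp.mapDomain.addMonoidHom_apply] at h5 h6
    rw [h5, h6, h3]
  rwa [h2] at h1

end mo

/-- **Diagonal hypersurfaces.** Proof: `DK.all_pl` at all places, `dq_iso`, `glob`. -/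
theorem diag (F : Type) [Field F] [NumberField F] (n d : ℕ) (a : Fin (n + 2) → F)
    (ha : ∀ i, a i ≠ 0) (hn : 2 ≤ n) (hd : d = 4 ∨ (d.Prime ∧ Odd d)) :
    QPr (GX.Xf fun _ : Unit => ∑ i, MvPolynomial.C (a i) * MvPolynomial.X i ^ d)
      {l | l.Prime ∧ d * Module.finrank ℚ F + 1 < l} := by
  have hd : d = 4 ∨ (d.Prime ∧ d ≠ 2) := hd.imp_right fun h => ⟨h.1, fun h2 => by
    have := h.2
    rw [h2] at this
    exact absurd this (by decide)⟩
  have hpos : 1 ≤ Module.finrank ℚ F := Module.finrank_pos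
  have h1 : d ≤ d * Module.finrank ℚ F := Nat.le_mul_of_pos_right d hpos
  have h2d : 3 ≤ d := by
    rcases hd with rfl | ⟨hd, h2⟩
    · norm_num
    · have := hd.two_le
      omega
  refine glob (fun h => ?_) fun l hl hlp v => ?_
  · have := h.2
    omega
  · have hlt := hl.2
    refine dq_iso (toXf d a) (ofXf d a) to_of
      (all_pl hd hn ha v hlp (fun h' => ?_) (fun _ h' => ?_) (gp_of (by omega) hlp hlt v))
    · rcases (Nat.Prime.dvd_mul hlp).1 h' with h2 | h2
      · have h3 := Nat.le_of_dvd (by norm_num) h2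
        omega
      · have h3 := Nat.le_of_dvd (by omega) h2
        omega
    · have h3 := Nat.le_of_dvd (by omega) h'
      omega

end DX
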