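import Pool.Agent.Lib.MP_f80667_ag.Cv.Xp5

/-! Divisors of functions on a curve, mapped to a variety. -/

open ZC BE PE CV TensorProduct

namespace DC

variable {F F' : Type} [Field F] [Field F'] {K Ω : Type} [Field K] [CharZero K] [Field Ω]
  [Algebra K Ω] [IsAlgClosure K Ω] [Algebra F K] [Algebra F Ω] [IsScalarTower F K Ω]
  [Algebra F' K] [Algebra F' Ω] [IsScalarTower F' K Ω] {C : Crv F'} {E : Type} [Field E]
  [Algebra (K ⊗[F'] C.A) E] [IsFractionRing (K ⊗[F'] C.A) E] [Algebra K E]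
  [IsScalarTower K (K ⊗[F'] C.A) E] [Algebra F E] [IsScalarTower F K E]

/-- **The divisor of `x / y`** on the curve `C` over `K`, where `x` and `y` have the same degree, mapped to the variety `V` by the
`E`-point `P`, `E` the function field. Proof: compare `div_M` (`Cv/Xp5.lean`): `Dg.div_ratEq` (`Cv/PlR.lean`) for `G = C.G.bc K` with the finite set of the homomorphisms `xl K φ`, `φ ∈ S` (`exists_xl`, `xl_inj`), `a = od _ x`, `b = od _ y`; `t` by `xrg` (`Cv/Xp3.lean`), `rg_fac` (`Cv/PlG.lean`). -/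
theorem div_V {V : Vr F} {x y : K ⊗[F'] C.A} {m : ℕ} (hx : (C.G.bc K).d x = m)
    (hy : (C.G.bc K).d y = m) (S : Finset (C.A →ₐ[F'] Ω))
    (hS : ∀ φ, φ ∉ S → od (xl K φ) x = od (xl K φ) y) (P : V.pt (AlgebraicClosure E))
    (hP : V.Rat E P) (v : (C.A →ₐ[F'] Ω) → V.pt Ω) (o : V.pt Ω)
    (hv : ∀ φ ∈ S, ∀ w : Place K E Ω, Ab w (xl K φ) → V.IsVal w P (v φ))
    (ho : ∀ w : Place K E Ω, w.V = (C.G.bc K).vi → V.IsVal w P o) :
    ∑ φ ∈ S, Finsupp.single (v φ) ((od (xl K φ) x : ℤ) - od (xl K φ) y) ∈ V.ratEq K Ω := by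
  classical
  have hdom : IsDomain (K ⊗[F'] C.A) := (C.G.bc K).isDomain
  have halg : Algebra.IsAlgebraic K Ω := IsAlgClosure.isAlgebraic
  have hac : IsAlgClosed Ω := IsAlgClosure.isAlgClosed K
  have hsm := C.sm
  have hx0 : x ≠ 0 := (C.G.bc K).ne_zero hx
  have hy0 : y ≠ 0 := (C.G.bc K).ne_zero hy
  let f : ((K ⊗[F'] C.A) →ₐ[K] Ω) → V.pt Ω := fun φ => v (exists_xl φ).choose
  have hfx : ∀ φ : C.A →ₐ[F'] Ω, f (xl K φ) = v φ := by
    intro φ
    have h1 := (exists_xl (xl K φ)).choose_spec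
    exact congrArg v (xl_inj h1).symm
  have hrg : ∀ φ : C.A →ₐ[F'] Ω, ∃ t, Rg (xl K φ) t := fun φ => xrg C.G φ
  have key := (C.G.bc K).div_ratEq (E := E) (Ω := Ω) V hx hy
    (S.image fun φ => xl K φ) (fun φ => od φ x) (fun φ => od φ y)
    (by
      intro φ' hφ'
      obtain ⟨φ, -, rfl⟩ := Finset.mem_image.1 hφ'
      obtain ⟨t, ht⟩ := hrg φ
      exact ⟨t, ht, (C.G.bc K).od_spec ht hx0, (C.G.bc K).od_spec ht hy0⟩)
    (by
      intro φ' hφ'
      obtain ⟨φ, rfl⟩ := exists_xl φ'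
      have hφ : φ ∉ S := fun h => hφ' (Finset.mem_image_of_mem _ h)
      obtain ⟨t, ht⟩ := hrg φ
      have h1 := (C.G.bc K).od_spec ht hx0
      rw [hS φ hφ] at h1
      exact h1.trans ((C.G.bc K).od_spec ht hy0).symm)
    P hP f o
    (by
      intro φ' hφ' w hw
      obtain ⟨φ, hφ, rfl⟩ := Finset.mem_image.1 hφ'
      rw [hfx]
      exact hv φ hφ w hw)
    ho
  rw [Finset.sum_image fun φ _ φ' _ h => xl_inj h, sub_self, Finsupp.single_zero, sub_zero] at key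
  simp only [hfx] at key
  exact key

end DC
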