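import Pool.Agent.Lib.MP_f80667_ag.Cv.Od

/-! Tangent vectors of a curve as homomorphisms to the dual numbers. -/

namespace DC

open CV

variable {k A : Type} [Field k] [CommRing A] [Algebra k A]

/-- A homomorphism to the dual numbers above the point `φ` which is not `0` on the maximal ideal.
Proof: `s (a - φ a) = t q`, the second coordinate of the value at `a` is `φ q / φ s`. -/
theorem exists_dl (G : Dg k A) {φ : A →ₐ[k] k} {t : A} (h : Rg φ t) :
    ∃ δ : A →ₐ[k] DualNumber k, (∀ a, (δ a).fst = φ a) ∧ (δ t).snd ≠ 0 := by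
  have hdom := G.isDomain
  have ht : t ≠ 0 := G.rg_ne h
  obtain ⟨h0, s, hs, hd⟩ := h
  have h1 : ∀ a : A, ∃ q, s * (a - algebraMap k A (φ a)) = t * q := fun a =>
    hd _ (by rw [map_sub, AlgHom.commutes]; exact sub_self _)
  choose q hq using h1
  have hadd : ∀ a b, q (a + b) = q a + q b := by
    intro a b
    apply mul_left_cancel₀ ht
    rw [mul_add, ← hq, ← hq, ← hq, map_add, map_add]
    ring
  have hmul : ∀ a b, q (a * b) = q a * b + algebraMap k A (φ a) * q b := by
    intro a b
    apply mul_left_cancel₀ ht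
    have e : t * (q a * b + algebraMap k A (φ a) * q b) =
        t * q a * b + algebraMap k A (φ a) * (t * q b) := by ring
    rw [e, ← hq, ← hq, ← hq, map_mul, map_mul]
    ring
  have hcst : ∀ c : k, q (algebraMap k A c) = 0 := by
    intro c
    apply mul_left_cancel₀ ht
    rw [← hq, AlgHom.commutes, mul_zero]
    change s * (algebraMap k A c - algebraMap k A c) = 0
    rw [sub_self, mul_zero]
  have hqt : q t = s := by
    apply mul_left_cancel₀ ht
    rw [← hq, h0, map_zero, sub_zero, mul_comm]
  let D : A → k := fun a => φ (q a) / φ s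
  let δ : A →ₐ[k] DualNumber k :=
    { toFun := fun a => TrivSqZeroExt.inl (φ a) + TrivSqZeroExt.inr (D a)
      map_one' := by
        have e : q 1 = 0 := by
          have e1 := hcst 1
          rwa [map_one] at e1
        refine TrivSqZeroExt.ext ?_ ?_
        · simp
        · simp [D, e]
      map_zero' := by
        have e : q 0 = 0 := by
          have e1 := hcst 0
          rwa [map_zero] at e1
        refine TrivSqZeroExt.ext ?_ ?_
        · simp
        · simp [D, e]
      map_mul' := by
        intro a b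
        refine TrivSqZeroExt.ext ?_ ?_
        · simp
        · simp only [D, hmul, map_add, map_mul, AlgHom.commutes, TrivSqZeroExt.snd_add,
            TrivSqZeroExt.snd_inl, TrivSqZeroExt.snd_inr, TrivSqZeroExt.snd_mul,
            TrivSqZeroExt.fst_add, TrivSqZeroExt.fst_inl, TrivSqZeroExt.fst_inr, zero_add,
            add_zero, smul_eq_mul, MulOpposite.smul_eq_mul_unop, MulOpposite.unop_op,
            Algebra.algebraMap_self, RingHom.id_apply]
          ring
      map_add' := by
        intro a b
        refine TrivSqZeroExt.ext ?_ ?_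
        · simp
        · simp only [D, hadd, map_add, TrivSqZeroExt.snd_add, TrivSqZeroExt.snd_inl,
            TrivSqZeroExt.snd_inr, zero_add]
          ring
      commutes' := by
        intro c
        refine TrivSqZeroExt.ext ?_ ?_
        · simp [TrivSqZeroExt.algebraMap_eq_inl]
        · simp [D, hcst, TrivSqZeroExt.algebraMap_eq_inl] }
  have hδ : ∀ a, δ a = TrivSqZeroExt.inl (φ a) + TrivSqZeroExt.inr (D a) := fun a => rfl
  refine ⟨δ, fun a => ?_, ?_⟩
  · rw [hδ]
    simp
  · rw [hδ]
    simp [D, hqt, hs]

/-- An element of order at least `2` is mapped to `0`. -/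
theorem dl_od (G : Dg k A) {φ : A →ₐ[k] k} {t : A} (h : Rg φ t) {δ : A →ₐ[k] DualNumber k}
    (hδ : ∀ a, (δ a).fst = φ a) {a : A} (ha : a ≠ 0) (h2 : 2 ≤ od φ a) : δ a = 0 := by
  obtain ⟨s, s', hs, hs', e⟩ := G.od_spec h ha
  have h1 := congrArg δ e
  rw [map_mul, map_mul, map_pow] at h1
  have ht : (δ t).fst = 0 := by rw [hδ, h.1]
  have hsq : δ t ^ 2 = 0 := by
    rw [pow_two]
    refine TrivSqZeroExt.ext ?_ ?_
    · simp [ht]
    · simp [ht]
  obtain ⟨j, hj⟩ := Nat.exists_eq_add_of_le h2
  rw [hj, pow_add, hsq, zero_mul, mul_zero] at h1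
  have hu : IsUnit (δ s) := by
    rw [TrivSqZeroExt.isUnit_iff_isUnit_fst, hδ]
    exact hs.isUnit
  exact (hu.mul_right_eq_zero).1 h1

end DC
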