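import Pool.Agent.Lib.MP_f80667_ag.Cv.Defs
import Pool.Agent.Lib.MP_f80667_ag.Cv.Tc
import Pool.Agent.Lib.MP_f80667_ag.Cv.Xp4
import Pool.Agent.Lib.MP_f80667_ag.Cu.CycB

/-! The field generated by a finite Galois invariant set of points of a curve; extensions of places. -/

open ZC BE CV

namespace DC

/-- The composition of the actions on the points of a curve. -/
private theorem act_mul {F : Type} [Field F] {C : Crv F} {E E' : Type} [Field E] [Field E']
    [Algebra E E'] [Algebra F E] [Algebra F E'] [IsScalarTower F E E'] (σ τ : E' ≃ₐ[E] E')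
    (y : C.V.pt E') : C.V.act (σ * τ) y = C.V.act σ (C.V.act τ y) := by
  rcases y with _ | φ
  · rfl
  · rfl

private theorem act_one {F : Type} [Field F] {C : Crv F} {E E' : Type} [Field E] [Field E']
    [Algebra E E'] [Algebra F E] [Algebra F E'] [IsScalarTower F E E']
    (y : C.V.pt E') : C.V.act (1 : E' ≃ₐ[E] E') y = y := by
  rcases y with _ | φ
  · rfl
  · rfl

/-- An automorphism fixes the point `some φ` when it fixes all the values of `φ`. -/
private theorem act_some {F : Type} [Field F] {C : Crv F} {E E' : Type} [Field E] [Field E']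
    [Algebra E E'] [Algebra F E] [Algebra F E'] [IsScalarTower F E E'] (σ : E' ≃ₐ[E] E')
    (φ : C.A →ₐ[F] E') : C.V.act σ (some φ : C.V.pt E') = (some φ : C.V.pt E') ↔
      ∀ a, σ (φ a) = φ a := by
  constructor
  · intro h a
    have h1 : (some ((σ.restrictScalars F : E' →ₐ[F] E').comp φ) : Option (C.A →ₐ[F] E')) = some φ := h
    have h2 := Option.some.inj h1
    have h3 := DFunLike.congr_fun h2 a
    exact h3
  · intro h
    have h1 : (σ.restrictScalars F : E' →ₐ[F] E').comp φ = φ := AlgHom.ext h
    change (some ((σ.restrictScalars F : E' →ₐ[F] E').comp φ) : Option (C.A →ₐ[F] E')) = some φ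
    rw [h1]

/-- **The field of a finite Galois invariant set of points.** Proof: `A` is of finite type over `F` (`C.sm`), so the values `φ a` of the homomorphisms `φ`, `some φ ∈ Y`, generate a finite extension `L` of `E` (it is generated by the values at finitely many generators), which is stable under all automorphisms, so it is Galois over `E`; an automorphism of `L` over `E` is determined by the permutation
of `Y`: `Gal (L / E)` is isomorphic to a subgroup of the permutations of `Y`, so `[L : E]` divides `(Y.ncard)!` (`Subgroup.card_subgroup_dvd_card`, `IsGalois.card_aut_eq_finrank`). -/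
theorem exists_ef {F : Type} [Field F] {C : Crv F} {E E' : Type} [Field E] [CharZero E] [Field E']
    [Algebra E E'] [IsAlgClosure E E'] [Algebra F E] [Algebra F E'] [IsScalarTower F E E']
    {Y : Set (C.V.pt E')} (hY : Y.Finite) (hs : ∀ (σ : E' ≃ₐ[E] E'), ∀ y ∈ Y, C.V.act σ y ∈ Y) :
    ∃ L : IntermediateField E E', FiniteDimensional E L ∧
      (Module.finrank E L ∣ Y.ncard.factorial) ∧
      ∀ y ∈ Y, ∀ σ : E' ≃ₐ[L] E', C.V.act σ y = y := by
  classical
  have halg : Algebra.IsAlgebraic E E' := IsAlgClosure.isAlgebraic
  have hsm : Algebra.Smooth F C.A := C.sm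
  have hft : Algebra.FiniteType F C.A := inferInstance
  obtain ⟨G, hG⟩ := hft.out
  -- the values at the generators
  let S : Set E' := {x | ∃ φ : C.A →ₐ[F] E', (some φ : C.V.pt E') ∈ Y ∧ ∃ g ∈ G, x = φ g}
  have hSf : S.Finite := by
    have h1 : S ⊆ ⋃ y ∈ Y, ⋃ g ∈ (G : Set C.A),
        {x | ∃ φ : C.A →ₐ[F] E', y = (some φ : C.V.pt E') ∧ x = φ g} := by
      rintro x ⟨φ, hφ, g, hg, rfl⟩
      simp only [Set.mem_iUnion]
      exact ⟨_, hφ, g, hg, φ, rfl, rfl⟩
    refine Set.Finite.subset ?_ h1
    refine hY.biUnion fun y _ => G.finite_toSet.biUnion fun g _ => ?_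
    refine Set.Subsingleton.finite ?_
    rintro x ⟨φ, h2, rfl⟩ x' ⟨φ', h3, rfl⟩
    rw [h2] at h3
    have h4 : φ = φ' := Option.some.inj h3
    rw [h4]
  let L : IntermediateField E E' := IntermediateField.adjoin E S
  have hfd : FiniteDimensional E L := by
    have : Finite S := hSf
    apply IntermediateField.finiteDimensional_adjoin
    intro x _
    exact Algebra.IsIntegral.isIntegral x
  -- the values of the points are in `L`
  have hval : ∀ φ : C.A →ₐ[F] E', (some φ : C.V.pt E') ∈ Y → ∀ a, φ a ∈ L := by
    intro φ hφ a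
    have h1 : a ∈ Algebra.adjoin F (G : Set C.A) := by
      rw [hG]
      trivial
    induction h1 using Algebra.adjoin_induction with
    | mem g hg => exact IntermediateField.subset_adjoin _ _ ⟨φ, hφ, g, hg, rfl⟩
    | algebraMap c =>
      rw [AlgHom.commutes, IsScalarTower.algebraMap_apply F E E']
      exact L.algebraMap_mem _
    | add a b _ _ ha hb =>
      rw [map_add]
      exact add_mem ha hb
    | mul a b _ _ ha hb =>
      rw [map_mul]
      exact mul_mem ha hb
  -- an automorphism which fixes `Y` fixes `L`
  have hfix : ∀ σ : E' ≃ₐ[E] E', (∀ y ∈ Y, C.V.act σ y = y) ↔ ∀ x ∈ L, σ x = x := by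
    intro σ
    constructor
    · intro h x hx
      have h1 : L ≤ IntermediateField.fixedField (Subgroup.zpowers σ) := by
        rw [IntermediateField.adjoin_le_iff]
        rintro _ ⟨φ, hφ, g, _, rfl⟩
        rw [SetLike.mem_coe, IntermediateField.mem_fixedField_iff]
        intro τ hτ
        have h3 : ∀ y ∈ Y, C.V.act τ y = y := by
          intro y hy
          have h4 : Subgroup.zpowers σ ≤
              { carrier := {τ : E' ≃ₐ[E] E' | C.V.act τ y = y}
                mul_mem' := fun {a b} ha hb => by
                  change C.V.act (a * b) y = y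
                  rw [act_mul, show C.V.act b y = y from hb, show C.V.act a y = y from ha]
                one_mem' := act_one y
                inv_mem' := fun {a} ha => by
                  change C.V.act a⁻¹ y = y
                  have h5 : C.V.act a⁻¹ (C.V.act a y) = y := by
                    rw [← act_mul, inv_mul_cancel, act_one]
                  rw [show C.V.act a y = y from ha] at h5
                  exact h5 } := by
            rw [Subgroup.zpowers_le]
            exact h y hy
          exact h4 hτ
        exact (act_some τ φ).1 (h3 _ hφ) g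
      have h2 := h1 hx
      rw [IntermediateField.mem_fixedField_iff] at h2
      exact h2 σ (Subgroup.mem_zpowers σ)
    · intro h y hy
      rcases y with _ | φ
      · rfl
      · exact (act_some σ φ).2 fun a => h _ (hval φ hy a)
  refine ⟨L, hfd, ?_, ?_⟩
  · -- `L` is stable under the automorphisms
    have hst : ∀ σ : E' ≃ₐ[E] E', ∀ x ∈ L, σ x ∈ L := by
      intro σ x hx
      have h1 : L ≤ L.comap (σ : E' →ₐ[E] E') := by
        rw [IntermediateField.adjoin_le_iff]
        rintro _ ⟨φ, hφ, g, hg, rfl⟩
        have h2 := hs σ _ hφ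
        exact IntermediateField.subset_adjoin _ _ ⟨_, h2, g, hg, rfl⟩
      exact h1 hx
    have hn' : Normal E E' := by
      have := IsAlgClosure.normal E E'
      exact this
    have hn : Normal E L := by
      rw [IntermediateField.normal_iff_forall_map_le']
      intro σ
      rintro _ ⟨x, hx, rfl⟩
      exact hst σ x hx
    have hgal : IsGalois E L := ⟨⟩
    rw [← IsGalois.card_aut_eq_finrank]
    let ψ : (E' ≃ₐ[E] E') →* Equiv.Perm Y :=
      { toFun := fun σ =>
          { toFun := fun y => ⟨C.V.act σ y, hs σ y y.2⟩
            invFun := fun y => ⟨C.V.act σ⁻¹ y, hs σ⁻¹ y y.2⟩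
            left_inv := fun y => Subtype.ext (by
              change C.V.act σ⁻¹ (C.V.act σ y) = y
              rw [← act_mul, inv_mul_cancel, act_one])
            right_inv := fun y => Subtype.ext (by
              change C.V.act σ (C.V.act σ⁻¹ y) = y
              rw [← act_mul, mul_inv_cancel, act_one]) }
        map_one' := Equiv.ext fun y => Subtype.ext (act_one (y : C.V.pt E'))
        map_mul' := fun σ τ => Equiv.ext fun y => Subtype.ext (act_mul σ τ (y : C.V.pt E')) }
    have hker : (AlgEquiv.restrictNormalHom (F := E) (K₁ := E') L).ker = ψ.ker := by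
      ext σ
      rw [MonoidHom.mem_ker, MonoidHom.mem_ker]
      constructor
      · intro h
        apply Equiv.ext
        intro y
        apply Subtype.ext
        change C.V.act σ (y : C.V.pt E') = y
        refine (hfix σ).2 (fun x hx => ?_) y y.2
        have h1 := AlgEquiv.restrictNormal_commutes σ L ⟨x, hx⟩
        have h2 : (AlgEquiv.restrictNormal σ L) ⟨x, hx⟩ = ⟨x, hx⟩ := by
          have := DFunLike.congr_fun h ⟨x, hx⟩
          exact this
        rw [h2] at h1
        exact h1.symm
      · intro h
        apply AlgEquiv.ext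
        intro x
        have h1 := AlgEquiv.restrictNormal_commutes σ L x
        apply Subtype.ext
        refine Eq.trans h1 ?_
        refine (hfix σ).1 (fun y hy => ?_) x x.2
        have h2 := congrArg (fun e : Equiv.Perm Y => ((e ⟨y, hy⟩ : Y) : C.V.pt E')) h
        exact h2
    have hsurj : Function.Surjective (AlgEquiv.restrictNormalHom (F := E) (K₁ := E') L) :=
      AlgEquiv.restrictNormalHom_surjective E'
    have e1 := QuotientGroup.quotientKerEquivOfSurjective _ hsurj
    have e2 := QuotientGroup.quotientKerEquivRange ψ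
    have e3 := QuotientGroup.quotientMulEquivOfEq hker
    have h1 : Nat.card (L ≃ₐ[E] L) = Nat.card ψ.range :=
      Nat.card_congr ((e1.symm.trans e3).trans e2).toEquiv
    have h2 : Nat.card (Equiv.Perm Y) = Y.ncard.factorial := by
      have : Finite Y := hY
      rw [Nat.card_perm]
      rfl
    rw [← h2]
    rw [h1]
    exact Subgroup.card_subgroup_dvd_card _
  · intro y hy σ
    rcases y with _ | φ
    · rfl
    · refine (act_some σ φ).2 fun a => ?_
      exact σ.commutes (⟨φ a, hval φ hy a⟩ : L)

/-- A polynomial with coefficients in a valuation ring, one of them equal to one. -/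
private theorem pe_norm {E : Type} [Field E] (V : ValuationSubring E) {p : Polynomial E}
    (hp : p ≠ 0) : ∃ (c : E) (q : Polynomial V) (i : ℕ), c ≠ 0 ∧ q.coeff i = 1 ∧
      q.map V.subtype = Polynomial.C c * p := by
  classical
  have hne : p.support.Nonempty := Polynomial.support_nonempty.2 hp
  obtain ⟨i, hi, hmax⟩ := Finset.exists_max_image p.support (fun n => V.valuation (p.coeff n)) hne
  have hi0 : p.coeff i ≠ 0 := Polynomial.mem_support_iff.1 hi
  have hv0 : V.valuation (p.coeff i) ≠ 0 := (V.valuation.ne_zero_iff).2 hi0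
  have hmem : ∀ n, (p.coeff i)⁻¹ * p.coeff n ∈ V := by
    intro n
    by_cases hn : p.coeff n = 0
    · rw [hn, mul_zero]
      exact V.zero_mem
    · rw [← V.valuation_le_one_iff, map_mul, map_inv₀]
      have h1 := hmax n (Polynomial.mem_support_iff.2 hn)
      rw [mul_comm, ← div_eq_mul_inv]
      exact (div_le_one₀ (zero_lt_iff.2 hv0)).2 h1
  have hl : Polynomial.C (p.coeff i)⁻¹ * p ∈ Polynomial.lifts V.subtype := by
    rw [Polynomial.lifts_iff_coeff_lifts]
    intro n
    rw [Polynomial.coeff_C_mul]
    exact ⟨⟨_, hmem n⟩, rfl⟩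
  obtain ⟨q, hq⟩ := (Polynomial.mem_lifts _).1 hl
  refine ⟨(p.coeff i)⁻¹, q, i, inv_ne_zero hi0, ?_, hq⟩
  apply Subtype.ext
  have h1 := congrArg (fun r => Polynomial.coeff r i) hq
  simp only [Polynomial.coeff_map, Polynomial.coeff_C_mul] at h1
  rw [inv_mul_cancel₀ hi0] at h1
  exact h1

/-- **Extension of places** to an algebraic extension. Proof: see the library (`PlX`, `Be/PlX.lean`; `Place` of the algebraic closure above a place): Zorn or `exists` of a valuation ring above `w.V`, its residue field is algebraic over that of `w`, `Ω` is algebraically closed. -/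
theorem exists_pe {K E E' Ω : Type} [Field K] [Field E] [Field E'] [Field Ω] [IsAlgClosed Ω]
    [Algebra K E] [Algebra K E'] [Algebra E E'] [IsScalarTower K E E'] [Algebra K Ω]
    [Algebra.IsAlgebraic E E'] (w : Place K E Ω) :
    ∃ W : Place K E' Ω, (∀ a : E, algebraMap E E' a ∈ W.V ↔ a ∈ w.V) ∧
      ∀ (a : E) (h : a ∈ w.V) (h' : algebraMap E E' a ∈ W.V), W.res ⟨_, h'⟩ = w.res ⟨a, h⟩ := by
  classical
  let f : w.V →+* E' := (algebraMap E E').comp w.V.subtype
  obtain ⟨V', hV', hloc⟩ := IsLocalRing.exists_factor_valuationRing f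
  let r : w.V →+* V' := f.codRestrict V'.toSubring hV'
  have hr : IsLocalHom r := hloc
  have hrv : ∀ a : w.V, ((r a : V') : E') = algebraMap E _ (a : E) := fun a => rfl
  have hiff : ∀ a : E, algebraMap E E' a ∈ V' ↔ a ∈ w.V := by
    intro a
    constructor
    · intro h
      by_contra ha
      have ha' : a⁻¹ ∈ w.V := (w.V.mem_or_inv_mem a).resolve_left ha
      have ha0 : a ≠ 0 := fun h0 => ha (by rw [h0]; exact w.V.zero_mem)
      have hu : IsUnit (r ⟨a⁻¹, ha'⟩) := by
        refine IsUnit.of_mul_eq_one (⟨algebraMap E E' a, h⟩ : V') ?_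
        apply Subtype.ext
        change algebraMap E E' a⁻¹ * algebraMap E E' a = 1
        rw [← map_mul, inv_mul_cancel₀ ha0, map_one]
      have hu' : IsUnit (⟨a⁻¹, ha'⟩ : w.V) := IsUnit.of_map r _ hu
      obtain ⟨b, hb⟩ := hu'.exists_left_inv
      apply ha
      have h1 : (b : E) = a := by
        have h2 : (b : E) * a⁻¹ = 1 := congrArg Subtype.val hb
        field_simp at h2
        exact h2
      rw [← h1]
      exact b.2
    · intro h
      exact hV' ⟨a, h⟩
  -- the residue fields
  have hwl : IsLocalHom w.res := Fa.isLocalHom_res w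
  let i1 : Algebra (IsLocalRing.ResidueField w.V) (IsLocalRing.ResidueField V') :=
    (IsLocalRing.ResidueField.map r).toAlgebra
  let i2 : Algebra (IsLocalRing.ResidueField w.V) Ω :=
    (IsLocalRing.ResidueField.lift w.res).toAlgebra
  have halg : Algebra.IsAlgebraic (IsLocalRing.ResidueField w.V) (IsLocalRing.ResidueField V') := by
    refine ⟨fun z => ?_⟩
    obtain ⟨x, rfl⟩ := IsLocalRing.residue_surjective z
    obtain ⟨p, hp, hpx⟩ : IsAlgebraic E (x : E') :=
      Algebra.IsAlgebraic.isAlgebraic _
    obtain ⟨c, q, i, hc, hqi, hq⟩ := pe_norm w.V hp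
    have h1 : Polynomial.eval₂ r x q = 0 := by
      apply Subtype.ext
      have h2 : ((Polynomial.eval₂ r x q : V') : E') =
          Polynomial.eval₂ f (x : E') q :=
        Polynomial.hom_eval₂ q r V'.subtype x
      rw [h2]
      have h3 : Polynomial.eval₂ f (x : E') q =
          Polynomial.aeval (x : E') (q.map w.V.subtype) := by
        rw [Polynomial.aeval_def, Polynomial.eval₂_map]
      rw [h3, hq, map_mul, hpx, mul_zero]
      rfl
    refine ⟨q.map (IsLocalRing.residue w.V), fun h0 => ?_, ?_⟩
    · have h2 := congrArg (fun r => Polynomial.coeff r i) h0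
      simp only [Polynomial.coeff_map, Polynomial.coeff_zero] at h2
      rw [hqi, map_one] at h2
      exact one_ne_zero h2
    · have h2 := congrArg (IsLocalRing.residue V') h1
      rw [Polynomial.hom_eval₂, map_zero] at h2
      rw [Polynomial.aeval_def, Polynomial.eval₂_map]
      exact h2
  let φ : IsLocalRing.ResidueField V' →ₐ[IsLocalRing.ResidueField w.V] Ω := IsAlgClosed.lift
  have hφ : ∀ a : w.V, φ (IsLocalRing.residue V' (r a)) = w.res a := by
    intro a
    have h1 := φ.commutes (IsLocalRing.residue w.V a)
    exact h1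
  have hMmem : ∀ a : K, algebraMap K E' a ∈ V' := by
    intro a
    rw [IsScalarTower.algebraMap_apply K E E', hiff]
    exact w.mem a
  refine ⟨⟨V', fun htop => w.ne_top ?_, hMmem, (φ : IsLocalRing.ResidueField V' →+* Ω).comp
    (IsLocalRing.residue V'), fun a => ?_, fun x hx => ?_⟩, hiff, fun a h h' => ?_⟩
  · rw [eq_top_iff]
    intro a _
    rw [← hiff, htop]
    exact ValuationSubring.mem_top _
  · rw [← w.res_k a, ← hφ]
    change φ (IsLocalRing.residue V' _) = φ (IsLocalRing.residue V' _)
    congr 2
    apply Subtype.ext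
    exact IsScalarTower.algebraMap_apply K E E' a
  · change φ (IsLocalRing.residue V' x) = 0
    rw [(IsLocalRing.residue_eq_zero_iff x).2 hx, map_zero]
  · exact hφ ⟨a, h⟩

/-- A finite extension of a function field is a function field. -/
theorem ff_fin {K E E' : Type} [Field K] [Field E] [Field E'] [Algebra K E] [Algebra K E']
    [Algebra E E'] [IsScalarTower K E E'] [FiniteDimensional E E'] (hE : IsFunField K E) :
    IsFunField K E' :=
  Cu.isFunField_ext hE

end DC
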