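import Pool.Agent.Lib.MP_f80667_ag.Cv.CyA
import Pool.Agent.Lib.MP_f80667_ag.Cv.XpD
import Pool.Agent.Lib.MP_f80667_ag.Cv.PlI
import Pool.Agent.Lib.MP_f80667_ag.Be.Defs

/-! The values of functions at a point of a curve which goes to infinity at a place. -/

open ZC TensorProduct

namespace DC

variable {F : Type} [Field F] {C : CV.Crv F} {K E Ω : Type} [Field K] [Field E] [Field Ω]
  [Algebra K E] [Algebra K Ω] [Algebra F K] [Algebra F E] [IsScalarTower F K E]

/-- A point which is not constant is an embedding of the functions. -/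
private theorem inf_inj (w : Place K E Ω) (φ : C.A →ₐ[F] E) (hφ : ∃ a, φ a ∉ w.V) :
    Function.Injective (CV.xl K φ) := by
  have hsm := C.sm
  have hded : IsDedekindDomain (K ⊗[F] C.A) := C.dedO K
  have hp : (RingHom.ker (CV.xl K φ)).IsPrime := RingHom.ker_isPrime _
  by_contra hcon
  have hne : RingHom.ker (CV.xl K φ) ≠ ⊥ := by
    intro h
    exact hcon ((RingHom.injective_iff_ker_eq_bot _).2 h)
  have hmax : (RingHom.ker (CV.xl K φ)).IsMaximal := hp.isMaximal hne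
  let _ : Field ((K ⊗[F] C.A) ⧸ RingHom.ker (CV.xl K φ)) := Ideal.Quotient.field _
  have hft : Algebra.FiniteType K ((K ⊗[F] C.A) ⧸ RingHom.ker (CV.xl K φ)) := inferInstance
  have hfin : Module.Finite K ((K ⊗[F] C.A) ⧸ RingHom.ker (CV.xl K φ)) :=
    finite_of_finite_type_of_isJacobsonRing _ _
  obtain ⟨a, ha⟩ := hφ
  apply ha
  let ψ : ((K ⊗[F] C.A) ⧸ RingHom.ker (CV.xl K φ)) →ₐ[K] E :=
    Ideal.Quotient.liftₐ _ (CV.xl K φ) fun x hx => hx
  have h1 : IsIntegral K (Ideal.Quotient.mk (RingHom.ker (CV.xl K φ)) ((1 : K) ⊗ₜ[F] a)) :=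
    Algebra.IsIntegral.isIntegral _
  have h2 : IsIntegral K (φ a) := by
    have h3 := h1.map ψ
    have h4 : ψ (Ideal.Quotient.mk (RingHom.ker (CV.xl K φ)) ((1 : K) ⊗ₜ[F] a)) = φ a := by
      change CV.xl K φ ((1 : K) ⊗ₜ[F] a) = φ a
      rw [CV.xl_tmul, map_one, one_mul]
    rwa [h4] at h3
  obtain ⟨p, hp1, hp2⟩ := h2
  have h3 : IsIntegral w.V (φ a) := by
    let q : K →+* w.V := (algebraMap K E).codRestrict w.V.toSubring w.mem
    refine ⟨p.map q, hp1.map _, ?_⟩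
    rw [Polynomial.eval₂_map]
    exact hp2
  obtain ⟨y, hy⟩ := (IsIntegrallyClosed.isIntegral_iff (R := w.V) (K := E)).1 h3
  rw [← hy]
  exact y.2

/-- **Points at infinity.** The quotient `f / g` of functions with `deg f < deg g` has the value `0` at a point which goes to infinity,
and functions of positive degree are not integral there. -/
theorem inf_val (w : Place K E Ω) (φ : C.A →ₐ[F] E) (hφ : ∃ a, φ a ∉ w.V) {f g : K ⊗[F] C.A}
    (hg : g ≠ 0) (h : (C.G.bc K).d f < (C.G.bc K).d g) :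
    CV.xl K φ g ≠ 0 ∧ ∃ h : CV.xl K φ f / CV.xl K φ g ∈ w.V, w.res ⟨_, h⟩ = 0 := by
  have hinj := inf_inj w φ hφ
  have hdom : IsDomain (K ⊗[F] C.A) := C.domO K
  have hg0 : CV.xl K φ g ≠ 0 := fun h0 => hg (hinj (by rw [h0, map_zero]))
  let ψ : FractionRing (K ⊗[F] C.A) →ₐ[K] E := IsFractionRing.liftAlgHom hinj
  have hψ : ∀ x, ψ (algebraMap _ (FractionRing (K ⊗[F] C.A)) x) = CV.xl K φ x := by
    intro x
    exact IsFractionRing.lift_algebraMap hinj x
  let V : ValuationSubring (FractionRing (K ⊗[F] C.A)) := w.V.comap (ψ : _ →+* E)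
  obtain ⟨a, ha⟩ := hφ
  have hb : algebraMap (K ⊗[F] C.A) (FractionRing (K ⊗[F] C.A)) ((1 : K) ⊗ₜ[F] a) ∉ V := by
    intro hb
    apply ha
    have h1 : ψ (algebraMap _ (FractionRing (K ⊗[F] C.A)) ((1 : K) ⊗ₜ[F] a)) ∈ w.V := hb
    rwa [hψ, CV.xl_tmul, map_one, one_mul] at h1
  have hV : V = (C.G.bc K).vi := by
    refine (C.G.bc K).eq_vi V (fun c => ?_) (fun h0 => hb (h0 ▸ ValuationSubring.mem_top _)) hb
    change ψ (algebraMap K _ c) ∈ w.V
    rw [AlgHom.commutes]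
    exact w.mem c
  have h1 := ((C.G.bc K).non_vi (E := FractionRing (K ⊗[F] C.A)) (f := f) hg).2 h
  rw [← hV] at h1
  have h2 : CV.xl K φ f / CV.xl K φ g ∈ w.V.nonunits := by
    rw [ValuationSubring.mem_nonunits_iff_or] at h1 ⊢
    rcases h1 with h1 | h1
    · left
      have h3 := congrArg ψ h1
      rwa [map_div₀, hψ, hψ, map_zero] at h3
    · right
      intro h3
      apply h1
      change ψ _ ∈ w.V
      rwa [map_inv₀, map_div₀, hψ, hψ]
  have h3 : CV.xl K φ f / CV.xl K φ g ∈ w.V := ValuationSubring.nonunits_subset h2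
  refine ⟨hg0, h3, w.res_zero _ fun hu => ?_⟩
  exact (ValuationSubring.coe_mem_nonunits_iff (a := (⟨_, h3⟩ : w.V))).1 h2 |> (fun h => h hu)

end DC
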