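import Pool.Agent.Lib.MP_f80667_ag.Cv.CyA
import Pool.Agent.Lib.MP_f80667_ag.Cv.XpD
import Pool.Agent.Lib.MP_f80667_ag.Be.Defs

/-! Lifting of the zeros of a function on a curve from the residue field of a place. -/

open ZC TensorProduct

namespace DC

section core

variable {F A E Ω : Type} [Field F] [CommRing A] [Algebra F A] [Field E] [Field Ω] [Algebra F E]
  [Algebra F Ω] {V : ValuationSubring E} [Algebra F V] [IsScalarTower F V E] (r : V →ₐ[F] Ω)

/-- The functions with integral coefficients. -/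
private noncomputable def jj (F A : Type) [Field F] [CommRing A] [Algebra F A] {E : Type} [Field E]
    [Algebra F E] (V : ValuationSubring E) [Algebra F V] [IsScalarTower F V E] :
    V ⊗[F] A →ₐ[F] E ⊗[F] A :=
  Algebra.TensorProduct.map (IsScalarTower.toAlgHom F V E) (AlgHom.id F A)

/-- The residue of a function. -/
private noncomputable def rr (A : Type) [CommRing A] [Algebra F A] (r : V →ₐ[F] Ω) :
    V ⊗[F] A →ₐ[F] Ω ⊗[F] A :=
  Algebra.TensorProduct.map r (AlgHom.id F A)

private theorem jj_tmul (c : V) (a : A) : jj F A V (c ⊗ₜ a) = (c : E) ⊗ₜ a := rfl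

omit [Algebra F E] [IsScalarTower F V E] in
private theorem rr_tmul (c : V) (a : A) : rr A r (c ⊗ₜ a) = r c ⊗ₜ a := rfl

private theorem repr_jj {ι : Type} (b : Module.Basis ι F A) (z : V ⊗[F] A) (i : ι) :
    (b.baseChange E).repr (jj F A V z) i = ((b.baseChange V).repr z i : E) := by
  induction z with
  | zero => rw [map_zero, map_zero, map_zero, Finsupp.zero_apply, Finsupp.zero_apply]; rfl
  | tmul c a =>
    rw [jj_tmul, Module.Basis.baseChange_repr_tmul, Module.Basis.baseChange_repr_tmul,
      Algebra.smul_def, Algebra.smul_def, IsScalarTower.algebraMap_apply F V E]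
    rfl
  | add x y hx hy =>
    rw [map_add, map_add, map_add, Finsupp.add_apply, Finsupp.add_apply, hx, hy]
    rfl

omit [Algebra F E] [IsScalarTower F V E] in
private theorem repr_rr {ι : Type} (b : Module.Basis ι F A) (z : V ⊗[F] A) (i : ι) :
    (b.baseChange Ω).repr (rr A r z) i = r ((b.baseChange V).repr z i) := by
  induction z with
  | zero => rw [map_zero, map_zero, map_zero, Finsupp.zero_apply, Finsupp.zero_apply, map_zero]
  | tmul c a =>
    rw [rr_tmul, Module.Basis.baseChange_repr_tmul, Module.Basis.baseChange_repr_tmul,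
      Algebra.smul_def, Algebra.smul_def, map_mul, AlgHom.commutes]
  | add x y hx hy =>
    rw [map_add, map_add, map_add, Finsupp.add_apply, Finsupp.add_apply, map_add, hx, hy]

private theorem jj_inj : Function.Injective (jj F A V) := by
  rw [injective_iff_map_eq_zero]
  intro z hz
  let b := Module.Basis.ofVectorSpace F A
  apply (b.baseChange V).repr.injective
  rw [map_zero]
  ext i
  rw [← repr_jj, hz, map_zero, Finsupp.zero_apply, Finsupp.zero_apply]
  rfl

omit [Algebra F E] [IsScalarTower F V E] in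
private theorem tf {c : V} (hc : c ≠ 0) {z z' : V ⊗[F] A} (h : c • z = c • z') : z = z' := by
  let b := Module.Basis.ofVectorSpace F A
  apply (b.baseChange V).repr.injective
  ext i
  have h1 := congrArg (fun t => (b.baseChange V).repr t i) h
  simp only [map_smul, Finsupp.smul_apply, smul_eq_mul] at h1
  exact congrArg Subtype.val (mul_left_cancel₀ hc h1)

omit [Algebra F E] [IsScalarTower F V E] in
/-- The content of a function. -/
private theorem content (z : V ⊗[F] A) (hz : z ≠ 0) :
    ∃ c : V, c ≠ 0 ∧ ∃ z', z = c • z' ∧ rr A r z' ≠ 0 := by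
  classical
  let b := Module.Basis.ofVectorSpace F A
  obtain ⟨g, hg⟩ : ∃ g, g = (b.baseChange V).repr z := ⟨_, rfl⟩
  have hg0 : g.support.Nonempty := by
    rw [Finsupp.support_nonempty_iff]
    rintro rfl
    apply hz
    apply (b.baseChange V).repr.injective
    rw [← hg, map_zero]
  obtain ⟨i₀, hi₀, hmax⟩ := g.support.exists_max_image (fun i => V.valuation (g i : E)) hg0
  have hc : g i₀ ≠ 0 := Finsupp.mem_support_iff.1 hi₀
  have hc' : (g i₀ : E) ≠ 0 := fun h => hc (Subtype.ext h)
  have hdiv : ∀ i, (g i : E) / g i₀ ∈ V := by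
    intro i
    rw [← V.valuation_le_one_iff, map_div₀]
    have hp : 0 < V.valuation (g i₀ : E) := by
      rw [zero_lt_iff, Ne, map_eq_zero]
      exact hc'
    rw [div_le_one₀ hp]
    by_cases hi : i ∈ g.support
    · exact hmax i hi
    · rw [Finsupp.notMem_support_iff] at hi
      rw [hi]
      change V.valuation (0 : E) ≤ _
      rw [map_zero]
      exact zero_le
  have hex : ∀ i, ∃ t : V, g i = g i₀ * t := fun i =>
    ⟨⟨_, hdiv i⟩, Subtype.ext (mul_div_cancel₀ (g i : E) hc').symm⟩
  choose t ht using hex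
  have ht0 : ∀ i, i ∉ g.support → t i = 0 := by
    intro i hi
    rw [Finsupp.notMem_support_iff] at hi
    have h1 := ht i
    rw [hi] at h1
    exact (mul_eq_zero.1 h1.symm).resolve_left hc
  let s : (Module.Basis.ofVectorSpaceIndex F A) →₀ V :=
    Finsupp.onFinset g.support t fun i hi => by
      by_contra hcon
      exact hi (ht0 i hcon)
  refine ⟨g i₀, hc, (b.baseChange V).repr.symm s, ?_, ?_⟩
  · apply (b.baseChange V).repr.injective
    rw [map_smul, LinearEquiv.apply_symm_apply, ← hg]
    ext i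
    change (g i : E) = ((g i₀ * t i : V) : E)
    rw [← ht i]
  · intro h0
    have h1 := repr_rr r b ((b.baseChange V).repr.symm s) i₀
    rw [h0, map_zero, Finsupp.zero_apply, LinearEquiv.apply_symm_apply] at h1
    have h2 : t i₀ = 1 := by
      have h3 := ht i₀
      have h4 : g i₀ * 1 = g i₀ * t i₀ := by rw [mul_one]; exact h3
      exact (mul_left_cancel₀ hc h4).symm
    have h3 : s i₀ = 1 := h2
    rw [h3, map_one] at h1
    exact zero_ne_one h1

/-- Clearing denominators. -/
private theorem clear (z : E ⊗[F] A) : ∃ c : V, c ≠ 0 ∧ ∃ z' : V ⊗[F] A, (c : E) • z = jj F A V z' := by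
  induction z with
  | zero => exact ⟨1, one_ne_zero, 0, by rw [smul_zero, map_zero]⟩
  | tmul e a =>
    rcases V.mem_or_inv_mem e with h | h
    · refine ⟨1, one_ne_zero, (⟨e, h⟩ : V) ⊗ₜ a, ?_⟩
      rw [jj_tmul]
      exact one_smul E _
    · by_cases he : e = 0
      · subst he
        exact ⟨1, one_ne_zero, 0, by rw [zero_tmul, smul_zero, map_zero]⟩
      · refine ⟨⟨e⁻¹, h⟩, fun h0 => inv_ne_zero he (congrArg Subtype.val h0), 1 ⊗ₜ a, ?_⟩
        rw [jj_tmul, TensorProduct.smul_tmul', smul_eq_mul, inv_mul_cancel₀ he]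
        rfl
  | add x y hx hy =>
    obtain ⟨c, hc, x', hx'⟩ := hx
    obtain ⟨d, hd, y', hy'⟩ := hy
    have hj : ∀ (c : V) (z : V ⊗[F] A), jj F A V (c • z) = (c : E) • jj F A V z := by
      intro c z
      induction z with
      | zero => rw [smul_zero, map_zero, smul_zero]
      | tmul e a => rw [TensorProduct.smul_tmul', jj_tmul, jj_tmul, TensorProduct.smul_tmul']; rfl
      | add x y hx hy => rw [smul_add, map_add, map_add, smul_add, hx, hy]
    refine ⟨c * d, mul_ne_zero hc hd, d • x' + c • y', ?_⟩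
    rw [map_add, hj, hj, ← hx', ← hy', smul_smul, smul_smul, smul_add]
    change ((c : E) * d) • x + ((c : E) * d) • y = _
    rw [mul_comm (d : E) c]

private theorem jj_smul (c : V) (z : V ⊗[F] A) : jj F A V (c • z) = (c : E) • jj F A V z := by
  induction z with
  | zero => rw [smul_zero, map_zero, smul_zero]
  | tmul e a => rw [TensorProduct.smul_tmul', jj_tmul, jj_tmul, TensorProduct.smul_tmul']; rfl
  | add x y hx hy => rw [smul_add, map_add, map_add, smul_add, hx, hy]

omit [Algebra F E] [IsScalarTower F V E] in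
private theorem rr_smul (c : V) (z : V ⊗[F] A) : rr A r (c • z) = r c • rr A r z := by
  induction z with
  | zero => rw [smul_zero, map_zero, smul_zero]
  | tmul e a =>
    rw [TensorProduct.smul_tmul', rr_tmul, rr_tmul, TensorProduct.smul_tmul', smul_eq_mul,
      smul_eq_mul, map_mul]
  | add x y hx hy => rw [smul_add, map_add, map_add, smul_add, hx, hy]

omit [Algebra F E] [IsScalarTower F V E] in
/-- The ideal of a function with residue not `0` is saturated. -/
private theorem sat [IsDomain (Ω ⊗[F] A)] (hr : ∀ x : V, ¬ IsUnit x → r x = 0) {L : V ⊗[F] A}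
    (hL : rr A r L ≠ 0) {z s : V ⊗[F] A} {c : V} (hc : c ≠ 0) (h : L * z = c • s) : L ∣ s := by
  by_cases hz : z = 0
  · subst hz
    rw [mul_zero] at h
    have h1 : s = 0 := by
      refine tf hc ?_
      rw [← h, smul_zero]
    rw [h1]
    exact dvd_zero L
  obtain ⟨c', hc', z', rfl, hz'⟩ := content r z hz
  rw [mul_smul_comm] at h
  rcases ValuationRing.dvd_total c' c with ⟨d, rfl⟩ | ⟨d, rfl⟩
  · rw [mul_smul] at h
    have h1 := tf hc' h
    have h2 : r d ≠ 0 := by
      intro h0
      have h3 := congrArg (rr A r) h1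
      rw [map_mul, rr_smul, h0, zero_smul] at h3
      exact mul_ne_zero hL hz' h3
    have h3 : IsUnit d := by
      by_contra hcon
      exact h2 (hr d hcon)
    obtain ⟨u, rfl⟩ := h3
    refine ⟨(↑u⁻¹ : V) • z', ?_⟩
    rw [mul_smul_comm, h1, smul_smul, Units.inv_mul, one_smul]
  · rw [mul_smul] at h
    have h1 := tf hc h
    exact ⟨d • z', by rw [mul_smul_comm, h1]⟩

/-- Lifting of zeros. -/
private theorem lift_core {C : CV.Crv F} [IsAlgClosed E] (hr : ∀ x : V, ¬ IsUnit x → r x = 0)
    {L : V ⊗[F] C.A} (hL : rr C.A r L ≠ 0) (u : C.A →ₐ[F] Ω) (hu : CV.vx u (rr C.A r L) = 0) :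
    ∃ y : C.A →ₐ[F] E, (∀ a, ∃ h : y a ∈ V, r ⟨y a, h⟩ = u a) ∧
      CV.vx y (jj F C.A V L) = 0 := by
  have hdomO : IsDomain (Ω ⊗[F] C.A) := C.domO Ω
  have hded : IsDedekindDomain (E ⊗[F] C.A) := C.dedO E
  let N : Submonoid (V ⊗[F] C.A) :=
    { carrier := {s | CV.vx u (rr C.A r s) ≠ 0}
      one_mem' := by
        change CV.vx u (rr C.A r 1) ≠ 0
        rw [map_one, map_one]
        exact one_ne_zero
      mul_mem' := by
        intro a b ha hb
        change CV.vx u (rr C.A r (a * b)) ≠ 0
        rw [map_mul, map_mul]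
        exact mul_ne_zero ha hb }
  have hdis : Disjoint ((Ideal.span {jj F C.A V L} : Ideal (E ⊗[F] C.A)) : Set (E ⊗[F] C.A))
      (N.map (jj F C.A V) : Set (E ⊗[F] C.A)) := by
    rw [Set.disjoint_left]
    rintro t ht ⟨s, hs, rfl⟩
    obtain ⟨t', ht'⟩ := Ideal.mem_span_singleton'.1 (SetLike.mem_coe.1 ht)
    obtain ⟨c, hc, z, hz⟩ := clear (V := V) t'
    have h1 : L * z = c • s := by
      apply jj_inj
      rw [map_mul, ← hz, jj_smul]
      have h2 : t' * (jj F C.A V) L = (jj F C.A V) s := ht'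
      rw [← h2, mul_smul_comm, mul_comm]
    obtain ⟨z', rfl⟩ := sat r hr hL hc h1
    apply hs
    rw [map_mul, map_mul, hu, zero_mul]
  obtain ⟨p, hp, hle, hpd⟩ := Ideal.exists_le_prime_disjoint _ _ hdis
  have hLp : jj F C.A V L ∈ p := hle (Ideal.mem_span_singleton_self _)
  have hp0 : p ≠ ⊥ := by
    rintro rfl
    rw [Ideal.mem_bot] at hLp
    have h1 : L = 0 := jj_inj (by rw [hLp, map_zero])
    exact hL (by rw [h1, map_zero])
  obtain ⟨y, rfl⟩ := CV.exists_mx (hp.isMaximal hp0)
  have key : ∀ s : V ⊗[F] C.A, CV.vx y (jj F C.A V s) = 0 → CV.vx u (rr C.A r s) = 0 := by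
    intro s hs
    by_contra hcon
    exact Set.disjoint_left.1 hpd (CV.mem_mx.2 hs) ⟨s, hcon, rfl⟩
  have hmem : ∀ a, y a ∈ V := by
    intro a
    rcases V.mem_or_inv_mem (y a) with h | h
    · exact h
    by_contra hcon
    have hy0 : y a ≠ 0 := by
      intro h0
      exact hcon (h0 ▸ V.zero_mem)
    have hnu : ¬ IsUnit (⟨(y a)⁻¹, h⟩ : V) := by
      rintro ⟨v, hv⟩
      apply hcon
      have h1 : ((v⁻¹ : Vˣ) : V).1 = y a := by
        have h2 : ((v : V) : E) = (y a)⁻¹ := by rw [hv]
        have h3 : ((v : V) : E) * ((v⁻¹ : Vˣ) : V).1 = 1 := congrArg Subtype.val v.mul_inv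
        rw [h2] at h3
        calc ((v⁻¹ : Vˣ) : V).1 = y a * ((y a)⁻¹ * ((v⁻¹ : Vˣ) : V).1) := by
              rw [← mul_assoc, mul_inv_cancel₀ hy0, one_mul]
          _ = y a := by rw [h3, mul_one]
      rw [← h1]
      exact ((v⁻¹ : Vˣ) : V).2
    have h0 := hr _ hnu
    have h1 := key ((⟨(y a)⁻¹, h⟩ : V) ⊗ₜ a - 1) (by
      rw [map_sub, map_sub, map_one, map_one, jj_tmul, CV.vx_tmul, inv_mul_cancel₀ hy0, sub_self])
    rw [map_sub, map_sub, map_one, map_one, rr_tmul, CV.vx_tmul, h0, zero_mul, zero_sub] at h1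
    exact one_ne_zero (neg_eq_zero.1 h1)
  refine ⟨y, fun a => ⟨hmem a, ?_⟩, CV.mem_mx.1 hLp⟩
  have h1 := key ((1 : V) ⊗ₜ a - (⟨y a, hmem a⟩ : V) ⊗ₜ 1) (by
    rw [map_sub, map_sub, jj_tmul, jj_tmul, CV.vx_tmul, CV.vx_tmul, map_one, mul_one]
    change (1 : E) * y a - y a = 0
    rw [one_mul, sub_self])
  rw [map_sub, map_sub, rr_tmul, rr_tmul, CV.vx_tmul, CV.vx_tmul, map_one, map_one, one_mul,
    mul_one, sub_eq_zero] at h1
  exact h1.symm

end core

section place

variable {F : Type} [Field F] {C : CV.Crv F} {K E Ω : Type} [Field K] [Field E] [IsAlgClosed E]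
  [Field Ω] [Algebra K E] [Algebra K Ω] [Algebra F K] [Algebra F E] [Algebra F Ω]
  [IsScalarTower F K E] [IsScalarTower F K Ω]

/-- **Lifting of zeros.** Let `∑ c_k g_k` be a function on the curve with coefficients `c_k` in the valuation ring of a place of the
algebraically closed field `E` (`g_k` functions over `K`) whose residue is not `0`. Every zero `u` of the residue is the value of a
zero `y` of the function. -/
theorem lift (w : Place K E Ω) {m : ℕ} (c : Fin m → w.V) (g : Fin m → K ⊗[F] C.A)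
    (h0 : ∑ k, w.res (c k) • CV.xi F C.A K Ω (g k) ≠ 0) (u : C.A →ₐ[F] Ω)
    (hu : ∑ k, w.res (c k) * CV.xl K u (g k) = 0) :
    ∃ y : C.A →ₐ[F] E, (∀ a, ∃ h : y a ∈ w.V, w.res ⟨y a, h⟩ = u a) ∧
      ∑ k, (c k : E) * CV.xl K y (g k) = 0 := by
  have hF : ∀ a : F, algebraMap F E a ∈ w.V := fun a => by
    rw [IsScalarTower.algebraMap_apply F K E]
    exact w.mem _
  let iV : Algebra F w.V := ((algebraMap F E).codRestrict w.V.toSubring hF).toAlgebra
  have iT : IsScalarTower F w.V E := IsScalarTower.of_algebraMap_eq fun a => rfl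
  let r : w.V →ₐ[F] Ω :=
    { w.res with
      commutes' := by
        intro a
        change w.res ⟨algebraMap F E a, hF a⟩ = algebraMap F Ω a
        have h1 : (⟨algebraMap F E a, hF a⟩ : w.V) =
            ⟨algebraMap K E (algebraMap F K a), w.mem _⟩ :=
          Subtype.ext (IsScalarTower.algebraMap_apply F K E a)
        rw [h1, w.res_k, ← IsScalarTower.algebraMap_apply] }
  let q : K →ₐ[F] w.V :=
    { (algebraMap K E).codRestrict w.V.toSubring w.mem with
      commutes' := by
        intro a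
        apply Subtype.ext
        exact (IsScalarTower.algebraMap_apply F K E a).symm }
  let qq : K ⊗[F] C.A →ₐ[F] w.V ⊗[F] C.A := Algebra.TensorProduct.map q (AlgHom.id F C.A)
  have hrq : ∀ x, rr C.A r (qq x) = CV.xi F C.A K Ω x := by
    intro x
    induction x with
    | zero => rw [map_zero, map_zero, map_zero]
    | tmul a b =>
      change r (q a) ⊗ₜ b = _
      rw [CV.xi_tmul]
      congr 1
      exact w.res_k a
    | add x y hx hy => rw [map_add, map_add, map_add, hx, hy]
  have hjq : ∀ (y : C.A →ₐ[F] E) x, CV.vx y (jj F C.A w.V (qq x)) = CV.xl K y x := by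
    intro y x
    induction x with
    | zero => rw [map_zero, map_zero, map_zero, map_zero]
    | tmul a b =>
      change CV.vx y ((q a : E) ⊗ₜ b) = _
      rw [CV.vx_tmul, CV.xl_tmul]
      rfl
    | add x y hx hy => rw [map_add, map_add, map_add, map_add, hx, hy]
  have huq : ∀ x, CV.vx u (CV.xi F C.A K Ω x) = CV.xl K u x := by
    intro x
    induction x with
    | zero => rw [map_zero, map_zero, map_zero]
    | tmul a b => rw [CV.xi_tmul, CV.vx_tmul, CV.xl_tmul]
    | add x y hx hy => rw [map_add, map_add, map_add, hx, hy]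
  have hrL : rr C.A r (∑ k, c k • qq (g k)) = ∑ k, w.res (c k) • CV.xi F C.A K Ω (g k) := by
    rw [map_sum]
    refine Finset.sum_congr rfl fun k _ => ?_
    rw [rr_smul, hrq]
    rfl
  obtain ⟨y, hy, hy0⟩ := lift_core (C := C) r w.res_zero (L := ∑ k, c k • qq (g k))
    (by rw [hrL]; exact h0) u (by
      rw [hrL, map_sum, ← hu]
      refine Finset.sum_congr rfl fun k _ => ?_
      rw [map_smul, huq, smul_eq_mul])
  refine ⟨y, hy, ?_⟩
  rw [map_sum, map_sum] at hy0
  rw [← hy0]
  refine Finset.sum_congr rfl fun k _ => ?_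
  rw [jj_smul, map_smul, hjq, smul_eq_mul]

end place

end DC
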