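import Pool.Agent.Lib.MP_f80667_ag.Cv.XpD
import Pool.Agent.Lib.MP_f80667_ag.Cv.Pi
import Pool.Agent.Lib.MP_f80667_ag.Cv.Defs

/-!
Pencils on a curve.

* `Pen C K r`: two functions `G`, `H` on the affine curve over `K` of degrees `r`, `r + 1` without common zeros.
* `Fib p x`: the points with the same value of `G / H` as `x`. `Zh p L`: the zeros of `H`. `ms p x`: the zeros of `H` and the points `≠ x`
  of the fibre of `x`.
* `Pgs p S B`: `H` has `r + 1` zeros, the fibres of the points of `S` have `r + 1` points, and the points of `ms p x`, `x ∈ S`, are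
  not in `B`.
* `mp p x`: the sum of the zeros of `H` minus the sum of the points `≠ x` of the fibre of `x`. `Sp p i`: the operator on cycles on the product
  which replaces the coordinate number `i` by `mp p`.
-/

open ZC BE CV TensorProduct

namespace DC

/-- A pencil. -/
structure Pen {F : Type} [Field F] (C : Crv F) (K : Type) [Field K] [Algebra F K] (r : ℕ) where
  G : K ⊗[F] C.A
  H : K ⊗[F] C.A
  hG : (C.G.bc K).d G = r
  hH : (C.G.bc K).d H = (r + 1 : ℕ)
  cop : IsCoprime G H

section pen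

variable {F : Type} [Field F] {C : Crv F} {K : Type} [Field K] [Algebra F K] {r : ℕ}
  (p : Pen C K r) {L : Type} [Field L] [Algebra F L] [Algebra K L] [IsScalarTower F K L]

/-- The fibre of the point `x`. -/
def Pen.Fib : C.V.pt L → Set (C.V.pt L)
  | none => {y | y = none ∨ ∃ φ : C.A →ₐ[F] L, y = some φ ∧ xl K φ p.G = 0}
  | some u => {y | (y = none ∧ xl K u p.G = 0) ∨
      ∃ φ : C.A →ₐ[F] L, y = some φ ∧ xl K u p.H * xl K φ p.G = xl K u p.G * xl K φ p.H}

variable (L) in
/-- The zeros of `H`. -/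
def Pen.Zh : Set (C.V.pt L) := {y | ∃ φ : C.A →ₐ[F] L, y = some φ ∧ xl K φ p.H = 0}

/-- The zeros of `H` and the points `≠ x` of the fibre of `x`. -/
def Pen.ms (x : C.V.pt L) : Set (C.V.pt L) := p.Zh L ∪ (p.Fib x \ {x})

/-- The pencil is general for the points in `S` and `B`. -/
structure Pgs (S B : Set (C.V.pt L)) : Prop where
  zc : (p.Zh L).ncard = r + 1
  zb : ∀ y ∈ p.Zh L, y ∉ B
  fc : ∀ t ∈ S, (p.Fib t).ncard = r + 1
  fi : ∀ t ∈ S, t ≠ none → (none : C.V.pt L) ∉ p.Fib t
  fb : ∀ t ∈ S, ∀ y ∈ p.Fib t, y ≠ t → y ∉ B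

/-- The sum of the zeros of `H` minus the sum of the points `≠ x` of the fibre of `x`. -/
noncomputable def Pen.mp (x : C.V.pt L) : C.V.pt L →₀ ℤ :=
  (∑ᶠ y ∈ p.Zh L, Finsupp.single y (1 : ℤ)) - ∑ᶠ y ∈ p.Fib x \ {x}, Finsupp.single y (1 : ℤ)

end pen

section prod

variable {F : Type} [Field F] {n : ℕ} {C : Fin n → Crv F} {K : Type} [Field K] [Algebra F K]
  {r : ℕ} (i : Fin n) (p : Pen (C i) K r) (L : Type) [Field L] [Algebra F L] [Algebra K L]
  [IsScalarTower F K L]

/-- The operator on cycles on the product which replaces the coordinate number `i` by `mp p`. -/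
noncomputable def Sp : ((∀ j, (C j).V.pt L) →₀ ℤ) →+ ((∀ j, (C j).V.pt L) →₀ ℤ) :=
  Finsupp.liftAddHom fun Q => zmultiplesHom _ (Finsupp.mapDomain (Function.update Q i) (p.mp (Q i)))

/-- The composition of the operators for the numbers in a list. -/
noncomputable def Mt {r : Fin n → ℕ} (p : ∀ i, Pen (C i) K (r i)) (L : Type) [Field L]
    [Algebra F L] [Algebra K L] [IsScalarTower F K L] :
    List (Fin n) → ((∀ j, (C j).V.pt L) →₀ ℤ) →+ ((∀ j, (C j).V.pt L) →₀ ℤ)
  | [] => AddMonoidHom.id _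
  | i :: l => (Sp i (p i) L).comp (Mt p L l)

end prod

/-- The statement of the existence of pencils of degree `r` on the curve `C`. -/
def ExPen {F : Type} [Field F] (C : Crv F) (r : ℕ) : Prop :=
  ∀ (K Ω : Type) [Field K] [CharZero K] [Field Ω] [Algebra K Ω] [IsAlgClosure K Ω] [Algebra F K]
    [Algebra F Ω] [IsScalarTower F K Ω] (S B : Set (C.V.pt Ω)), S.Finite → B.Finite →
    ∃ p : Pen C K r, Pgs p S B

end DC
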