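import Pool.Agent.Lib.MP_f80667_ag.Cv.Xp4
import Pool.Agent.Lib.MP_f80667_ag.Dc.Lift
import Pool.Agent.Lib.MP_f80667_ag.Dc.Inf
import Pool.Agent.Lib.MP_f80667_ag.Dc.PenD

/-!
The fibres of a pencil on a curve.

* `Pen.g`, `Pen.h`: the homogeneous coordinates of the value of `G / H` at a point (`(0 : 1)` at infinity).
* `mem_fib`, `mem_zh`: the fibre through `x` and the zeros of `H` in these terms; `fib_fin`, `fib_card`, `zh_fin`, `zh_card`.
* `pts C f`: the finite zeros of a function `f`; `pts_card_eq`: their number if all zeros are simple.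
-/

open ZC TensorProduct

namespace DC

section count

variable {F : Type} [Field F] {C : CV.Crv F} {L : Type} [Field L] [CharZero L] [IsAlgClosed L]
  [Algebra F L]

/-- The number of zeros with multiplicities is the degree. -/
theorem sum_odO {f : L ⊗[F] C.A} {m : ℕ} (hf : (C.G.bc L).d f = m) (S : Finset (C.A →ₐ[F] L))
    (hS : ∀ φ, φ ∉ S → CV.od (CV.xl L φ) f = 0) : ∑ φ ∈ S, CV.od (CV.xl L φ) f = m := by
  classical
  have hsm := C.sm
  have hf0 : f ≠ 0 := (C.G.bc L).ne_zero hf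
  have h1 := CV.deg_cy_span (C := C) (Ω := L) hf
  have h2 : ∀ φ : C.A →ₐ[F] L, CV.cy (Ideal.span {f}) (some φ) = (CV.od (CV.xl L φ) f : ℤ) :=
    fun φ => CV.cy_od hf0 φ
  obtain ⟨z, hz⟩ : ∃ z : Option (C.A →ₐ[F] L) →₀ ℤ, z = CV.cy (Ideal.span {f}) := ⟨_, rfl⟩
  have h3 : ∀ φ : C.A →ₐ[F] L, z (some φ) = (CV.od (CV.xl L φ) f : ℤ) := fun φ => by
    rw [hz]
    exact h2 φ
  have h4 : z none = 0 := by
    rw [hz]
    exact (CV.cy_efc (Ideal.span {f})).2
  have h5 : z.sum (fun _ n => n) = (m : ℤ) := by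
    rw [← h1, hz]
    unfold BE.Vr.deg
    rw [Finsupp.liftAddHom_apply]
    rfl
  have h6 : z.support ⊆ S.map Function.Embedding.some := by
    intro x hx
    rcases x with _ | φ
    · exact absurd h4 (Finsupp.mem_support_iff.1 hx)
    · rw [Finset.mem_map]
      refine ⟨φ, ?_, rfl⟩
      by_contra hcon
      refine Finsupp.mem_support_iff.1 hx ?_
      rw [h3, hS φ hcon, Nat.cast_zero]
  rw [Finsupp.sum_of_support_subset z h6 _ (fun _ _ => rfl), Finset.sum_map] at h5
  have h7 : ∑ φ ∈ S, (CV.od (CV.xl L φ) f : ℤ) = m := by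
    rw [← h5]
    exact Finset.sum_congr rfl fun φ _ => (h3 φ).symm
  exact_mod_cast h7

omit [CharZero L] in
/-- The zeros of a function. -/
theorem zr_fin {f : L ⊗[F] C.A} (hf : f ≠ 0) : {φ : C.A →ₐ[F] L | CV.xl L φ f = 0}.Finite := by
  have hsm := C.sm
  exact ((C.G.bc L).zeros_fin (Ω := L) hf).preimage
    (f := fun φ : C.A →ₐ[F] L => CV.xl L φ) (fun φ _ φ' _ h => CV.xl_inj h)

/-- The number of zeros. -/
theorem zr_card {f : L ⊗[F] C.A} {m : ℕ} (hf : (C.G.bc L).d f = m) :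
    {φ : C.A →ₐ[F] L | CV.xl L φ f = 0}.ncard ≤ m := by
  classical
  have hsm := C.sm
  have hf0 : f ≠ 0 := (C.G.bc L).ne_zero hf
  obtain ⟨S, hS⟩ := (zr_fin hf0).exists_finset_coe
  have h1 : ∀ φ, φ ∉ S → CV.od (CV.xl L φ) f = 0 := by
    intro φ hφ
    obtain ⟨t, ht⟩ := CV.xrg (M := L) C.G φ
    refine (C.G.bc L).od_zero ht fun h0 => hφ ?_
    rw [← Finset.mem_coe, hS]
    exact h0
  rw [← hS, Set.ncard_coe_finset, ← sum_odO hf S h1, Finset.card_eq_sum_ones]
  refine Finset.sum_le_sum fun φ hφ => ?_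
  obtain ⟨t, ht⟩ := CV.xrg (M := L) C.G φ
  have h2 : CV.xl L φ f = 0 := by
    rw [← Finset.mem_coe, hS] at hφ
    exact hφ
  exact Nat.one_le_iff_ne_zero.2 ((C.G.bc L).od_pos ht hf0 h2)

/-- The number of zeros if all zeros are simple. -/
theorem zr_card_eq {f : L ⊗[F] C.A} {m : ℕ} (hf : (C.G.bc L).d f = m)
    (h : ∀ φ : C.A →ₐ[F] L, CV.od (CV.xl L φ) f ≤ 1) :
    {φ : C.A →ₐ[F] L | CV.xl L φ f = 0}.ncard = m := by
  classical
  have hsm := C.sm
  have hf0 : f ≠ 0 := (C.G.bc L).ne_zero hf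
  obtain ⟨S, hS⟩ := (zr_fin hf0).exists_finset_coe
  have h1 : ∀ φ, φ ∉ S → CV.od (CV.xl L φ) f = 0 := by
    intro φ hφ
    obtain ⟨t, ht⟩ := CV.xrg (M := L) C.G φ
    refine (C.G.bc L).od_zero ht fun h0 => hφ ?_
    rw [← Finset.mem_coe, hS]
    exact h0
  rw [← hS, Set.ncard_coe_finset, ← sum_odO hf S h1, Finset.card_eq_sum_ones]
  refine Finset.sum_congr rfl fun φ hφ => ?_
  obtain ⟨t, ht⟩ := CV.xrg (M := L) C.G φ
  have h2 : CV.xl L φ f = 0 := by
    rw [← Finset.mem_coe, hS] at hφ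
    exact hφ
  have h3 := (C.G.bc L).od_pos ht hf0 h2
  have h4 := h φ
  omega

end count

namespace Pen

variable {F : Type} [Field F] {C : CV.Crv F} {K : Type} [Field K] [Algebra F K] {r : ℕ}
  (p : Pen C K r)

/-- The first coordinate of the value. -/
noncomputable def g {L : Type} [Field L] [Algebra F L] [Algebra K L] [IsScalarTower F K L] :
    C.V.pt L → L
  | none => 0
  | some φ => CV.xl K φ p.G

/-- The second coordinate of the value. -/
noncomputable def h {L : Type} [Field L] [Algebra F L] [Algebra K L] [IsScalarTower F K L] :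
    C.V.pt L → L
  | none => 1
  | some φ => CV.xl K φ p.H

variable {L : Type} [Field L] [Algebra F L] [Algebra K L] [IsScalarTower F K L]

@[simp] theorem g_none : p.g (none : C.V.pt L) = 0 := rfl

@[simp] theorem h_none : p.h (none : C.V.pt L) = 1 := rfl

@[simp] theorem g_some (φ : C.A →ₐ[F] L) : p.g (some φ : C.V.pt L) = CV.xl K φ p.G := rfl

@[simp] theorem h_some (φ : C.A →ₐ[F] L) : p.h (some φ : C.V.pt L) = CV.xl K φ p.H := rfl

theorem nz (φ : C.A →ₐ[F] L) : ¬ (CV.xl K φ p.G = 0 ∧ CV.xl K φ p.H = 0) := by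
  rintro ⟨h2, h3⟩
  obtain ⟨a, b, hab⟩ := p.cop
  have h1 := congrArg (CV.xl K φ) hab
  rw [map_add, map_mul, map_mul, map_one, h2, h3, mul_zero, mul_zero, add_zero] at h1
  exact zero_ne_one h1

theorem gh (x : C.V.pt L) : p.g x ≠ 0 ∨ p.h x ≠ 0 := by
  match x with
  | none => exact Or.inr one_ne_zero
  | some φ =>
    by_contra hcon
    push Not at hcon
    exact p.nz φ hcon

/-- The fibre through `x`. -/
theorem mem_fib {x y : C.V.pt L} : y ∈ p.Fib x ↔ p.g x * p.h y = p.h x * p.g y := by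
  match x, y with
  | none, none =>
    constructor
    · intro _
      change (0 : L) * 1 = 1 * 0
      rw [zero_mul, mul_zero]
    · intro _
      exact Or.inl rfl
  | none, some φ =>
    change _ ↔ (0 : L) * CV.xl K φ p.H = 1 * CV.xl K φ p.G
    rw [zero_mul, one_mul]
    constructor
    · rintro (h | ⟨ψ, h1, h2⟩)
      · exact absurd h (Option.some_ne_none φ)
      · obtain rfl := Option.some_injective _ h1
        exact h2.symm
    · intro h
      exact Or.inr ⟨φ, rfl, h.symm⟩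
  | some u, none =>
    change _ ↔ CV.xl K u p.G * 1 = CV.xl K u p.H * 0
    rw [mul_one, mul_zero]
    constructor
    · rintro (h | ⟨ψ, h1, h2⟩)
      · exact h.2
      · exact absurd h1.symm (Option.some_ne_none ψ)
    · intro h
      exact Or.inl ⟨rfl, h⟩
  | some u, some φ =>
    change _ ↔ CV.xl K u p.G * CV.xl K φ p.H = CV.xl K u p.H * CV.xl K φ p.G
    constructor
    · rintro (h | ⟨ψ, h1, h2⟩)
      · exact absurd h.1 (Option.some_ne_none φ)
      · obtain rfl := Option.some_injective _ h1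
        exact h2.symm
    · intro h
      exact Or.inr ⟨φ, rfl, h.symm⟩

/-- The zeros of the denominator. -/
theorem mem_zh {y : C.V.pt L} : y ∈ p.Zh L ↔ p.h y = 0 := by
  match y with
  | none =>
    constructor
    · rintro ⟨φ, h1, -⟩
      exact absurd h1.symm (Option.some_ne_none φ)
    · intro h
      exact absurd h one_ne_zero
  | some ψ =>
    constructor
    · rintro ⟨φ, h1, h2⟩
      obtain rfl := Option.some_injective _ h1
      exact h2
    · intro h
      exact ⟨ψ, rfl, h⟩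

theorem self_mem (x : C.V.pt L) : x ∈ p.Fib x := p.mem_fib.2 (mul_comm _ _)

theorem none_zh : (none : C.V.pt L) ∉ p.Zh L := fun h => one_ne_zero (p.mem_zh.1 h)

/-- The function which defines the fibre. -/
noncomputable def fn (a b : L) : L ⊗[F] C.A :=
  a • CV.xi F C.A K L p.H - b • CV.xi F C.A K L p.G

theorem xl_fn (a b : L) (φ : C.A →ₐ[F] L) :
    CV.xl L φ (p.fn a b) = a * CV.xl K φ p.H - b * CV.xl K φ p.G := by
  unfold fn
  rw [map_sub, map_smul, map_smul, CV.xl_xi, CV.xl_xi]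
  rfl

theorem d_fn {a : L} (ha : a ≠ 0) (b : L) :
    (C.G.bc L).d (p.fn a b) = ((r + 1 : ℕ) : WithBot ℕ) := by
  unfold fn
  have h1 : (C.G.bc L).d (a • CV.xi F C.A K L p.H) = ((r + 1 : ℕ) : WithBot ℕ) := by
    rw [(C.G.bc L).smul ha, CV.xi_d, p.hH]
  have h2 : (C.G.bc L).d (-(b • CV.xi F C.A K L p.G)) < (C.G.bc L).d (a • CV.xi F C.A K L p.H) := by
    rw [h1, (C.G.bc L).neg]
    refine ((C.G.bc L).smul_le b _).trans_lt ?_
    rw [CV.xi_d, p.hG]
    exact_mod_cast Nat.lt_succ_self r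
  rw [sub_eq_add_neg, add_comm, (C.G.bc L).add_eq h2, h1]

theorem d_fn' {b : L} (hb : b ≠ 0) : (C.G.bc L).d (p.fn 0 b) = (r : ℕ) := by
  unfold fn
  rw [zero_smul, zero_sub, (C.G.bc L).neg, (C.G.bc L).smul hb, CV.xi_d, p.hG]

/-- The finite points of a set of zeros. -/
def pts (C : CV.Crv F) (f : L ⊗[F] C.A) : Set (C.V.pt L) :=
  {y | ∃ φ : C.A →ₐ[F] L, CV.xl L φ f = 0 ∧ y = (some φ : C.V.pt L)}

/-- The finite point given by a homomorphism. -/
def fp (φ : C.A →ₐ[F] L) : C.V.pt L := some φ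

theorem fp_inj : Function.Injective (fp : (C.A →ₐ[F] L) → C.V.pt L) := Option.some_injective _

theorem pts_eq (f : L ⊗[F] C.A) : pts C f = fp '' {φ | CV.xl L φ f = 0} := by
  ext y
  constructor
  · rintro ⟨φ, h, rfl⟩
    exact ⟨φ, h, rfl⟩
  · rintro ⟨φ, h, rfl⟩
    exact ⟨φ, h, rfl⟩

theorem fib_eq {x : C.V.pt L} (hx : p.g x ≠ 0) : p.Fib x = pts C (p.fn (p.g x) (p.h x)) := by
  ext y
  rw [p.mem_fib]
  constructor
  · intro h
    match y, h with
    | none, h =>
      have h1 : p.g x * 1 = p.h x * 0 := h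
      rw [mul_one, mul_zero] at h1
      exact absurd h1 hx
    | some φ, h =>
      refine ⟨φ, ?_, rfl⟩
      have h1 : p.g x * CV.xl K φ p.H = p.h x * CV.xl K φ p.G := h
      rw [xl_fn, h1, sub_self]
  · rintro ⟨ψ, h1, rfl⟩
    rw [xl_fn, sub_eq_zero] at h1
    exact h1

theorem fib_eq' {x : C.V.pt L} (hx : p.g x = 0) :
    p.Fib x = insert (none : C.V.pt L) (pts C (p.fn 0 (p.h x))) := by
  have hh : p.h x ≠ 0 := (p.gh x).resolve_left fun h => h hx
  ext y
  rw [p.mem_fib]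
  constructor
  · intro h
    match y, h with
    | none, _ => exact Or.inl rfl
    | some φ, h =>
      refine Or.inr ⟨φ, ?_, rfl⟩
      have h1 : p.g x * CV.xl K φ p.H = p.h x * CV.xl K φ p.G := h
      rw [hx, zero_mul] at h1
      rw [xl_fn, zero_mul, zero_sub, ← h1, neg_zero]
  · rintro (rfl | ⟨ψ, h1, rfl⟩)
    · change p.g x * 1 = p.h x * 0
      rw [hx, mul_zero, zero_mul]
    · rw [xl_fn, zero_mul, zero_sub, neg_eq_zero] at h1
      change p.g x * CV.xl K ψ p.H = p.h x * CV.xl K ψ p.G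
      rw [hx, zero_mul, h1]

theorem fib_none : p.Fib (none : C.V.pt L) = insert (none : C.V.pt L) (pts C (p.fn 0 (1 : L))) :=
  p.fib_eq' rfl

theorem zh_eq : p.Zh L = pts C (p.fn (1 : L) 0) := by
  ext y
  rw [p.mem_zh]
  constructor
  · intro h
    match y, h with
    | none, h => exact absurd h one_ne_zero
    | some φ, h =>
      refine ⟨φ, ?_, rfl⟩
      have h1 : CV.xl K φ p.H = 0 := h
      rw [xl_fn, h1, mul_zero, zero_mul, sub_self]
  · rintro ⟨ψ, h1, rfl⟩
    rw [xl_fn, one_mul, zero_mul, sub_zero] at h1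
    exact h1

section pts

variable [IsAlgClosed L]

theorem pts_fin {f : L ⊗[F] C.A} (hf : f ≠ 0) : (pts C f).Finite := by
  rw [pts_eq]
  exact (zr_fin hf).image _

theorem pts_card [CharZero L] {f : L ⊗[F] C.A} {m : ℕ} (hf : (C.G.bc L).d f = m) :
    (pts C f).ncard ≤ m := by
  rw [pts_eq, Set.ncard_image_of_injective _ fp_inj]
  exact zr_card hf

theorem pts_card_eq [CharZero L] {f : L ⊗[F] C.A} {m : ℕ} (hf : (C.G.bc L).d f = m)
    (h : ∀ φ : C.A →ₐ[F] L, CV.od (CV.xl L φ) f ≤ 1) : (pts C f).ncard = m := by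
  rw [pts_eq, Set.ncard_image_of_injective _ fp_inj]
  exact zr_card_eq hf h

theorem fib_fin (x : C.V.pt L) : (p.Fib x).Finite := by
  by_cases hx : p.g x = 0
  · rw [p.fib_eq' hx]
    have hh : p.h x ≠ 0 := (p.gh x).resolve_left fun h => h hx
    exact (pts_fin ((C.G.bc L).ne_zero (p.d_fn' hh))).insert _
  · rw [p.fib_eq hx]
    exact pts_fin ((C.G.bc L).ne_zero (p.d_fn hx _))

theorem fib_card [CharZero L] (x : C.V.pt L) : (p.Fib x).ncard ≤ r + 1 := by
  by_cases hx : p.g x = 0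
  · rw [p.fib_eq' hx]
    have hh : p.h x ≠ 0 := (p.gh x).resolve_left fun h => h hx
    exact (Set.ncard_insert_le _ _).trans (Nat.add_le_add_right (pts_card (p.d_fn' hh)) 1)
  · rw [p.fib_eq hx]
    exact pts_card (p.d_fn hx _)

variable (L) in
theorem zh_fin : (p.Zh L).Finite := by
  rw [p.zh_eq]
  exact pts_fin ((C.G.bc L).ne_zero (p.d_fn one_ne_zero _))

variable (L) in
theorem zh_card [CharZero L] : (p.Zh L).ncard ≤ r + 1 := by
  rw [p.zh_eq]
  exact pts_card (p.d_fn one_ne_zero _)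

end pts

end Pen

end DC
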