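import Pool.Agent.Lib.MP_f80667_ag.Dc.Frd
import Pool.Agent.Lib.MP_f80667_ag.Cv.Defs

/-! The field generated by a finite Galois invariant set of points of a curve. -/

open ZC BE CV TensorProduct IntermediateField

namespace DC

section map

variable {F : Type} [Field F] {C : Crv F} {L M N : Type} [Field L] [Field M] [Field N]
  [Algebra F L] [Algebra F M] [Algebra F N]

theorem mp_id (x : C.V.pt L) : C.V.map (AlgHom.id F L) x = x := by
  match x with
  | none => rfl
  | some φ => rfl

theorem mp_comp (σ : L →ₐ[F] M) (τ : M →ₐ[F] N) (x : C.V.pt L) :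
    C.V.map τ (C.V.map σ x) = C.V.map (τ.comp σ) x := by
  match x with
  | none => rfl
  | some φ => rfl

theorem mp_inj (σ : L →ₐ[F] M) : Function.Injective (C.V.map σ : C.V.pt L → C.V.pt M) := by
  intro x y h
  match x, y, h with
  | none, none, _ => rfl
  | none, some φ, h => exact absurd h.symm (Option.some_ne_none _)
  | some φ, none, h => exact absurd h (Option.some_ne_none _)
  | some φ, some ψ, h =>
    have h1 := Option.some_injective _ h
    refine congrArg some (AlgHom.ext fun a => σ.injective ?_)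
    exact DFunLike.congr_fun h1 a

end map

section ef

variable {F : Type} [Field F] {C : Crv F} {E M : Type} [Field E] [Algebra F E] [Field M]
  [Algebra E M] [Algebra F M] [IsScalarTower F E M]

/-- The coordinates of the point are in the field `E'`. -/
def Df (E' : IntermediateField E M) (y : C.V.pt M) : Prop :=
  ∀ φ : C.A →ₐ[F] M, y = (some φ : C.V.pt M) → ∀ a, φ a ∈ E'

/-- A point with coordinates in `E'` comes from a point over `E'`. -/
theorem df_pt {E' : IntermediateField E M} {y : C.V.pt M} (h : Df E' y) :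
    ∃ y' : C.V.pt E', y = C.V.map (IsScalarTower.toAlgHom F E' M) y' := by
  match y, h with
  | none, _ => exact ⟨(none : Option (C.A →ₐ[F] E')), rfl⟩
  | some φ, h =>
    have h1 := h φ rfl
    let φ' : C.A →ₐ[F] E' :=
      { toFun := fun a => ⟨φ a, h1 a⟩
        map_one' := Subtype.ext (map_one φ)
        map_mul' := fun a b => Subtype.ext (map_mul φ a b)
        map_zero' := Subtype.ext (map_zero φ)
        map_add' := fun a b => Subtype.ext (map_add φ a b)
        commutes' := fun c => Subtype.ext (by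
          change φ (algebraMap F C.A c) = _
          rw [AlgHom.commutes]
          rfl) }
    exact ⟨(some φ' : Option (C.A →ₐ[F] E')), rfl⟩

theorem df_act {E' : IntermediateField E M} {y : C.V.pt M} (h : Df E' y) (σ : M ≃ₐ[E'] M) :
    C.V.act σ y = y := by
  match y, h with
  | none, _ => rfl
  | some φ, h =>
    refine congrArg some (AlgHom.ext fun a => ?_)
    exact σ.commutes ⟨φ a, h φ rfl a⟩

/-- **The field of a finite Galois invariant set of points.** -/
theorem exists_ef_aux [CharZero E] [IsAlgClosure E M] {Y : Set (C.V.pt M)} (hY : Y.Finite)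
    (hs : ∀ (σ : M ≃ₐ[E] M), ∀ y ∈ Y, C.V.act σ y ∈ Y) :
    ∃ E' : IntermediateField E M, FiniteDimensional E E' ∧
      (Module.finrank E E' ∣ Y.ncard.factorial) ∧ ∀ y ∈ Y, Df E' y := by
  classical
  have hsm := C.sm
  have hcl : IsAlgClosed M := IsAlgClosure.isAlgClosed E
  have halg : Algebra.IsAlgebraic E M := IsAlgClosure.isAlgebraic
  obtain ⟨T, hT⟩ := (inferInstance : Algebra.FiniteType F C.A).out
  obtain ⟨S, hS⟩ : ∃ S : Set M, S = {m | ∃ φ : C.A →ₐ[F] M, Pen.fp φ ∈ Y ∧ ∃ a ∈ T, m = φ a} :=
    ⟨_, rfl⟩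
  have hSf : S.Finite := by
    have h1 : {φ : C.A →ₐ[F] M | Pen.fp φ ∈ Y}.Finite := hY.preimage Pen.fp_inj.injOn
    refine ((h1.prod T.finite_toSet).image fun q : (C.A →ₐ[F] M) × C.A => q.1 q.2).subset ?_
    rw [hS]
    rintro m ⟨φ, h2, a, ha, rfl⟩
    exact ⟨(φ, a), ⟨h2, ha⟩, rfl⟩
  have iS : Finite S := hSf.to_subtype
  obtain ⟨E', hE'⟩ : ∃ E' : IntermediateField E M, E' = adjoin E S := ⟨_, rfl⟩
  have hSE : ∀ m ∈ S, m ∈ E' := fun m hm => by
    rw [hE']
    exact subset_adjoin _ _ hm
  have hfin : FiniteDimensional E E' := by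
    rw [hE']
    exact finiteDimensional_adjoin fun m _ => Algebra.IsIntegral.isIntegral m
  have hDf : ∀ y ∈ Y, Df E' y := by
    rintro y hy φ rfl a
    have h1 : a ∈ Algebra.adjoin F (T : Set C.A) := by
      rw [hT]
      exact Algebra.mem_top
    induction h1 using Algebra.adjoin_induction with
    | mem a ha =>
      refine hSE _ ?_
      rw [hS]
      exact ⟨φ, hy, a, Finset.mem_coe.1 ha, rfl⟩
    | algebraMap c =>
      rw [AlgHom.commutes, IsScalarTower.algebraMap_apply F E M]
      exact E'.algebraMap_mem _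
    | add a b _ _ ha hb => rw [map_add]; exact E'.add_mem ha hb
    | mul a b _ _ ha hb => rw [map_mul]; exact E'.mul_mem ha hb
  have hnorm : Normal E E' := by
    have hN : Normal E M := inferInstance
    rw [normal_iff_forall_map_le']
    intro σ
    rw [hE', adjoin_map, adjoin_le_iff]
    rintro _ ⟨m, hm, rfl⟩
    refine subset_adjoin _ _ ?_
    rw [hS] at hm ⊢
    obtain ⟨φ, h1, a, ha, rfl⟩ := hm
    exact ⟨((σ : M →ₐ[E] M).restrictScalars F).comp φ, hs σ _ h1, a, ha, rfl⟩
  have hgal : IsGalois E E' := { }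
  -- the action of the Galois group
  obtain ⟨UE, hUE⟩ : ∃ UE : Set (C.V.pt E'),
    UE = {y | C.V.map (IsScalarTower.toAlgHom F E' M) y ∈ Y} := ⟨_, rfl⟩
  have hval : ∀ y : C.V.pt E', C.V.map (IsScalarTower.toAlgHom F E' M) y ∈ Y ↔ y ∈ UE := by
    intro y
    rw [hUE]
    rfl
  have hUEf : UE.Finite := by
    refine (hY.preimage (mp_inj (C := C) (IsScalarTower.toAlgHom F E' M)).injOn).subset ?_
    intro y hy
    exact (hval y).2 hy
  have hUEc : UE.ncard ≤ Y.ncard :=
    Set.ncard_le_ncard_of_injOn (C.V.map (IsScalarTower.toAlgHom F E' M))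
      (fun y hy => (hval y).2 hy) (mp_inj (C := C) (IsScalarTower.toAlgHom F E' M)).injOn hY
  have hmem : ∀ (γ : E' ≃ₐ[E] E') (y : C.V.pt E'), y ∈ UE →
      C.V.map ((γ : E' →ₐ[E] E').restrictScalars F) y ∈ UE := by
    intro γ y hy
    rw [← hval] at hy ⊢
    have h1 := hs (γ.liftNormal M) _ hy
    have h2 : C.V.act (γ.liftNormal M) (C.V.map (IsScalarTower.toAlgHom F E' M) y) =
        C.V.map (IsScalarTower.toAlgHom F E' M)
          (C.V.map ((γ : E' →ₐ[E] E').restrictScalars F) y) := by
      match y with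
      | none => rfl
      | some φ =>
        refine congrArg some (AlgHom.ext fun a => ?_)
        exact γ.liftNormal_commutes M (φ a)
    rwa [h2] at h1
  have hinv : ∀ (γ γ' : E' ≃ₐ[E] E') (y : C.V.pt E'),
      C.V.map ((γ : E' →ₐ[E] E').restrictScalars F)
        (C.V.map ((γ' : E' →ₐ[E] E').restrictScalars F) y) =
          C.V.map (((γ * γ' : E' ≃ₐ[E] E') : E' →ₐ[E] E').restrictScalars F) y := by
    intro γ γ' y
    rw [mp_comp]
    rfl
  have hid : ∀ y : C.V.pt E',
      C.V.map (((1 : E' ≃ₐ[E] E') : E' →ₐ[E] E').restrictScalars F) y = y := fun y => mp_id y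
  let f : (E' ≃ₐ[E] E') →* Equiv.Perm UE :=
    { toFun := fun γ =>
        { toFun := fun y => ⟨C.V.map ((γ : E' →ₐ[E] E').restrictScalars F) y.1, hmem γ y.1 y.2⟩
          invFun := fun y =>
            ⟨C.V.map ((γ⁻¹ : E' ≃ₐ[E] E').toAlgHom.restrictScalars F) y.1, hmem γ⁻¹ y.1 y.2⟩
          left_inv := fun y => Subtype.ext (by
            refine (hinv γ⁻¹ γ y.1).trans ?_
            rw [inv_mul_cancel]
            exact hid _)
          right_inv := fun y => Subtype.ext (by
            refine (hinv γ γ⁻¹ y.1).trans ?_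
            rw [mul_inv_cancel]
            exact hid _) }
      map_one' := by
        ext y
        exact hid _
      map_mul' := fun γ γ' => by
        ext y
        exact (hinv γ γ' y.1).symm }
  have hf : Function.Injective f := by
    rw [injective_iff_map_eq_one]
    intro γ hγ
    have h1 : ∀ y ∈ UE, C.V.map ((γ : E' →ₐ[E] E').restrictScalars F) y = y := fun y hy =>
      congrArg Subtype.val (DFunLike.congr_fun hγ ⟨y, hy⟩)
    have h2 : ∀ m (hm : m ∈ adjoin E S) (hm' : m ∈ E'), γ ⟨m, hm'⟩ = ⟨m, hm'⟩ := by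
      intro m hm
      induction hm using adjoin_induction with
      | mem m hm =>
        intro hm'
        rw [hS] at hm
        obtain ⟨φ, h3, a, ha, rfl⟩ := hm
        obtain ⟨y', hy'⟩ := df_pt (hDf _ h3)
        have h4 : y' ∈ UE := by
          rw [← hval, ← hy']
          exact h3
        match y', hy', h4 with
        | none, hy', _ => exact absurd hy' (Option.some_ne_none φ)
        | some φ', hy', h4 =>
          have h5 := Option.some_injective _ hy'
          have h6 := Option.some_injective _ (h1 _ h4)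
          have h7 : γ (φ' a) = φ' a := DFunLike.congr_fun h6 a
          have h8 : φ a = (φ' a : M) := DFunLike.congr_fun h5 a
          have h9 : (⟨φ a, hm'⟩ : E') = φ' a := Subtype.ext h8
          rw [h9]
          exact h7
      | algebraMap c =>
        intro hm'
        exact γ.commutes c
      | add a b ha hb iha ihb =>
        intro hm'
        have h3 : a ∈ E' := by rw [hE']; exact ha
        have h4 : b ∈ E' := by rw [hE']; exact hb
        have h5 : (⟨a + b, hm'⟩ : E') = ⟨a, h3⟩ + ⟨b, h4⟩ := rfl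
        rw [h5, map_add, iha, ihb]
      | inv a ha iha =>
        intro hm'
        have h3 : a ∈ E' := by rw [hE']; exact ha
        have h5 : (⟨a⁻¹, hm'⟩ : E') = (⟨a, h3⟩ : E')⁻¹ := rfl
        rw [h5, map_inv₀, iha]
      | mul a b ha hb iha ihb =>
        intro hm'
        have h3 : a ∈ E' := by rw [hE']; exact ha
        have h4 : b ∈ E' := by rw [hE']; exact hb
        have h5 : (⟨a * b, hm'⟩ : E') = ⟨a, h3⟩ * ⟨b, h4⟩ := rfl
        rw [h5, map_mul, iha, ihb]
    ext m
    exact congrArg Subtype.val (h2 m.1 (by rw [← hE']; exact m.2) m.2)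
  have iUE : Finite UE := hUEf.to_subtype
  have hdvd : Nat.card (E' ≃ₐ[E] E') ∣ Nat.card (Equiv.Perm UE) :=
    Subgroup.card_dvd_of_injective f hf
  rw [IsGalois.card_aut_eq_finrank, Nat.card_perm] at hdvd
  exact ⟨E', hfin, hdvd.trans (Nat.factorial_dvd_factorial hUEc), hDf⟩

end ef

end DC
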