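import Pool.Agent.Lib.MP_f80667_ag.Dc.Fbs

/-! The reduction of the fibres of a pencil. -/

open ZC TensorProduct

namespace DC

section rd

variable {F : Type} [Field F] {C : CV.Crv F} {K E Ω : Type} [Field K] [Field E] [Field Ω]
  [Algebra K E] [Algebra K Ω] [Algebra F K] [Algebra F E] [Algebra F Ω] [IsScalarTower F K E]
  [IsScalarTower F K Ω]

/-- The residues of the values of an integral point. -/
noncomputable def rdh (w : Place K E Ω) (φ : C.A →ₐ[F] E) (h : ∀ a, φ a ∈ w.V) : C.A →ₐ[F] Ω where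
  toRingHom := w.res.comp ((φ : C.A →+* E).codRestrict w.V.toSubring h)
  commutes' := by
    intro a
    change w.res ⟨φ (algebraMap F C.A a), h _⟩ = algebraMap F Ω a
    have h1 : (⟨φ (algebraMap F C.A a), h _⟩ : w.V) =
        ⟨algebraMap K E (algebraMap F K a), w.mem _⟩ := by
      apply Subtype.ext
      change φ (algebraMap F C.A a) = algebraMap K E (algebraMap F K a)
      rw [AlgHom.commutes, ← IsScalarTower.algebraMap_apply]
    rw [h1, w.res_k, ← IsScalarTower.algebraMap_apply]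

theorem rdh_apply (w : Place K E Ω) (φ : C.A →ₐ[F] E) (h : ∀ a, φ a ∈ w.V) (a : C.A) :
    rdh w φ h a = w.res ⟨φ a, h a⟩ := rfl

open Classical in
/-- The reduction of the points of the curve. -/
noncomputable def rd (w : Place K E Ω) : C.V.pt E → C.V.pt Ω
  | none => none
  | some φ => if h : ∀ a, φ a ∈ w.V then some (rdh w φ h) else none

theorem rd_red (w : Place K E Ω) (x : C.V.pt E) : C.V.red w x (rd w x) := by
  match x with
  | none => exact Or.inl ⟨rfl, rfl⟩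
  | some φ =>
    by_cases h : ∀ a, φ a ∈ w.V
    · have e : rd (C := C) w (some φ) = some (rdh w φ h) := dif_pos h
      rw [e]
      exact Or.inr (Or.inr ⟨φ, rdh w φ h, rfl, rfl, fun a => ⟨h a, rfl⟩⟩)
    · have e : rd (C := C) w (some φ) = none := dif_neg h
      rw [e]
      push Not at h
      exact Or.inr (Or.inl ⟨φ, rfl, h, rfl⟩)

omit [Algebra F K] [IsScalarTower F K E] [IsScalarTower F K Ω] in
/-- The reduction is unique. -/
theorem red_uniq (w : Place K E Ω) {x : C.V.pt E} {y y' : C.V.pt Ω} (h : C.V.red w x y)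
    (h' : C.V.red w x y') : y = y' := by
  rcases h with ⟨rfl, rfl⟩ | ⟨φ, rfl, h1, rfl⟩ | ⟨φ, ψ, rfl, rfl, h1⟩
  · rcases h' with ⟨-, rfl⟩ | ⟨φ', e, -, rfl⟩ | ⟨φ', ψ', e, -, -⟩
    · rfl
    · rfl
    · exact absurd e (by simp)
  · rcases h' with ⟨-, rfl⟩ | ⟨φ', e, -, rfl⟩ | ⟨φ', ψ', e, -, h2⟩
    · rfl
    · rfl
    · obtain rfl := Option.some_injective _ e
      obtain ⟨a, ha⟩ := h1
      obtain ⟨h3, -⟩ := h2 a
      exact absurd h3 ha
  · rcases h' with ⟨e, -⟩ | ⟨φ', e, h2, -⟩ | ⟨φ', ψ', e, rfl, h2⟩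
    · exact absurd e (by simp)
    · obtain rfl := Option.some_injective _ e
      obtain ⟨a, ha⟩ := h2
      obtain ⟨h3, -⟩ := h1 a
      exact absurd h3 ha
    · obtain rfl := Option.some_injective _ e
      have h3 : ψ = ψ' := by
        ext a
        obtain ⟨h4, h5⟩ := h1 a
        obtain ⟨h4', h5'⟩ := h2 a
        rw [h5, h5']
      rw [h3]

theorem rd_eq (w : Place K E Ω) {x : C.V.pt E} {y : C.V.pt Ω} (h : C.V.red w x y) : rd w x = y :=
  red_uniq w (rd_red w x) h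

/-- The values of a function at an integral point. -/
theorem xl_rd (w : Place K E Ω) (φ : C.A →ₐ[F] E) (ψ : C.A →ₐ[F] Ω)
    (h : ∀ a, ∃ h : φ a ∈ w.V, ψ a = w.res ⟨φ a, h⟩) (x : K ⊗[F] C.A) :
    ∃ h : CV.xl K φ x ∈ w.V, w.res ⟨_, h⟩ = CV.xl K ψ x := by
  induction x with
  | zero =>
    have e : CV.xl K φ (0 : K ⊗[F] C.A) = 0 := map_zero _
    have h0 : CV.xl K φ (0 : K ⊗[F] C.A) ∈ w.V := by rw [e]; exact w.V.zero_mem
    refine ⟨h0, ?_⟩
    have h1 : (⟨_, h0⟩ : w.V) = 0 := Subtype.ext e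
    rw [h1, map_zero, map_zero]
  | tmul c a =>
    obtain ⟨h1, h2⟩ := h a
    have e : CV.xl K φ (c ⊗ₜ[F] a) = algebraMap K E c * φ a := CV.xl_tmul φ c a
    have h3 : CV.xl K φ (c ⊗ₜ[F] a) ∈ w.V := by
      rw [e]
      exact w.V.mul_mem _ _ (w.mem c) h1
    refine ⟨h3, ?_⟩
    have h4 : (⟨_, h3⟩ : w.V) = ⟨algebraMap K E c, w.mem c⟩ * ⟨φ a, h1⟩ := Subtype.ext e
    rw [h4, map_mul, w.res_k, CV.xl_tmul, h2]
  | add x y hx hy =>
    obtain ⟨h1, h2⟩ := hx
    obtain ⟨h3, h4⟩ := hy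
    have e : CV.xl K φ (x + y) = CV.xl K φ x + CV.xl K φ y := map_add _ _ _
    have h5 : CV.xl K φ (x + y) ∈ w.V := by
      rw [e]
      exact w.V.add_mem _ _ h1 h3
    refine ⟨h5, ?_⟩
    have h6 : (⟨_, h5⟩ : w.V) = ⟨_, h1⟩ + ⟨_, h3⟩ := Subtype.ext e
    rw [h6, map_add, h2, h4, map_add]

end rd

namespace Pen

variable {F : Type} [Field F] {C : CV.Crv F} {K : Type} [Field K] [Algebra F K] {r : ℕ}
  (p : Pen C K r) {E Ω : Type} [Field E] [IsAlgClosed E] [Field Ω] [Algebra K E] [Algebra K Ω]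
  [Algebra F E] [Algebra F Ω] [IsScalarTower F K E] [IsScalarTower F K Ω]

omit [IsAlgClosed E] [Field E] [Algebra K E] [Algebra F E] [IsScalarTower F K E] in
private theorem fn_ne {a b : Ω} (h : a ≠ 0 ∨ b ≠ 0) : p.fn a b ≠ 0 := by
  by_cases ha : a = 0
  · subst ha
    exact (C.G.bc Ω).ne_zero (p.d_fn' (h.resolve_left fun h => h rfl))
  · exact (C.G.bc Ω).ne_zero (p.d_fn ha b)

/-- Lifting of the zeros of `a H - b G`. -/
private theorem lift_ab (w : Place K E Ω) (a b : w.V) (h : w.res a ≠ 0 ∨ w.res b ≠ 0)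
    (u : C.A →ₐ[F] Ω) (hu : w.res a * CV.xl K u p.H = w.res b * CV.xl K u p.G) :
    ∃ y : C.A →ₐ[F] E, (∀ a, ∃ h : y a ∈ w.V, w.res ⟨y a, h⟩ = u a) ∧
      (a : E) * CV.xl K y p.H = (b : E) * CV.xl K y p.G := by
  obtain ⟨y, hy, h0⟩ := lift (C := C) w ![a, -b] ![p.H, p.G] (by
    rw [Fin.sum_univ_two]
    simp only [Matrix.cons_val_zero, Matrix.cons_val_one, map_neg, neg_smul]
    rw [← sub_eq_add_neg]
    exact p.fn_ne h) u (by
    rw [Fin.sum_univ_two]
    simp only [Matrix.cons_val_zero, Matrix.cons_val_one, map_neg, neg_mul]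
    rw [hu, add_neg_cancel])
  refine ⟨y, hy, ?_⟩
  rw [Fin.sum_univ_two] at h0
  simp only [Matrix.cons_val_zero, Matrix.cons_val_one] at h0
  have h1 : ((-b : w.V) : E) = -(b : E) := rfl
  rw [h1, neg_mul, add_neg_eq_zero] at h0
  exact h0

omit [Algebra F K] [IsAlgClosed E] [IsScalarTower F K E] [IsScalarTower F K Ω] in
private theorem red_of {w : Place K E Ω} {u : C.A →ₐ[F] Ω} {y : C.A →ₐ[F] E}
    (hy : ∀ a, ∃ h : y a ∈ w.V, w.res ⟨y a, h⟩ = u a) :
    C.V.red w (some y : C.V.pt E) (some u : C.V.pt Ω) :=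
  Or.inr (Or.inr ⟨y, u, rfl, rfl, fun a => ⟨(hy a).1, (hy a).2.symm⟩⟩)

/-- The points of the fibre through the reduction of `x` are the reductions of points of the fibre through `x`. -/
theorem fib_lift (w : Place K E Ω) {x : C.V.pt E} {t : C.V.pt Ω} (hx : C.V.red w x t)
    (hi : t ≠ none → (none : C.V.pt Ω) ∉ p.Fib t) {s : C.V.pt Ω} (hs : s ∈ p.Fib t) :
    ∃ y : C.V.pt E, y ∈ p.Fib x ∧ C.V.red w y s := by
  rcases hx with ⟨rfl, rfl⟩ | ⟨φ, rfl, h1, rfl⟩ | ⟨φ, ψ, rfl, rfl, h1⟩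
  · match s, hs with
    | none, _ => exact ⟨none, p.self_mem _, Or.inl ⟨rfl, rfl⟩⟩
    | some u, hs =>
      have h2 : (0 : Ω) * CV.xl K u p.H = 1 * CV.xl K u p.G := p.mem_fib.1 hs
      obtain ⟨y, hy, h3⟩ := p.lift_ab w 0 1 (Or.inr (by rw [map_one]; exact one_ne_zero)) u (by
        rw [map_zero, map_one]
        exact h2)
      exact ⟨some y, p.mem_fib.2 h3, red_of hy⟩
  · match s, hs with
    | none, _ => exact ⟨some φ, p.self_mem _, Or.inr (Or.inl ⟨φ, rfl, h1, rfl⟩)⟩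
    | some u, hs =>
      have h2 : (0 : Ω) * CV.xl K u p.H = 1 * CV.xl K u p.G := p.mem_fib.1 hs
      have hlt : (C.G.bc K).d p.G < (C.G.bc K).d p.H := by
        rw [p.hG, p.hH]
        exact_mod_cast Nat.lt_succ_self r
      obtain ⟨h4, h5, h6⟩ := inf_val w φ h1 ((C.G.bc K).ne_zero p.hH) hlt
      obtain ⟨y, hy, h3⟩ := p.lift_ab w ⟨_, h5⟩ 1 (Or.inr (by rw [map_one]; exact one_ne_zero)) u (by
        rw [h6, map_one]
        exact h2)
      refine ⟨some y, p.mem_fib.2 ?_, red_of hy⟩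
      change CV.xl K φ p.G * CV.xl K y p.H = CV.xl K φ p.H * CV.xl K y p.G
      have h7 : CV.xl K φ p.G / CV.xl K φ p.H * CV.xl K y p.H = 1 * CV.xl K y p.G := h3
      rw [one_mul] at h7
      rw [← h7]
      field_simp
  · have hn : ∀ x : K ⊗[F] C.A, ∃ h : CV.xl K φ x ∈ w.V, w.res ⟨_, h⟩ = CV.xl K ψ x :=
      xl_rd w φ ψ h1
    match s, hs with
    | none, hs => exact absurd hs (hi (by simp))
    | some u, hs =>
      have h2 : CV.xl K ψ p.G * CV.xl K u p.H = CV.xl K ψ p.H * CV.xl K u p.G := p.mem_fib.1 hs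
      obtain ⟨hg, hg'⟩ := hn p.G
      obtain ⟨hh, hh'⟩ := hn p.H
      obtain ⟨y, hy, h3⟩ := p.lift_ab w ⟨_, hg⟩ ⟨_, hh⟩ (by
        rw [hg', hh']
        exact p.gh (some ψ : C.V.pt Ω)) u (by
        rw [hg', hh']
        exact h2)
      exact ⟨some y, p.mem_fib.2 h3, red_of hy⟩

/-- The zeros of the denominator are the reductions of zeros. -/
theorem zh_lift (w : Place K E Ω) {s : C.V.pt Ω} (hs : s ∈ p.Zh Ω) :
    ∃ y : C.V.pt E, y ∈ p.Zh E ∧ C.V.red w y s := by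
  match s, hs with
  | none, hs => exact absurd hs p.none_zh
  | some u, hs =>
    have h2 : CV.xl K u p.H = 0 := p.mem_zh.1 hs
    obtain ⟨y, hy, h3⟩ := p.lift_ab w 1 0 (Or.inl (by rw [map_one]; exact one_ne_zero)) u (by
      rw [map_one, map_zero, h2, mul_zero, zero_mul])
    refine ⟨some y, p.mem_zh.2 ?_, red_of hy⟩
    have h4 : (1 : E) * CV.xl K y p.H = 0 * CV.xl K y p.G := h3
    rw [one_mul, zero_mul] at h4
    exact h4

omit [IsAlgClosed E] in
private theorem bij_of (w : Place K E Ω) {A : Set (C.V.pt E)} {B : Set (C.V.pt Ω)} (hA : A.Finite)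
    (hc : A.ncard ≤ B.ncard) (h : ∀ s ∈ B, ∃ y ∈ A, C.V.red w y s) :
    Set.BijOn (rd w) A B := by
  classical
  have hne : Nonempty (C.V.pt E) := ⟨(none : Option (C.A →ₐ[F] E))⟩
  choose! e he1 he2 using h
  have hr : ∀ s ∈ B, rd w (e s) = s := fun s hs => rd_eq w (he2 s hs)
  have hinj : Set.InjOn e B := by
    intro s hs s' hs' heq
    rw [← hr s hs, heq, hr s' hs']
  have himg : e '' B = A := by
    refine Set.eq_of_subset_of_ncard_le ?_ ?_ hA
    · rintro _ ⟨s, hs, rfl⟩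
      exact he1 s hs
    · rw [hinj.ncard_image]
      exact hc
  rw [← himg]
  refine ⟨?_, ?_, ?_⟩
  · rintro _ ⟨s, hs, rfl⟩
    rw [hr s hs]
    exact hs
  · rintro _ ⟨s, hs, rfl⟩ _ ⟨s', hs', rfl⟩ heq
    rw [hr s hs, hr s' hs'] at heq
    rw [heq]
  · intro s hs
    exact ⟨e s, ⟨s, hs, rfl⟩, hr s hs⟩

variable [CharZero E]

/-- **The reduction of the fibres.** -/
theorem fib_rd (w : Place K E Ω) {x : C.V.pt E} {t : C.V.pt Ω} (hx : C.V.red w x t)
    (hi : t ≠ none → (none : C.V.pt Ω) ∉ p.Fib t)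
    (hc : (p.Fib t).ncard = r + 1) :
    Set.BijOn (rd w : C.V.pt E → C.V.pt Ω) (p.Fib x) (p.Fib t) := by
  refine bij_of w (p.fib_fin x) ?_ fun s hs => p.fib_lift w hx hi hs
  exact (p.fib_card x).trans_eq hc.symm

/-- **The reduction of the zeros of the denominator.** -/
theorem zh_rd (w : Place K E Ω) (hc : (p.Zh Ω).ncard = r + 1) :
    Set.BijOn (rd w : C.V.pt E → C.V.pt Ω) (p.Zh E) (p.Zh Ω) := by
  refine bij_of w (p.zh_fin E) ?_ fun s hs => p.zh_lift w hs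
  exact (p.zh_card E).trans_eq hc.symm

end Pen

namespace Pen

variable {F : Type} [Field F] {C : CV.Crv F} {K : Type} [Field K] [Algebra F K] {r : ℕ}
  (p : Pen C K r) {L M : Type} [Field L] [Field M] [Algebra F L] [Algebra K L]
  [IsScalarTower F K L] [Algebra F M] [Algebra K M] [IsScalarTower F K M]

theorem xl_comp (σ : L →ₐ[K] M) (φ : C.A →ₐ[F] L) (x : K ⊗[F] C.A) :
    CV.xl K ((σ.restrictScalars F).comp φ) x = σ (CV.xl K φ x) := by
  induction x with
  | zero => rw [map_zero, map_zero, map_zero]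
  | tmul c a =>
    rw [CV.xl_tmul, CV.xl_tmul, map_mul, AlgHom.commutes]
    rfl
  | add x y hx hy => rw [map_add, map_add, map_add, hx, hy]

/-- The coordinates of the value are compatible with the maps of points. -/
theorem g_map (σ : L →ₐ[K] M) (x : C.V.pt L) :
    p.g (C.V.map (σ.restrictScalars F) x : C.V.pt M) = σ (p.g x) := by
  match x with
  | none => exact (map_zero σ).symm
  | some φ => exact xl_comp σ φ p.G

theorem h_map (σ : L →ₐ[K] M) (x : C.V.pt L) :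
    p.h (C.V.map (σ.restrictScalars F) x : C.V.pt M) = σ (p.h x) := by
  match x with
  | none => exact (map_one σ).symm
  | some φ => exact xl_comp σ φ p.H

theorem fib_map (σ : L →ₐ[K] M) {x y : C.V.pt L} :
    (C.V.map (σ.restrictScalars F) y : C.V.pt M) ∈
      p.Fib (C.V.map (σ.restrictScalars F) x : C.V.pt M) ↔ y ∈ p.Fib x := by
  rw [mem_fib, mem_fib, g_map, g_map, h_map, h_map, ← map_mul, ← map_mul]
  exact σ.injective.eq_iff

theorem zh_map (σ : L →ₐ[K] M) {y : C.V.pt L} :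
    (C.V.map (σ.restrictScalars F) y : C.V.pt M) ∈ p.Zh M ↔ y ∈ p.Zh L := by
  rw [mem_zh, mem_zh, h_map]
  exact map_eq_zero_iff σ σ.injective

/-- The Galois group acts on the fibres. -/
theorem fib_act (γ : L ≃ₐ[K] L) {x y : C.V.pt L} :
    C.V.act γ y ∈ p.Fib (C.V.act γ x) ↔ y ∈ p.Fib x :=
  p.fib_map (γ : L →ₐ[K] L)

theorem zh_act (γ : L ≃ₐ[K] L) {y : C.V.pt L} : C.V.act γ y ∈ p.Zh L ↔ y ∈ p.Zh L :=
  p.zh_map (γ : L →ₐ[K] L)

end Pen

end DC
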