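import Pool.Agent.Lib.MP_f80667_ag.Dc.GdD
import Pool.Agent.Lib.MP_f80667_ag.Do.Pla
import Pool.Agent.Lib.MP_f80667_ag.Cv.Fin
import Pool.Agent.Lib.MP_f80667_ag.Qs.GlA

/-! Places of number fields: good reduction at almost all places, unramified prime numbers, places given by embeddings. -/

open ZC BE PE CV IsDedekindDomain NumberField

namespace DC

/-- Almost all places are good. Proof: `spread (C i)` (`Cv/Sp3.lean`) gives a finite set `D i`; if `w.valuation E x ≤ 1` for all (images of) `x ∈ D i` then the curve `C i` has good reduction at `w`. So the bad `w` are in a finite set `B` (`gln_le`), and a place `w` is above at most one `v` (`HeightOneSpectrum.ext`), so the `v` below `B` are finitely many. -/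
theorem gdv_fin {F F' : Type} [Field F] [NumberField F] [Field F'] {n : ℕ} (C : Fin n → Crv F')
    (E : Type) [Field E] [NumberField E] [Algebra F E] [Algebra F' E] :
    {v : HeightOneSpectrum (𝓞 F) | ¬ Gdv C E v}.Finite := by
  classical
  choose D hD using fun i => spread (C i)
  have hB : (⋃ i, ⋃ x ∈ D i, {w : HeightOneSpectrum (𝓞 E) |
      ¬ w.valuation E (algebraMap F' E x) ≤ 1}).Finite :=
    Set.finite_iUnion fun i => (D i).finite_toSet.biUnion fun x _ => gln_le (algebraMap F' E x)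
  refine (hB.biUnion (t := fun w => {v : HeightOneSpectrum (𝓞 F) | Abo v w})
    fun w _ => ?_).subset fun v hv => ?_
  · refine Set.Subsingleton.finite ?_
    intro v hv v' hv'
    refine HeightOneSpectrum.ext ?_
    have h1 : w.asIdeal.comap (algebraMap (𝓞 F) (𝓞 E)) = v.asIdeal := hv
    have h2 : w.asIdeal.comap (algebraMap (𝓞 F) (𝓞 E)) = v'.asIdeal := hv'
    rw [← h1, ← h2]
  · have hv' : ¬ Gdv C E v := hv
    rw [Gdv] at hv'
    push Not at hv'
    obtain ⟨w, hw, i, hi⟩ := hv'
    refine Set.mem_biUnion (x := w) ?_ hw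
    by_contra hc
    refine absurd (hD i (w.valuation E).valuationSubring E
      (IsFractionRing.injective _ E) fun c hc' => ?_) (not_nonempty_iff.2 hi)
    have hle : w.valuation E (algebraMap F' E c) ≤ 1 := by
      by_contra hlt
      exact hc (Set.mem_iUnion.2 ⟨i, Set.mem_biUnion (x := c) hc' hlt⟩)
    exact ⟨⟨algebraMap F' E c, hle⟩, rfl⟩

/-- The prime numbers `l > l₀` are unramified. Proof: `gln_unr` (`Pe/GlNB.lean`): for almost all `w` there is a prime number `p` with `w.valuation E p = exp (-1)`; if `w.valuation E l ≠ 1` then it is `< 1`, so `l = p` (`pl_uniq` in `Qs/GlA.lean`); for each of the other `w` there is at most one prime number `l` with `w.valuation E l ≠ 1`. -/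
theorem exists_unr (E : Type) [Field E] [NumberField E] :
    ∃ l₀ : ℕ, ∀ l : ℕ, l.Prime → l₀ < l → ∀ w : HeightOneSpectrum (𝓞 E),
      w.valuation E (l : E) = 1 ∨ w.valuation E (l : E) = WithZero.exp (-1 : ℤ) := by
  have hfin : (⋃ w ∈ {w : HeightOneSpectrum (𝓞 E) | ¬ ∃ p : ℕ, p.Prime ∧
      w.valuation E (p : E) = WithZero.exp (-1 : ℤ)},
      {l : ℕ | l.Prime ∧ w.valuation E (l : E) < 1}).Finite := by
    refine gln_unr.biUnion fun w _ => Set.Subsingleton.finite ?_
    rintro l ⟨hl, h1⟩ m ⟨hm, h2⟩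
    exact QS.pl_uniq w hl hm h1 h2
  obtain ⟨l₀, hl₀⟩ := hfin.bddAbove
  refine ⟨l₀, fun l hl hlt w => ?_⟩
  by_cases h : w.valuation E (l : E) = 1
  · exact Or.inl h
  · refine Or.inr ?_
    have hle : w.valuation E (l : E) ≤ 1 := by
      have h1 : (l : E) = algebraMap (𝓞 E) E (l : 𝓞 E) := (map_natCast _ l).symm
      rw [h1]
      exact w.valuation_le_one _
    have h1 : w.valuation E (l : E) < 1 := lt_of_le_of_ne hle h
    have h2 : ∃ p : ℕ, p.Prime ∧ w.valuation E (p : E) = WithZero.exp (-1 : ℤ) := by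
      by_contra hc
      exact absurd (hl₀ (Set.mem_biUnion (x := w) hc ⟨hl, h1⟩)) (not_le.2 hlt)
    obtain ⟨p, hp, hpv⟩ := h2
    have h3 : w.valuation E (p : E) < 1 := by
      rw [hpv, ← WithZero.exp_zero, WithZero.exp_lt_exp]
      omega
    obtain rfl := QS.pl_uniq w hp hl h3 h1
    exact hpv

/-- The place given by an embedding. Proof: `DN.exists_pla` (`Do/Pla.lean`) and `Abo v w`: for `a` in `𝓞 F`, `a ∈ v.asIdeal` iff `v.valuation F a < 1` iff `L.nm a < 1` (`hL`) iff `w.valuation E a < 1` iff `a ∈ w.asIdeal`. -/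
theorem exists_plb {F E : Type} [Field F] [NumberField F] [Field E] [NumberField E] [Algebra F E]
    (v : HeightOneSpectrum (𝓞 F)) (L : Ld (FK F v) (AlgebraicClosure (FK F v))) {c : ℝ}
    (h0 : 0 < c) (h1 : c < 1)
    (hL : ∀ (x : F) (n : ℤ), v.valuation F x = WithZero.exp (-n) →
      L.nm (algebraMap F _ x) = c ^ n)
    (hd : ∀ (x : FK F v) (ε : ℝ), 0 < ε →
      ∃ y : F, L.nm (algebraMap _ _ x - algebraMap F _ y) < ε)
    (σ : E →ₐ[F] AlgebraicClosure (FK F v)) :
    ∃ (w : HeightOneSpectrum (𝓞 E)) (c' : ℝ), Abo v w ∧ 0 < c' ∧ c' < 1 ∧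
      (∀ (x : E) (n : ℤ), w.valuation E x = WithZero.exp (-n) → L.nm (σ x) = c' ^ n) ∧
      ∀ x ∈ IntermediateField.adjoin (FK F v) (Set.range σ), x ≠ 0 →
        ∃ n : ℤ, L.nm x = c' ^ n := by
  obtain ⟨w, c', h0', h1', hw, hadj⟩ := DN.exists_pla v L hd σ
  have key : ∀ {K : Type} [Field K] [NumberField K] (u : HeightOneSpectrum (𝓞 K)) {e : ℝ}
      (_ : 0 < e) (_ : e < 1) (s : K →+* AlgebraicClosure (FK F v))
      (_ : ∀ (x : K) (n : ℤ), u.valuation K x = WithZero.exp (-n) → L.nm (s x) = e ^ n)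
      (x : K), u.valuation K x < 1 ↔ L.nm (s x) < 1 := by
    intro K _ _ u e he0 he1 s hs x
    by_cases hx : x = 0
    · rw [hx, map_zero, map_zero, L.zero]
      exact iff_of_true zero_lt_one zero_lt_one
    · obtain ⟨k, hk⟩ : ∃ k : ℤ, u.valuation K x = WithZero.exp (-k) :=
        ⟨-WithZero.log (u.valuation K x), by
          rw [neg_neg, WithZero.exp_log ((Valuation.ne_zero_iff _).2 hx)]⟩
      rw [hs x k hk, hk, ← WithZero.exp_zero, WithZero.exp_lt_exp, ← zpow_zero e,
        zpow_lt_zpow_iff_right_of_lt_one₀ he0 he1]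
      omega
  refine ⟨w, c', ?_, h0', h1', hw, hadj⟩
  change w.asIdeal.comap (algebraMap (𝓞 F) (𝓞 E)) = v.asIdeal
  ext a
  rw [Ideal.mem_comap, ← HeightOneSpectrum.valuation_lt_one_iff_mem (K := E),
    ← HeightOneSpectrum.valuation_lt_one_iff_mem (K := F),
    key w h0' h1' (σ : E →+* AlgebraicClosure (FK F v)) hw,
    key v h0 h1 (algebraMap F (AlgebraicClosure (FK F v))) hL]
  change L.nm (σ (algebraMap F E (algebraMap (𝓞 F) F a))) < 1 ↔ _
  rw [σ.commutes]

end DC
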