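import Pool.Agent.Lib.MP_f80667_ag.Dc.GdD
import Pool.Agent.Lib.MP_f80667_ag.Cv.Fin
import Pool.Agent.Lib.MP_f80667_ag.Cv.Up

/-! The Albanese kernel of a product of curves with good reduction over a local field. -/

open ZC BE PE CV IsDedekindDomain NumberField

namespace DC

/-- **The Albanese kernel of the product of the curves** over a local field `K` with the place `w` of `E`. Proof: `lcT C hl` (`Cv/Fin.lean`) for `L`: the models over `Ok L` are `Mod.up` (`Cv/Up.lean`) of the models `hg i`, for the ring homomorphism from `(w.valuation E).valuationSubring` to `Ok L` (if `w.valuation E x ≤ 1` then `x = 0` or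
`w.valuation E x = exp (-n)`, `n ≥ 0`, so `L.nm x = c ^ n ≤ 1`; it is local); `(l : Ok L)` is not in the power `l - 1` of the maximal ideal: `Ok_unit` if `l ≠ L.p`; if `l = L.p` then `L.nm l < 1`, so `w.valuation E l = exp (-1)`, `L.nm l = c` and `Ok_notMem` (`Cv/Glb.lean`). -/
theorem dvG_md {F' E : Type} [Field F'] [Field E] [NumberField E] [Algebra F' E] {n : ℕ}
    {C : Fin n → Crv F'} {K Ω : Type} [Field K] [CharZero K] [Field Ω] [Algebra K Ω]
    [IsAlgClosure K Ω] [Algebra F' K] [Algebra F' Ω] [IsScalarTower F' K Ω] [Algebra E K]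
    [Algebra E Ω] [IsScalarTower E K Ω] [IsScalarTower F' E K] (L : Ld K Ω)
    (w : HeightOneSpectrum (𝓞 E)) {c : ℝ} (h0 : 0 < c) (h1 : c < 1)
    (hL : ∀ (x : E) (n : ℤ), w.valuation E x = WithZero.exp (-n) →
      L.nm (algebraMap E Ω x) = c ^ n)
    (hv : ∀ x : K, x ≠ 0 → ∃ n : ℤ, L.nm (algebraMap K Ω x) = c ^ n)
    (hg : ∀ i, Nonempty (Mod (C i) (w.valuation E).valuationSubring E)) {l : ℕ} (hl : l.Prime)
    (h2 : l ≠ 2) (hu : w.valuation E (l : E) = 1 ∨ w.valuation E (l : E) = WithZero.exp (-1 : ℤ)) :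
    DvG (fun i => (C i).V) K Ω l := by
  -- the norm of a nonzero element
  have hn : ∀ x : E, x ≠ 0 → L.nm (algebraMap E Ω x) =
      c ^ (-WithZero.log (w.valuation E x)) := by
    intro x hx
    have h3 : w.valuation E x ≠ 0 := (Valuation.ne_zero_iff _).2 hx
    exact hL x _ (by rw [neg_neg, WithZero.exp_log h3])
  have hle : ∀ x : E, w.valuation E x ≤ 1 → L.nm (algebraMap E K x |> algebraMap K Ω) ≤ 1 := by
    intro x hx
    rw [← IsScalarTower.algebraMap_apply E K Ω]
    by_cases hx0 : x = 0
    · rw [hx0, map_zero, L.zero]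
      exact zero_le_one
    have h3 : w.valuation E x ≠ 0 := (Valuation.ne_zero_iff _).2 hx0
    rw [hn x hx0]
    have h4 : WithZero.log (w.valuation E x) ≤ 0 := by
      rw [← WithZero.exp_log h3, ← WithZero.exp_zero] at hx
      exact WithZero.exp_le_exp.1 hx
    exact zpow_le_one₀ h0 h1.le (by omega)
  have hge : ∀ x : E, L.nm (algebraMap K Ω (algebraMap E K x)) = 1 → w.valuation E x = 1 := by
    intro x hx
    rw [← IsScalarTower.algebraMap_apply E K Ω] at hx
    have hx0 : x ≠ 0 := by
      intro h
      rw [h, map_zero, L.zero] at hx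
      exact zero_ne_one hx
    have h3 : w.valuation E x ≠ 0 := (Valuation.ne_zero_iff _).2 hx0
    rw [hn x hx0, ← zpow_zero c] at hx
    have h4 := zpow_right_injective₀ h0 h1.ne hx
    rw [← WithZero.exp_log h3, ← WithZero.exp_zero]
    exact congrArg _ (by omega)
  let jO : (w.valuation E).valuationSubring →+* Ok L :=
    ((algebraMap E K).comp (w.valuation E).valuationSubring.subtype).codRestrict (Ok L)
      fun x => hle x.1 x.2
  let i2 : Algebra (w.valuation E).valuationSubring (Ok L) := jO.toAlgebra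
  let i3 : Algebra (w.valuation E).valuationSubring K :=
    ((algebraMap E K).comp (w.valuation E).valuationSubring.subtype).toAlgebra
  have t1 : IsScalarTower (w.valuation E).valuationSubring (Ok L) K :=
    IsScalarTower.of_algebraMap_eq fun _ => rfl
  have t2 : IsScalarTower (w.valuation E).valuationSubring E K :=
    IsScalarTower.of_algebraMap_eq fun _ => rfl
  have hloc : IsLocalHom (algebraMap (w.valuation E).valuationSubring (Ok L)) := by
    refine ⟨fun x hx => ?_⟩
    obtain ⟨y, hy⟩ := isUnit_iff_exists_inv.1 hx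
    have e1 : L.nm (algebraMap K Ω (algebraMap E K x.1)) *
        L.nm (algebraMap K Ω (y : K)) = 1 := by
      have h3 : (algebraMap E K x.1) * (y : K) = 1 := congrArg (fun z : Ok L => (z : K)) hy
      rw [← L.mul, ← map_mul, h3, map_one, L.one]
    have e3 := hle x.1 x.2
    have e4 : L.nm (algebraMap K Ω (y : K)) ≤ 1 := y.2
    have e5 : 1 ≤ L.nm (algebraMap K Ω (algebraMap E K x.1)) := by
      have h3 := L.nonneg (algebraMap K Ω (algebraMap E K x.1))
      nlinarith
    have e6 := hge x.1 (le_antisymm e3 e5)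
    have hx0 : x.1 ≠ 0 := by
      intro h
      rw [h, map_zero] at e6
      exact zero_ne_one e6
    have hxi : x.1⁻¹ ∈ (w.valuation E).valuationSubring := by
      rw [Valuation.mem_valuationSubring_iff, map_inv₀, e6, inv_one]
    exact IsUnit.of_mul_eq_one (⟨_, hxi⟩ : (w.valuation E).valuationSubring)
      (Subtype.ext (mul_inv_cancel₀ hx0))
  refine lcT C hl K Ω L (fun i => ?_) ?_
  · obtain ⟨m⟩ := hg i
    exact ⟨m.up⟩
  · by_cases hlp : l = L.p
    · have hnl : L.nm (L.p : Ω) < 1 := L.lt
      have h3 : L.nm (algebraMap E Ω (l : E)) = L.nm (L.p : Ω) := by rw [map_natCast, hlp]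
      rcases hu with hu | hu
      · have h4 := hL (l : E) 0 (by rw [hu, neg_zero, WithZero.exp_zero])
        rw [h3, zpow_zero] at h4
        exact absurd h4 hnl.ne
      · have h4 := hL (l : E) 1 hu
        rw [h3, zpow_one] at h4
        refine Ok_notMem L h0 h1 (fun x hx => ?_) h4.ge (by rw [← hlp]; exact h2) hl
        by_cases hx0 : x = 0
        · rw [hx0, map_zero, L.zero]
          exact h0.le
        obtain ⟨n, hn'⟩ := hv x hx0
        rw [hn'] at hx ⊢
        have h7 : 0 < n := by
          rw [← zpow_zero c] at hx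
          exact (zpow_lt_zpow_iff_right_of_lt_one₀ h0 h1).1 hx
        have h8 := (zpow_le_zpow_iff_right_of_lt_one₀ h0 h1).2 (show (1 : ℤ) ≤ n by omega)
        rwa [zpow_one] at h8
    · exact Ok_unit L hl hlp

end DC
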