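import Pool.Agent.Lib.MP_f80667_ag.Cv.Defs
import Mathlib

/-!
Good reduction of curves at the places of a number field.

* `Abo v w`: the place `w` of `E` is above the place `v` of `F`.
* `Gdv C E v`: the curves `C i` have good reduction at all places of `E` above `v`.
-/

open CV IsDedekindDomain NumberField

namespace DC

/-- The place `w` is above the place `v`. -/
def Abo {F E : Type} [Field F] [Field E] [Algebra F E] (v : HeightOneSpectrum (𝓞 F))
    (w : HeightOneSpectrum (𝓞 E)) : Prop :=
  w.asIdeal.comap (algebraMap (𝓞 F) (𝓞 E)) = v.asIdeal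

/-- The curves `C i` have good reduction at all places of `E` above `v`. -/
def Gdv {F F' : Type} [Field F] [Field F'] {n : ℕ} (C : Fin n → Crv F') (E : Type) [Field E]
    [NumberField E] [Algebra F E] [Algebra F' E] (v : HeightOneSpectrum (𝓞 F)) : Prop :=
  ∀ w : HeightOneSpectrum (𝓞 E), Abo v w →
    ∀ i, Nonempty (Mod (C i) (w.valuation E).valuationSubring E)

end DC
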