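import Pool.Agent.Lib.MP_f80667_ag.Dc.Bt
import Pool.Agent.Lib.MP_f80667_ag.Dc.Fbs

/-! The existence of general pencils on a curve. -/

open ZC BE CV TensorProduct

namespace DC

section lin

variable {F : Type} [Field F] {C : Crv F} {K Ω : Type} [Field K] [Field Ω] [Algebra K Ω]
  [Algebra F K] [Algebra F Ω] [IsScalarTower F K Ω]

private theorem xi_smul (s : K) (g : K ⊗[F] C.A) :
    xi F C.A K Ω (s • g) = algebraMap K Ω s • xi F C.A K Ω g := by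
  have h1 : s • g = (s ⊗ₜ[F] (1 : C.A)) * g := by
    rw [Algebra.smul_def]
    rfl
  rw [h1, map_mul, xi_tmul, Algebra.smul_def]
  rfl

/-- The function `H (ψ) g - g (ψ) H`. -/
private noncomputable def lt (H : K ⊗[F] C.A) (ψ : C.A →ₐ[F] Ω) (g : K ⊗[F] C.A) : Ω ⊗[F] C.A :=
  xl K ψ H • xi F C.A K Ω g - xl K ψ g • xi F C.A K Ω H

private theorem lt_add (H : K ⊗[F] C.A) (ψ : C.A →ₐ[F] Ω) (g e : K ⊗[F] C.A) (s : K) :
    lt H ψ (g + s • e) = lt H ψ g + algebraMap K Ω s • lt H ψ e := by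
  have h1 : xi F C.A K Ω (g + s • e) = xi F C.A K Ω g + algebraMap K Ω s • xi F C.A K Ω e := by
    rw [map_add, xi_smul]
  have h2 : xl K ψ (g + s • e) = xl K ψ g + algebraMap K Ω s * xl K ψ e := by
    rw [map_add, map_smul, Algebra.smul_def]
  unfold lt
  rw [h1, h2]
  simp only [smul_add, add_smul, smul_sub, smul_smul, mul_comm (xl K ψ H) (algebraMap K Ω s)]
  abel

private theorem lt_ne {r : ℕ} {H : K ⊗[F] C.A} (hH : (C.G.bc K).d H = ((r + 1 : ℕ) : WithBot ℕ))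
    {ψ : C.A →ₐ[F] Ω} (hψ : xl K ψ H ≠ 0) {g : K ⊗[F] C.A} (hg : (C.G.bc K).d g = (r : ℕ)) :
    lt H ψ g ≠ 0 := by
  intro h0
  unfold lt at h0
  rw [sub_eq_zero] at h0
  have h1 := congrArg (C.G.bc Ω).d h0
  rw [(C.G.bc Ω).smul hψ, xi_d, hg] at h1
  by_cases h2 : xl K ψ g = 0
  · rw [h2, zero_smul, (C.G.bc Ω).zero] at h1
    exact WithBot.coe_ne_bot h1
  · rw [(C.G.bc Ω).smul h2, xi_d, hH] at h1
    have h3 : r = r + 1 := by exact_mod_cast h1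
    omega

private theorem d_add_smul {r : ℕ} {g e : K ⊗[F] C.A} (hg : (C.G.bc K).d g = (r : ℕ))
    (he : (C.G.bc K).d e < (r : ℕ)) (s : K) : (C.G.bc K).d (g + s • e) = (r : ℕ) := by
  rw [add_comm, (C.G.bc K).add_eq, hg]
  rw [hg]
  exact ((C.G.bc K).smul_le s e).trans_lt he

end lin

section pick

variable {K Ω : Type} [Field K] [CharZero K] [Field Ω] [Algebra K Ω]

private theorem pick {Z : Set Ω} (hZ : Z.Finite) : ∃ s : K, algebraMap K Ω s ∉ Z := by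
  have h1 : (algebraMap K Ω ⁻¹' Z).Finite := hZ.preimage (algebraMap K Ω).injective.injOn
  obtain ⟨s, hs⟩ := (h1.infinite_compl).nonempty
  exact ⟨s, hs⟩

end pick

section step

variable {F : Type} [Field F] {C : Crv F} {K Ω : Type} [Field K] [CharZero K] [Field Ω]
  [CharZero Ω] [IsAlgClosed Ω] [Algebra K Ω] [Algebra F K] [Algebra F Ω] [IsScalarTower F K Ω]
  {δ : (Ω ⊗[F] C.A →ₐ[Ω] Ω) → Ω ⊗[F] C.A →ₐ[Ω] DualNumber Ω}

private theorem step (hδ : ∀ φ a, (δ φ a).fst = φ a) (hne : ∀ φ, ∃ a, (δ φ a).snd ≠ 0)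
    {S B : Set (C.A →ₐ[F] Ω)} (hS : S.Finite) (hB : B.Finite) {r : ℕ} {H : K ⊗[F] C.A}
    (hH : (C.G.bc K).d H = ((r + 1 : ℕ) : WithBot ℕ)) (hHS : ∀ ψ ∈ S, xl K ψ H ≠ 0)
    {g : K ⊗[F] C.A} (hg : (C.G.bc K).d g = (r : ℕ)) {e : K ⊗[F] C.A}
    (he : (C.G.bc K).d e < (r : ℕ)) {Z : Set Ω} (hZ : Z.Finite) :
    ∃ s : K, algebraMap K Ω s ∉ Z ∧ (C.G.bc K).d (g + s • e) = (r : ℕ) ∧
      (∀ ψ ∈ S, ∀ φ, δ φ (lt H ψ (g + s • e)) = 0 → δ φ (lt H ψ g) = 0 ∧ δ φ (lt H ψ e) = 0) ∧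
      ∀ ψ ∈ S, ∀ y ∈ B, xl Ω y (lt H ψ (g + s • e)) = 0 →
        xl Ω y (lt H ψ g) = 0 ∧ xl Ω y (lt H ψ e) = 0 := by
  classical
  have hsm := C.sm
  have h1 : (⋃ ψ ∈ S, {s : Ω | ∃ φ, δ φ (lt H ψ g + s • lt H ψ e) = 0 ∧
      ¬ (δ φ (lt H ψ g) = 0 ∧ δ φ (lt H ψ e) = 0)}).Finite :=
    hS.biUnion fun ψ hψ => bert (C.G.bc Ω) hδ hne (lt_ne hH (hHS ψ hψ) hg) _
  have h2 : (⋃ ψ ∈ S, ⋃ y ∈ B, {s : Ω | xl Ω y (lt H ψ g) + s * xl Ω y (lt H ψ e) = 0 ∧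
      ¬ (xl Ω y (lt H ψ g) = 0 ∧ xl Ω y (lt H ψ e) = 0)}).Finite := by
    refine hS.biUnion fun ψ _ => hB.biUnion fun y _ => Set.Subsingleton.finite ?_
    rintro s ⟨h3, h4⟩ s' ⟨h3', -⟩
    by_contra hs
    apply h4
    have h5 : (s - s') * xl Ω y (lt H ψ e) = 0 := by linear_combination h3 - h3'
    have h6 := (mul_eq_zero.1 h5).resolve_left (sub_ne_zero.2 hs)
    rw [h6, mul_zero, add_zero] at h3
    exact ⟨h3, h6⟩
  obtain ⟨s, hs⟩ := pick (K := K) (hZ.union (h1.union h2))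
  rw [Set.mem_union, Set.mem_union, not_or, not_or] at hs
  obtain ⟨hs0, hs1, hs2⟩ := hs
  refine ⟨s, hs0, d_add_smul hg he s, fun ψ hψ φ h3 => ?_, fun ψ hψ y hy h3 => ?_⟩
  · by_contra hcon
    rw [lt_add] at h3
    exact hs1 (Set.mem_biUnion hψ ⟨φ, h3, hcon⟩)
  · by_contra hcon
    rw [lt_add, map_add, map_smul, smul_eq_mul] at h3
    exact hs2 (Set.mem_biUnion hψ (Set.mem_biUnion hy ⟨h3, hcon⟩))

private theorem steps (hδ : ∀ φ a, (δ φ a).fst = φ a) (hne : ∀ φ, ∃ a, (δ φ a).snd ≠ 0)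
    {S B : Set (C.A →ₐ[F] Ω)} (hS : S.Finite) (hB : B.Finite) {r : ℕ} {H : K ⊗[F] C.A}
    (hH : (C.G.bc K).d H = ((r + 1 : ℕ) : WithBot ℕ)) (hHS : ∀ ψ ∈ S, xl K ψ H ≠ 0)
    {g : K ⊗[F] C.A} (hg : (C.G.bc K).d g = (r : ℕ)) (l : List (K ⊗[F] C.A))
    (hl : ∀ e ∈ l, (C.G.bc K).d e < (r : ℕ)) :
    ∃ g' : K ⊗[F] C.A, (C.G.bc K).d g' = (r : ℕ) ∧
      (∀ ψ ∈ S, ∀ φ, δ φ (lt H ψ g') = 0 → ∀ e ∈ l, δ φ (lt H ψ e) = 0) ∧
      ∀ ψ ∈ S, ∀ y ∈ B, xl Ω y (lt H ψ g') = 0 → ∀ e ∈ l, xl Ω y (lt H ψ e) = 0 := by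
  induction l with
  | nil =>
    exact ⟨g, hg, fun _ _ _ _ e he => absurd he (List.not_mem_nil),
      fun _ _ _ _ _ e he => absurd he (List.not_mem_nil)⟩
  | cons e l ih =>
    obtain ⟨g', h1, h2, h3⟩ := ih fun e he => hl e (List.mem_cons_of_mem _ he)
    obtain ⟨s, -, h4, h5, h6⟩ := step hδ hne hS hB hH hHS h1 (hl e List.mem_cons_self)
      Set.finite_empty
    refine ⟨g' + s • e, h4, fun ψ hψ φ h7 e' he' => ?_, fun ψ hψ y hy h7 e' he' => ?_⟩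
    · obtain ⟨h8, h9⟩ := h5 ψ hψ φ h7
      rcases List.mem_cons.1 he' with rfl | he'
      · exact h9
      · exact h2 ψ hψ φ h8 e' he'
    · obtain ⟨h8, h9⟩ := h6 ψ hψ y hy h7
      rcases List.mem_cons.1 he' with rfl | he'
      · exact h9
      · exact h3 ψ hψ y hy h8 e' he'

end step

section gen

variable {F : Type} [Field F] {C : Crv F} {Ω : Type} [Field Ω] [Algebra F Ω]

/-- A homomorphism to the dual numbers is determined by the generators. -/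
private theorem gen_snd {T : Set C.A} (hT : Algebra.adjoin F T = ⊤)
    (δ : Ω ⊗[F] C.A →ₐ[Ω] DualNumber Ω) (h : ∀ x ∈ T, (δ (1 ⊗ₜ x)).snd = 0) (z : Ω ⊗[F] C.A) :
    (δ z).snd = 0 := by
  have h1 : ∀ x ∈ Algebra.adjoin F T, (δ (1 ⊗ₜ x)).snd = 0 := by
    intro x hx
    induction hx using Algebra.adjoin_induction with
    | mem x hx => exact h x hx
    | algebraMap c =>
      have e : (1 : Ω) ⊗ₜ[F] (algebraMap F C.A c) = algebraMap Ω _ (algebraMap F Ω c) := by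
        rw [Algebra.TensorProduct.algebraMap_apply, Algebra.algebraMap_self, RingHom.id_apply,
          Algebra.algebraMap_eq_smul_one, Algebra.algebraMap_eq_smul_one, TensorProduct.tmul_smul,
          TensorProduct.smul_tmul']
      rw [e, AlgHom.commutes]
      rfl
    | add x y _ _ hx hy =>
      rw [TensorProduct.tmul_add, map_add, TrivSqZeroExt.snd_add, hx, hy, add_zero]
    | mul x y _ _ hx hy =>
      have e : (1 : Ω) ⊗ₜ[F] (x * y) = (1 ⊗ₜ x) * (1 ⊗ₜ y) := by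
        rw [Algebra.TensorProduct.tmul_mul_tmul, one_mul]
      rw [e, map_mul, TrivSqZeroExt.snd_mul, hx, hy, smul_zero, smul_zero, add_zero]
  induction z with
  | zero => rw [map_zero]; rfl
  | tmul c x =>
    have e : c ⊗ₜ[F] x = c • ((1 : Ω) ⊗ₜ[F] x) := by
      rw [TensorProduct.smul_tmul', smul_eq_mul, mul_one]
    rw [e, map_smul, TrivSqZeroExt.snd_smul, h1 x (by rw [hT]; exact Algebra.mem_top), smul_zero]
  | add x y hx hy => rw [map_add, TrivSqZeroExt.snd_add, hx, hy, add_zero]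

end gen

section main

variable {F : Type} [Field F] {C : Crv F} {K Ω : Type} [Field K] [CharZero K] [Field Ω]
  [Algebra K Ω] [IsAlgClosure K Ω] [Algebra F K] [Algebra F Ω] [IsScalarTower F K Ω]

/-- Two functions without common zeros. -/
private theorem cop_of {G H : K ⊗[F] C.A} (h : ∀ ψ : C.A →ₐ[F] Ω, xl K ψ H = 0 → xl K ψ G ≠ 0) :
    IsCoprime G H := by
  have hsm := C.sm
  have hcl : IsAlgClosed Ω := IsAlgClosure.isAlgClosed K
  by_contra hcon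
  have h1 : Ideal.span {G, H} ≠ ⊤ := by
    intro h1
    rw [Ideal.eq_top_iff_one, Ideal.mem_span_pair] at h1
    exact hcon h1
  obtain ⟨M, hM, hle⟩ := Ideal.exists_le_maximal _ h1
  let _ : Field ((K ⊗[F] C.A) ⧸ M) := Ideal.Quotient.field M
  have hft : Algebra.FiniteType K ((K ⊗[F] C.A) ⧸ M) := inferInstance
  have hfin : Module.Finite K ((K ⊗[F] C.A) ⧸ M) := finite_of_finite_type_of_isJacobsonRing _ _
  let g : ((K ⊗[F] C.A) ⧸ M) →ₐ[K] Ω := IsAlgClosed.lift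
  obtain ⟨ψ, hψ⟩ := exists_xl (g.comp (Ideal.Quotient.mkₐ K M))
  have h2 : ∀ z ∈ M, xl K ψ z = 0 := by
    intro z hz
    rw [← hψ, AlgHom.comp_apply]
    have h3 : Ideal.Quotient.mkₐ K M z = 0 := Ideal.Quotient.eq_zero_iff_mem.2 hz
    rw [h3, map_zero]
  exact h ψ (h2 H (hle (Ideal.subset_span (by simp)))) (h2 G (hle (Ideal.subset_span (by simp))))

end main

/-- **General pencils.** Proof: `H = H₀ + b`, `G = G₀ + ∑ s_j e_j + s₀` with generators `e_j` of the functions; the constants are chosen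
one after the other outside finite sets (`bert`). A double zero `φ` of `H (ψ) G - G (ψ) H` is a double zero of all `H (ψ) e_j - e_j (ψ) H`
and of `H (ψ) - H`, so all functions have the differential `0` at `φ`. A zero `y` of all these functions is `ψ`. -/
theorem exists_pen {F : Type} [Field F] (C : Crv F) : ∃ r, ExPen C r := by
  classical
  have hsm := C.sm
  obtain ⟨T, hT⟩ := (inferInstance : Algebra.FiniteType F C.A).out
  obtain ⟨r₀, hr₀⟩ : ∃ r₀ : ℕ, ∀ x ∈ T, C.G.d x ≤ r₀ := by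
    have h1 : ∀ x : C.A, ∃ m : ℕ, C.G.d x ≤ m := by
      intro x
      by_cases hx : x = 0
      · exact ⟨0, by rw [hx, C.G.zero]; exact bot_le⟩
      · obtain ⟨m, hm⟩ := C.G.exists_nat hx
        exact ⟨m, hm.le⟩
    choose m hm using h1
    exact ⟨T.sup m, fun x hx => (hm x).trans (by exact_mod_cast Finset.le_sup hx)⟩
  obtain ⟨n₀, hn₀⟩ := C.G.tail
  obtain ⟨r, hr⟩ : ∃ r, r = max r₀ n₀ + 1 := ⟨_, rfl⟩
  have hrr : r₀ < r := by
    have := le_max_left r₀ n₀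
    omega
  have hrn : n₀ ≤ r := by
    have := le_max_right r₀ n₀
    omega
  have hr0 : 0 < r := by omega
  obtain ⟨G₀, hG₀⟩ := hn₀ r hrn
  obtain ⟨H₀, hH₀⟩ := hn₀ (r + 1) (by omega)
  refine ⟨r, ?_⟩
  intro K Ω _ _ _ _ _ _ _ _ S B hS hB
  have hcl : IsAlgClosed Ω := IsAlgClosure.isAlgClosed K
  have hch : CharZero Ω := charZero_of_injective_algebraMap (algebraMap K Ω).injective
  have hdomO : IsDomain (Ω ⊗[F] C.A) := C.domO Ω
  -- the homomorphisms to the dual numbers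
  have hex : ∀ φ : Ω ⊗[F] C.A →ₐ[Ω] Ω, ∃ t, Rg φ t := by
    intro φ
    obtain ⟨ψ, rfl⟩ := exists_xl φ
    exact xrg (M := Ω) C.G ψ
  choose t ht using hex
  choose δ hδ hδt using fun φ => exists_dl (C.G.bc Ω) (ht φ)
  have hne : ∀ φ, ∃ a, (δ φ a).snd ≠ 0 := fun φ => ⟨t φ, hδt φ⟩
  have hod : ∀ (ψ : C.A →ₐ[F] Ω) (f : Ω ⊗[F] C.A), f ≠ 0 → δ (xl Ω ψ) f ≠ 0 →
      od (xl Ω ψ) f ≤ 1 := by
    intro ψ f hf h1
    by_contra h2
    exact h1 (dl_od (C.G.bc Ω) (ht _) (hδ _) hf (by omega))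
  have hone : ∀ φ, δ φ 1 ≠ 0 := by
    intro φ h1
    have h2 := congrArg TrivSqZeroExt.fst h1
    rw [hδ, map_one] at h2
    exact one_ne_zero h2
  -- the finite sets
  obtain ⟨S', hS'⟩ : ∃ S' : Set (C.A →ₐ[F] Ω), S' = {ψ | Pen.fp ψ ∈ S} := ⟨_, rfl⟩
  obtain ⟨B', hB'⟩ : ∃ B' : Set (C.A →ₐ[F] Ω), B' = {ψ | Pen.fp ψ ∈ B} := ⟨_, rfl⟩
  have hSf : S'.Finite := by
    rw [hS']
    exact hS.preimage Pen.fp_inj.injOn
  have hBf : B'.Finite := by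
    rw [hB']
    exact hB.preimage Pen.fp_inj.injOn
  -- the denominator
  have hc1 : (C.G.bc K).d (1 : K ⊗[F] C.A) < ((r : ℕ) : WithBot ℕ) := by
    rw [(C.G.bc K).one]
    exact_mod_cast hr0
  have hHH₀ : (C.G.bc K).d ((1 : K) ⊗ₜ[F] H₀) = ((r + 1 : ℕ) : WithBot ℕ) := by
    rw [C.G.bc_one_tmul, hH₀]
  have hxi1 : xi F C.A K Ω (1 : K ⊗[F] C.A) = 1 := map_one _
  have hH₀0 : xi F C.A K Ω ((1 : K) ⊗ₜ[F] H₀) ≠ 0 := by
    intro h1
    have h2 : (C.G.bc Ω).d (xi F C.A K Ω ((1 : K) ⊗ₜ[F] H₀)) = ((r + 1 : ℕ) : WithBot ℕ) := by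
      rw [xi_d, hHH₀]
    rw [h1, (C.G.bc Ω).zero] at h2
    exact WithBot.bot_ne_coe h2
  obtain ⟨b, hb⟩ := pick (K := K) ((bert (C.G.bc Ω) hδ hne hH₀0 1).union
    ((hSf.union hBf).image fun ψ => -xl K ψ ((1 : K) ⊗ₜ[F] H₀)))
  rw [Set.mem_union, not_or] at hb
  obtain ⟨hb1, hb2⟩ := hb
  obtain ⟨H, hHe⟩ : ∃ H : K ⊗[F] C.A, H = (1 : K) ⊗ₜ[F] H₀ + b • 1 := ⟨_, rfl⟩
  have hHd : (C.G.bc K).d H = ((r + 1 : ℕ) : WithBot ℕ) := by
    rw [hHe, add_comm, (C.G.bc K).add_eq, hHH₀]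
    rw [hHH₀]
    refine ((C.G.bc K).smul_le b 1).trans_lt (hc1.trans ?_)
    exact_mod_cast Nat.lt_succ_self r
  have hHx : xi F C.A K Ω H = xi F C.A K Ω ((1 : K) ⊗ₜ[F] H₀) + algebraMap K Ω b • 1 := by
    rw [hHe, map_add, xi_smul, hxi1]
  have hHδ : ∀ φ, δ φ (xi F C.A K Ω H) ≠ 0 := by
    intro φ h1
    rw [hHx] at h1
    exact hb1 ⟨φ, h1, fun h2 => hone φ h2.2⟩
  have hHv : ∀ ψ ∈ S' ∪ B', xl K ψ H ≠ 0 := by
    intro ψ hψ h1
    apply hb2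
    refine ⟨ψ, hψ, ?_⟩
    rw [hHe, map_add, map_smul, map_one, Algebra.smul_def, mul_one] at h1
    exact (eq_neg_of_add_eq_zero_right h1).symm
  have hHS : ∀ ψ ∈ S', xl K ψ H ≠ 0 := fun ψ hψ => hHv ψ (Or.inl hψ)
  have hZf : {ψ : C.A →ₐ[F] Ω | xl K ψ H = 0}.Finite := by
    have h1 : xi F C.A K Ω H ≠ 0 := by
      intro h1
      have h2 : (C.G.bc Ω).d (xi F C.A K Ω H) = ((r + 1 : ℕ) : WithBot ℕ) := by rw [xi_d, hHd]
      rw [h1, (C.G.bc Ω).zero] at h2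
      exact WithBot.bot_ne_coe h2
    refine (zr_fin h1).subset fun ψ hψ => ?_
    change xl Ω ψ (xi F C.A K Ω H) = 0
    rw [xl_xi]
    exact hψ
  -- the numerator
  have hGG₀ : (C.G.bc K).d ((1 : K) ⊗ₜ[F] G₀) = ((r : ℕ) : WithBot ℕ) := by
    rw [C.G.bc_one_tmul, hG₀]
  obtain ⟨g, hg, hg1, hg2⟩ := steps hδ hne hSf hBf hHd hHS hGG₀
    (T.toList.map fun x => (1 : K) ⊗ₜ[F] x) (by
      intro e he
      obtain ⟨x, hx, rfl⟩ := List.mem_map.1 he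
      rw [C.G.bc_one_tmul]
      refine (hr₀ x (Finset.mem_toList.1 hx)).trans_lt ?_
      exact_mod_cast hrr)
  have hg0 : xi F C.A K Ω g ≠ 0 := by
    intro h1
    have h2 : (C.G.bc Ω).d (xi F C.A K Ω g) = ((r : ℕ) : WithBot ℕ) := by rw [xi_d, hg]
    rw [h1, (C.G.bc Ω).zero] at h2
    exact WithBot.bot_ne_coe h2
  obtain ⟨s, hs, hGd, hs1, hs2⟩ := step hδ hne hSf hBf hHd hHS hg hc1
    ((bert (C.G.bc Ω) hδ hne hg0 1).union
      (((hSf.union hBf).union hZf).image fun ψ => -xl K ψ g))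
  rw [Set.mem_union, not_or] at hs
  obtain ⟨hs3, hs4⟩ := hs
  obtain ⟨G, hGe⟩ : ∃ G : K ⊗[F] C.A, G = g + s • 1 := ⟨_, rfl⟩
  rw [← hGe] at hGd hs1 hs2
  have hGx : xi F C.A K Ω G = xi F C.A K Ω g + algebraMap K Ω s • 1 := by
    rw [hGe, map_add, xi_smul, hxi1]
  have hGδ : ∀ φ, δ φ (xi F C.A K Ω G) ≠ 0 := by
    intro φ h1
    rw [hGx] at h1
    exact hs3 ⟨φ, h1, fun h2 => hone φ h2.2⟩
  have hGv : ∀ ψ ∈ (S' ∪ B') ∪ {ψ : C.A →ₐ[F] Ω | xl K ψ H = 0}, xl K ψ G ≠ 0 := by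
    intro ψ hψ h1
    apply hs4
    refine ⟨ψ, hψ, ?_⟩
    rw [hGe, map_add, map_smul, map_one, Algebra.smul_def, mul_one] at h1
    exact (eq_neg_of_add_eq_zero_right h1).symm
  -- the functions `H (ψ) G - G (ψ) H`
  have hlt1 : ∀ ψ : C.A →ₐ[F] Ω, lt H ψ 1 = algebraMap Ω _ (xl K ψ H) - xi F C.A K Ω H := by
    intro ψ
    unfold lt
    rw [hxi1, map_one, one_smul, Algebra.algebraMap_eq_smul_one]
  have hltx : ∀ (ψ : C.A →ₐ[F] Ω) (x : C.A), lt H ψ ((1 : K) ⊗ₜ[F] x) =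
      xl K ψ H • ((1 : Ω) ⊗ₜ[F] x) - ψ x • xi F C.A K Ω H := by
    intro ψ x
    unfold lt
    rw [xi_tmul, map_one, xl_tmul, map_one, one_mul]
  have hD : ∀ ψ ∈ S', ∀ φ, δ φ (lt H ψ G) ≠ 0 := by
    intro ψ hψ φ h1
    have hc := hHS ψ hψ
    obtain ⟨h2, h3⟩ := hs1 ψ hψ φ h1
    have h4 := hg1 ψ hψ φ h2
    rw [hlt1, map_sub, AlgHom.commutes, sub_eq_zero] at h3
    obtain ⟨a, ha⟩ := hne φ
    refine ha (gen_snd hT (δ φ) (fun x hx => ?_) a)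
    have h5 := h4 ((1 : K) ⊗ₜ[F] x) (List.mem_map.2 ⟨x, Finset.mem_toList.2 hx, rfl⟩)
    rw [hltx, map_sub, map_smul, map_smul, ← h3, sub_eq_zero] at h5
    have h6 := congrArg TrivSqZeroExt.snd h5
    rw [TrivSqZeroExt.snd_smul, TrivSqZeroExt.snd_smul] at h6
    have h7 : (algebraMap Ω (DualNumber Ω) (xl K ψ H)).snd = 0 := rfl
    rw [h7, smul_zero, smul_eq_mul] at h6
    exact (mul_eq_zero.1 h6).resolve_left hc
  have hV : ∀ ψ ∈ S', ∀ y ∈ B', xl Ω y (lt H ψ G) = 0 → y = ψ := by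
    intro ψ hψ y hy h1
    have hc := hHS ψ hψ
    obtain ⟨h2, h3⟩ := hs2 ψ hψ y hy h1
    have h4 := hg2 ψ hψ y hy h2
    rw [hlt1, map_sub, AlgHom.commutes, sub_eq_zero, xl_xi] at h3
    have h3' : xl K ψ H = xl K y H := h3
    refine AlgHom.ext_of_adjoin_eq_top hT fun x hx => ?_
    have h5 := h4 ((1 : K) ⊗ₜ[F] x) (List.mem_map.2 ⟨x, Finset.mem_toList.2 hx, rfl⟩)
    rw [hltx, map_sub, map_smul, map_smul, xl_tmul, map_one, one_mul, xl_xi, ← h3', sub_eq_zero,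
      smul_eq_mul, smul_eq_mul, mul_comm (ψ x)] at h5
    exact mul_left_cancel₀ hc h5
  -- the pencil
  let p : Pen C K r := ⟨G, H, hGd, hHd, cop_of fun ψ hψ => hGv ψ (Or.inr hψ)⟩
  have hfn : ∀ ψ : C.A →ₐ[F] Ω, p.fn (xl K ψ G) (xl K ψ H) = -lt H ψ G := by
    intro ψ
    unfold Pen.fn lt
    rw [neg_sub]
  have hgS : ∀ ψ ∈ S', xl K ψ G ≠ 0 := fun ψ hψ => hGv ψ (Or.inl (Or.inl hψ))
  refine ⟨p, ?_, ?_, ?_, ?_, ?_⟩
  · rw [p.zh_eq]
    have e : p.fn (1 : Ω) 0 = xi F C.A K Ω H := by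
      unfold Pen.fn
      rw [one_smul, zero_smul, sub_zero]
    refine Pen.pts_card_eq (p.d_fn one_ne_zero 0) fun φ => ?_
    rw [e]
    refine hod φ _ ?_ (hHδ _)
    rw [← e]
    exact (C.G.bc Ω).ne_zero (p.d_fn one_ne_zero 0)
  · rintro y ⟨ψ, rfl, h1⟩ hyB
    refine hHv ψ (Or.inr ?_) h1
    rw [hB']
    exact hyB
  · intro t ht
    match t, ht with
    | none, _ =>
      rw [p.fib_none]
      have e : p.fn (0 : Ω) 1 = -xi F C.A K Ω G := by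
        unfold Pen.fn
        rw [one_smul, zero_smul, zero_sub]
      have h1 : (Pen.pts C (p.fn (0 : Ω) 1)).ncard = r := by
        refine Pen.pts_card_eq (p.d_fn' one_ne_zero) fun φ => ?_
        refine hod φ _ ((C.G.bc Ω).ne_zero (p.d_fn' one_ne_zero)) ?_
        rw [e, map_neg, neg_ne_zero]
        exact hGδ _
      refine (Set.ncard_insert_of_notMem (a := (none : C.V.pt Ω)) ?_
        (Pen.pts_fin ((C.G.bc Ω).ne_zero (p.d_fn' one_ne_zero)))).trans (congrArg (· + 1) h1)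
      rintro ⟨φ, -, h2⟩
      exact absurd h2.symm (Option.some_ne_none φ)
    | some ψ, ht =>
      have hψ : ψ ∈ S' := by
        rw [hS']
        exact ht
      have h1 : p.g (some ψ : C.V.pt Ω) ≠ 0 := hgS ψ hψ
      rw [p.fib_eq h1]
      refine Pen.pts_card_eq (p.d_fn h1 _) fun φ => ?_
      refine hod φ _ ((C.G.bc Ω).ne_zero (p.d_fn h1 _)) ?_
      have e : p.fn (p.g (some ψ : C.V.pt Ω)) (p.h (some ψ : C.V.pt Ω)) = -lt H ψ G := hfn ψ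
      rw [e, map_neg, neg_ne_zero]
      exact hD ψ hψ _
  · intro t ht hn h1
    match t, ht, hn, h1 with
    | none, _, hn, _ => exact hn rfl
    | some ψ, ht, _, h1 =>
      have hψ : ψ ∈ S' := by
        rw [hS']
        exact ht
      have h2 : xl K ψ G * 1 = xl K ψ H * 0 := p.mem_fib.1 h1
      rw [mul_one, mul_zero] at h2
      exact hgS ψ hψ h2
  · intro t ht y hy hne' hyB
    match t, y, ht, hy, hne', hyB with
    | none, none, _, _, hne', _ => exact hne' rfl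
    | none, some y, _, hy, _, hyB =>
      have hy' : y ∈ B' := by
        rw [hB']
        exact hyB
      have h2 : (0 : Ω) * xl K y H = 1 * xl K y G := p.mem_fib.1 hy
      rw [zero_mul, one_mul] at h2
      exact hGv y (Or.inl (Or.inr hy')) h2.symm
    | some ψ, none, ht, hy, _, _ =>
      have hψ : ψ ∈ S' := by
        rw [hS']
        exact ht
      have h2 : xl K ψ G * 1 = xl K ψ H * 0 := p.mem_fib.1 hy
      rw [mul_one, mul_zero] at h2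
      exact hgS ψ hψ h2
    | some ψ, some y, ht, hy, hne', hyB =>
      have hψ : ψ ∈ S' := by
        rw [hS']
        exact ht
      have hy' : y ∈ B' := by
        rw [hB']
        exact hyB
      have h2 : xl K ψ G * xl K y H = xl K ψ H * xl K y G := p.mem_fib.1 hy
      refine hne' (congrArg some (hV ψ hψ y hy' ?_))
      unfold lt
      rw [map_sub, map_smul, map_smul, xl_xi, xl_xi, smul_eq_mul, smul_eq_mul, h2, sub_self]

end DC
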