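import Pool.Agent.Lib.MP_f80667_ag.Dc.LocM
import Pool.Agent.Lib.MP_f80667_ag.Dc.GdA
import Pool.Agent.Lib.MP_f80667_ag.Dc.GdB
import Pool.Agent.Lib.MP_f80667_ag.Dc.Pen
import Pool.Agent.Lib.MP_f80667_ag.Do.GloM

/-! Varieties dominated by products of curves over number fields. -/

open ZC BE PE Polynomial IntermediateField IsDedekindDomain NumberField CV NE

namespace DC

/-- The prime number `l` is suitable for the number field `E`: it is odd, it does not divide `m`, and it is unramified in `E`. -/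
def Sl (E : Type) [Field E] [NumberField E] (m l : ℕ) : Prop :=
  l.Prime ∧ l ≠ 2 ∧ ¬ l ∣ m ∧ ∀ w : HeightOneSpectrum (𝓞 E),
    w.valuation E (l : E) = 1 ∨ w.valuation E (l : E) = WithZero.exp (-1 : ℤ)

theorem exists_sl (E : Type) [Field E] [NumberField E] {m : ℕ} (hm : m ≠ 0) :
    ∃ l₀ : ℕ, 2 ≤ l₀ ∧ ∀ l : ℕ, l.Prime → l₀ < l → Sl E m l := by
  obtain ⟨l₁, h1⟩ := exists_unr E
  refine ⟨max l₁ (max m 2), le_max_of_le_right (le_max_right _ _), fun l hl hlt => ?_⟩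
  have h2 : l₁ < l := (le_max_left _ _).trans_lt hlt
  have h3 : m < l := ((le_max_left _ _).trans (le_max_right _ _)).trans_lt hlt
  have h4 : 2 < l := ((le_max_right _ _).trans (le_max_right _ _)).trans_lt hlt
  exact ⟨hl, h4.ne', fun h => absurd (Nat.le_of_dvd (Nat.pos_of_ne_zero hm) h) (not_le.2 h3),
    h1 l hl h2⟩

section place

variable {F F' E : Type} [Field F] [NumberField F] [Field F'] [Algebra F F'] [Field E]
  [NumberField E] [Algebra F E] [Algebra F' E] [IsScalarTower F F' E]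
  {N N' n d k k' : ℕ} {ι ι' : Type} {f : ι → MvPolynomial (Fin N) F} {A : GX.Gv F N' k' ι'}
  {M : GX.Mf f A k} {C : Fin n → Crv F'} {Φ : Fin N → MvPolynomial (Σ i, (C i).A) F'}
  {h : MvPolynomial (Fin N) F} {D : ℕ} {r : Fin n → ℕ}

/-- **One place.** -/
theorem one_v {l : ℕ} (hl : Sl E (nb r * D * Module.finrank F E) l)
    (v : HeightOneSpectrum (𝓞 F)) (hg : Gdv C E v)
    {P : ∀ (K Ω : Type) [Field K] [Field Ω] [Algebra K Ω] [Algebra F K] [Algebra F Ω]
      [IsScalarTower F K Ω], Prop}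
    (hP : ∀ (K Ω : Type) [Field K] [CharZero K] [Field Ω] [Algebra K Ω] [IsAlgClosure K Ω]
      [Algebra F K] [Algebra F Ω] [IsScalarTower F K Ω] [Algebra F' K] [Algebra F' Ω]
      [IsScalarTower F' K Ω] [IsScalarTower F F' K] [IsScalarTower F F' Ω],
      DvG (fun i => (C i).V) K Ω l → P K Ω)
    (ht : ∀ (K Ω : Type) [Field K] [CharZero K] [Field Ω] [Algebra K Ω] [IsAlgClosure K Ω]
      [Algebra F K] [Algebra F Ω] [IsScalarTower F K Ω] (M : IntermediateField K Ω)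
      [FiniteDimensional K M] [IsScalarTower F M Ω], (Module.finrank K M).Coprime l → P M Ω →
        P K Ω) :
    P (FK F v) (AlgebraicClosure (FK F v)) := by
  obtain ⟨hlp, hl2, hlm, hlu⟩ := hl
  have h2 : ¬ l ∣ Module.finrank F E := fun h => hlm (h.mul_left _)
  have hc : CharZero (FK F v) := charZero_of_injective_algebraMap (algebraMap F (FK F v)).injective
  obtain ⟨L, c, hc0, hc1, hL, hv, hd⟩ := DN.exists_ldD v
  have hfin : FiniteDimensional F E := FiniteDimensional.right ℚ F E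
  obtain ⟨σ, hMf, hMc⟩ := DN.exists_emb (F := F) (F' := E) (K := FK F v)
    (Ω := AlgebraicClosure (FK F v)) hlp h2
  obtain ⟨w, c', hvw, h0', h1', hw, hM'⟩ := exists_plb v L hc0 hc1 hL hd σ
  obtain ⟨B, hBe⟩ : ∃ B : IntermediateField (FK F v) (AlgebraicClosure (FK F v)),
      B = IntermediateField.adjoin (FK F v) (Set.range σ) := ⟨_, rfl⟩
  rw [← hBe] at hMf hMc hM'
  have hσM : ∀ x, σ x ∈ B := fun x => by
    rw [hBe]
    exact subset_adjoin _ _ ⟨x, rfl⟩
  let iΩ : Algebra E (AlgebraicClosure (FK F v)) :=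
    (σ : E →+* AlgebraicClosure (FK F v)).toAlgebra
  let iM : Algebra E B :=
    ((σ : E →+* AlgebraicClosure (FK F v)).codRestrict B hσM).toAlgebra
  let jΩ : Algebra F' (AlgebraicClosure (FK F v)) :=
    ((algebraMap E (AlgebraicClosure (FK F v))).comp (algebraMap F' E)).toAlgebra
  let jM : Algebra F' B := ((algebraMap E B).comp (algebraMap F' E)).toAlgebra
  have t1 : IsScalarTower E B (AlgebraicClosure (FK F v)) :=
    IsScalarTower.of_algebraMap_eq fun _ => rfl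
  have t2 : IsScalarTower F B (AlgebraicClosure (FK F v)) :=
    IsScalarTower.of_algebraMap_eq fun _ => rfl
  have t3 : IsScalarTower F' E B := IsScalarTower.of_algebraMap_eq fun _ => rfl
  have t4 : IsScalarTower F' B (AlgebraicClosure (FK F v)) :=
    IsScalarTower.of_algebraMap_eq fun _ => rfl
  have e1 : ∀ x : F, σ (algebraMap F' E (algebraMap F F' x)) =
      algebraMap F (AlgebraicClosure (FK F v)) x := fun x => by
    rw [← IsScalarTower.algebraMap_apply F F' E]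
    exact σ.commutes x
  have t5 : IsScalarTower F F' (AlgebraicClosure (FK F v)) :=
    IsScalarTower.of_algebraMap_eq fun x => (e1 x).symm
  have t6 : IsScalarTower F F' B :=
    IsScalarTower.of_algebraMap_eq fun x => Subtype.ext (e1 x).symm
  have hcl : IsAlgClosed (AlgebraicClosure (FK F v)) := inferInstance
  have hal : Algebra.IsAlgebraic (FK F v) (AlgebraicClosure (FK F v)) :=
    AlgebraicClosure.isAlgebraic _
  have hac : IsAlgClosure B (AlgebraicClosure (FK F v)) :=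
    ⟨hcl, Algebra.IsAlgebraic.tower_top (K := FK F v) B⟩
  have hdv : DvG (fun i => (C i).V) B (AlgebraicClosure (FK F v)) l :=
    dvG_md (GX.xt L B) w h0' h1' (fun x n hx => hw x n hx)
      (fun x hx => hM' x x.2 fun h0 => hx (Subtype.ext h0)) (hg w hvw) hlp hl2 (hlu w)
  exact ht _ _ B hMc (hP B (AlgebraicClosure (FK F v)) hdv)

/-- **One place.** -/
theorem dm_v (hf : GX.Nsg f d) (hD : Dom f C Φ h D) (h0 : D ≠ 0) (hC : Cst f C Φ h)
    (hr : ∀ i, ExPen (C i) (r i)) {l : ℕ} (hl : Sl E (nb r * D * Module.finrank F E) l)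
    (v : HeightOneSpectrum (𝓞 F)) (hg : Gdv C E v) :
    Dm (GX.Xf f) (FK F v) (AlgebraicClosure (FK F v)) l := by
  have h1 : ¬ l ∣ nb r * D := fun h => hl.2.2.1 (h.mul_right _)
  refine one_v (P := fun K Ω _ _ _ _ _ _ => Dm (GX.Xf f) K Ω l) hl v hg ?_ ?_
  · intro K Ω _ _ _ _ _ _ _ _ _ _ _ _ _ hd
    exact dm_X hf hD h0 hC hr ((Nat.Prime.coprime_iff_not_dvd hl.1).2 h1) hd
  · intro K Ω _ _ _ _ _ _ _ _ M _ _ hc hd
    exact KM.dm_tr (GX.fct f) M hc hd

/-- **One place.** -/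
theorem dw_v (hf : GX.Nsg f d) (hA : A.Ok) (hM : M.Ok) (hD : Dom f C Φ h D) (h0 : D ≠ 0)
    (hP : Plb C Φ h M) (hr : ∀ i, ExPen (C i) (r i)) {l : ℕ}
    (hl : Sl E (nb r * D * Module.finrank F E) l) (v : HeightOneSpectrum (𝓞 F))
    (hg : Gdv C E v) (j : ℕ) : DN.Dw M (FK F v) (AlgebraicClosure (FK F v)) (l ^ j) := by
  have h1 : ¬ l ∣ nb r * D := fun h => hl.2.2.1 (h.mul_right _)
  refine one_v (P := fun K Ω _ _ _ _ _ _ => DN.Dw M K Ω (l ^ j)) hl v hg ?_ ?_
  · intro K Ω _ _ _ _ _ _ _ _ _ _ _ _ _ hd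
    exact dw_X hf hA hM hD h0 hP hr (((Nat.Prime.coprime_iff_not_dvd hl.1).2 h1).pow_left j)
      (DN.dvG_pow hd j)
  · intro K Ω _ _ _ _ _ _ _ _ M _ _ hc hd
    exact DN.dw_tr M (hc.pow_right j) hd

/-- **One place**: the kernel of the sum is divisible by `l`. -/
theorem dvS_v (hf : GX.Nsg f d) (hA : A.Ok) (hM : M.Ok) (hD : Dom f C Φ h D) (h0 : D ≠ 0)
    (hP : Plb C Φ h M) (hr : ∀ i, ExPen (C i) (r i)) {l : ℕ}
    (hl : Sl E (nb r * D * Module.finrank F E) l) (v : HeightOneSpectrum (𝓞 F))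
    (hg : Gdv C E v) : GX.DvS M (FK F v) l := by
  have hc : CharZero (FK F v) := charZero_of_injective_algebraMap (algebraMap F (FK F v)).injective
  obtain ⟨L, -⟩ := DN.exists_ldD v
  let _ : AddCommGroup ((GX.Xf A.a).pt (AlgebraicClosure (FK F v))) := A.G.grp _
  obtain ⟨e, he⟩ : ∃ e : ℕ, ∀ R : (GX.Xf A.a).pt (AlgebraicClosure (FK F v)),
      (∀ γ : AlgebraicClosure (FK F v) ≃ₐ[FK F v] AlgebraicClosure (FK F v),
        (GX.Xf A.a).act γ R = R) → ∀ j : ℕ, l ^ j • R = 0 → l ^ e • R = 0 :=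
    DN.bdd_tor L hA hl.1
  intro z hz
  have hz0 : M.S (AlgebraicClosure (FK F v)) z.cy = 0 := hz
  obtain ⟨z', hz', hr'⟩ := dw_v hf hA hM hD h0 hP hr hl v hg (e + 1) z.1 z.2 hz
  have hs1 : M.S (AlgebraicClosure (FK F v)) (z.cy - l ^ (e + 1) • z') = 0 :=
    RS.rs (K := FK F v) hf.hom hA hM hr'
  have hs2 : l ^ (e + 1) • M.S (AlgebraicClosure (FK F v)) z' = 0 := by
    rw [map_sub, hz0, zero_sub, neg_eq_zero, map_nsmul] at hs1
    exact hs1
  have hs3 : l ^ e • M.S (AlgebraicClosure (FK F v)) z' = 0 := by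
    refine he _ (fun γ => ?_) (e + 1) hs2
    have h3 := GX.mfS_act hM γ z'
    rw [← h3]
    congr 1
    exact hz'.1 γ
  refine ⟨⟨l ^ e • z', nsmul_mem hz' _⟩, ?_, ?_⟩
  · change M.S (AlgebraicClosure (FK F v)) (l ^ e • z') = 0
    rw [map_nsmul]
    exact hs3
  · refine GX.cl_of ?_
    change z.cy - l • (l ^ e • z') ∈ _
    rw [smul_smul, ← pow_succ']
    exact hr'

end place

/-- All `m` with prime factors in `P`. -/
theorem cl_sf {F : Type} [Field F] {V : Vr F} {K : Type} [Field K] [Algebra F K] {P : Set ℕ}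
    (h : ∀ l ∈ P, ∀ z : Zc V K, ∃ z' : Zc V K, z.cl = l • z'.cl) {m : ℕ} (hm : m ≠ 0)
    (hS : Sf P m) (z : Zc V K) : ∃ z' : Zc V K, z.cl = m • z'.cl := by
  induction m using Nat.strong_induction_on generalizing z with
  | _ m ih =>
    by_cases h1 : m = 1
    · subst h1
      exact ⟨z, (one_smul _ _).symm⟩
    obtain ⟨l, hl, k, rfl⟩ := Nat.exists_prime_and_dvd h1
    have hk0 : k ≠ 0 := fun h0 => hm (by rw [h0, mul_zero])
    have hlt : k < l * k := lt_mul_of_one_lt_left (Nat.pos_of_ne_zero hk0) hl.one_lt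
    obtain ⟨z', e'⟩ := h l (hS l hl (dvd_mul_right l k)) z
    obtain ⟨z'', e''⟩ := ih k hlt hk0 (fun q hq hqk => hS q hq (dvd_mul_of_dvd_right hqk l)) z'
    exact ⟨z'', by rw [e', e'', smul_smul]⟩

variable {F F' : Type} [Field F] [NumberField F] [Field F'] [Algebra F F'] {N n d : ℕ} {ι : Type}
  {f : ι → MvPolynomial (Fin N) F} {C : Fin n → Crv F'}
  {Φ : Fin N → MvPolynomial (Σ i, (C i).A) F'} {h : MvPolynomial (Fin N) F} {D : ℕ}

/-- **The theorem.** -/
theorem main_C (hf : GX.Nsg f d) (hD : Dom f C Φ h D) (h0 : D ≠ 0) (E : Type) [Field E]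
    [NumberField E] [Algebra F E] [Algebra F' E] [IsScalarTower F F' E] :
    {v : HeightOneSpectrum (𝓞 F) | ¬ Gdv C E v}.Finite ∧
    ∃ l₀ : ℕ,
      (∀ v : HeightOneSpectrum (𝓞 F), Gdv C E v → ∀ l : ℕ, l.Prime → l₀ < l →
        (Cst f C Φ h → ∀ z : Zc (GX.Xf f) (FK F v), ∃ z' : Zc (GX.Xf f) (FK F v),
          z.cl = l • z'.cl) ∧
        ∀ (N' k k' : ℕ) (ι' : Type) (A : GX.Gv F N' k' ι') (M : GX.Mf f A k), A.Ok → M.Ok →
          Plb C Φ h M → GX.DvS M (FK F v) l) ∧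
      ∀ P : Set ℕ, (∀ l ∈ P, l.Prime ∧ l₀ < l) →
        (Cst f C Φ h → (∀ v : HeightOneSpectrum (𝓞 F), ¬ Gdv C E v → ∀ l ∈ P,
            ∀ z : Zc (GX.Xf f) (FK F v), ∃ z' : Zc (GX.Xf f) (FK F v), z.cl = l • z'.cl) →
          QP (GX.Xf f) P) ∧
        ∀ (N' k k' : ℕ) (ι' : Type) (A : GX.Gv F N' k' ι') (M : GX.Mf f A k), A.Ok → M.Ok →
          Plb C Φ h M →
          (∀ v : HeightOneSpectrum (𝓞 F), ¬ Gdv C E v → ∀ l ∈ P, GX.DvS M (FK F v) l) →
          (∀ m : ℕ, m ≠ 0 → Sf P m → ∀ c : Fam (GX.Xf f), GX.AlbX M c →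
            ∃ c' : Fam (GX.Xf f), GX.AlbX M c' ∧ c.cl = m • c'.cl) ∧
          ∀ z : LHat (FA (GX.Xf f)), ImDeS P z ↔ GX.SumX M P z := by
  choose r hr using fun i => exists_pen (C i)
  have hfin : FiniteDimensional F E := FiniteDimensional.right ℚ F E
  have hne : nb r * D * Module.finrank F E ≠ 0 := by
    refine mul_ne_zero (mul_ne_zero ?_ h0) Module.finrank_pos.ne'
    refine List.prod_ne_zero ?_
    rw [List.mem_map]
    rintro ⟨i, -, hi⟩
    exact Nat.factorial_ne_zero _ hi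
  obtain ⟨l₀, h2l, hl₀⟩ := exists_sl E hne
  refine ⟨gdv_fin C E, l₀, fun v hv l hl hlt => ⟨fun hC => ?_, fun N' k k' ι' A M hA hM hP => ?_⟩,
    fun P hPr => ⟨fun hC hb => ?_, fun N' k k' ι' A M hA hM hP hb => ?_⟩⟩
  · exact dm_cl (dm_v hf hD h0 hC hr (hl₀ l hl hlt) v hv)
  · exact dvS_v hf hA hM hD h0 hP hr (hl₀ l hl hlt) v hv
  · have h2 : 2 ∉ P := fun h => absurd (hPr 2 h).2 (not_lt.2 h2l)
    have key : ∀ m : ℕ, m ≠ 0 → Sf P m →
        ∀ c : Fam (GX.Xf f), ∃ c' : Fam (GX.Xf f), c.cl = m • c'.cl := by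
      intro m hm hS
      have h3 : Odd m := by
        rw [← Nat.not_even_iff_odd, even_iff_two_dvd]
        exact fun h' => h2 (hS 2 Nat.prime_two h')
      refine fam_m h3 fun v => cl_sf (fun l hl => ?_) hm hS
      by_cases hv : Gdv C E v
      · exact dm_cl (dm_v hf hD h0 hC hr (hl₀ l (hPr l hl).1 (hPr l hl).2) v hv)
      · exact hb v hv l hl
    exact ⟨key, im_m key⟩
  · have h2 : 2 ∉ P := fun h => absurd (hPr 2 h).2 (not_lt.2 h2l)
    have key : ∀ l ∈ P, l.Prime → ∀ v : HeightOneSpectrum (𝓞 F), GX.DvS M (FK F v) l := by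
      intro l hl _ v
      by_cases hv : Gdv C E v
      · exact dvS_v hf hA hM hD h0 hP hr (hl₀ l (hPr l hl).1 (hPr l hl).2) v hv
      · exact hb v hv l hl
    exact ⟨GX.famX_dv h2 key, GX.imX_sum h2 key⟩

end DC
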