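import Pool.Agent.Lib.MP_f80667_ag.Dc.Frd
import Pool.Agent.Lib.MP_f80667_ag.Do.Gr

/-! Divisors of functions with control of the values, for any algebraic closure of the function field. -/

open ZC BE PE CV TensorProduct

namespace DC

section red

variable {F : Type} [Field F] {C : Crv F} {K Ω : Type} [Field K] [Field Ω] [Algebra K Ω]
  [Algebra F K] [Algebra F Ω] [IsScalarTower F K Ω] {E E' : Type} [Field E] [CharZero E]
  [Field E'] [Algebra K E] [Algebra F E] [IsScalarTower F K E] [Algebra E E'] [IsAlgClosure E E']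
  [Algebra K E'] [IsScalarTower K E E'] [Algebra F E'] [IsScalarTower F E E']
  [IsScalarTower F K E']

/-- Two places of the algebraic closure `E'` of `E` above the same place of `E` have the same values at the points over `E`. Proof: a point `some φ` which is invariant under all automorphisms has values `φ a` in `E` (the fixed field of the automorphisms is `E`), where the valuation rings and the residues agree. -/
theorem red_cg {x : C.V.pt E'} (hx : ∀ σ : E' ≃ₐ[E] E', C.V.act σ x = x)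
    {W W' : Place K E' Ω} (h : ∀ a : E, algebraMap E E' a ∈ W.V ↔ algebraMap E E' a ∈ W'.V)
    (h' : ∀ (a : E) (h : algebraMap E E' a ∈ W.V) (h' : algebraMap E E' a ∈ W'.V),
      W.res ⟨_, h⟩ = W'.res ⟨_, h'⟩) {y : C.V.pt Ω} (hy : C.V.red W x y) : C.V.red W' x y := by
  have hal : Algebra.IsAlgebraic E E' := IsAlgClosure.isAlgebraic
  have hac : IsAlgClosed E' := IsAlgClosure.isAlgClosed E
  have hnorm : Normal E E' := IsAlgClosure.normal E E'
  have hgal : IsGalois E E' := ⟨⟩
  have key : ∀ φ : C.A →ₐ[F] E', x = some φ → ∀ a, ∃ b : E, algebraMap E E' b = φ a := by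
    intro φ hφ a
    have h1 : φ a ∈ (⊥ : IntermediateField E E') := by
      rw [InfiniteGalois.mem_bot_iff_fixed]
      intro σ
      have h2 := hx σ
      rw [hφ] at h2
      have h3 : ((σ.restrictScalars F : E' →ₐ[F] E').comp φ) = φ := Option.some.inj h2
      exact congrArg (fun f : C.A →ₐ[F] E' => f a) h3
    exact IntermediateField.mem_bot.1 h1
  rcases hy with ⟨h1, h2⟩ | ⟨φ, h1, ⟨a, ha⟩, h2⟩ | ⟨φ, ψ, h1, h2, h3⟩
  · exact Or.inl ⟨h1, h2⟩
  · refine Or.inr (Or.inl ⟨φ, h1, ⟨a, fun h4 => ha ?_⟩, h2⟩)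
    obtain ⟨b, hb⟩ := key φ h1 a
    rw [← hb] at h4 ⊢
    exact (h b).2 h4
  · refine Or.inr (Or.inr ⟨φ, ψ, h1, h2, fun a => ?_⟩)
    obtain ⟨h4, h5⟩ := h3 a
    obtain ⟨b, hb⟩ := key φ h1 a
    have h6 : algebraMap E E' b ∈ W.V := by
      rw [hb]
      exact h4
    have h7 : algebraMap E E' b ∈ W'.V := (h b).1 h6
    have h8 : φ a ∈ W'.V := by
      rw [← hb]
      exact h7
    refine ⟨h8, ?_⟩
    have e1 : (⟨φ a, h4⟩ : W.V) = ⟨algebraMap E E' b, h6⟩ := Subtype.ext hb.symm
    have e2 : (⟨φ a, h8⟩ : W'.V) = ⟨algebraMap E E' b, h7⟩ := Subtype.ext hb.symm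
    rw [h5, e1, e2]
    exact h' b h6 h7

end red

section tr

variable {K Ω E' B : Type} [Field K] [Field Ω] [Field E'] [Field B] [Algebra K Ω] [Algebra K E']
  [Algebra K B]

/-- The transport of a place by an isomorphism. -/
private noncomputable def trp (τ : B ≃ₐ[K] E') (W : Place K E' Ω) : Place K B Ω where
  V := W.V.comap (τ : B →+* E')
  ne_top h := by
    apply W.ne_top
    ext x
    refine ⟨fun _ => trivial, fun _ => ?_⟩
    have h1 : τ.symm x ∈ W.V.comap (τ : B →+* E') := by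
      rw [h]
      trivial
    have h2 : τ (τ.symm x) ∈ W.V := h1
    rwa [τ.apply_symm_apply] at h2
  mem a := by
    change τ (algebraMap K B a) ∈ W.V
    rw [τ.commutes]
    exact W.mem a
  res := W.res.comp (((τ : B →+* E').comp (W.V.comap (τ : B →+* E')).subtype).codRestrict
    W.V.toSubring fun x => x.2)
  res_k a := by
    have h1 : (⟨τ (algebraMap K B a), by
        rw [τ.commutes]
        exact W.mem a⟩ : W.V) = ⟨algebraMap K E' a, W.mem a⟩ := Subtype.ext (τ.commutes a)
    change W.res _ = _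
    rw [← W.res_k a, ← h1]
    rfl
  res_zero x hx := by
    refine W.res_zero ⟨τ x.1, x.2⟩ fun h => hx ?_
    obtain ⟨z, hz⟩ := isUnit_iff_exists_inv.1 h
    refine isUnit_iff_exists_inv.2 ⟨⟨τ.symm z.1, ?_⟩, ?_⟩
    · change τ (τ.symm z.1) ∈ W.V
      rw [τ.apply_symm_apply]
      exact z.2
    · apply Subtype.ext
      change x.1 * τ.symm z.1 = 1
      apply τ.injective
      rw [map_mul, τ.apply_symm_apply, map_one]
      exact congrArg Subtype.val hz

private theorem trp_mem (τ : B ≃ₐ[K] E') (W : Place K E' Ω) (b : B) :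
    b ∈ (trp τ W).V ↔ τ b ∈ W.V := Iff.rfl

private theorem trp_res (τ : B ≃ₐ[K] E') (W : Place K E' Ω) (b : B) (h : b ∈ (trp τ W).V)
    (h' : τ b ∈ W.V) : (trp τ W).res ⟨b, h⟩ = W.res ⟨τ b, h'⟩ := rfl

end tr

/-- Proof: transport by an isomorphism `τ : E' ≃ₐ[E] AlgebraicClosure E` (`IsAlgClosure.equiv`): the point is `(Vpi _).map τ x`, the places of `AlgebraicClosure E` are the compositions with `τ⁻¹` (the valuation ring is the preimage under `τ⁻¹`, the residue map is composed with `τ⁻¹`); `Crv.V.red` is compatible with this (by cases). -/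
theorem gn_of {F : Type} [Field F] {n : ℕ} {C : Fin n → Crv F} {K Ω : Type} [Field K] [Field Ω]
    [Algebra K Ω] [Algebra F K] [Algebra F Ω] [IsScalarTower F K Ω] {E E' : Type} [Field E]
    [Field E'] [Algebra K E] [Algebra F E] [IsScalarTower F K E] [Algebra E E']
    [IsAlgClosure E E'] [Algebra K E'] [IsScalarTower K E E'] [Algebra F E']
    [IsScalarTower F E E'] (hE : IsFunField K E) {g : E} (hg : g ≠ 0)
    (x : ∀ j, (C j).V.pt E') (hx : ∀ (σ : E' ≃ₐ[E] E') (j), (C j).V.act σ (x j) = x j)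
    (S : Finset (Place K E Ω)) (m : Place K E Ω → ℤ) (y : Place K E Ω → ∀ j, (C j).V.pt Ω)
    {T : Set (∀ j, (C j).V.pt Ω)} (hS : ∀ w, w ∉ S → g ∈ w.V ∧ g⁻¹ ∈ w.V)
    (hm : ∀ w ∈ S, w.IsOrd g (m w)) (hT : ∀ w ∈ S, y w ∈ T)
    (hv : ∀ w ∈ S, ∃ W : Place K E' Ω, (∀ a : E, algebraMap E E' a ∈ W.V ↔ a ∈ w.V) ∧
      (∀ (a : E) (h : a ∈ w.V) (h' : algebraMap E E' a ∈ W.V), W.res ⟨_, h'⟩ = w.res ⟨a, h⟩) ∧
      ∀ j, (C j).V.red W (x j) (y w j)) :
    DN.Gn (Vpi fun j => (C j).V) K Ω T (∑ w ∈ S, Finsupp.single (y w) (m w)) := by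
  classical
  let τ : E' ≃ₐ[E] AlgebraicClosure E := IsAlgClosure.equiv E E' (AlgebraicClosure E)
  refine ⟨E, inferInstance, inferInstance, inferInstance, inferInstance, hE, g,
    (Vpi fun j => (C j).V).map (τ.restrictScalars F : E' →ₐ[F] AlgebraicClosure E) x, hg, ?_, S, m,
    y, hS, fun w hw => ⟨hm w hw, ?_, hT w hw⟩, rfl⟩
  · intro σ
    funext j
    have h1 := hx ((τ.trans σ).trans τ.symm) j
    change (C j).V.map (σ.restrictScalars F : AlgebraicClosure E →ₐ[F] AlgebraicClosure E)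
      ((C j).V.map (τ.restrictScalars F : E' →ₐ[F] AlgebraicClosure E) (x j)) =
      (C j).V.map (τ.restrictScalars F : E' →ₐ[F] AlgebraicClosure E) (x j)
    cases hj : x j with
    | none => rfl
    | some φ =>
      rw [hj] at h1
      have h3 : (((τ.trans σ).trans τ.symm).restrictScalars F : E' →ₐ[F] E').comp φ = φ :=
        Option.some.inj h1
      refine congrArg some (AlgHom.ext fun a => ?_)
      have h4 : τ.symm (σ (τ (φ a))) = φ a := congrArg (fun f : (C j).A →ₐ[F] E' => f a) h3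
      change σ (τ (φ a)) = τ (φ a)
      have h5 := congrArg τ h4
      rwa [τ.apply_symm_apply] at h5
  · obtain ⟨W, h1, h2, h3⟩ := hv w hw
    refine ⟨trp (τ.symm.restrictScalars K) W, fun a => ?_, fun a h h' => ?_, fun j => ?_⟩
    · rw [trp_mem]
      change τ.symm (algebraMap E (AlgebraicClosure E) a) ∈ W.V ↔ _
      rw [τ.symm.commutes]
      exact h1 a
    · have h4 : algebraMap E E' a ∈ W.V := (h1 a).2 h
      have h5 : τ.symm (algebraMap E (AlgebraicClosure E) a) ∈ W.V := by
        rw [τ.symm.commutes]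
        exact h4
      rw [trp_res _ _ _ h' h5, ← h2 a h h4]
      exact congrArg W.res (Subtype.ext (τ.symm.commutes a))
    · have h4 := h3 j
      change (C j).V.red _ ((C j).V.map (τ.restrictScalars F : E' →ₐ[F] AlgebraicClosure E) (x j))
        (y w j)
      have hmem : ∀ b : E', τ b ∈ (trp (τ.symm.restrictScalars K) W).V ↔ b ∈ W.V := by
        intro b
        rw [trp_mem]
        change τ.symm (τ b) ∈ W.V ↔ _
        rw [τ.symm_apply_apply]
      rcases h4 with ⟨e1, e2⟩ | ⟨φ, e1, ⟨a, ha⟩, e2⟩ | ⟨φ, ψ, e1, e2, e3⟩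
      · refine Or.inl ⟨?_, e2⟩
        rw [e1]
        rfl
      · refine Or.inr (Or.inl ⟨(τ.restrictScalars F : E' →ₐ[F] AlgebraicClosure E).comp φ, ?_,
          ⟨a, fun h => ha ((hmem _).1 h)⟩, e2⟩)
        rw [e1]
        rfl
      · refine Or.inr (Or.inr ⟨(τ.restrictScalars F : E' →ₐ[F] AlgebraicClosure E).comp φ, ψ, ?_,
          e2, fun a => ?_⟩)
        · rw [e1]
          rfl
        · obtain ⟨h5, h6⟩ := e3 a
          refine ⟨(hmem _).2 h5, ?_⟩
          have h7 : τ.symm (τ (φ a)) ∈ W.V := by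
            rw [τ.symm_apply_apply]
            exact h5
          rw [h6]
          refine Eq.trans ?_ (trp_res (τ.symm.restrictScalars K) W (τ (φ a)) ((hmem _).2 h5)
            h7).symm
          exact congrArg W.res (Subtype.ext (τ.symm_apply_apply (φ a)).symm)

end DC
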