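import Pool.Agent.Lib.MP_f80667_ag.Dc.Core
import Pool.Agent.Lib.MP_f80667_ag.Do.LocM

/-! The theorem over one field. -/

open ZC BE PE CV NE TensorProduct

namespace DC

variable {F F' : Type} [Field F] [CharZero F] [Field F'] [Algebra F F'] {N N' n d k k' : ℕ}
  {ι ι' : Type} {f : ι → MvPolynomial (Fin N) F} {A : GX.Gv F N' k' ι'} {M : GX.Mf f A k}
  {C : Fin n → Crv F'} {Φ : Fin N → MvPolynomial (Σ i, (C i).A) F'} {h : MvPolynomial (Fin N) F}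
  {D : ℕ} {K Ω : Type} [Field K] [CharZero K] [Field Ω] [Algebra K Ω] [IsAlgClosure K Ω]
  [Algebra F K] [Algebra F Ω] [IsScalarTower F K Ω] [Algebra F' K] [Algebra F' Ω]
  [IsScalarTower F' K Ω] [IsScalarTower F F' K] [IsScalarTower F F' Ω]

/-- **The theorem over one field.** -/
theorem dm_X (hf : GX.Nsg f d) (hD : Dom f C Φ h D) (h0 : D ≠ 0) (hC : Cst f C Φ h)
    {r : Fin n → ℕ} (hr : ∀ i, ExPen (C i) (r i)) {m : ℕ} (hc : m.Coprime (nb r * D))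
    (hd : DvG (fun i => (C i).V) K Ω m) : Dm (GX.Xf f) K Ω m := by
  intro z hz
  obtain ⟨z₁, hz₁, hzz, hs₁⟩ := DN.mv_D0 hf hD.hom hD.ne hz
  obtain ⟨z', hz', hr'⟩ := dv_core hD h0 hr hc hd hz₁ hs₁ (pull_sum hD hC hz₁ hs₁)
  refine ⟨z', hz', ?_⟩
  have h3 := add_mem hzz hr'
  rwa [sub_add_sub_cancel] at h3

/-- **The theorem over one field**, with a morphism to a group variety. -/
theorem dw_X (hf : GX.Nsg f d) (hA : A.Ok) (hM : M.Ok) (hD : Dom f C Φ h D) (h0 : D ≠ 0)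
    (hP : Plb C Φ h M) {r : Fin n → ℕ} (hr : ∀ i, ExPen (C i) (r i)) {m : ℕ}
    (hc : m.Coprime (nb r * D)) (hd : DvG (fun i => (C i).V) K Ω m) : DN.Dw M K Ω m := by
  intro z hz hS
  have hO : IsAlgClosed Ω := IsAlgClosure.isAlgClosed K
  obtain ⟨z₁, hz₁, hzz, hs₁⟩ := DN.mv_D0 hf hD.hom hD.ne hz
  have hS₁ : M.S Ω z₁ = (A.G.grp Ω).zero := by
    let _ : AddCommGroup ((GX.Xf A.a).pt Ω) := A.G.grp Ω
    have h1 : M.S Ω (z - z₁) = 0 := RS.rs (K := K) hf.hom hA hM hzz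
    have h2 : M.S Ω z = 0 := hS
    change M.S Ω z₁ = 0
    rw [map_sub, h2, zero_sub, neg_eq_zero] at h1
    exact h1
  have H := hP Ω z₁ (fun P hP => by
    obtain ⟨x, hx⟩ := GX.exists_co P
    exact ⟨x, hx, hs₁ P hP x hx⟩) hz₁.2 hS₁
  obtain ⟨z', hz', hr'⟩ := dv_core hD h0 hr hc hd hz₁ hs₁ H
  refine ⟨z', hz', ?_⟩
  have h3 := add_mem hzz hr'
  rwa [sub_add_sub_cancel] at h3

end DC
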