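import Pool.Agent.Lib.MP_f80667_ag.Cv.Up
import Pool.Agent.Lib.MP_f80667_ag.Cv.Fin

/-! Potentially good reduction of curves over a number field, in terms of the valuation rings of the algebraic closure. -/

open ZC BE PE CV Polynomial IntermediateField

namespace DC

/-- The curves `C i` have potentially good reduction at all places: for every valuation ring `V` of the algebraic closure of `F'`
there is a finite extension `E` of `F'` such that the `C i` have good reduction over `V ∩ E`. -/
def Pgr {F' : Type} [Field F'] {n : ℕ} (C : Fin n → Crv F') : Prop :=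
  ∀ V : ValuationSubring (AlgebraicClosure F'), ∃ E : IntermediateField F' (AlgebraicClosure F'),
    FiniteDimensional F' E ∧
      ∀ i, Nonempty (Mod (C i) (V.comap (algebraMap E (AlgebraicClosure F'))) E)

variable {F' : Type} [Field F'] {n : ℕ} {C : Fin n → Crv F'} {K Ω : Type} [Field K] [CharZero K]
  [Field Ω] [Algebra K Ω] [IsAlgClosure K Ω] [Algebra F' K] [Algebra F' Ω] [IsScalarTower F' K Ω]

/-- **Good reduction over a finite extension of `K`.** -/
theorem exists_mod (hC : Pgr C) (L : Ld K Ω) : ∃ (M : IntermediateField K Ω) (L' : Ld M Ω),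
    FiniteDimensional K M ∧ L'.p = L.p ∧ (∀ x, L'.nm x = L.nm x) ∧
      ∀ i, Nonempty (Mod (C i) (Ok L') M) := by
  have hcl : IsAlgClosed Ω := IsAlgClosure.isAlgClosed K
  let j : AlgebraicClosure F' →ₐ[F'] Ω := IsAlgClosed.lift
  obtain ⟨E, hE, hm⟩ := hC (L.V.comap (j : AlgebraicClosure F' →+* Ω))
  let M : IntermediateField K Ω := IntermediateField.adjoin K (Set.range fun x : E => j x)
  have hM : FiniteDimensional K M := by
    let b := Module.finBasis F' E
    have h1 : M ≤ IntermediateField.adjoin K (Set.range fun k => j (b k)) := by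
      refine IntermediateField.adjoin_le_iff.2 ?_
      rintro _ ⟨x, rfl⟩
      have h2 : (x : AlgebraicClosure F') = ∑ k, algebraMap F' (AlgebraicClosure F') (b.repr x k) *
          (b k : AlgebraicClosure F') := by
        have h3 := congrArg (algebraMap E (AlgebraicClosure F')) (b.sum_repr x)
        rw [map_sum] at h3
        refine h3.symm.trans (Finset.sum_congr rfl fun k _ => ?_)
        rw [Algebra.smul_def, map_mul]
        rfl
      change j (x : AlgebraicClosure F') ∈ _
      rw [h2, map_sum]
      refine sum_mem fun k _ => ?_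
      rw [map_mul]
      refine mul_mem ?_ (IntermediateField.subset_adjoin _ _ ⟨k, rfl⟩)
      rw [AlgHom.commutes, IsScalarTower.algebraMap_apply F' K Ω]
      exact IntermediateField.algebraMap_mem _ _
    have h2 : FiniteDimensional K (IntermediateField.adjoin K (Set.range fun k => j (b k))) := by
      have halg : Algebra.IsAlgebraic K Ω := IsAlgClosure.isAlgebraic
      refine IntermediateField.finiteDimensional_adjoin fun z _ => (halg.isAlgebraic z).isIntegral
    exact FiniteDimensional.of_injective (IntermediateField.inclusion h1).toLinearMap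
      (IntermediateField.inclusion_injective h1)
  obtain ⟨L', hp', hL'⟩ := L.exists_bsL M
  refine ⟨M, L', hM, hp', hL', fun i => ?_⟩
  obtain ⟨m⟩ := hm i
  have hjM : ∀ x : E, j x ∈ M := fun x => IntermediateField.subset_adjoin _ _ ⟨x, rfl⟩
  let jE : E →+* M := ((j : AlgebraicClosure F' →+* Ω).comp (algebraMap E (AlgebraicClosure F'))).codRestrict
    M.toSubfield hjM
  let O := (L.V.comap (j : AlgebraicClosure F' →+* Ω)).comap (algebraMap E (AlgebraicClosure F'))
  have hO : ∀ x : O, jE x ∈ Ok L' := by
    intro x
    change L'.nm (j ((x : E) : AlgebraicClosure F')) ≤ 1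
    rw [hL']
    exact x.2
  let jO : O →+* Ok L' := (jE.comp O.subtype).codRestrict (Ok L') hO
  let i1 : Algebra E M := jE.toAlgebra
  let i2 : Algebra O (Ok L') := jO.toAlgebra
  let i3 : Algebra O M := (jE.comp O.subtype).toAlgebra
  have t1 : IsScalarTower O (Ok L') M := IsScalarTower.of_algebraMap_eq fun _ => rfl
  have t2 : IsScalarTower O E M := IsScalarTower.of_algebraMap_eq fun _ => rfl
  have t3 : IsScalarTower F' E M := IsScalarTower.of_algebraMap_eq fun x => by
    refine Subtype.ext ?_
    change algebraMap F' Ω x = j (algebraMap F' (AlgebraicClosure F') x)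
    exact (j.commutes x).symm
  have hloc : IsLocalHom (algebraMap O (Ok L')) := by
    refine ⟨fun x hx => ?_⟩
    obtain ⟨y, hy⟩ := isUnit_iff_exists_inv.1 hx
    have e1 : L'.nm (algebraMap M Ω (jE x)) * L'.nm (algebraMap M Ω (y : M)) = 1 := by
      have h1 : (jE x) * (y : M) = 1 := congrArg (fun z : Ok L' => (z : M)) hy
      rw [← L'.mul, ← map_mul, h1, map_one, L'.one]
    have e2 : L'.nm (algebraMap M Ω (jE x)) = L.nm (j ((x : E) : AlgebraicClosure F')) := hL' _
    have e3 : L.nm (j ((x : E) : AlgebraicClosure F')) ≤ 1 := x.2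
    have e4 : L'.nm (algebraMap M Ω (y : M)) ≤ 1 := y.2
    rw [e2] at e1
    have e5 : 1 ≤ L.nm (j ((x : E) : AlgebraicClosure F')) := by
      have h0 := L.nonneg (j ((x : E) : AlgebraicClosure F'))
      nlinarith
    have e6 : L.nm (j ((x : E) : AlgebraicClosure F')) = 1 := le_antisymm e3 e5
    have hx0 : (x : E) ≠ 0 := by
      intro h
      rw [h] at e6
      rw [ZeroMemClass.coe_zero, map_zero, L.zero] at e6
      exact zero_ne_one e6
    have hxi : (x : E)⁻¹ ∈ O := by
      change L.nm (j (((x : E)⁻¹ : E) : AlgebraicClosure F')) ≤ 1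
      have h1 : ((x : E) : AlgebraicClosure F') * (((x : E)⁻¹ : E) : AlgebraicClosure F') = 1 :=
        congrArg (fun z : E => (z : AlgebraicClosure F')) (mul_inv_cancel₀ hx0)
      have h2 : L.nm (j ((x : E) : AlgebraicClosure F')) *
          L.nm (j (((x : E)⁻¹ : E) : AlgebraicClosure F')) = 1 := by
        rw [← L.mul, ← map_mul, h1, map_one, L.one]
      rw [e6, one_mul] at h2
      exact h2.le
    exact IsUnit.of_mul_eq_one (⟨_, hxi⟩ : O) (Subtype.ext (mul_inv_cancel₀ hx0))
  exact ⟨m.up⟩

end DC
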