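import Pool.Agent.Lib.MP_f80667_ag.Cv.Glb
import Pool.Agent.Lib.MP_f80667_ag.Cv.Fin

/-! Products of curves over number fields: the good places. -/

open ZC BE PE CV Polynomial IntermediateField IsDedekindDomain NumberField

namespace DC

/-- **The good places**, for the fields `K` with a discrete valuation which extends the valuation of `F'` with ramification
index `1`. -/
theorem good_w {F' : Type} [Field F'] [NumberField F'] {n : ℕ} (C : Fin n → Crv F') :
    {w : HeightOneSpectrum (𝓞 F') | ¬ ∀ (K Ω : Type) [Field K] [CharZero K] [Field Ω] [Algebra K Ω]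
      [IsAlgClosure K Ω] [Algebra F' K] [Algebra F' Ω] [IsScalarTower F' K Ω] (L : Ld K Ω) (c : ℝ),
      0 < c → c < 1 → (∀ (x : F') (m : ℤ), w.valuation F' x = WithZero.exp (-m) →
        L.nm (algebraMap F' Ω x) = c ^ m) →
      (∀ x : K, x ≠ 0 → ∃ m : ℤ, L.nm (algebraMap K Ω x) = c ^ m) →
      ∀ l : ℕ, l.Prime → DvG (fun i => (C i).V) K Ω l}.Finite := by
  choose D hD using fun i => spread (C i)
  have h1 : (⋃ i, ⋃ c ∈ D i, {v : HeightOneSpectrum (𝓞 F') |
      ¬ v.valuation F' c ≤ 1}).Finite :=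
    Set.finite_iUnion fun i => (D i).finite_toSet.biUnion fun c _ => gln_le c
  refine ((gln_unr (F := F')).union (h1.union (gln_one (two_ne_zero (α := F'))))).subset
    fun v hv => ?_
  by_contra h
  simp only [Set.mem_union, not_or] at h
  obtain ⟨h5, h6, h7⟩ := h
  have h8 : ∃ p : ℕ, p.Prime ∧ v.valuation F' (p : F') = WithZero.exp (-1 : ℤ) := not_not.1 h5
  obtain ⟨p, hp, hvp⟩ := h8
  have h3 : ∀ i, ∀ c ∈ D i, v.valuation F' c ≤ 1 := fun i c hc => by
    by_contra h9
    exact h6 (Set.mem_iUnion.2 ⟨i, Set.mem_biUnion hc h9⟩)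
  have h4 : v.valuation F' (2 : F') = 1 := not_not.1 h7
  refine hv ?_
  intro K Ω _ _ _ _ _ _ _ _ L c hc0 hc1 hL hL' l hl
  have hpL : L.nm (p : Ω) = c := by
    have h5 := hL (p : F') 1 hvp
    rw [map_natCast, zpow_one] at h5
    exact h5
  have hpp : p = L.p := by
    by_contra hne
    have h5 : L.nm (p : Ω) = 1 := L.nat_unit fun h6 =>
      hne ((Nat.prime_dvd_prime_iff_eq L.pp hp).1 h6).symm
    rw [hpL] at h5
    exact absurd h5 hc1.ne
  have h2p : L.p ≠ 2 := by
    intro h5
    have h6 := hvp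
    rw [hpp, h5, Nat.cast_two, h4, ← WithZero.exp_zero] at h6
    have h7 := WithZero.exp_injective h6
    omega
  refine lcT C hl K Ω L (fun i => hD i (Ok L) K Subtype.val_injective fun x hx => ?_)
    (Ok_notMem L hc0 hc1 (fun x hx => ?_) (by rw [← hpp, hpL]) h2p hl)
  · have h5 := h3 i x hx
    have h6 : L.nm (algebraMap K Ω (algebraMap F' K x)) ≤ 1 := by
      rw [← IsScalarTower.algebraMap_apply F' K Ω]
      by_cases hx0 : x = 0
      · rw [hx0, map_zero, L.zero]
        exact zero_le_one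
      have h7 : v.valuation F' x ≠ 0 := (Valuation.ne_zero_iff _).2 hx0
      have h8 := hL x (-WithZero.log (v.valuation F' x)) (by rw [neg_neg, WithZero.exp_log h7])
      rw [h8]
      have h9 : WithZero.log (v.valuation F' x) ≤ 0 := by
        rw [← WithZero.exp_log h7, ← WithZero.exp_zero] at h5
        exact WithZero.exp_le_exp.1 h5
      exact zpow_le_one₀ hc0 hc1.le (by omega)
    exact ⟨⟨algebraMap F' K x, h6⟩, rfl⟩
  · by_cases hx0 : x = 0
    · rw [hx0, map_zero, L.zero]
      exact hc0.le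
    obtain ⟨n, hn⟩ := hL' x hx0
    rw [hn] at hx ⊢
    have h7 : 0 < n := by
      rw [← zpow_zero c] at hx
      exact (zpow_lt_zpow_iff_right_of_lt_one₀ hc0 hc1).1 hx
    have h8 := (zpow_le_zpow_iff_right_of_lt_one₀ hc0 hc1).2 (show (1 : ℤ) ≤ n by omega)
    rwa [zpow_one] at h8

end DC
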