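import Pool.Agent.Lib.MP_f80667_ag.Dc.Spl
import Pool.Agent.Lib.MP_f80667_ag.Dc.DivV
import Pool.Agent.Lib.MP_f80667_ag.Dc.Rp
import Pool.Agent.Lib.MP_f80667_ag.Cv.Xp5

/-! The relation between a point and its modification in one coordinate. -/

open ZC BE PE CV TensorProduct

namespace DC

section fin

variable {F : Type} [Field F] {K A : Type} [Field K] [CharZero K] [CommRing A] [Algebra K A]
  [Algebra F K] {E : Type} [Field E] [Algebra A E] [IsFractionRing A E] [Algebra K E]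
  [IsScalarTower K A E] [Algebra F E] [IsScalarTower F K E] (G : Dg K A) {Ω : Type} [Field Ω]
  [Algebra K Ω] [Algebra F Ω] [IsAlgClosure K Ω]

/-- The divisor of `x / y` where `x` and `y` have the same degree: no value at the place at infinity is needed. -/
private theorem div_fin (V : Vr F) {x y : A} {m : ℕ} (hx : G.d x = m) (hy : G.d y = m)
    (S : Finset (A →ₐ[K] Ω)) (a b : (A →ₐ[K] Ω) → ℕ)
    (hS : ∀ φ ∈ S, ∃ t, Rg φ t ∧ Lu φ x (t ^ a φ) ∧ Lu φ y (t ^ b φ))
    (hn : ∀ φ, φ ∉ S → Lu φ x y) (P : V.pt (AlgebraicClosure E)) (hP : V.Rat E P)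
    (f : (A →ₐ[K] Ω) → V.pt Ω) (hf : ∀ φ ∈ S, ∀ w : Place K E Ω, Ab w φ → V.IsVal w P (f φ)) :
    ∑ φ ∈ S, Finsupp.single (f φ) ((a φ : ℤ) - b φ) ∈ V.ratEq K Ω := by
  classical
  have hdom : IsDomain A := G.isDomain
  have halg : Algebra.IsAlgebraic K Ω := IsAlgClosure.isAlgebraic
  have hx0 : x ≠ 0 := G.ne_zero hx
  have hy0 : y ≠ 0 := G.ne_zero hy
  have hinj : Function.Injective (algebraMap A E) := IsFractionRing.injective A E
  have hx1 : algebraMap A E x ≠ 0 := (map_ne_zero_iff _ hinj).2 hx0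
  have hy1 : algebraMap A E y ≠ 0 := (map_ne_zero_iff _ hinj).2 hy0
  have hff : IsFunField K E := G.ff
  have hex : ∀ φ : A →ₐ[K] Ω, ∃ w : Place K E Ω, Ab w φ := fun φ => G.exists_ab φ
  choose W hW using hex
  by_cases hS0 : S = ∅
  · rw [hS0, Finset.sum_empty]
    exact zero_mem _
  obtain ⟨φ₀, hφ₀⟩ := Finset.nonempty_of_ne_empty hS0
  let m' : Place K E Ω → ℤ := fun w =>
    if h : ∃ φ, Ab w φ then (a h.choose : ℤ) - b h.choose else 0
  let y' : Place K E Ω → V.pt Ω := fun w => if h : ∃ φ, Ab w φ then f h.choose else f φ₀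
  have hch : ∀ φ (h : ∃ ψ, Ab (W φ) ψ), h.choose = φ := fun φ h =>
    plR_ab_inj h.choose_spec (hW φ)
  have hmW : ∀ φ, m' (W φ) = (a φ : ℤ) - b φ := by
    intro φ
    have h : ∃ ψ, Ab (W φ) ψ := ⟨φ, hW φ⟩
    change (if h : ∃ ψ, Ab (W φ) ψ then (a h.choose : ℤ) - b h.choose else 0) = _
    rw [dif_pos h, hch φ h]
  have hyW : ∀ φ, y' (W φ) = f φ := by
    intro φ
    have h : ∃ ψ, Ab (W φ) ψ := ⟨φ, hW φ⟩
    change (if h : ∃ ψ, Ab (W φ) ψ then f h.choose else f φ₀) = _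
    rw [dif_pos h, hch φ h]
  have hWinj : ∀ φ ψ, W φ = W ψ → φ = ψ := fun φ ψ h =>
    plR_ab_inj (hW φ) (h ▸ hW ψ)
  refine AddSubgroup.subset_closure ⟨E, inferInstance, inferInstance, inferInstance,
    inferInstance, hff, algebraMap A E x / algebraMap A E y, P, div_ne_zero hx1 hy1, hP,
    S.image W, m', y', ?_, ?_, ?_⟩
  · intro w hw
    rcases G.inf_or_ab w with h | ⟨φ, h⟩
    · rw [h]
      refine ⟨(G.mem_vi hy0).2 (hx.trans hy.symm).le, ?_⟩
      rw [inv_div]
      exact (G.mem_vi hx0).2 (hy.trans hx.symm).le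
    · by_cases hφ : φ ∈ S
      · obtain ⟨t, ht, -, -⟩ := hS φ hφ
        have h1 : w = W φ := G.rg_uniq ht h (hW φ)
        exact absurd (Finset.mem_image.2 ⟨φ, hφ, h1.symm⟩) hw
      · exact Dg.lu_unit h hx0 hy0 (hn φ hφ)
  · intro w hw
    obtain ⟨φ, hφ, h1⟩ := Finset.mem_image.1 hw
    subst h1
    obtain ⟨t, ht, hxt, hyt⟩ := hS φ hφ
    rw [hmW, hyW]
    exact ⟨G.rg_ord ht (hW φ) hxt hyt, hf φ hφ _ (hW φ)⟩
  · rw [Finset.sum_image (fun φ _ ψ _ h => hWinj φ ψ h)]
    exact Finset.sum_congr rfl fun φ _ => by rw [hmW, hyW]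

end fin

section mult

variable {F : Type} [Field F] {C : Crv F} {K Ω : Type} [Field K] [CharZero K] [Field Ω]
  [Algebra K Ω] [Algebra F K] [Algebra F Ω] [IsScalarTower F K Ω] [IsAlgClosure K Ω]

omit [CharZero K] in
/-- The zeros of a function over `K`. -/
private theorem zk_fin {x : K ⊗[F] C.A} {m : ℕ} (hx : (C.G.bc K).d x = m) :
    {φ : C.A →ₐ[F] Ω | xl K φ x = 0}.Finite := by
  have hac : IsAlgClosed Ω := IsAlgClosure.isAlgClosed K
  have hd : (C.G.bc Ω).d (xi F C.A K Ω x) = m := (xi_d C.G x).trans hx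
  have h := zr_fin (C := C) (L := Ω) ((C.G.bc Ω).ne_zero hd)
  have e : {φ : C.A →ₐ[F] Ω | xl Ω φ (xi F C.A K Ω x) = 0} = {φ | xl K φ x = 0} := by
    ext φ
    change xl Ω φ (xi F C.A K Ω x) = 0 ↔ xl K φ x = 0
    rw [xl_xi]
  rwa [e] at h

open Classical in
/-- If the number of zeros is the degree, all zeros are simple. -/
private theorem od_one {x : K ⊗[F] C.A} {m : ℕ} (hx : (C.G.bc K).d x = m)
    {S : Finset (C.A →ₐ[F] Ω)} (hS : ∀ φ, φ ∈ S ↔ xl K φ x = 0) (hc : S.card = m)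
    (φ : C.A →ₐ[F] Ω) : od (xl K φ) x = if φ ∈ S then 1 else 0 := by
  classical
  have hac : IsAlgClosed Ω := IsAlgClosure.isAlgClosed K
  have halg : Algebra.IsAlgebraic K Ω := IsAlgClosure.isAlgebraic
  have hcz : CharZero Ω := charZero_of_injective_algebraMap (algebraMap K Ω).injective
  have hsm := C.sm
  have hx0 : x ≠ 0 := (C.G.bc K).ne_zero hx
  have hd : (C.G.bc Ω).d (xi F C.A K Ω x) = m := (xi_d C.G x).trans hx
  have h0 : ∀ φ, φ ∉ S → od (xl K φ) x = 0 := by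
    intro φ hφ
    obtain ⟨t, ht⟩ := xrg (M := K) C.G φ
    exact (C.G.bc K).od_zero ht fun h => hφ ((hS φ).2 h)
  have h1 : ∀ φ ∈ S, 1 ≤ od (xl K φ) x := by
    intro φ hφ
    obtain ⟨t, ht⟩ := xrg (M := K) C.G φ
    exact Nat.one_le_iff_ne_zero.2 ((C.G.bc K).od_pos ht hx0 ((hS φ).1 hφ))
  have h2 : ∑ φ ∈ S, od (xl K φ) x = m := by
    have h3 := sum_odO (C := C) (L := Ω) hd S fun φ hφ => by
      rw [← xod C.G φ hx0]
      exact h0 φ hφ
    rw [← h3]
    exact Finset.sum_congr rfl fun φ _ => xod C.G φ hx0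
  by_cases hφ : φ ∈ S
  · rw [if_pos hφ]
    have h3 : ∑ φ ∈ S, 1 = ∑ φ ∈ S, od (xl K φ) x := by
      rw [h2, ← hc, Finset.card_eq_sum_ones]
    exact ((Finset.sum_eq_sum_iff_of_le h1).1 h3 φ hφ).symm
  · rw [if_neg hφ]
    exact h0 φ hφ

end mult

section og

variable {F : Type} [Field F] {n : ℕ} {C : Fin n → Crv F} {K : Type} [Field K] [Algebra F K]
  (ψ : ∀ j, (C j).A →ₐ[F] K) (i : Fin n)

/-- The coordinates `ψ j` for `j ≠ i` and `φ` for `j = i`. -/
private noncomputable def og {B : Type} [CommRing B] [Algebra F B] [Algebra K B]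
    [IsScalarTower F K B] (φ : (C i).A →ₐ[F] B) : ∀ j, (C j).A →ₐ[F] B :=
  Function.update (fun j => (IsScalarTower.toAlgHom F K B).comp (ψ j)) i φ

variable {B B' : Type} [CommRing B] [Algebra F B] [Algebra K B] [IsScalarTower F K B]
  [CommRing B'] [Algebra F B'] [Algebra K B'] [IsScalarTower F K B']

private theorem og_comp (τ : B →ₐ[K] B') (φ : (C i).A →ₐ[F] B) (j : Fin n) :
    og ψ i ((τ.restrictScalars F).comp φ) j = (τ.restrictScalars F).comp (og ψ i φ j) := by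
  unfold og
  by_cases h : j = i
  · subst h
    rw [Function.update_self, Function.update_self]
  · rw [Function.update_of_ne h, Function.update_of_ne h]
    ext a
    exact (τ.commutes (ψ j a)).symm

private theorem og_aeval (τ : B →ₐ[K] B') (φ : (C i).A →ₐ[F] B)
    (q : MvPolynomial (Σ j, (C j).A) F) :
    MvPolynomial.aeval (fun s : Σ j, (C j).A => og ψ i ((τ.restrictScalars F).comp φ) s.1 s.2) q =
      τ (MvPolynomial.aeval (fun s : Σ j, (C j).A => og ψ i φ s.1 s.2) q) := by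
  have h := MvPolynomial.comp_aeval_apply (fun s : Σ j, (C j).A => og ψ i φ s.1 s.2)
    (τ.restrictScalars F) q
  have e : (fun s : Σ j, (C j).A => og ψ i ((τ.restrictScalars F).comp φ) s.1 s.2) =
      fun s : Σ j, (C j).A => (τ.restrictScalars F) (og ψ i φ s.1 s.2) := by
    funext s
    rw [og_comp]
    rfl
  rw [e, ← h]
  rfl

end og

section pt

variable {F : Type} [Field F] {A K Ω : Type} [CommRing A] [Algebra F A] [Field K] [Algebra F K]
  [CommRing Ω] [Algebra F Ω] [Algebra K Ω] [IsScalarTower F K Ω]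

private theorem xl_inc {K Ω : Type} [Field K] [Algebra F K] [Field Ω] [Algebra F Ω] [Algebra K Ω]
    [IsScalarTower F K Ω] (φ : A →ₐ[F] Ω) :
    ((xl K φ).restrictScalars F).comp
      (Algebra.TensorProduct.includeRight : A →ₐ[F] K ⊗[F] A) = φ := by
  ext a
  change xl K φ ((1 : K) ⊗ₜ[F] a) = φ a
  rw [xl_tmul, map_one, one_mul]

end pt

section gen

variable {F F' : Type} [Field F] [Field F'] {N n : ℕ} {ι : Type}
  {f : ι → MvPolynomial (Fin N) F} {C : Fin n → Crv F'}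
  (Φ : Fin N → MvPolynomial (Σ i, (C i).A) F') {K Ω : Type}
  [Field K] [Field Ω] [Algebra K Ω] [Algebra F' K] [Algebra F' Ω] [IsScalarTower F' K Ω]
  (ψ : ∀ j, (C j).A →ₐ[F'] K) (i : Fin n)

/-- The values of `Φ` at the generic point of the line `Q j = ψ j`, `j ≠ i`. -/
private noncomputable def xx (k : Fin N) : K ⊗[F'] (C i).A :=
  MvPolynomial.aeval (fun s : Σ j, (C j).A => og ψ i
    (Algebra.TensorProduct.includeRight : (C i).A →ₐ[F'] K ⊗[F'] (C i).A) s.1 s.2) (Φ k)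

private theorem xx_val (φ : (C i).A →ₐ[F'] Ω) (k : Fin N) :
    MvPolynomial.aeval (fun s : Σ j, (C j).A => og ψ i φ s.1 s.2) (Φ k) =
      xl K φ (xx Φ ψ i k) := by
  have h := og_aeval ψ i (xl K φ)
    (Algebra.TensorProduct.includeRight : (C i).A →ₐ[F'] K ⊗[F'] (C i).A) (Φ k)
  rw [xl_inc] at h
  exact h

private theorem upd_eq {Q : ∀ j, (C j).V.pt Ω}
    (hψ : Q = fun j => some ((IsScalarTower.toAlgHom F' K Ω).comp (ψ j)))
    (φ : (C i).A →ₐ[F'] Ω) :
    Function.update Q i (some φ) = fun j => some (og ψ i φ j) := by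
  funext j
  unfold og
  by_cases h : j = i
  · subst h
    have h1 : Function.update (fun j => (IsScalarTower.toAlgHom F' K Ω).comp (ψ j)) j φ j = φ :=
      Function.update_self _ _ _
    exact (Function.update_self _ _ _).trans (congrArg some h1.symm)
  · refine (Function.update_of_ne h _ _).trans ((congrFun hψ j).trans ?_)
    have h1 : Function.update (fun j => (IsScalarTower.toAlgHom F' K Ω).comp (ψ j)) i φ j =
      (IsScalarTower.toAlgHom F' K Ω).comp (ψ j) := Function.update_of_ne h _ _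
    exact congrArg some h1.symm

private theorem vl_upd {Q : ∀ j, (C j).V.pt Ω}
    (hψ : Q = fun j => some ((IsScalarTower.toAlgHom F' K Ω).comp (ψ j)))
    {φ : (C i).A →ₐ[F'] Ω} (hd : Function.update Q i (some φ) ∈ Dn C Φ Ω) :
    Vl C Φ (Function.update Q i (some φ)) fun k => xl K φ (xx Φ ψ i k) := by
  obtain ⟨x, φ', e, h0, hv⟩ := hd
  have e1 : φ' = fun j => og ψ i φ j :=
    funext fun j => Option.some.inj (congrFun (e.symm.trans (upd_eq ψ i hψ φ)) j)
  subst e1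
  have e2 : x = fun k => xl K φ (xx Φ ψ i k) := funext fun k => (hv k).trans (xx_val Φ ψ i φ k)
  rw [← e2]
  exact ⟨_, e, h0, hv⟩

end gen

section key

variable {F F' : Type} [Field F] [Field F'] [Algebra F F'] {N n : ℕ} {ι : Type}
  {f : ι → MvPolynomial (Fin N) F} {C : Fin n → Crv F'}
  {Φ : Fin N → MvPolynomial (Σ i, (C i).A) F'} {h : MvPolynomial (Fin N) F} {D : ℕ} {K Ω : Type}
  [Field K] [Field Ω] [Algebra K Ω] [Algebra F K] [Algebra F Ω]
  [IsScalarTower F K Ω] [Algebra F' K] [Algebra F' Ω] [IsScalarTower F' K Ω]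
  [IsScalarTower F F' K] [IsScalarTower F F' Ω]
  (ψ : ∀ j, (C j).A →ₐ[F'] K) (i : Fin n)
  {E : Type} [Field E] [Algebra (K ⊗[F'] (C i).A) E] [IsFractionRing (K ⊗[F'] (C i).A) E]
  [Algebra K E] [IsScalarTower K (K ⊗[F'] (C i).A) E] [Algebra F E] [IsScalarTower F K E]
  [Algebra F' E] [IsScalarTower F' K E] [IsScalarTower F F' E]

omit [Algebra F K] [IsScalarTower F F' K] [IsScalarTower F K E] [IsScalarTower F K Ω] [Field Ω]
  [Algebra K Ω] [Algebra F Ω] [Algebra F' Ω] [IsScalarTower F' K Ω] [IsScalarTower F F' Ω] in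
/-- The generic point. -/
private theorem gen_pt (hD : Dom f C Φ h D) (hne : ∃ k, xx Φ ψ i k ≠ 0) :
    ∃ P : (GX.Xf f).pt (AlgebraicClosure E), GX.Co P fun k =>
      algebraMap E (AlgebraicClosure E) (algebraMap (K ⊗[F'] (C i).A) E (xx Φ ψ i k)) := by
  let τ : K ⊗[F'] (C i).A →ₐ[K] AlgebraicClosure E :=
    ((Algebra.ofId E (AlgebraicClosure E)).restrictScalars K).comp
      (IsScalarTower.toAlgHom K (K ⊗[F'] (C i).A) E)
  have h0 : (fun k => algebraMap E (AlgebraicClosure E)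
      (algebraMap (K ⊗[F'] (C i).A) E (xx Φ ψ i k))) ≠ 0 := by
    intro h1
    obtain ⟨k, hk⟩ := hne
    apply hk
    have h2 := congrFun h1 k
    have h3 := (map_eq_zero_iff _ (algebraMap E (AlgebraicClosure E)).injective).1 h2
    exact (map_eq_zero_iff _ (IsFractionRing.injective (K ⊗[F'] (C i).A) E)).1 h3
  refine GX.co_mk h0 (hD.eq (AlgebraicClosure E)
    (fun j => some (og ψ i ((τ.restrictScalars F').comp
      (Algebra.TensorProduct.includeRight : (C i).A →ₐ[F'] K ⊗[F'] (C i).A)) j)) _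
    ⟨_, rfl, h0, fun k => ?_⟩)
  exact (og_aeval ψ i τ _ (Φ k)).symm

private theorem gen_rat {P : (GX.Xf f).pt (AlgebraicClosure E)} {z : Fin N → E}
    (hP : GX.Co P fun k => algebraMap E (AlgebraicClosure E) (z k)) : (GX.Xf f).Rat E P := by
  intro σ
  refine GX.co_eq (GX.co_act σ hP) ?_
  have e : (fun k => σ (algebraMap E (AlgebraicClosure E) (z k))) =
      fun k => algebraMap E (AlgebraicClosure E) (z k) := funext fun k => σ.commutes _
  rw [e]
  exact hP

omit [Algebra F K] [IsScalarTower F K Ω] [IsScalarTower F K E] in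
private theorem gen_val [IsAlgClosed Ω] {A : Type} [CommRing A] [Algebra K A] [Algebra A E]
    {P : (GX.Xf f).pt (AlgebraicClosure E)} {z : Fin N → A}
    (hP : GX.Co P fun k => algebraMap E (AlgebraicClosure E) (algebraMap A E (z k)))
    {φ : A →ₐ[K] Ω} {y : (GX.Xf f).pt Ω} (hy : GX.Co y fun k => φ (z k))
    {w : Place K E Ω} (hw : Ab w φ) : (GX.Xf f).IsVal w P y := by
  obtain ⟨W, hW1, hW2⟩ := exists_above w
  refine ⟨W, hW1, hW2, ?_⟩
  obtain ⟨P', rfl, hP'⟩ := hP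
  obtain ⟨y', rfl, hy'⟩ := hy
  refine ⟨P', y', rfl, rfl, fun k => ?_⟩
  obtain ⟨h1, h2⟩ := hw (z k)
  have h3 : algebraMap E (AlgebraicClosure E) (algebraMap A E (z k)) ∈ W.V := (hW1 _).2 h1
  rw [hP', hy']
  exact ⟨h3, (hW2 _ h1 h3).trans h2⟩

end key

section key1

variable {F F' : Type} [Field F] [Field F'] [Algebra F F'] {N n : ℕ} {ι : Type}
  {f : ι → MvPolynomial (Fin N) F} {C : Fin n → Crv F'}
  {Φ : Fin N → MvPolynomial (Σ i, (C i).A) F'} {h : MvPolynomial (Fin N) F} {D : ℕ} {K Ω : Type}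
  [Field K] [Field Ω] [Algebra K Ω] [Algebra F K] [Algebra F Ω]
  [IsScalarTower F K Ω] [Algebra F' K] [Algebra F' Ω] [IsScalarTower F' K Ω]
  [IsScalarTower F F' K] [IsScalarTower F F' Ω]
  (ψ : ∀ j, (C j).A →ₐ[F'] K) (i : Fin n)

omit [IsScalarTower F K Ω] [IsScalarTower F F' K] in
/-- The divisor of `x / y` with the values of `Φ`. -/
private theorem key' (E : Type) [Field E] [Algebra (K ⊗[F'] (C i).A) E]
    [IsFractionRing (K ⊗[F'] (C i).A) E]
    [Algebra K E] [IsScalarTower K (K ⊗[F'] (C i).A) E] [Algebra F E] [IsScalarTower F K E]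
    [Algebra F' E] [IsScalarTower F' K E] [IsScalarTower F F' E]
    [CharZero K] [IsAlgClosure K Ω] (hD : Dom f C Φ h D) (o : (GX.Xf f).pt Ω)
    {Q : ∀ j, (C j).V.pt Ω}
    (hψ : Q = fun j => some ((IsScalarTower.toAlgHom F' K Ω).comp (ψ j))) (hQ : Q ∈ Dn C Φ Ω)
    {x y : K ⊗[F'] (C i).A} {m : ℕ} (hx : ((C i).G.bc K).d x = m) (hy : ((C i).G.bc K).d y = m)
    (S : Finset ((C i).A →ₐ[F'] Ω)) (hS : ∀ φ, φ ∉ S → od (xl K φ) x = od (xl K φ) y)
    (hu : ∀ φ ∈ S, Function.update Q i (some φ) ∈ Dn C Φ Ω) :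
    ∑ φ ∈ S, Finsupp.single (fv (f := f) o Φ (Function.update Q i (some φ)))
      ((od (xl K φ) x : ℤ) - od (xl K φ) y) ∈ (GX.Xf f).ratEq K Ω := by
  classical
  have hac : IsAlgClosed Ω := IsAlgClosure.isAlgClosed K
  have halg : Algebra.IsAlgebraic K Ω := IsAlgClosure.isAlgebraic
  have hsm := (C i).sm
  have hx0 : x ≠ 0 := ((C i).G.bc K).ne_zero hx
  have hy0 : y ≠ 0 := ((C i).G.bc K).ne_zero hy
  have hself : Function.update Q i (some ((IsScalarTower.toAlgHom F' K Ω).comp (ψ i))) = Q := by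
    rw [← congrFun hψ i]
    exact Function.update_eq_self i Q
  have hne : ∃ k, xx Φ ψ i k ≠ 0 := by
    by_contra hcon
    push Not at hcon
    obtain ⟨φ', e, h0, hv⟩ := vl_upd Φ ψ i hψ (hself.symm ▸ hQ)
    refine h0 (funext fun k => ?_)
    rw [hcon k, map_zero]
    rfl
  obtain ⟨P, hP⟩ := gen_pt (E := E) ψ i hD hne
  let g : (K ⊗[F'] (C i).A →ₐ[K] Ω) → (GX.Xf f).pt Ω := fun φ' =>
    fv o Φ (Function.update Q i (some (exists_xl φ').choose))
  have hg : ∀ φ : (C i).A →ₐ[F'] Ω, g (xl K φ) = fv o Φ (Function.update Q i (some φ)) := by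
    intro φ
    have h1 := (exists_xl (xl K φ)).choose_spec
    exact congrArg (fun φ => fv o Φ (Function.update Q i (some φ))) (xl_inj h1).symm
  have hrg : ∀ φ : (C i).A →ₐ[F'] Ω, ∃ t, Rg (xl K φ) t := fun φ => xrg (C i).G φ
  have key := div_fin (E := E) (Ω := Ω) ((C i).G.bc K) (GX.Xf f) hx hy
    (S.image fun φ => xl K φ) (fun φ => od φ x) (fun φ => od φ y)
    (by
      intro φ' hφ'
      obtain ⟨φ, -, rfl⟩ := Finset.mem_image.1 hφ'
      obtain ⟨t, ht⟩ := hrg φ
      exact ⟨t, ht, ((C i).G.bc K).od_spec ht hx0, ((C i).G.bc K).od_spec ht hy0⟩)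
    (by
      intro φ' hφ'
      obtain ⟨φ, rfl⟩ := exists_xl φ'
      have hφ : φ ∉ S := fun h => hφ' (Finset.mem_image_of_mem _ h)
      obtain ⟨t, ht⟩ := hrg φ
      have h1 := ((C i).G.bc K).od_spec ht hx0
      rw [hS φ hφ] at h1
      exact h1.trans (((C i).G.bc K).od_spec ht hy0).symm)
    P (gen_rat hP) g
    (by
      intro φ' hφ' w hw
      obtain ⟨φ, hφ, rfl⟩ := Finset.mem_image.1 hφ'
      rw [hg]
      exact gen_val hP (fv_co hD o (vl_upd Φ ψ i hψ (hu φ hφ))) hw)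
  rw [Finset.sum_image fun φ _ φ' _ h => xl_inj h] at key
  simp only [hg] at key
  exact key

omit [IsScalarTower F K Ω] in
private theorem key [CharZero K] [IsAlgClosure K Ω] (hD : Dom f C Φ h D) (o : (GX.Xf f).pt Ω)
    {Q : ∀ j, (C j).V.pt Ω}
    (hψ : Q = fun j => some ((IsScalarTower.toAlgHom F' K Ω).comp (ψ j))) (hQ : Q ∈ Dn C Φ Ω)
    {x y : K ⊗[F'] (C i).A} {m : ℕ} (hx : ((C i).G.bc K).d x = m) (hy : ((C i).G.bc K).d y = m)
    (S : Finset ((C i).A →ₐ[F'] Ω)) (hS : ∀ φ, φ ∉ S → od (xl K φ) x = od (xl K φ) y)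
    (hu : ∀ φ ∈ S, Function.update Q i (some φ) ∈ Dn C Φ Ω) :
    ∑ φ ∈ S, Finsupp.single (fv (f := f) o Φ (Function.update Q i (some φ)))
      ((od (xl K φ) x : ℤ) - od (xl K φ) y) ∈ (GX.Xf f).ratEq K Ω := by
  have hdom : IsDomain (K ⊗[F'] (C i).A) := ((C i).G.bc K).isDomain
  obtain ⟨E, iE, iT, iF⟩ : ∃ (E : Type) (_ : Field E) (_ : Algebra (K ⊗[F'] (C i).A) E),
      IsFractionRing (K ⊗[F'] (C i).A) E :=
    ⟨FractionRing (K ⊗[F'] (C i).A), inferInstance, inferInstance, inferInstance⟩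
  let i0 : Algebra K E :=
    ((algebraMap (K ⊗[F'] (C i).A) E).comp (algebraMap K (K ⊗[F'] (C i).A))).toAlgebra
  let i1 : Algebra F E := ((algebraMap K E).comp (algebraMap F K)).toAlgebra
  let i2 : Algebra F' E := ((algebraMap K E).comp (algebraMap F' K)).toAlgebra
  have t0 : IsScalarTower K (K ⊗[F'] (C i).A) E := IsScalarTower.of_algebraMap_eq' rfl
  have t1 : IsScalarTower F K E := IsScalarTower.of_algebraMap_eq' rfl
  have t2 : IsScalarTower F' K E := IsScalarTower.of_algebraMap_eq' rfl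
  have t3 : IsScalarTower F F' E := by
    refine IsScalarTower.of_algebraMap_eq fun x => ?_
    change algebraMap K E (algebraMap F K x) = algebraMap K E (algebraMap F' K (algebraMap F F' x))
    rw [← IsScalarTower.algebraMap_apply F F' K]
  exact key' ψ i E hD o hψ hQ hx hy S hS hu

end key1

variable {F F' : Type} [Field F] [Field F'] [Algebra F F'] {N n : ℕ} {ι : Type}
  {f : ι → MvPolynomial (Fin N) F} {C : Fin n → Crv F'}
  {Φ : Fin N → MvPolynomial (Σ i, (C i).A) F'} {h : MvPolynomial (Fin N) F} {D : ℕ} {K Ω : Type}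
  [Field K] [CharZero K] [Field Ω] [Algebra K Ω] [IsAlgClosure K Ω] [Algebra F K] [Algebra F Ω]
  [IsScalarTower F K Ω] [Algebra F' K] [Algebra F' Ω] [IsScalarTower F' K Ω]
  [IsScalarTower F F' K] [IsScalarTower F F' Ω]

/-- The case of a point over `K`: its coordinates are `some (ψ j)` with homomorphisms `ψ j` to `K`. Proof: let `u = ψ i`, `g = u (G)`, `g' = u (H)` in `K`, `L = g' G - g H` in `K ⊗ A_i`. The degree of `L` is `r + 1` (`g ≠ 0` because `none` is not in the fibre), the degree of `H` is `r + 1`. The zeros of `L` are the fibre of `Q i`; they are `r + 1` points,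
so `od (xl K φ) L = 1` at these points (`sum_od` in `Cv/Xp5.lean`, for `M = ⊥`, or its proof over `K`) and `0` elsewhere, the same for `H`. `div_V` for `V = Xf f`, `E` the fraction field of `K ⊗ A_i`, the finite set of the zeros of `L` and of `H`, the point `P` = the class of the vector `Φ_k` evaluated at the functions `ψ s.1 s.2` for `s.1 ≠ i` and `1 ⊗ s.2` for `s.1 = i`:
it is not `0` because its value at `ψ i` is not `0` (`hQ`), it is a point of `f = 0` by `Dom.eq` (it is the value of `Φ` at the point `update Q i (generic point)`), the value at the places above `φ` is `fv o Φ (update Q i (some φ))` because this point is in the domain (`fv_eq`, compare the proof of `gn_rp`); a value at the place at infinity exists because the variety is projective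
(divide the coordinates by the one with the greatest value; compare `DN.ucX`, `ucx_norm` in `Do/Gu.lean`). Then `Z (L) - Z (H)` is the negative of `mp - single` (`Q i` is in its fibre, `Pen.self_mem`; the functions `p.fn`, `p.fib_eq`, `p.zh_eq`, `zr_card_eq`, `sum_odO` of `Dc/Fbs.lean` may be useful). -/
theorem one_K (hD : Dom f C Φ h D) (o : (GX.Xf f).pt Ω) (i : Fin n) {r : ℕ} (p : Pen (C i) K r)
    (ψ : ∀ j, (C j).A →ₐ[F'] K) {Q : ∀ j, (C j).V.pt Ω}
    (hψ : Q = fun j => some ((IsScalarTower.toAlgHom F' K Ω).comp (ψ j))) (hQ : Q ∈ Dn C Φ Ω)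
    (hz : (p.Zh Ω).ncard = r + 1) (hf : (p.Fib (Q i)).ncard = r + 1)
    (hn : (none : (C i).V.pt Ω) ∉ p.Fib (Q i))
    (hy : ∀ y ∈ p.ms (Q i), Function.update Q i y ∈ Dn C Φ Ω) :
    Finsupp.mapDomain (fv o Φ) (Sp i p Ω (Finsupp.single Q 1)) -
      Finsupp.single (fv (f := f) o Φ Q) 1 ∈ (GX.Xf f).ratEq K Ω := by
  classical
  have hac : IsAlgClosed Ω := IsAlgClosure.isAlgClosed K
  have hcz : CharZero Ω := charZero_of_injective_algebraMap (algebraMap K Ω).injective
  obtain ⟨u, hu0⟩ : ∃ u : (C i).A →ₐ[F'] Ω, u = (IsScalarTower.toAlgHom F' K Ω).comp (ψ i) :=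
    ⟨_, rfl⟩
  have hQi : Q i = Pen.fp u := (congrFun hψ i).trans (congrArg some hu0.symm)
  have hxu : ∀ x : K ⊗[F'] (C i).A, xl K u x = algebraMap K Ω (xl K (ψ i) x) := by
    intro x
    rw [hu0]
    exact Pen.xl_comp (Algebra.ofId K Ω) (ψ i) x
  obtain ⟨g, hg⟩ : ∃ g : K, g = xl K (ψ i) p.G := ⟨_, rfl⟩
  obtain ⟨g', hg'⟩ : ∃ g' : K, g' = xl K (ψ i) p.H := ⟨_, rfl⟩
  have hg0 : g ≠ 0 := by
    intro h0
    refine hn (p.mem_fib.2 ?_)
    rw [hQi]
    change xl K u p.G * 1 = xl K u p.H * 0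
    rw [hxu, ← hg, h0, map_zero, mul_zero, zero_mul]
  obtain ⟨L, hL⟩ : ∃ L : K ⊗[F'] (C i).A, L = g • p.H - g' • p.G := ⟨_, rfl⟩
  have hLd : ((C i).G.bc K).d L = ((r + 1 : ℕ) : WithBot ℕ) := by
    have h1 : ((C i).G.bc K).d (g • p.H) = ((r + 1 : ℕ) : WithBot ℕ) := by
      rw [((C i).G.bc K).smul hg0, p.hH]
    have h2 : ((C i).G.bc K).d (-(g' • p.G)) < ((C i).G.bc K).d (g • p.H) := by
      rw [h1, ((C i).G.bc K).neg]
      refine (((C i).G.bc K).smul_le g' _).trans_lt ?_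
      rw [p.hG]
      exact_mod_cast Nat.lt_succ_self r
    rw [hL, sub_eq_add_neg, add_comm, ((C i).G.bc K).add_eq h2, h1]
  have hLx : ∀ φ : (C i).A →ₐ[F'] Ω, xl K φ L = xl K u p.G * xl K φ p.H - xl K u p.H * xl K φ p.G := by
    intro φ
    rw [hL, map_sub, map_smul, map_smul, Algebra.smul_def, Algebra.smul_def, hxu, hxu, hg, hg']
  have hmf : ∀ φ : (C i).A →ₐ[F'] Ω, Pen.fp φ ∈ p.Fib (Q i) ↔ xl K φ L = 0 := by
    intro φ
    rw [hLx, sub_eq_zero, hQi]
    exact p.mem_fib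
  have hmz : ∀ φ : (C i).A →ₐ[F'] Ω, Pen.fp φ ∈ p.Zh Ω ↔ xl K φ p.H = 0 := fun φ => p.mem_zh
  obtain ⟨SL, hSL⟩ : ∃ S : Finset ((C i).A →ₐ[F'] Ω), ∀ φ, φ ∈ S ↔ xl K φ L = 0 :=
    ⟨(zk_fin hLd).toFinset, fun φ => (zk_fin hLd).mem_toFinset⟩
  obtain ⟨SH, hSH⟩ : ∃ S : Finset ((C i).A →ₐ[F'] Ω), ∀ φ, φ ∈ S ↔ xl K φ p.H = 0 :=
    ⟨(zk_fin p.hH).toFinset, fun φ => (zk_fin p.hH).mem_toFinset⟩
  have eF : p.Fib (Q i) = Pen.fp '' (SL : Set ((C i).A →ₐ[F'] Ω)) := by
    ext y
    match y with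
    | none =>
      constructor
      · intro h0
        exact absurd h0 hn
      · rintro ⟨φ, -, h0⟩
        exact absurd h0 (Option.some_ne_none φ)
    | some φ =>
      constructor
      · intro h0
        exact ⟨φ, (hSL φ).2 ((hmf φ).1 h0), rfl⟩
      · rintro ⟨φ', h1, h0⟩
        obtain rfl := Option.some_injective _ h0
        exact (hmf φ').2 ((hSL φ').1 h1)
  have eZ : p.Zh Ω = Pen.fp '' (SH : Set ((C i).A →ₐ[F'] Ω)) := by
    ext y
    match y with
    | none =>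
      constructor
      · intro h0
        exact absurd h0 p.none_zh
      · rintro ⟨φ, -, h0⟩
        exact absurd h0 (Option.some_ne_none φ)
    | some φ =>
      constructor
      · intro h0
        exact ⟨φ, (hSH φ).2 ((hmz φ).1 h0), rfl⟩
      · rintro ⟨φ', h1, h0⟩
        obtain rfl := Option.some_injective _ h0
        exact (hmz φ').2 ((hSH φ').1 h1)
  have cL : SL.card = r + 1 := by
    rw [← hf, eF, Set.ncard_image_of_injective _ Pen.fp_inj, Set.ncard_coe_finset]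
  have cH : SH.card = r + 1 := by
    rw [← hz, eZ, Set.ncard_image_of_injective _ Pen.fp_inj, Set.ncard_coe_finset]
  have oL := od_one hLd hSL cL
  have oH := od_one p.hH hSH cH
  have huL : u ∈ SL := by
    rw [hSL, ← hmf, ← hQi]
    exact p.self_mem _
  have hupd : Function.update Q i (some u) = Q := by
    have h0 := Function.update_eq_self i Q
    rw [hQi] at h0
    exact h0
  have hdn : ∀ φ ∈ SL ∪ SH, Function.update Q i (some φ) ∈ Dn C Φ Ω := by
    intro φ hφ
    by_cases h0 : φ = u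
    · rw [h0, hupd]
      exact hQ
    · refine hy _ ?_
      rcases Finset.mem_union.1 hφ with h1 | h1
      · refine Or.inr ⟨(hmf φ).2 ((hSL φ).1 h1), fun h2 => h0 ?_⟩
        exact Pen.fp_inj ((Set.mem_singleton_iff.1 h2).trans hQi)
      · exact Or.inl ((hmz φ).2 ((hSH φ).1 h1))
  have k0 := key ψ i hD o hψ hQ hLd p.hH (SL ∪ SH) (fun φ hφ => by
    rw [Finset.mem_union, not_or] at hφ
    rw [oL, oH, if_neg hφ.1, if_neg hφ.2]) hdn
  obtain ⟨v, hv⟩ : ∃ v : ((C i).A →ₐ[F'] Ω) → (GX.Xf f).pt Ω,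
      v = fun φ => fv o Φ (Function.update Q i (some φ)) := ⟨_, rfl⟩
  have e1 : ∑ φ ∈ SL ∪ SH, Finsupp.single (fv (f := f) o Φ (Function.update Q i (some φ)))
      ((od (xl K φ) L : ℤ) - od (xl K φ) p.H) =
      ∑ φ ∈ SL, Finsupp.single (v φ) 1 - ∑ φ ∈ SH, Finsupp.single (v φ) 1 := by
    have h1 : ∑ φ ∈ SL, Finsupp.single (v φ) (1 : ℤ) =
        ∑ φ ∈ SL ∪ SH, Finsupp.single (v φ) (if φ ∈ SL then 1 else 0) := by
      rw [← Finset.sum_subset (Finset.subset_union_left (s₂ := SH)) (f := fun φ =>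
        Finsupp.single (v φ) (if φ ∈ SL then (1 : ℤ) else 0)) fun φ _ h2 => by
          rw [if_neg h2, Finsupp.single_zero]]
      exact Finset.sum_congr rfl fun φ h2 => by rw [if_pos h2]
    have h2 : ∑ φ ∈ SH, Finsupp.single (v φ) (1 : ℤ) =
        ∑ φ ∈ SL ∪ SH, Finsupp.single (v φ) (if φ ∈ SH then 1 else 0) := by
      rw [← Finset.sum_subset (Finset.subset_union_right (s₁ := SL)) (f := fun φ =>
        Finsupp.single (v φ) (if φ ∈ SH then (1 : ℤ) else 0)) fun φ _ h2 => by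
          rw [if_neg h2, Finsupp.single_zero]]
      exact Finset.sum_congr rfl fun φ h2 => by rw [if_pos h2]
    rw [h1, h2, ← Finset.sum_sub_distrib]
    refine Finset.sum_congr rfl fun φ _ => ?_
    rw [← Finsupp.single_sub, oL, oH, hv]
    push_cast
    rfl
  rw [e1] at k0
  have e2 : Finsupp.mapDomain (fv (f := f) o Φ) (Sp i p Ω (Finsupp.single Q 1)) =
      ∑ φ ∈ SH, Finsupp.single (v φ) 1 - ∑ φ ∈ SL.erase u, Finsupp.single (v φ) 1 := by
    have h1 : (∑ᶠ y ∈ p.Zh Ω, Finsupp.single y (1 : ℤ)) =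
        ∑ φ ∈ SH, Finsupp.single (Pen.fp φ : (C i).V.pt Ω) (1 : ℤ) := by
      rw [eZ, finsum_mem_image Pen.fp_inj.injOn, finsum_mem_coe_finset]
    have h2 : (∑ᶠ y ∈ p.Fib (Q i) \ {Q i}, Finsupp.single y (1 : ℤ)) =
        ∑ φ ∈ SL.erase u, Finsupp.single (Pen.fp φ : (C i).V.pt Ω) (1 : ℤ) := by
      have h3 : p.Fib (Q i) \ {Q i} = Pen.fp '' ((SL.erase u : Finset _) : Set ((C i).A →ₐ[F'] Ω)) := by
        rw [eF, Finset.coe_erase, Set.image_sdiff Pen.fp_inj, Set.image_singleton, hQi]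
      rw [h3, finsum_mem_image Pen.fp_inj.injOn, finsum_mem_coe_finset]
    have h4 : p.mp (Q i) = ∑ φ ∈ SH, Finsupp.single (Pen.fp φ : (C i).V.pt Ω) (1 : ℤ) -
        ∑ φ ∈ SL.erase u, Finsupp.single (Pen.fp φ : (C i).V.pt Ω) (1 : ℤ) := by
      unfold Pen.mp
      rw [h1, h2]
    have h5 : ∀ S : Finset ((C i).A →ₐ[F'] Ω),
        Finsupp.mapDomain (fv (f := f) o Φ) (Finsupp.mapDomain (Function.update Q i)
          (∑ φ ∈ S, Finsupp.single (Pen.fp φ : (C i).V.pt Ω) (1 : ℤ))) =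
        ∑ φ ∈ S, Finsupp.single (v φ) 1 := by
      intro S
      rw [Finsupp.mapDomain_finsetSum, Finsupp.mapDomain_finsetSum]
      refine Finset.sum_congr rfl fun φ _ => ?_
      rw [Finsupp.mapDomain_single, Finsupp.mapDomain_single, hv]
      rfl
    rw [sp_single, one_smul, h4, ← h5 SH, ← h5 (SL.erase u)]
    exact map_sub ((Finsupp.mapDomain.addMonoidHom (fv (f := f) o Φ)).comp
      (Finsupp.mapDomain.addMonoidHom (Function.update Q i))) _ _
  have e3 : v u = fv o Φ Q := by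
    rw [hv]
    exact congrArg (fv o Φ) hupd
  rw [e2, ← e3, sub_sub, Finset.sum_erase_add _ _ huL, ← neg_sub]
  exact neg_mem k0

section mid

variable {F : Type} [Field F] {A K M Ω : Type} [CommRing A] [Algebra F A] [Field K] [Field M]
  [Field Ω] [Algebra F K] [Algebra F M] [Algebra F Ω] [Algebra K M] [Algebra K Ω] [Algebra M Ω]
  [IsScalarTower F K M] [IsScalarTower F K Ω] [IsScalarTower F M Ω] [IsScalarTower K M Ω]

private theorem xl_mid (φ : A →ₐ[F] Ω) (x : K ⊗[F] A) : xl M φ (xi F A K M x) = xl K φ x := by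
  induction x with
  | zero => rw [map_zero, map_zero, map_zero]
  | tmul c a =>
    rw [xi_tmul, xl_tmul, xl_tmul, ← IsScalarTower.algebraMap_apply K M Ω]
  | add x y hx hy => rw [map_add, map_add, map_add, hx, hy]

variable {C : Crv F} {r : ℕ} (p : Pen C K r)

variable (M) in
/-- The pencil over `M`. -/
private noncomputable def pm : Pen C M r where
  G := xi F C.A K M p.G
  H := xi F C.A K M p.H
  hG := (xi_d C.G p.G).trans p.hG
  hH := (xi_d C.G p.H).trans p.hH
  cop := p.cop.map (xi F C.A K M : K ⊗[F] C.A →+* M ⊗[F] C.A)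

private theorem pm_g (x : C.V.pt Ω) : (pm M p).g x = p.g x := by
  match x with
  | none => rfl
  | some φ => exact xl_mid φ p.G

private theorem pm_h (x : C.V.pt Ω) : (pm M p).h x = p.h x := by
  match x with
  | none => rfl
  | some φ => exact xl_mid φ p.H

private theorem pm_fib (x : C.V.pt Ω) : (pm M p).Fib x = p.Fib x := by
  ext y
  rw [Pen.mem_fib, Pen.mem_fib, pm_g, pm_g, pm_h, pm_h]

private theorem pm_zh : (pm M p).Zh Ω = p.Zh Ω := by
  ext y
  rw [Pen.mem_zh, Pen.mem_zh, pm_h]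

private theorem pm_ms (x : C.V.pt Ω) : (pm M p).ms x = p.ms x := by
  unfold Pen.ms
  rw [pm_zh, pm_fib]

private theorem pm_mp (x : C.V.pt Ω) : (pm M p).mp x = p.mp x := by
  unfold Pen.mp
  rw [pm_zh, pm_fib]

end mid

section mh

variable {F K Ω : Type} [Field F] [Field K] [Field Ω] [Algebra K Ω] [Algebra F K] [Algebra F Ω]
  [IsScalarTower F K Ω] {A : Type} [CommRing A] [Algebra F A]

/-- A homomorphism with values in `M`. -/
private def mh (M : IntermediateField K Ω) (φ : A →ₐ[F] Ω) (h : ∀ a, φ a ∈ M) : A →ₐ[F] M where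
  toFun a := ⟨φ a, h a⟩
  map_one' := Subtype.ext (map_one φ)
  map_mul' a b := Subtype.ext (map_mul φ a b)
  map_zero' := Subtype.ext (map_zero φ)
  map_add' a b := Subtype.ext (map_add φ a b)
  commutes' a := Subtype.ext ((φ.commutes a).trans (IsScalarTower.algebraMap_apply F M Ω a))

end mh

/-- The case of a point over `M`. Proof: `one_K` over `M` for the pencil with the functions `G`, `H` in `M ⊗ A_i` (the images of `G`, `H`; the fibres and zeros are the same sets of points over `Ω`: `xl M φ` of the image is `xl K φ`); the coordinates of `Q` are homomorphisms with values in `M` (`Fp`). -/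
theorem one_M (hD : Dom f C Φ h D) (o : (GX.Xf f).pt Ω) (i : Fin n) {r : ℕ} (p : Pen (C i) K r)
    (M : IntermediateField K Ω) [FiniteDimensional K M] {Q : ∀ j, (C j).V.pt Ω}
    (hM : Fp (Vpi fun j => (C j).V) M Q) (hQ : Q ∈ Dn C Φ Ω)
    (hz : (p.Zh Ω).ncard = r + 1) (hf : (p.Fib (Q i)).ncard = r + 1)
    (hn : (none : (C i).V.pt Ω) ∉ p.Fib (Q i))
    (hy : ∀ y ∈ p.ms (Q i), Function.update Q i y ∈ Dn C Φ Ω) :
    Finsupp.mapDomain (fv o Φ) (Sp i p Ω (Finsupp.single Q 1)) -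
      Finsupp.single (fv (f := f) o Φ Q) 1 ∈ (GX.Xf f).ratEq M Ω := by
  have hac : IsAlgClosed Ω := IsAlgClosure.isAlgClosed K
  have halg : Algebra.IsAlgebraic K Ω := IsAlgClosure.isAlgebraic
  have hcl : IsAlgClosure M Ω := ⟨hac, inferInstance⟩
  have hcz : CharZero M := charZero_of_injective_algebraMap (algebraMap K M).injective
  have t1 : IsScalarTower F F' M := by
    refine IsScalarTower.of_algebraMap_eq fun x => Subtype.ext ?_
    exact IsScalarTower.algebraMap_apply F F' Ω x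
  obtain ⟨x, φ, e, hx0, hx⟩ := id hQ
  have hmem : ∀ j a, φ j a ∈ M := by
    intro j a
    refine mem_of_fix M fun γ hγ => ?_
    have h1 : (C j).V.act γ (Q j) = Q j := congrFun (hM γ hγ) j
    rw [congrFun e j] at h1
    exact DFunLike.congr_fun (Option.some_injective _ h1) a
  have k0 := one_K (K := M) hD o i (pm M p) (fun j => mh M (φ j) (hmem j)) (Q := Q)
    (e.trans (funext fun j => congrArg some (AlgHom.ext fun a => rfl))) hQ
    (by rw [pm_zh]; exact hz) (by rw [pm_fib]; exact hf) (by rw [pm_fib]; exact hn)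
    (by rw [pm_ms]; exact hy)
  rw [sp_single, pm_mp] at k0
  rw [sp_single]
  exact k0

end DC
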