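import Pool.Agent.Lib.MP_f80667_ag.Qb.Over

/-! The divisor of a function over a finite extension of the function field. -/

open ZC

namespace DC

/-- **The fundamental identity** for a function `g` of `E` over the finite extension `E'`: `T` is the set of the places of `E'` above the places in `S` at which `g` has an order `≠ 0`. Proof: `Qb.sum_over` (`Qb/Over.lean`) for `M = E`, `M' = E'` and each `w` in `S` with `m w ≠ 0` (`IsOrd` gives a generator `π` of the maximal ideal, `Unif w π`, and `g = u π ^ m`, so the order of `g` at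
`w'` is `m w` times the order of `π`, which is an integer: `w'` has a generator, compare `Qb/Disc.lean`). At the other places of `E'` the function `g` is a unit: its restriction to `E` is a place where `g` is a unit. -/
theorem ord_up {K E E' Ω : Type} [Field K] [CharZero K] [Field E] [Field E'] [Field Ω]
    [IsAlgClosed Ω] [Algebra K E] [Algebra K E'] [Algebra E E'] [IsScalarTower K E E']
    [Algebra K Ω] (hE : IsFunField K E) (hE' : IsFunField K E') [FiniteDimensional E E']
    (alg : Algebra.IsAlgebraic E E') {g : E} (hg : g ≠ 0) (S : Finset (Place K E Ω))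
    (m : Place K E Ω → ℤ) (hS : ∀ w, w ∉ S → g ∈ w.V ∧ g⁻¹ ∈ w.V)
    (hm : ∀ w ∈ S, w.IsOrd g (m w)) :
    ∃ (T : Finset (Place K E' Ω)) (m' : Place K E' Ω → ℤ),
      (∀ w, w ∉ T → algebraMap E E' g ∈ w.V ∧ (algebraMap E E' g)⁻¹ ∈ w.V) ∧
      (∀ w ∈ T, Fa.restr alg w ∈ S ∧ w.IsOrd (algebraMap E E' g) (m' w)) ∧
      ∀ {A : Type} [AddCommGroup A] (a : Place K E Ω → A),
        ∑ w ∈ T, m' w • a (Fa.restr alg w) = Module.finrank E E' • ∑ w ∈ S, m w • a w := by
  classical
  have hex : ∀ w : Place K E Ω, ∃ π, Qb.Unif w π := fun w => Qb.exists_unif hE w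
  choose π hπ using hex
  have hπ0 : ∀ w, algebraMap E E' (π w) ≠ 0 := fun w => (_root_.map_ne_zero _).2 (hπ w).1
  have hord : ∀ w' : Place K E' Ω,
      ∃ e : ℤ, w'.IsOrd (algebraMap E E' (π (Fa.restr alg w'))) e := by
    intro w'
    obtain ⟨ρ, hρ⟩ := Qb.exists_unif hE' w'
    exact hρ.isOrd hE' (hπ0 _)
  choose e he using hord
  have hso : ∀ w : Place K E Ω, ∃ T : Finset (Place K E' Ω),
      (∀ w', w' ∈ T ↔ Fa.restr alg w' = w) ∧ ∑ w' ∈ T, e w' = (Module.finrank E E' : ℤ) := by
    intro w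
    obtain ⟨T, hT, hsum⟩ := Qb.sum_over hE hE' alg (hπ w)
    refine ⟨T, hT, hsum e fun w' hw' => ?_⟩
    have h1 := he w'
    rw [(hT w').1 hw'] at h1
    exact h1
  choose T hT hTe using hso
  have hmem : ∀ w' : Place K E' Ω, w' ∈ S.biUnion T ↔ Fa.restr alg w' ∈ S := by
    intro w'
    rw [Finset.mem_biUnion]
    constructor
    · rintro ⟨w, hw, hw'⟩
      rw [(hT w w').1 hw']
      exact hw
    · intro h
      exact ⟨_, h, (hT _ w').2 rfl⟩
  refine ⟨S.biUnion T, fun w' => m (Fa.restr alg w') * e w', ?_, ?_, ?_⟩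
  · intro w' hw'
    rw [hmem] at hw'
    obtain ⟨h1, h2⟩ := hS _ hw'
    refine ⟨h1, ?_⟩
    rw [← map_inv₀]
    exact h2
  · intro w' hw'
    have hw := (hmem w').1 hw'
    refine ⟨hw, ?_⟩
    obtain ⟨n, u, hu, hu', hu0, hgu⟩ := (hπ (Fa.restr alg w')).exists_ord hE hg
    have hn : m (Fa.restr alg w') = n :=
      (hm _ hw).unique rfl ⟨π (Fa.restr alg w'), u, (hπ _).1, (hπ _).2, hu, hu', hu0, hgu⟩
    obtain ⟨ρ, hρ⟩ := Qb.exists_unif hE' w'
    have h1 : w'.IsOrd (algebraMap E E' u) 0 := by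
      refine Qb.ord_unit hρ hu ?_ ((_root_.map_ne_zero _).2 hu0)
      rw [← map_inv₀]
      exact hu'
    have h2 := Qb.ord_mul h1 (Qb.ord_zpow (he w') n)
    rw [zero_add, ← map_zpow₀, ← map_mul, ← hgu] at h2
    change w'.IsOrd (algebraMap E E' g) (m (Fa.restr alg w') * e w')
    rw [hn]
    exact h2
  · intro A _ a
    rw [Finset.sum_biUnion, Finset.smul_sum]
    · refine Finset.sum_congr rfl fun w hw => ?_
      have h1 : ∀ w' ∈ T w, (m (Fa.restr alg w') * e w') • a (Fa.restr alg w') =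
          e w' • (m w • a w) := by
        intro w' hw'
        rw [(hT w w').1 hw', mul_comm, mul_smul]
      rw [Finset.sum_congr rfl h1, ← Finset.sum_smul, hTe w, natCast_zsmul]
    · intro w _ v _ hwv
      rw [Function.onFun, Finset.disjoint_left]
      intro w' h1 h2
      exact hwv (((hT w w').1 h1).symm.trans ((hT v w').1 h2))

end DC
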