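import Pool.Agent.Lib.MP_f80667_ag.Dc.Spl
import Pool.Agent.Lib.MP_f80667_ag.Dc.Gna
import Pool.Agent.Lib.MP_f80667_ag.Dc.Ext
import Pool.Agent.Lib.MP_f80667_ag.Dc.Ovr

/-! The operators of pencils on divisors of functions. -/

open ZC BE PE CV TensorProduct

namespace DC

section mprd

variable {F : Type} [Field F] {C : Crv F} {K Ω : Type} [Field K] [Field Ω] [Algebra K Ω]
  [Algebra F K] [Algebra F Ω] [IsScalarTower F K Ω] {r : ℕ} (p : Pen C K r) {E : Type} [Field E]
  [IsAlgClosed E] [CharZero E] [Algebra K E] [Algebra F E] [IsScalarTower F K E]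

/-- The sum `mp p t` for the reduction `t` of a point `x`. -/
private theorem mp_rd (W : Place K E Ω) {x : C.V.pt E} {t : C.V.pt Ω} (hx : C.V.red W x t)
    (hi : t ≠ none → (none : C.V.pt Ω) ∉ p.Fib t) (hc : (p.Fib t).ncard = r + 1)
    (hz : (p.Zh Ω).ncard = r + 1) (Z B : Finset (C.V.pt E)) (hZ : (Z : Set (C.V.pt E)) = p.Zh E)
    (hB : (B : Set (C.V.pt E)) = p.Fib x \ {x}) :
    p.mp t = ∑ b ∈ Z, Finsupp.single (rd W b) (1 : ℤ) -
      ∑ b ∈ B, Finsupp.single (rd W b) (1 : ℤ) := by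
  have h1 := p.zh_rd W hz
  have h2 : Set.BijOn (rd W : C.V.pt E → C.V.pt Ω) (p.Fib x \ {x}) (p.Fib t \ {t}) := by
    have h3 := (p.fib_rd W hx hi hc).sdiff_singleton (p.self_mem x)
    rwa [rd_eq W hx] at h3
  rw [← hZ] at h1
  rw [← hB] at h2
  unfold Pen.mp
  congr 1
  · rw [← finsum_mem_coe_finset]
    exact (finsum_mem_eq_of_bijOn (rd W) h1 fun _ _ => rfl).symm
  · rw [← finsum_mem_coe_finset]
    exact (finsum_mem_eq_of_bijOn (rd W) h2 fun _ _ => rfl).symm

end mprd

variable {F : Type} [Field F] {n : ℕ} {C : Fin n → Crv F} {K Ω : Type} [Field K] [CharZero K]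
  [Field Ω] [Algebra K Ω] [IsAlgClosure K Ω] [Algebra F K] [Algebra F Ω] [IsScalarTower F K Ω]

/-- The points obtained from the points of `T` by a modification of the coordinate number `i`. -/
def Tm {r : ℕ} (i : Fin n) (p : Pen (C i) K r) (T : Set (∀ j, (C j).V.pt Ω)) :
    Set (∀ j, (C j).V.pt Ω) :=
  {R | ∃ t ∈ T, ∃ y ∈ p.ms (t i), R = Function.update t i y}

/-- **One coordinate.** Proof: `z = ∑ single (y w) (m w)` for the function `g` on `E` and the `E`-point `x` over `Ē = AlgebraicClosure E` (`DN.Gn`, `V.IsVal`). If `m w = 0` for all `w ∈ S` then `z = 0`; replace `S` by the places with `m w ≠ 0` or treat all of `S` (a value exists at all places of `S`).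
Let `Y = Zh (Ē) ∪ Fib (x i)`, a finite Galois invariant set with at most `2 (r + 1)` points (`zh_fin`, `fib_fin`, `zh_card`, `fib_card`, `zh_act`, `fib_act`, `x i` is invariant); `exists_ef`: `L` of degree `N ∣ (Y.ncard)! ∣ (2 (r + 1))!` over `E`. `ff_fin`: `L` is a function field. `ord_up` for `L / E`: `T'`, `m'`. For every place `w'` of `L` let `W'` be a place of `Ē` above `w'` (`exists_pe`),
`w = Fa.restr _ w'`: by `red_cg` the value of `x j` at `W'` is `y w j`. For `b` in `Y` let `c_b = ∑ w' ∈ T', m' w' • single (update (y w) i (rd W' b))`: by `gn_of` for the point `update x i b` over `L` (invariant under the automorphisms over `L`) it is in `Gn`, if the values are in the set `Tm`: for `b ∈ Zh` by `zh_rd`, for `b ∈ Fib (x i)`, `b ≠ x i`, by `fib_rd` (a bijection of the fibre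
of `x i` onto the fibre of `y w i` which maps `x i` to `y w i`). The sum of the `c_b`, `b ∈ Zh`, minus the sum of the `c_b`, `b ∈ Fib (x i)`, `b ≠ x i`, is `∑ w' ∈ T', m' w' • Sp (single (y w) 1)` (`sp_single`, the bijections `zh_rd`, `fib_rd`), which is `N • Sp z` by the last statement of `ord_up`. Multiply by `(2 (r + 1))! / N`. -/
theorem gn_sp {r : ℕ} (i : Fin n) (p : Pen (C i) K r) {T : Set (∀ j, (C j).V.pt Ω)}
    (hz : (p.Zh Ω).ncard = r + 1) (hf : ∀ t ∈ T, (p.Fib (t i)).ncard = r + 1)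
    (hi : ∀ t ∈ T, t i ≠ none → (none : (C i).V.pt Ω) ∉ p.Fib (t i))
    {z : (∀ j, (C j).V.pt Ω) →₀ ℤ} (h : DN.Gn (Vpi fun j => (C j).V) K Ω T z) :
    (2 * (r + 1)).factorial • Sp i p Ω z ∈
      AddSubgroup.closure {z | DN.Gn (Vpi fun j => (C j).V) K Ω (Tm i p T) z} := by
  classical
  obtain ⟨E, i1, i2, i3, i4, hE, g, x, hg, hx, S, m, y, hS, hv, rfl⟩ := h
  have hchE : CharZero E := charZero_of_injective_algebraMap (algebraMap K E).injective
  have hclΩ : IsAlgClosed Ω := IsAlgClosure.isAlgClosed K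
  have hchM : CharZero (AlgebraicClosure E) :=
    charZero_of_injective_algebraMap (algebraMap E (AlgebraicClosure E)).injective
  have iT : IsScalarTower F K (AlgebraicClosure E) := inferInstance
  -- the coordinates of the point
  have hxj : ∀ (j : Fin n) (σ : AlgebraicClosure E ≃ₐ[E] AlgebraicClosure E),
      (C j).V.act σ (x j) = x j := fun j σ => congrFun (hx σ) j
  obtain ⟨Y, hY⟩ : ∃ Y : Set ((C i).V.pt (AlgebraicClosure E)),
    Y = p.Zh (AlgebraicClosure E) ∪ p.Fib (x i) := ⟨_, rfl⟩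
  have hYf : Y.Finite := by
    rw [hY]
    exact (p.zh_fin _).union (p.fib_fin _)
  have hYc : Y.ncard ≤ 2 * (r + 1) := by
    rw [hY]
    refine (Set.ncard_union_le _ _).trans ?_
    have h1 := p.zh_card (AlgebraicClosure E)
    have h2 := p.fib_card (x i)
    omega
  have hYs : ∀ (σ : AlgebraicClosure E ≃ₐ[E] AlgebraicClosure E), ∀ y ∈ Y,
      (C i).V.act σ y ∈ Y := by
    intro σ y hy
    rw [hY] at hy ⊢
    have h1 : (C i).V.act (σ.restrictScalars K) (x i) = x i := hxj i σ
    rcases hy with hy | hy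
    · exact Or.inl ((p.zh_act (σ.restrictScalars K)).2 hy)
    · refine Or.inr ?_
      have h2 := (p.fib_act (σ.restrictScalars K)).2 hy
      rwa [h1] at h2
  obtain ⟨L, hLf, hLd, hLy⟩ := exists_ef hYf hYs
  have hLFF : IsFunField K L := ff_fin hE
  have iTL : IsScalarTower F K L := IsScalarTower.of_algebraMap_eq fun a => Subtype.ext (by
    change algebraMap F (AlgebraicClosure E) a =
      algebraMap K (AlgebraicClosure E) (algebraMap F K a)
    exact IsScalarTower.algebraMap_apply F K (AlgebraicClosure E) a)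
  have alg : Algebra.IsAlgebraic E L := inferInstance
  have hcl : IsAlgClosed (AlgebraicClosure E) := inferInstance
  have algL : Algebra.IsAlgebraic L (AlgebraicClosure E) := inferInstance
  have iL : IsAlgClosure L (AlgebraicClosure E) := ⟨hcl, algL⟩
  obtain ⟨T', m', hT1, hT2, hT3⟩ := ord_up (Ω := Ω) hE hLFF alg hg S m hS fun w hw => (hv w hw).1
  have hyT : ∀ w' ∈ T', y (Fa.restr alg w') ∈ T := fun w' hw' => (hv _ (hT2 w' hw').1).2.2
  -- the places of the algebraic closure above the places of `L`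
  have hW : ∀ w' : Place K L Ω, ∃ W : Place K (AlgebraicClosure E) Ω,
      (∀ a : L, algebraMap L (AlgebraicClosure E) a ∈ W.V ↔ a ∈ w'.V) ∧
      ∀ (a : L) (h : a ∈ w'.V) (h' : algebraMap L (AlgebraicClosure E) a ∈ W.V),
        W.res ⟨_, h'⟩ = w'.res ⟨a, h⟩ := fun w' => exists_pe w'
  choose W hW1 hW2 using hW
  have hred : ∀ w' ∈ T', ∀ j, (C j).V.red (W w') (x j) (y (Fa.restr alg w') j) := by
    intro w' hw' j
    obtain ⟨W1, h2, h3, h4⟩ := (hv _ (hT2 w' hw').1).2.1
    have h5 : ∀ a : E, algebraMap E (AlgebraicClosure E) a ∈ (W w').V ↔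
        a ∈ (Fa.restr alg w').V := fun a => hW1 w' (algebraMap E L a)
    refine red_cg (hxj j) (W := W1) (W' := W w') (fun a => (h2 a).trans (h5 a).symm) ?_ (h4 j)
    intro a h h'
    have h6 : a ∈ (Fa.restr alg w').V := (h5 a).1 h'
    exact (h3 a h6 h).trans (hW2 w' (algebraMap E L a) h6 h').symm
  obtain ⟨Z, hZ⟩ := (p.zh_fin (AlgebraicClosure E)).exists_finset_coe
  obtain ⟨B, hB⟩ := ((p.fib_fin (x i)).subset
    (Set.sdiff_subset : p.Fib (x i) \ {x i} ⊆ p.Fib (x i))).exists_finset_coe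
  have hZY : ∀ b ∈ Z, b ∈ Y := fun b hb => by
    rw [hY]
    exact Or.inl (hZ ▸ Finset.mem_coe.2 hb)
  have hBY : ∀ b ∈ B, b ∈ Y := fun b hb => by
    rw [hY]
    have h1 : b ∈ p.Fib (x i) \ {x i} := hB ▸ Finset.mem_coe.2 hb
    exact Or.inr h1.1
  -- the divisors for the points of the fibre
  obtain ⟨c, hc⟩ : ∃ c : (C i).V.pt (AlgebraicClosure E) → (∀ j, (C j).V.pt Ω) →₀ ℤ,
    ∀ b, c b = ∑ w' ∈ T', Finsupp.single (Function.update (y (Fa.restr alg w')) i (rd (W w') b))
      (m' w') := ⟨_, fun _ => rfl⟩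
  have hcm : ∀ b ∈ Y, (∀ w' ∈ T', rd (W w') b ∈ p.ms (y (Fa.restr alg w') i)) →
      c b ∈ AddSubgroup.closure {z | DN.Gn (Vpi fun j => (C j).V) K Ω (Tm i p T) z} := by
    intro b hb hb'
    rw [hc]
    refine AddSubgroup.subset_closure (gn_of (E := L) (E' := AlgebraicClosure E) hLFF
      (g := algebraMap E L g) ?_ (Function.update x i b) ?_ T' m'
      (fun w' => Function.update (y (Fa.restr alg w')) i (rd (W w') b)) hT1
      (fun w' hw' => (hT2 w' hw').2) ?_ ?_)
    · exact (map_ne_zero_iff _ (algebraMap E L).injective).2 hg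
    · intro σ j
      rcases eq_or_ne j i with rfl | hj
      · rw [Function.update_self]
        exact hLy b hb σ
      · rw [Function.update_of_ne hj]
        exact hxj j (σ.restrictScalars E)
    · intro w' hw'
      exact ⟨_, hyT w' hw', _, hb' w' hw', rfl⟩
    · intro w' hw'
      refine ⟨W w', hW1 w', hW2 w', fun j => ?_⟩
      rcases eq_or_ne j i with rfl | hj
      · rw [Function.update_self, Function.update_self]
        exact rd_red _ _
      · rw [Function.update_of_ne hj, Function.update_of_ne hj]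
        exact hred w' hw' j
  have hcZ : ∀ b ∈ Z, c b ∈
      AddSubgroup.closure {z | DN.Gn (Vpi fun j => (C j).V) K Ω (Tm i p T) z} := by
    intro b hb
    refine hcm b (hZY b hb) fun w' hw' => Or.inl ?_
    exact (p.zh_rd (W w') hz).mapsTo (hZ ▸ Finset.mem_coe.2 hb)
  have hcB : ∀ b ∈ B, c b ∈
      AddSubgroup.closure {z | DN.Gn (Vpi fun j => (C j).V) K Ω (Tm i p T) z} := by
    intro b hb
    refine hcm b (hBY b hb) fun w' hw' => Or.inr ?_
    have h1 : b ∈ p.Fib (x i) \ {x i} := hB ▸ Finset.mem_coe.2 hb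
    have h2 := (p.fib_rd (W w') (hred w' hw' i) (hi _ (hyT w' hw'))
      (hf _ (hyT w' hw'))).sdiff_singleton (p.self_mem (x i))
    rw [rd_eq (W w') (hred w' hw' i)] at h2
    exact h2.mapsTo h1
  -- the sum
  have hsp : ∀ w' ∈ T', Sp i p Ω (Finsupp.single (y (Fa.restr alg w')) 1) =
      ∑ b ∈ Z, Finsupp.single (Function.update (y (Fa.restr alg w')) i (rd (W w') b)) (1 : ℤ) -
        ∑ b ∈ B, Finsupp.single (Function.update (y (Fa.restr alg w')) i (rd (W w') b))
          (1 : ℤ) := by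
    intro w' hw'
    rw [sp_single, one_smul, mp_rd p (W w') (hred w' hw' i) (hi _ (hyT w' hw'))
      (hf _ (hyT w' hw')) hz Z B hZ hB, ← Finsupp.mapDomain.addMonoidHom_apply, map_sub,
      map_sum, map_sum]
    simp only [Finsupp.mapDomain.addMonoidHom_apply, Finsupp.mapDomain_single]
  have hz1 : Sp i p Ω (∑ w ∈ S, Finsupp.single (y w) (m w)) =
      ∑ w ∈ S, m w • Sp i p Ω (Finsupp.single (y w) 1) := by
    rw [map_sum]
    refine Finset.sum_congr rfl fun w _ => ?_
    rw [sp_single, sp_single, one_smul]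
  have hN : Module.finrank E L • Sp i p Ω (∑ w ∈ S, Finsupp.single (y w) (m w)) =
      ∑ b ∈ Z, c b - ∑ b ∈ B, c b := by
    rw [hz1, ← hT3 fun w => Sp i p Ω (Finsupp.single (y w) 1)]
    rw [Finset.sum_congr rfl fun w' hw' => congrArg (m' w' • ·) (hsp w' hw')]
    simp only [hc, smul_sub, Finset.smul_sum, Finset.sum_sub_distrib, Finsupp.smul_single,
      smul_eq_mul, mul_one]
    rw [Finset.sum_comm]
    congr 1
    rw [Finset.sum_comm]
  obtain ⟨k, hk⟩ := hLd.trans (Nat.factorial_dvd_factorial hYc)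
  have hfin : (2 * (r + 1)).factorial • Sp i p Ω (∑ w ∈ S, Finsupp.single (y w) (m w)) =
      k • (∑ b ∈ Z, c b - ∑ b ∈ B, c b) := by
    rw [hk, mul_comm, mul_smul]
    exact congrArg (fun u => k • u) hN
  have h9 := nsmul_mem (sub_mem (sum_mem hcZ) (sum_mem hcB)) k
  rw [← hfin] at h9
  exact h9

/-- The points obtained from the points of `T` by modifications of the coordinates in the list. -/
def Tl {r : Fin n → ℕ} (p : ∀ i, Pen (C i) K (r i)) (l : List (Fin n))
    (T : Set (∀ j, (C j).V.pt Ω)) : Set (∀ j, (C j).V.pt Ω) :=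
  {R | ∃ t ∈ T, (∀ j ∈ l, R j ∈ (p j).ms (t j)) ∧ ∀ j, j ∉ l → R j = t j}

/-- **All coordinates.** Proof: induction on the list: `gn_sp` for the set `Tl p l T` (its points have the coordinates `t i` for `i ∉ l`) and every generator (`AddSubgroup.closure_induction`). -/
theorem gn_mt {r : Fin n → ℕ} (p : ∀ i, Pen (C i) K (r i)) {S : ∀ i, Set ((C i).V.pt Ω)}
    (hp : ∀ i, Pgs (p i) (S i) ∅) {T : Set (∀ j, (C j).V.pt Ω)} (hT : ∀ t ∈ T, ∀ i, t i ∈ S i)
    {l : List (Fin n)} (hl : l.Nodup) {z : (∀ j, (C j).V.pt Ω) →₀ ℤ}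
    (hz : z ∈ AddSubgroup.closure {z | DN.Gn (Vpi fun j => (C j).V) K Ω T z}) :
    (l.map fun i => (2 * (r i + 1)).factorial).prod • Mt p Ω l z ∈
      AddSubgroup.closure {z | DN.Gn (Vpi fun j => (C j).V) K Ω (Tl p l T) z} := by
  induction l with
  | nil =>
    rw [List.map_nil, List.prod_nil, one_smul]
    refine AddSubgroup.closure_mono (fun u hu => ?_) hz
    refine DN.gn_mono (fun t ht => ?_) hu
    exact ⟨t, ht, fun j hj => absurd hj List.not_mem_nil, fun _ _ => rfl⟩
  | cons i l ih =>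
    rw [List.nodup_cons] at hl
    have h1 := ih hl.2
    rw [List.map_cons, List.prod_cons, mul_smul]
    have h2 : ∀ u, Mt p Ω (i :: l) u = Sp i (p i) Ω (Mt p Ω l u) := fun _ => rfl
    rw [h2, ← map_nsmul (Sp i (p i) Ω)]
    have h3 : AddSubgroup.closure {z | DN.Gn (Vpi fun j => (C j).V) K Ω (Tl p l T) z} ≤
        (AddSubgroup.closure {z | DN.Gn (Vpi fun j => (C j).V) K Ω (Tl p (i :: l) T) z}).comap
          ((2 * (r i + 1)).factorial • Sp i (p i) Ω) := by
      refine (AddSubgroup.closure_le _).2 fun u hu => ?_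
      have hti : ∀ t ∈ Tl p l T, t i ∈ S i := by
        rintro t ⟨t0, ht0, -, h4⟩
        rw [h4 i hl.1]
        exact hT t0 ht0 i
      refine AddSubgroup.closure_mono (fun v hv => DN.gn_mono ?_ hv)
        (gn_sp i (p i) (hp i).zc (fun t ht => (hp i).fc _ (hti t ht))
          (fun t ht => (hp i).fi _ (hti t ht)) hu)
      rintro _ ⟨t, ⟨t0, ht0, h5, h6⟩, y, hy, rfl⟩
      refine ⟨t0, ht0, fun j hj => ?_, fun j hj => ?_⟩
      · rcases eq_or_ne j i with rfl | hji
        · rw [Function.update_self, ← h6 j hl.1]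
          exact hy
        · rw [Function.update_of_ne hji]
          exact h5 j ((List.mem_cons.1 hj).resolve_left hji)
      · rw [List.mem_cons, not_or] at hj
        rw [Function.update_of_ne hj.1]
        exact h6 j hj.2
    exact h3 h1

end DC
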