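import Pool.Agent.Lib.MP_f80667_ag.Dc.Frd
import Pool.Agent.Lib.MP_f80667_ag.Cv.CyG

/-! The operators on cycles given by pencils. -/

open ZC BE PE CV TensorProduct

namespace DC

section aux

private theorem fs_apply {α : Type} {A : Set α} {y : α} (h : y ∉ A) :
    (∑ᶠ z ∈ A, Finsupp.single z (1 : ℤ)) y = 0 := by
  classical
  by_cases hA : A.Finite
  · rw [finsum_mem_eq_finite_toFinset_sum _ hA, Finsupp.finset_sum_apply]
    refine Finset.sum_eq_zero fun z hz => ?_
    rw [Finsupp.single_apply, if_neg]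
    rintro rfl
    exact h (hA.mem_toFinset.1 hz)
  · rw [finsum_mem_eq_zero_of_infinite, Finsupp.zero_apply]
    have h1 : A ∩ Function.support (fun z : α => Finsupp.single z (1 : ℤ)) = A := by
      refine Set.inter_eq_left.2 fun z _ => ?_
      rw [Function.mem_support]
      exact Finsupp.single_ne_zero.2 one_ne_zero
    rw [h1]
    exact hA

private theorem fs_map {α : Type} {A B : Set α} {f : α → α} (hf : Function.Injective f)
    (h : f '' A = B) : Finsupp.mapDomain f (∑ᶠ z ∈ A, Finsupp.single z (1 : ℤ)) =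
      ∑ᶠ z ∈ B, Finsupp.single z (1 : ℤ) := by
  classical
  subst h
  by_cases hA : A.Finite
  · rw [finsum_mem_image hf.injOn, finsum_mem_eq_finite_toFinset_sum _ hA,
      finsum_mem_eq_finite_toFinset_sum _ hA, Finsupp.mapDomain_finset_sum]
    exact Finset.sum_congr rfl fun z _ => Finsupp.mapDomain_single
  · have h0 : ∀ s : Set α, ¬ s.Finite → (∑ᶠ z ∈ s, Finsupp.single z (1 : ℤ)) = 0 := by
      intro s hs
      rw [finsum_mem_eq_zero_of_infinite]
      have h1 : s ∩ Function.support (fun z : α => Finsupp.single z (1 : ℤ)) = s := by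
        refine Set.inter_eq_left.2 fun z _ => ?_
        rw [Function.mem_support]
        exact Finsupp.single_ne_zero.2 one_ne_zero
      rw [h1]
      exact hs
    rw [h0 A hA, h0 (f '' A) fun h1 => hA (Set.Finite.of_finite_image h1 hf.injOn),
      Finsupp.mapDomain_zero]

private theorem act_iv {F : Type} [Field F] {C : Crv F} {K : Type} [Field K] [Algebra F K]
    {Ω : Type} [Field Ω] [Algebra F Ω] [Algebra K Ω] [IsScalarTower F K Ω] (γ : Ω ≃ₐ[K] Ω)
    (x : C.V.pt Ω) : C.V.act γ⁻¹ (C.V.act γ x) = x := by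
  rcases x with _ | φ
  · rfl
  · refine congrArg some (AlgHom.ext fun a => ?_)
    change γ⁻¹ (γ (φ a)) = φ a
    exact γ.symm_apply_apply (φ a)

private theorem act_vi {F : Type} [Field F] {C : Crv F} {K : Type} [Field K] [Algebra F K]
    {Ω : Type} [Field Ω] [Algebra F Ω] [Algebra K Ω] [IsScalarTower F K Ω] (γ : Ω ≃ₐ[K] Ω)
    (x : C.V.pt Ω) : C.V.act γ (C.V.act γ⁻¹ x) = x := by
  rcases x with _ | φ
  · rfl
  · refine congrArg some (AlgHom.ext fun a => ?_)
    change γ (γ⁻¹ (φ a)) = φ a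
    exact γ.apply_symm_apply (φ a)

private theorem act_inj {F : Type} [Field F] {C : Crv F} {K : Type} [Field K] [Algebra F K]
    {Ω : Type} [Field Ω] [Algebra F Ω] [Algebra K Ω] [IsScalarTower F K Ω] (γ : Ω ≃ₐ[K] Ω) :
    Function.Injective (C.V.act γ) :=
  Function.LeftInverse.injective (act_iv γ)

private theorem deg_fs {F : Type} [Field F] {V : Vr F} {Ω : Type} [Field Ω] [Algebra F Ω]
    {A : Set (V.pt Ω)} (hA : A.Finite) :
    V.deg Ω (∑ᶠ z ∈ A, Finsupp.single z (1 : ℤ)) = (A.ncard : ℤ) := by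
  classical
  rw [finsum_mem_eq_finite_toFinset_sum _ hA, map_sum]
  have h1 : ∀ z ∈ hA.toFinset, V.deg Ω (Finsupp.single z (1 : ℤ)) = 1 := by
    intro z _
    unfold BE.Vr.deg
    rw [Finsupp.liftAddHom_apply_single]
    rfl
  rw [Finset.sum_congr rfl h1, Finset.sum_const, Set.ncard_eq_toFinset_card A hA, nsmul_eq_mul,
    mul_one]

end aux

section one

variable {F : Type} [Field F] {C : Crv F} {K : Type} [Field K] [Algebra F K] {r : ℕ}
  (p : Pen C K r) {Ω : Type} [Field Ω] [Algebra F Ω] [Algebra K Ω] [IsScalarTower F K Ω]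

/-- Proof: the coefficients of the finite sums; an infinite sum is `0`. -/
theorem mem_mp {x y : C.V.pt Ω} (h : y ∈ (p.mp x).support) : y ∈ p.ms x := by
  by_contra hn
  refine Finsupp.mem_support_iff.1 h ?_
  unfold Pen.ms at hn
  rw [Set.mem_union, not_or] at hn
  unfold Pen.mp
  rw [Finsupp.sub_apply, fs_apply hn.1, fs_apply hn.2, sub_zero]

/-- Proof: `Pen.fib_act`, `Pen.zh_act` (`Dc/Frd.lean`): the fibre of `act γ x` is the image of the fibre of `x`; `C.V.act γ` is bijective (inverse `act γ⁻¹`). -/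
theorem mp_act (γ : Ω ≃ₐ[K] Ω) (x : C.V.pt Ω) :
    Finsupp.mapDomain (C.V.act γ) (p.mp x) = p.mp (C.V.act γ x) := by
  have h1 : (C.V.act γ) '' p.Zh Ω = p.Zh Ω := by
    ext y
    constructor
    · rintro ⟨z, hz, rfl⟩
      exact (p.zh_act γ).2 hz
    · intro hy
      refine ⟨C.V.act γ⁻¹ y, (p.zh_act γ⁻¹).2 hy, act_vi γ y⟩
  have h2 : (C.V.act γ) '' (p.Fib x \ {x}) = p.Fib (C.V.act γ x) \ {C.V.act γ x} := by
    ext y
    constructor
    · rintro ⟨z, hz, rfl⟩
      refine ⟨(p.fib_act γ).2 hz.1, fun h => hz.2 ?_⟩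
      exact act_inj γ h
    · intro hy
      refine ⟨C.V.act γ⁻¹ y, ⟨?_, ?_⟩, act_vi γ y⟩
      · have h3 := (p.fib_act γ⁻¹ (x := C.V.act γ x) (y := y)).2 hy.1
        rwa [act_iv] at h3
      · intro h
        refine hy.2 ?_
        have h4 : C.V.act γ⁻¹ y = x := h
        change y = C.V.act γ x
        rw [← h4, act_vi]
  unfold Pen.mp
  rw [← fs_map (act_inj γ) h1, ← fs_map (act_inj γ) h2]
  rw [fs_map (act_inj γ) h1]
  have h5 := map_sub (Finsupp.mapDomain.addMonoidHom (M := ℤ) (C.V.act γ))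
    (∑ᶠ y ∈ p.Zh Ω, Finsupp.single y (1 : ℤ)) (∑ᶠ y ∈ p.Fib x \ {x}, Finsupp.single y (1 : ℤ))
  have h6 := fs_map (act_inj γ) h1
  have h7 : ∀ z, (Finsupp.mapDomain.addMonoidHom (M := ℤ) (C.V.act γ)) z =
    Finsupp.mapDomain (C.V.act γ) z := fun _ => rfl
  rw [h7, h7, h7, h6] at h5
  exact h5

/-- Proof: `(r + 1) - r = 1` (`Pen.self_mem`). -/
theorem mp_deg {S B : Set (C.V.pt Ω)} (h : Pgs p S B) {x : C.V.pt Ω} (hx : x ∈ S) :
    C.V.deg Ω (p.mp x) = 1 := by
  have h1 : (p.Zh Ω).Finite := Set.finite_of_ncard_ne_zero (by rw [h.zc]; exact Nat.succ_ne_zero _)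
  have h2 : (p.Fib x).Finite := Set.finite_of_ncard_ne_zero (by
    rw [h.fc x hx]; exact Nat.succ_ne_zero _)
  have h3 : (p.Fib x \ {x}).ncard + 1 = (p.Fib x).ncard :=
    Set.ncard_diff_singleton_add_one (p.self_mem x) h2
  unfold Pen.mp
  rw [map_sub, deg_fs h1, deg_fs (h2.subset Set.diff_subset), h.zc]
  rw [h.fc x hx] at h3
  have h4 : (p.Fib x \ {x}).ncard = r := by omega
  rw [h4]
  push_cast
  ring

/-- Proof: `ms p x` is finite because `ncard` is not `0`. -/
theorem ms_fin {S B : Set (C.V.pt Ω)} (h : Pgs p S B) {x : C.V.pt Ω} (hx : x ∈ S) :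
    (p.ms x).Finite := by
  have h1 : (p.Zh Ω).Finite := Set.finite_of_ncard_ne_zero (by rw [h.zc]; exact Nat.succ_ne_zero _)
  have h2 : (p.Fib x).Finite := Set.finite_of_ncard_ne_zero (by
    rw [h.fc x hx]; exact Nat.succ_ne_zero _)
  exact h1.union (h2.subset Set.diff_subset)

end one

section prod

variable {F : Type} [Field F] {n : ℕ} {C : Fin n → Crv F} {K : Type} [Field K] [Algebra F K]
  {Ω : Type} [Field Ω] [Algebra F Ω] [Algebra K Ω] [IsScalarTower F K Ω]

section sp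

variable {r : ℕ} (i : Fin n) (p : Pen (C i) K r)

theorem sp_single (Q : ∀ j, (C j).V.pt Ω) (a : ℤ) :
    Sp i p Ω (Finsupp.single Q a) =
      a • Finsupp.mapDomain (Function.update Q i) (p.mp (Q i)) := by
  unfold Sp
  rw [Finsupp.liftAddHom_apply_single, zmultiplesHom_apply]

private theorem sp_act_aux (γ : Ω ≃ₐ[K] Ω) (ac : (∀ j, (C j).V.pt Ω) → ∀ j, (C j).V.pt Ω)
    (hac : ∀ Q j, ac Q j = (C j).V.act γ (Q j)) (w : (∀ j, (C j).V.pt Ω) →₀ ℤ) :
    Finsupp.mapDomain ac (Sp i p Ω w) = Sp i p Ω (Finsupp.mapDomain ac w) := by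
  induction w using Finsupp.induction_linear with
  | zero => rw [Finsupp.mapDomain_zero, map_zero, Finsupp.mapDomain_zero]
  | add z w hz hw => rw [Finsupp.mapDomain_add, map_add, map_add, Finsupp.mapDomain_add, hz, hw]
  | single Q n =>
    rw [Finsupp.mapDomain_single, sp_single, sp_single, Finsupp.mapDomain_smul,
      ← Finsupp.mapDomain_comp]
    have h2 : ac ∘ Function.update Q i = Function.update (ac Q) i ∘ (C i).V.act γ := by
      funext y
      funext j
      change ac (Function.update Q i y) j = Function.update (ac Q) i ((C i).V.act γ y) j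
      rw [hac]
      rcases eq_or_ne j i with rfl | hj
      · rw [Function.update_self, Function.update_self]
      · rw [Function.update_of_ne hj, Function.update_of_ne hj, hac]
    rw [hac Q i, h2, Finsupp.mapDomain_comp, mp_act]

/-- Proof: `sp_single`, `mp_act`; `act γ (update Q i y) = update (act γ Q) i (act γ y)`. -/
theorem sp_act (γ : Ω ≃ₐ[K] Ω) (w : (∀ j, (C j).V.pt Ω) →₀ ℤ) :
    Finsupp.mapDomain ((Vpi fun j => (C j).V).act γ) (Sp i p Ω w) =
      Sp i p Ω (Finsupp.mapDomain ((Vpi fun j => (C j).V).act γ) w) :=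
  sp_act_aux i p γ (fun Q j => (C j).V.act γ (Q j)) (fun _ _ => rfl) w

theorem sp_cyc {w : (∀ j, (C j).V.pt Ω) →₀ ℤ} (hw : w ∈ (Vpi fun j => (C j).V).cyc K Ω) :
    Sp i p Ω w ∈ (Vpi fun j => (C j).V).cyc K Ω := by
  intro σ
  have h1 := sp_act i p σ w
  have h2 := congrArg (Sp i p Ω) (hw σ)
  exact h1.trans h2

theorem sp_deg {S B : Set ((C i).V.pt Ω)} (h : Pgs p S B) {w : (∀ j, (C j).V.pt Ω) →₀ ℤ}
    (hw : ∀ Q ∈ w.support, Q i ∈ S) :
    (Vpi fun j => (C j).V).deg Ω (Sp i p Ω w) = (Vpi fun j => (C j).V).deg Ω w := by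
  classical
  set dg : ((∀ j, (C j).V.pt Ω) →₀ ℤ) →+ ℤ := Finsupp.liftAddHom fun _ => AddMonoidHom.id ℤ with hdg
  have hv : ∀ z : (∀ j, (C j).V.pt Ω) →₀ ℤ, (Vpi fun j => (C j).V).deg Ω z = dg z := fun _ => rfl
  rw [hv, hv]
  have h1 : ∀ z : (C i).V.pt Ω →₀ ℤ, ∀ Q : ∀ j, (C j).V.pt Ω,
      dg (Finsupp.mapDomain (Function.update Q i) z) = (C i).V.deg Ω z := by
    intro z Q
    induction z using Finsupp.induction_linear with
    | zero => rw [Finsupp.mapDomain_zero, map_zero, map_zero]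
    | add z w hz hw => rw [Finsupp.mapDomain_add, map_add, map_add, hz, hw]
    | single x n =>
      rw [Finsupp.mapDomain_single, hdg]
      unfold BE.Vr.deg
      rw [Finsupp.liftAddHom_apply_single, Finsupp.liftAddHom_apply_single]
  have h2 : ∀ Q ∈ w.support, dg (Sp i p Ω (Finsupp.single Q (w Q))) =
      dg (Finsupp.single Q (w Q)) := by
    intro Q hQ
    rw [sp_single, map_zsmul, h1, mp_deg p h (hw Q hQ), hdg, Finsupp.liftAddHom_apply_single,
      AddMonoidHom.id_apply, smul_eq_mul, mul_one]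
  have h3 : (∑ Q ∈ w.support, Finsupp.single Q (w Q)) = w := Finsupp.sum_single w
  calc dg (Sp i p Ω w) = dg (Sp i p Ω (∑ Q ∈ w.support, Finsupp.single Q (w Q))) := by rw [h3]
    _ = ∑ Q ∈ w.support, dg (Sp i p Ω (Finsupp.single Q (w Q))) := by rw [map_sum, map_sum]
    _ = ∑ Q ∈ w.support, dg (Finsupp.single Q (w Q)) := Finset.sum_congr rfl h2
    _ = dg w := by rw [← map_sum, h3]

theorem sp_supp {w : (∀ j, (C j).V.pt Ω) →₀ ℤ} {R : ∀ j, (C j).V.pt Ω}
    (h : R ∈ (Sp i p Ω w).support) :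
    ∃ Q ∈ w.support, ∃ y ∈ p.ms (Q i), R = Function.update Q i y := by
  classical
  have h1 : Sp i p Ω w = ∑ Q ∈ w.support, Sp i p Ω (Finsupp.single Q (w Q)) := by
    rw [← map_sum]
    exact congrArg _ (Finsupp.sum_single w).symm
  rw [h1] at h
  obtain ⟨Q, hQ, h2⟩ := Finset.mem_biUnion.1 (Finsupp.support_finsetSum h)
  rw [sp_single] at h2
  obtain ⟨y, hy, rfl⟩ := Finset.mem_image.1 (Finsupp.mapDomain_support (Finsupp.support_smul h2))
  exact ⟨Q, hQ, y, mem_mp p hy, rfl⟩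

end sp

variable {r : Fin n → ℕ} (p : ∀ i, Pen (C i) K (r i))

/-- Proof: induction on the list, `sp_supp`. -/
theorem mt_supp {l : List (Fin n)} (hl : l.Nodup) {w : (∀ j, (C j).V.pt Ω) →₀ ℤ}
    {R : ∀ j, (C j).V.pt Ω} (h : R ∈ (Mt p Ω l w).support) :
    ∃ Q ∈ w.support, (∀ j ∈ l, R j ∈ (p j).ms (Q j)) ∧ ∀ j, j ∉ l → R j = Q j := by
  induction l generalizing R with
  | nil => exact ⟨R, h, fun j hj => absurd hj List.not_mem_nil, fun j _ => rfl⟩
  | cons i l ih =>
    rw [List.nodup_cons] at hl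
    obtain ⟨Q1, hQ1, y, hy, rfl⟩ := sp_supp i (p i) (w := Mt p Ω l w) h
    obtain ⟨Q, hQ, h1, h2⟩ := ih hl.2 hQ1
    refine ⟨Q, hQ, fun j hj => ?_, fun j hj => ?_⟩
    · rcases eq_or_ne j i with rfl | hji
      · rw [Function.update_self, ← h2 j hl.1]
        exact hy
      · rw [Function.update_of_ne hji]
        exact h1 j ((List.mem_cons.1 hj).resolve_left hji)
    · rw [List.mem_cons, not_or] at hj
      rw [Function.update_of_ne hj.1]
      exact h2 j hj.2

theorem mt_cyc (l : List (Fin n)) {w : (∀ j, (C j).V.pt Ω) →₀ ℤ}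
    (hw : w ∈ (Vpi fun j => (C j).V).cyc K Ω) : Mt p Ω l w ∈ (Vpi fun j => (C j).V).cyc K Ω := by
  induction l with
  | nil => exact hw
  | cons i l ih => exact sp_cyc i (p i) ih

/-- Proof: induction on the list, `sp_deg`, `mt_supp`. -/
theorem mt_D0 {S : ∀ i, Set ((C i).V.pt Ω)} (hp : ∀ i, Pgs (p i) (S i) ∅) {l : List (Fin n)}
    (hl : l.Nodup) {w : (∀ j, (C j).V.pt Ω) →₀ ℤ} (hw : w ∈ (Vpi fun j => (C j).V).D0 K Ω)
    (hs : ∀ Q ∈ w.support, ∀ i, Q i ∈ S i) : Mt p Ω l w ∈ (Vpi fun j => (C j).V).D0 K Ω := by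
  refine ⟨mt_cyc p l hw.1, ?_⟩
  have h1 : ∀ l : List (Fin n), l.Nodup →
      (Vpi fun j => (C j).V).deg Ω (Mt p Ω l w) = (Vpi fun j => (C j).V).deg Ω w := by
    intro l hl
    induction l with
    | nil => rfl
    | cons i l ih =>
      rw [List.nodup_cons] at hl
      refine (sp_deg i (p i) (hp i) (w := Mt p Ω l w) fun Q1 hQ1 => ?_).trans (ih hl.2)
      obtain ⟨Q, hQ, -, h2⟩ := mt_supp p hl.2 hQ1
      rw [h2 i hl.1]
      exact hs Q hQ i
  have h2 : (Vpi fun j => (C j).V).deg Ω w = 0 := hw.2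
  exact (h1 l hl).trans h2

end prod

end DC
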