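import Pool.Agent.Lib.MP_f80667_ag.Cv.Defs
import Pool.Agent.Lib.MP_f80667_ag.Sb.A
import Pool.Agent.Lib.MP_f80667_ag.Pe.StE

/-!
Projective varieties dominated by products of curves: the definitions for the statement. The curves are `Crv` (`Cv/Defs.lean`).

* `Tgc f x`: the tangent space of the cone. `Nsp f d`: `f = 0` is a nonsingular projective variety of dimension `d`.
* `Zdv V K l`: the group of the zero-cycles of degree `0` over `K` is `l`-divisible modulo rational equivalence.
* `QPr V P`: Q1 for the variety `V` at the prime numbers in `P`, in the form `0 = 0`.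
* `Od`, `Dvr`, `Ev`, `Prc z`: the cycle `z` on an affine curve is principal.
* `Vl C Φ P x`: `x` is the value at the point `P` of the product of the affine curves of the vector `Φ` of polynomials in the functions.
  `Fb C Φ P`: the preimages of the point `P` of `f = 0`. `Sb C Φ P i`: the sum of their coordinates number `i`. `Hnz h P`: `h (P) ≠ 0`.
* `Dom f C Φ h D`: `Φ` is a dominant rational map of degree `D` to `f = 0`. `Cst f C Φ h`: the classes of the `Sb C Φ P i` are constant.
* `Gdv C E v`: the curves have good reduction at the places of `E` above `v`.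
* `Gok A`: the properties of a group variety. `Sg0 M z`: the sum of `φ (z)` is `0`. `Pbk C Φ h M`: the pull-back of a cycle with sum
  `0` has principal push-forwards to the curves.
* `Dvl M K l`: the kernel of the sum is `l`-divisible. `Alx M c`: the sums of a family are `0`. `Smx M P z`: the sums of `z` are
  those of the image of an element of the completion of `F^1(X)`.
-/

open ZC BE PE CV IsDedekindDomain NumberField TensorProduct

namespace DX

section var

variable {F : Type} [Field F] {N : ℕ} {ι : Type}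

/-- The tangent space at `x` of the cone over the variety `f = 0`. -/
noncomputable def Tgc (f : ι → MvPolynomial (Fin N) F) (x : Fin N → F) : Submodule F (Fin N → F) :=
  ⨅ i, LinearMap.ker (∑ j, MvPolynomial.eval x (MvPolynomial.pderiv j (f i)) •
    (LinearMap.proj j : (Fin N → F) →ₗ[F] F))

/-- `f = 0` is a nonsingular projective variety of dimension `d`: the `f_i` are homogeneous and generate a prime ideal, the transcendence degree of the
homogeneous coordinate ring is `d + 1`, and at all points over the algebraic closure the tangent space of the cone has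
dimension at most `d + 1`. -/
structure Nsp (f : ι → MvPolynomial (Fin N) F) (d : ℕ) : Prop where
  hom : ∀ i, ∃ e, (f i).IsHomogeneous e
  prime : (Ideal.span (Set.range f)).IsPrime
  dim : Algebra.trdeg F (MvPolynomial (Fin N) F ⧸ Ideal.span (Set.range f)) = (d + 1 : ℕ)
  nsg : ∀ x : Fin N → AlgebraicClosure F, x ≠ 0 → (∀ i, MvPolynomial.aeval x (f i) = 0) →
    Module.finrank (AlgebraicClosure F)
      (Tgc (fun i => MvPolynomial.map (algebraMap F (AlgebraicClosure F)) (f i)) x) ≤ d + 1

/-- The group of the zero-cycles of degree `0` on `V` over `K` is `l`-divisible modulo rational equivalence. -/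
def Zdv (V : Vr F) (K : Type) [Field K] [Algebra F K] (l : ℕ) : Prop :=
  ∀ z : Zc V K, ∃ z' : Zc V K, z.cl = l • z'.cl

end var

/-- Q1 for `V` at the prime numbers in `P`, in the form `0 = 0`: the group `F^1_A(V)` is divisible by all `m ≠ 0` with all
prime factors in `P`, and the components at the prime numbers in `P` of every element of its completion are in the
image of `Δ`. -/
def QPr {F : Type} [Field F] [NumberField F] (V : Vr F) (P : Set ℕ) : Prop :=
  (∀ m : ℕ, m ≠ 0 → Sf P m → ∀ c : Fam V, ∃ c' : Fam V, c.cl = m • c'.cl) ∧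
    ∀ z : LHat (FA V), ImDeS P z

section ord

variable {R L T : Type} [CommRing R] [CommRing L]

/-- The order of `x` at the kernel of `e` is `k`: `x` is in the power `k`, but not in the power `k + 1` of the kernel. -/
def Od (e : R →+* L) (x : R) (k : ℕ) : Prop :=
  x ∈ RingHom.ker e ^ k ∧ x ∉ RingHom.ker e ^ (k + 1)

/-- The degree of `z` is `0`, and `z` is the divisor of a quotient `x / y`: its coefficient at `φ` is the difference of the orders of
`x` and `y` at the kernel of `e φ`. -/
def Dvr (e : T → R →+* L) (z : T →₀ ℤ) : Prop :=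
  (z.sum fun _ m => m) = 0 ∧ ∃ x y : R, x ≠ 0 ∧ y ≠ 0 ∧
    ∀ φ, ∃ a b : ℕ, Od (e φ) x a ∧ Od (e φ) y b ∧ z φ = a - b

end ord

section dom

variable {F F' : Type} [Field F] [Field F'] {N n : ℕ} {ι : Type}

/-- The value of functions on the affine curve over `L` at the point `φ`. -/
noncomputable def Ev {C : Crv F'} {L : Type} [Field L] [Algebra F' L] (φ : C.A →ₐ[F'] L) :
    L ⊗[F'] C.A →+* L :=
  (Algebra.TensorProduct.productMap (AlgHom.id F' L) φ).toRingHom

/-- The cycle `z` of degree `0` on the affine curve over `L` is the divisor of a quotient `x / y` of functions. -/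
def Prc {C : Crv F'} {L : Type} [Field L] [Algebra F' L] (z : (C.A →ₐ[F'] L) →₀ ℤ) : Prop :=
  Dvr (fun φ => Ev φ) z

/-- `x ≠ 0` is the value of the vector `Φ` of polynomials in the functions on the affine curves at the point `P` of the product. -/
def Vl (C : Fin n → Crv F') (Φ : Fin N → MvPolynomial (Σ i, (C i).A) F') {L : Type}
    [Field L] [Algebra F' L] (P : ∀ i, (C i).A →ₐ[F'] L) (x : Fin N → L) : Prop :=
  x ≠ 0 ∧ ∀ j, x j = MvPolynomial.aeval (fun s : Σ i, (C i).A => P s.1 s.2) (Φ j)

/-- The preimages of the point `P` of the variety `f = 0`. -/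
def Fb (C : Fin n → Crv F') (Φ : Fin N → MvPolynomial (Σ i, (C i).A) F')
    {f : ι → MvPolynomial (Fin N) F} {L : Type} [Field L] [Algebra F L] [Algebra F' L]
    (P : (GX.Xf f).pt L) : Set (∀ i, (C i).A →ₐ[F'] L) :=
  {Q | ∃ x, GX.Co P x ∧ Vl C Φ Q x}

/-- The sum of the coordinates number `i` of the preimages of the point `P`. -/
noncomputable def Sb (C : Fin n → Crv F') (Φ : Fin N → MvPolynomial (Σ i, (C i).A) F')
    {f : ι → MvPolynomial (Fin N) F} {L : Type} [Field L] [Algebra F L] [Algebra F' L]
    (P : (GX.Xf f).pt L) (i : Fin n) : ((C i).A →ₐ[F'] L) →₀ ℤ :=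
  ∑ᶠ Q ∈ Fb C Φ P, Finsupp.single (Q i) (1 : ℤ)

/-- The form `h` does not vanish at the point `P`. -/
def Hnz (h : MvPolynomial (Fin N) F) {f : ι → MvPolynomial (Fin N) F} {L : Type} [Field L]
    [Algebra F L] (P : (GX.Xf f).pt L) : Prop :=
  ∃ x, GX.Co P x ∧ MvPolynomial.aeval x h ≠ 0

/-- `Φ` is a dominant rational map of degree `D` from the product of the curves `C i` to the variety `f = 0`: its values are in
`f = 0`, and the points with `h ≠ 0`, a nonempty open set, have exactly `D` preimages. -/
structure Dom [Algebra F F'] (f : ι → MvPolynomial (Fin N) F) (C : Fin n → Crv F')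
    (Φ : Fin N → MvPolynomial (Σ i, (C i).A) F') (h : MvPolynomial (Fin N) F) (D : ℕ) : Prop where
  eq : ∀ (L : Type) [Field L] [Algebra F L] [Algebra F' L] [IsScalarTower F F' L]
    (Q : ∀ i, (C i).A →ₐ[F'] L) (x : Fin N → L), Vl C Φ Q x → ∀ i, MvPolynomial.aeval x (f i) = 0
  hom : ∃ e, h.IsHomogeneous e
  ne : h ∉ Ideal.span (Set.range f)
  deg : ∀ (L : Type) [Field L] [IsAlgClosed L] [Algebra F L] [Algebra F' L] [IsScalarTower F F' L]
    (P : (GX.Xf f).pt L), Hnz h P → (Fb C Φ P).ncard = D

/-- The class of the divisor of the coordinates number `i` of the preimages of a point with `h ≠ 0` does not depend on the point. -/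
def Cst [Algebra F F'] (f : ι → MvPolynomial (Fin N) F) (C : Fin n → Crv F')
    (Φ : Fin N → MvPolynomial (Σ i, (C i).A) F') (h : MvPolynomial (Fin N) F) : Prop :=
  ∀ (L : Type) [Field L] [IsAlgClosed L] [Algebra F L] [Algebra F' L] [IsScalarTower F F' L]
    (P P' : (GX.Xf f).pt L), Hnz h P → Hnz h P' → ∀ i, Prc (Sb C Φ P i - Sb C Φ P' i)

/-- The curves `C i` have good reduction at all places of `E` above `v`. -/
def Gdv (C : Fin n → Crv F') (E : Type) [Field E] [NumberField E] [Algebra F E]
    [Algebra F' E] (v : HeightOneSpectrum (𝓞 F)) : Prop :=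
  ∀ w : HeightOneSpectrum (𝓞 E), w.asIdeal.comap (algebraMap (𝓞 F) (𝓞 E)) = v.asIdeal →
    ∀ i, Nonempty (Mod (C i) (w.valuation E).valuationSubring E)

end dom

section alb

variable {F : Type} [Field F] {N N' n k k' : ℕ} {ι ι' : Type} {f : ι → MvPolynomial (Fin N) F}
  {A : GX.Gv F N' k' ι'}

/-- The vectors `m i` compute the differences of points. -/
structure Gok (A : GX.Gv F N' k' ι') : Prop where
  hm : ∀ i, ∃ e, (A.a i).IsHomogeneous e
  o1 : A.o A.j₀ = 1
  oc : GX.Co (A.G.grp F).zero A.o
  ne : ∀ (E : Type) [Field E] [Algebra F E] (P Q : (GX.Xf A.a).pt E) (x x' : Fin N' → E),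
    GX.Co P x → GX.Co Q x' → ∃ i, A.mv i x x' ≠ 0
  sub : ∀ (E : Type) [Field E] [Algebra F E] (P Q R : (GX.Xf A.a).pt E) (x x' : Fin N' → E)
    (i : Fin k'), GX.Co P x → GX.Co Q x' → (A.G.grp E).add R Q = P → A.mv i x x' ≠ 0 →
      GX.Co R (A.mv i x x')

/-- The sum of `φ (z)` is `0`. -/
def Sg0 (M : GX.Mf f A k) {E : Type} [Field E] [Algebra F E] (z : (GX.Xf f).pt E →₀ ℤ) : Prop :=
  letI := A.G.grp E
  (z.sum fun P m => m • M.φ E P) = 0

/-- The pull-back by `Φ` of a cycle `z` of degree `0` on the part `h ≠ 0` of the variety `f = 0` has principal push-forwards to the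
curves `C i` if the sum of `φ (z)` in the group variety `A` is `0`. -/
def Pbk {F' : Type} [Field F'] [Algebra F F'] (C : Fin n → Crv F')
    (Φ : Fin N → MvPolynomial (Σ i, (C i).A) F') (h : MvPolynomial (Fin N) F)
    (M : GX.Mf f A k) : Prop :=
  ∀ (L : Type) [Field L] [IsAlgClosed L] [Algebra F L] [Algebra F' L] [IsScalarTower F F' L]
    (z : (GX.Xf f).pt L →₀ ℤ), (∀ P ∈ z.support, Hnz h P) → (z.sum fun _ m => m) = 0 →
      Sg0 M z → ∀ i, Prc (z.sum fun P m => m • Sb C Φ P i)

/-- The kernel of the sum over `K` is `l`-divisible. -/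
def Dvl (M : GX.Mf f A k) (K : Type) [Field K] [Algebra F K] (l : ℕ) : Prop :=
  ∀ z : Zc (GX.Xf f) K, Sg0 M z.cy → ∃ z' : Zc (GX.Xf f) K, Sg0 M z'.cy ∧ z.cl = l • z'.cl

variable [NumberField F]

/-- The sums are `0` at all places. -/
def Alx (M : GX.Mf f A k) (c : Fam (GX.Xf f)) : Prop :=
  (∀ v, Sg0 M (c.f v).cy) ∧ ∀ v, Sg0 M (c.i v).cy

/-- The sums of `z` are, at `P`, those of the image of an element of the completion of `F^1(X)`, at all finite places modulo `m` times the
sums of cycles of degree `0`. -/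
def Smx (M : GX.Mf f A k) (P : Set ℕ) (z : LHat (FA (GX.Xf f))) : Prop :=
  ∃ x : LHat (BE.Gp (GX.Xf f) F), ∀ m : ℕ+, Sf P m →
    ∃ (c : Zc (GX.Xf f) F) (c' d : Fam (GX.Xf f)), IsBcF c c' ∧ x.Rep m c.cl ∧ z.Rep m d.cl ∧
      ∀ v, ∃ u : Zc (GX.Xf f) (FK F v), Sg0 M ((c'.f v).cy - (d.f v).cy - (m : ℕ) • u.cy)

end alb

end DX
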