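import Pool.Agent.Lib.MP_f80667_ag.Dc.StaV

/-!
Curves whose classes are divisible over unramified extensions and norms from unramified extensions: the definitions for the statement.

* `Ovm act M z`: the cycle `z` is a cycle over `M`. `Nrm act M M' z`: the norm of the cycle `z` over `M'` to `M`.
* `Urm p M N`: the unramified extension of `M` generated by the roots of `X ^ (p ^ N) - X`.
* `Unx act Pr p l`: over all finite extensions `M` of `K` the cycles are, up to cycles `z` with `Pr z`, divisible by `l` over an
  unramified extension, and modulo `l` norms from all unramified extensions.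
* `Dva e z`: the cycle `z` is the divisor of a quotient of functions.
* `Unl C L p l`: over a finite extension of `L` of degree prime to `l` the curves `C i` have this property.
* `Gdm C E v l`: the place `v` is good for `l`.
-/

open ZC CV IsDedekindDomain NumberField

namespace DX

section gen

variable {K Ω T : Type} [Field K] [Field Ω] [Algebra K Ω] (act : (Ω ≃ₐ[K] Ω) → T → T)

/-- The cycle `z` is a cycle over `M`: it is invariant under the automorphisms of `Ω` over `M`. -/
def Ovm (M : IntermediateField K Ω) (z : T →₀ ℤ) : Prop :=
  ∀ γ ∈ M.fixingSubgroup, z.mapDomain (act γ) = z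

/-- The norm of the cycle `z` over `M'` to `M`: the sum over the automorphisms over `M` modulo those over `M'`. -/
noncomputable def Nrm (M M' : IntermediateField K Ω) (z : T →₀ ℤ) : T →₀ ℤ :=
  ∑ᶠ q : M.fixingSubgroup ⧸ M'.fixingSubgroup.subgroupOf M.fixingSubgroup, z.mapDomain (act q.out)

/-- The extension of `M` generated by the roots of `X ^ (p ^ N) - X`. For a local field `K` of residue characteristic `p` it is the
unramified extension of `M` generated by the roots of unity of order `p ^ N - 1`. -/
noncomputable def Urm (p : ℕ) (M : IntermediateField K Ω) (N : ℕ) : IntermediateField K Ω :=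
  M ⊔ IntermediateField.adjoin K {x | x ^ p ^ N = x}

/-- Let `K` be a local field of residue characteristic `p` and `Ω` an algebraic closure of `K`, `M` a finite extension of `K`.
`dv`: every cycle over `M` is, up to a cycle with the property `Pr`, `l` times a cycle over the unramified extensions of `M` of degree
divisible by a number `N`. `nm`: every cycle over `M` is, up to `l` times a cycle over `M` and a cycle with the property `Pr`, the norm
of a cycle over any given unramified extension of `M`. -/
structure Unx (Pr : (T →₀ ℤ) → Prop) (p l : ℕ) : Prop where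
  dv : ∀ M : IntermediateField K Ω, FiniteDimensional K M → ∀ z, Ovm act M z →
    ∃ N : ℕ, N ≠ 0 ∧ ∀ N' : ℕ, N' ≠ 0 → N ∣ N' → ∃ z', Ovm act (Urm p M N') z' ∧ Pr (z - l • z')
  nm : ∀ M : IntermediateField K Ω, FiniteDimensional K M → ∀ z, Ovm act M z → ∀ N : ℕ, N ≠ 0 →
    ∃ z' z'', Ovm act (Urm p M N) z' ∧ Ovm act M z'' ∧
      Pr (z - Nrm act M (Urm p M N) z' - l • z'')

end gen

/-- The cycle `z` is the divisor of a quotient `x / y`: its coefficient at `φ` is the difference of the orders of `x` and `y` at the
kernel of `e φ` (`Dvr` without the condition on the degree). -/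
def Dva {R L T : Type} [CommRing R] [CommRing L] (e : T → R →+* L) (z : T →₀ ℤ) : Prop :=
  ∃ x y : R, x ≠ 0 ∧ y ≠ 0 ∧ ∀ φ, ∃ a b : ℕ, Od (e φ) x a ∧ Od (e φ) y b ∧ z φ = a - b

variable {F F' : Type} [Field F] [Field F'] {n : ℕ}

/-- Over a finite extension `K` of `L` of degree prime to `l` which contains `F'` the curves `C i` have the property `Unx` for the
cycles on the affine curves modulo the divisors of quotients of functions on the affine curves (as the point at infinity is rational,
these are the classes of degree `0` on the curves). -/
def Unl [Algebra F F'] (C : Fin n → Crv F') (L : Type) [Field L] [Algebra F L] (p l : ℕ) : Prop :=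
  ∃ (K : IntermediateField L (AlgebraicClosure L)) (_ : Algebra F' K)
    (_ : Algebra F' (AlgebraicClosure L)) (_ : IsScalarTower F F' K)
    (_ : IsScalarTower F' K (AlgebraicClosure L)), FiniteDimensional L K ∧
      (Module.finrank L K).Coprime l ∧ ∀ i, Unx (K := K) (Ω := AlgebraicClosure L)
        (fun γ (φ : (C i).A →ₐ[F'] _) => (γ.toAlgHom.restrictScalars F').comp φ)
        (Dva fun φ => Ev φ) p l

/-- The place `v` is good for `l`: every curve `C i` has good reduction at the places of `E` above `v` or is a Fermat curve
of degree `4` or of odd prime degree, or the curves have the property `Unl` over `F_v`. -/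
def Gdm [NumberField F] [Algebra F F'] (C : Fin n → Crv F') (E : Type) [Field E] [NumberField E]
    [Algebra F E] [Algebra F' E] (v : HeightOneSpectrum (𝓞 F)) (l : ℕ) : Prop :=
  Gdf C E v ∨ ∀ p : ℕ, p.Prime → (p : 𝓞 F) ∈ v.asIdeal → Unl (F := F) C (FK F v) p l

end DX
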