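import Pool.Agent.Lib.MP_f80667_ag.Dc.StaVP
import Pool.Agent.Lib.MP_f80667_ag.Dc.StaL

/-! Varieties dominated by products of curves: the theorem for the places which are good for `l` in the sense of `StaL.lean`. -/

open ZC BE PE CV IsDedekindDomain NumberField TensorProduct

namespace DX

section cpl

variable {F' : Type} [Field F'] {C : Crv F'} {K Ω : Type} [Field K] [Field Ω] [Algebra K Ω]
  [Algebra F' K] [Algebra F' Ω] [IsScalarTower F' K Ω]

/-- The action on the points of the affine curve. -/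
def aca (C : Crv F') (γ : Ω ≃ₐ[K] Ω) (φ : C.A →ₐ[F'] Ω) : C.A →ₐ[F'] Ω :=
  (γ.toAlgHom.restrictScalars F').comp φ

theorem ups_aca (γ : Ω ≃ₐ[K] Ω) (φ : C.A →ₐ[F'] Ω) :
    (ups (aca C γ φ) : C.V.pt Ω) = C.V.act γ (ups φ) := rfl

theorem act_none (γ : Ω ≃ₐ[K] Ω) : C.V.act γ (none : Option (C.A →ₐ[F'] Ω)) = none := rfl

/-- The cycle of degree `0` on the complete curve. -/
noncomputable def cpl : ((C.A →ₐ[F'] Ω) →₀ ℤ) →+ (C.V.pt Ω →₀ ℤ) :=
  Finsupp.mapDomain.addMonoidHom ups -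
    (Finsupp.singleAddHom (none : Option (C.A →ₐ[F'] Ω))).comp
      (Finsupp.liftAddHom fun _ => AddMonoidHom.id ℤ)

theorem cpl_apply (z : (C.A →ₐ[F'] Ω) →₀ ℤ) : (cpl z : C.V.pt Ω →₀ ℤ) =
    Finsupp.mapDomain ups z - Finsupp.single (C.bp.o Ω) (z.sum fun _ m => m) := rfl

theorem cpl_aca (γ : Ω ≃ₐ[K] Ω) (z : (C.A →ₐ[F'] Ω) →₀ ℤ) :
    (cpl (z.mapDomain (aca C γ)) : C.V.pt Ω →₀ ℤ) = Finsupp.mapDomain (C.V.act γ) (cpl z) := by
  have h1 : (z.mapDomain (aca C γ)).sum (fun _ m => m) = z.sum fun _ m => m := by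
    rw [Finsupp.sum_mapDomain_index] <;> intros <;> rfl
  have h2 : Finsupp.mapDomain (C.V.act γ) (Finsupp.mapDomain ups z - Finsupp.single (C.bp.o Ω)
      (z.sum fun _ m => m)) = Finsupp.mapDomain (C.V.act γ) (Finsupp.mapDomain ups z) -
        Finsupp.mapDomain (C.V.act γ) (Finsupp.single (C.bp.o Ω) (z.sum fun _ m => m)) :=
    (Finsupp.mapDomain.addMonoidHom (M := ℤ) (C.V.act γ)).map_sub _ _
  rw [cpl_apply, cpl_apply, h1, h2, Finsupp.mapDomain_single, ← Finsupp.mapDomain_comp,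
    ← Finsupp.mapDomain_comp]
  rfl

omit [Field K] [Algebra K Ω] [Algebra F' K] [IsScalarTower F' K Ω] in
theorem deg_sgl (x : C.V.pt Ω) (k : ℤ) : C.V.deg Ω (Finsupp.single x k) = k := by
  change Finsupp.liftAddHom (fun _ => AddMonoidHom.id ℤ) (Finsupp.single x k) = k
  rw [Finsupp.liftAddHom_apply_single]
  rfl

theorem deg_cpl (z : (C.A →ₐ[F'] Ω) →₀ ℤ) : C.V.deg Ω (cpl z) = 0 := by
  rw [cpl_apply, map_sub, deg_ups, deg_sgl, sub_self]

theorem cpl_zd {M : IntermediateField K Ω} {z : (C.A →ₐ[F'] Ω) →₀ ℤ} (h : Ovm (aca C) M z) :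
    (cpl z : C.V.pt Ω →₀ ℤ) ∈ Zd C.V M :=
  ⟨fun γ hγ => by rw [← cpl_aca, h γ hγ], deg_cpl z⟩

theorem exists_cpl {M : IntermediateField K Ω} {Z : C.V.pt Ω →₀ ℤ} (h : Z ∈ Zd C.V M) :
    ∃ z : (C.A →ₐ[F'] Ω) →₀ ℤ, Ovm (aca C) M z ∧ cpl z = Z := by
  classical
  obtain ⟨h1, h2⟩ := h
  let z : (C.A →ₐ[F'] Ω) →₀ ℤ := Finsupp.comapDomain ups Z ups_inj.injOn
  have hz : ∀ φ, z φ = Z (ups φ) := fun φ => rfl
  have h3 : Z = Finsupp.mapDomain ups z + Finsupp.single (C.bp.o Ω) (Z (C.bp.o Ω)) := by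
    ext x
    rcases x with _ | φ
    · rw [Finsupp.add_apply, Finsupp.mapDomain_of_notMem_range _ _ (by
        rintro ⟨ψ, hψ⟩
        exact Option.some_ne_none ψ hψ), zero_add]
      exact (Finsupp.single_eq_same).symm
    · have e : (some φ : C.V.pt Ω) = ups φ := rfl
      rw [e, Finsupp.add_apply, Finsupp.mapDomain_apply ups_inj, hz,
        Finsupp.single_eq_of_ne (by exact Option.some_ne_none φ), add_zero]
  have h4 : (z.sum fun _ m => m) = -Z (C.bp.o Ω) := by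
    have h5 := h2
    rw [h3, map_add, deg_ups, deg_sgl] at h5
    omega
  have h5 : cpl z = Z := by
    rw [cpl_apply, h4, Finsupp.single_neg, sub_neg_eq_add, ← h3]
  refine ⟨z, fun γ hγ => ?_, h5⟩
  have h6 : (cpl (z.mapDomain (aca C γ)) : C.V.pt Ω →₀ ℤ) = cpl z := by
    rw [cpl_aca, h5, h1 γ hγ]
  ext φ
  have h7 := DFunLike.congr_fun h6 (ups φ)
  rw [cpl_apply, cpl_apply, Finsupp.sub_apply, Finsupp.sub_apply, Finsupp.mapDomain_apply ups_inj,
    Finsupp.mapDomain_apply ups_inj, Finsupp.single_eq_of_ne (by exact Option.some_ne_none φ),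
    Finsupp.single_eq_of_ne (by exact Option.some_ne_none φ), sub_zero, sub_zero] at h7
  exact h7

theorem cpl_pc [IsAlgClosed Ω] {z : (C.A →ₐ[F'] Ω) →₀ ℤ}
    (h : Dva (fun φ : C.A →ₐ[F'] Ω => Ev φ) z) : (cpl z : C.V.pt Ω →₀ ℤ) ∈ Pc C Ω := by
  obtain ⟨x, y, hx, hy, h1⟩ := h
  have hI : (Ideal.span {x} : Ideal (Ω ⊗[F'] C.A)) ≠ ⊥ := by
    rw [Ne, Ideal.span_singleton_eq_bot]
    exact hx
  have hJ : (Ideal.span {y} : Ideal (Ω ⊗[F'] C.A)) ≠ ⊥ := by
    rw [Ne, Ideal.span_singleton_eq_bot]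
    exact hy
  refine pc_of_rel hI hJ hy hx (mul_comm _ _) (deg_cpl z) (k := -(z.sum fun _ m => m)) ?_
  rw [cpl_apply, Finsupp.single_neg, sub_eq_add_neg]
  congr 1
  ext R
  rcases R with _ | φ
  · have h2 : (Finsupp.mapDomain ups z : C.V.pt Ω →₀ ℤ) none = 0 := by
      refine Finsupp.mapDomain_of_notMem_range _ _ ?_
      rintro ⟨ψ, hψ⟩
      exact Option.some_ne_none ψ hψ
    have h3 : (cy (Ideal.span {x}) - cy (Ideal.span {y}) : C.V.pt Ω →₀ ℤ) none = 0 := by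
      rw [Finsupp.sub_apply, (cy_efc _).2, (cy_efc _).2, sub_zero]
    exact h2.trans h3.symm
  · obtain ⟨a, b, ha, hb, e⟩ := h1 φ
    have h2 : (Finsupp.mapDomain ups z : C.V.pt Ω →₀ ℤ) (some φ) = z φ :=
      Finsupp.mapDomain_apply ups_inj z φ
    have h3 : (cy (Ideal.span {x}) - cy (Ideal.span {y}) : C.V.pt Ω →₀ ℤ) (some φ) = a - b := by
      rw [Finsupp.sub_apply, cy_of_od hx ha, cy_of_od hy hb]
    exact h2.trans (e.trans h3.symm)

theorem rtr_cpl [CharZero K] [IsAlgClosure K Ω] {M M' : IntermediateField K Ω} (h : M ≤ M')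
    [FiniteDimensional K M'] (z : (C.A →ₐ[F'] Ω) →₀ ℤ) :
    rtr C.V M M' (cpl z) = cpl (Nrm (aca C) M M' z) := by
  classical
  have hri : M'.fixingSubgroup.relIndex M.fixingSubgroup ≠ 0 := by
    intro h0
    have h1 := relIndex_fix h
    rw [h0, zero_mul] at h1
    exact (Module.finrank_pos (R := K) (M := M')).ne h1
  have hfi : (M'.fixingSubgroup.subgroupOf M.fixingSubgroup).FiniteIndex := ⟨hri⟩
  have hfin : Finite (M.fixingSubgroup ⧸ M'.fixingSubgroup.subgroupOf M.fixingSubgroup) :=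
    Subgroup.finite_quotient_of_finiteIndex
  let _ : Fintype (M.fixingSubgroup ⧸ M'.fixingSubgroup.subgroupOf M.fixingSubgroup) :=
    Fintype.ofFinite _
  rw [rtr, Nrm, finsum_eq_sum_of_fintype, finsum_eq_sum_of_fintype, AddMonoidHom.finsetSum_apply,
    map_sum]
  exact Finset.sum_congr rfl fun q _ => (cpl_aca _ z).symm

theorem urm_fin [Algebra.IsAlgebraic K Ω] {p : ℕ} (hp : p.Prime) (M : IntermediateField K Ω)
    [FiniteDimensional K M] {N : ℕ} (hN : N ≠ 0) : FiniteDimensional K (Urm p M N) := by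
  have h1 : {x : Ω | x ^ p ^ N = x}.Finite := by
    have h2 : (Polynomial.X ^ p ^ N - Polynomial.X : Polynomial Ω) ≠ 0 := by
      intro h3
      have h4 := congrArg Polynomial.natDegree h3
      rw [FiniteField.X_pow_card_pow_sub_X_natDegree_eq Ω hN hp.one_lt,
        Polynomial.natDegree_zero] at h4
      exact (pow_pos hp.pos N).ne' h4
    refine (Polynomial.rootSet_finite (Polynomial.X ^ p ^ N - Polynomial.X : Polynomial Ω)
      Ω).subset fun x hx => ?_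
    rw [Polynomial.mem_rootSet]
    refine ⟨h2, ?_⟩
    rw [map_sub, map_pow, Polynomial.aeval_X]
    exact sub_eq_zero.2 hx
  have h2 : FiniteDimensional K (IntermediateField.adjoin K {x : Ω | x ^ p ^ N = x}) := by
    have := h1.to_subtype
    exact IntermediateField.finiteDimensional_adjoin fun x _ =>
      (Algebra.IsAlgebraic.isAlgebraic x).isIntegral
  exact IntermediateField.finiteDimensional_sup _ _

/-- Cycles on the affine curves and cycles on the curves. -/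
theorem una_of_unx [CharZero K] [IsAlgClosure K Ω] [IsAlgClosed Ω] {p l : ℕ} (hp : p.Prime)
    (h : Unx (aca (K := K) (Ω := Ω) C) (Dva fun φ : C.A →ₐ[F'] Ω => Ev φ) p l) :
    Una K Ω C p l := by
  have hal : Algebra.IsAlgebraic K Ω := IsAlgClosure.isAlgebraic
  refine ⟨fun M hM Z hZ => ?_, fun M hM Z hZ N hN => ?_⟩
  · obtain ⟨z, h1, rfl⟩ := exists_cpl hZ
    obtain ⟨N, hN, h2⟩ := h.dv M hM z h1
    refine ⟨N, hN, fun N' hN' hd => ?_⟩
    obtain ⟨z', h3, h4⟩ := h2 N' hN' hd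
    refine ⟨cpl z', cpl_zd h3, ?_⟩
    have h5 := cpl_pc h4
    rwa [map_sub, map_nsmul] at h5
  · obtain ⟨z, h1, rfl⟩ := exists_cpl hZ
    obtain ⟨z', z'', h2, h3, h4⟩ := h.nm M hM z h1 N hN
    refine ⟨cpl z', cpl_zd h2, cpl z'', cpl_zd h3, ?_⟩
    have h5 := cpl_pc h4
    have hf : FiniteDimensional K (Urm p M N) := urm_fin hp M hN
    have hle : M ≤ Urm p M N := le_sup_left
    rw [map_sub, map_sub, map_nsmul, ← rtr_cpl hle] at h5
    exact h5

end cpl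

/-- The places which are good for `l`. -/
theorem unv_of_unl {F F' : Type} [Field F] [NumberField F] [Field F'] [Algebra F F'] {n : ℕ}
    {C : Fin n → Crv F'} {v : HeightOneSpectrum (𝓞 F)} {l : ℕ}
    (h : ∀ p : ℕ, p.Prime → (p : 𝓞 F) ∈ v.asIdeal → Unl (F := F) C (FK F v) p l) :
    Unv C v l := by
  intro p hp hv
  obtain ⟨K, i1, i2, i3, i4, h1, h2, h3⟩ := h p hp hv
  have hK : CharZero K := charZero_of_injective_algebraMap (algebraMap (FK F v) K).injective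
  have hA : Algebra.IsAlgebraic K (AlgebraicClosure (FK F v)) :=
    Algebra.IsAlgebraic.tower_top (K := FK F v) K
  have hC : IsAlgClosure K (AlgebraicClosure (FK F v)) := ⟨inferInstance, hA⟩
  exact ⟨K, i1, i2, i3, i4, h1, h2, fun i => una_of_unx hp (h3 i)⟩

/-- **The theorem.** -/
theorem main_m {F F' E : Type} [Field F] [NumberField F] [Field F'] [Field E] [NumberField E]
    [Algebra F F'] [Algebra F E] [Algebra F' E] [IsScalarTower F F' E] {N n d D : ℕ} {ι : Type}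
    {f : ι → MvPolynomial (Fin N) F} {C : Fin n → Crv F'}
    {Φ : Fin N → MvPolynomial (Σ i, (C i).A) F'} {h : MvPolynomial (Fin N) F} (hf : Nsp f d)
    (h0 : D ≠ 0) (hD : Dom f C Φ h D) :
    {v : HeightOneSpectrum (𝓞 F) | ¬ Gdv C E v}.Finite ∧ ∃ l₀ : ℕ,
      (∀ (v : HeightOneSpectrum (𝓞 F)) (l : ℕ), l.Prime → l₀ < l → Gdm C E v l →
        (Cst f C Φ h → Zdv (GX.Xf f) (FK F v) l) ∧
        ∀ (N' k k' : ℕ) (ι' : Type) (A : GX.Gv F N' k' ι') (M : GX.Mf f A k), Gok A → M.Ok →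
          Pbk C Φ h M → Dvl M (FK F v) l) ∧
      ∀ P : Set ℕ, (∀ l ∈ P, l.Prime ∧ l₀ < l) →
        (Cst f C Φ h →
          (∀ v : HeightOneSpectrum (𝓞 F), ∀ l ∈ P, ¬ Gdm C E v l → Zdv (GX.Xf f) (FK F v) l) →
          QPr (GX.Xf f) P) ∧
        ∀ (N' k k' : ℕ) (ι' : Type) (A : GX.Gv F N' k' ι') (M : GX.Mf f A k), Gok A → M.Ok →
          Pbk C Φ h M →
          (∀ v : HeightOneSpectrum (𝓞 F), ∀ l ∈ P, ¬ Gdm C E v l → Dvl M (FK F v) l) →
          (∀ m : ℕ, m ≠ 0 → Sf P m → ∀ c : Fam (GX.Xf f), Alx M c →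
            ∃ c' : Fam (GX.Xf f), Alx M c' ∧ c.cl = m • c'.cl) ∧
          ∀ z : LHat (FA (GX.Xf f)), ImDeS P z ↔ Smx M P z := by
  obtain ⟨h1, l₀, h2, h3, h4⟩ := main_u (E := E) hf h0 hD
  have h5 : ∀ (v : HeightOneSpectrum (𝓞 F)) (l : ℕ), l.Prime → l₀ < l → Gdm C E v l →
      Gdl C E v l := fun v l hl hlt hv => by
    rcases hv with hv | hv
    · refine h4 v l hl hlt fun i => ?_
      rcases hv i with h | ⟨e, he, hF⟩
      · exact Or.inl h
      · exact Or.inr ⟨e, he, fmt_of_frm hF⟩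
    · exact Or.inr (unv_of_unl hv)
  refine ⟨h1, l₀, fun v l hl hlt hv => h2 v l hl hlt (h5 v l hl hlt hv), fun P hP => ?_⟩
  obtain ⟨h6, h7⟩ := h3 P hP
  refine ⟨fun hC hv => h6 hC fun v l hl hn => hv v l hl fun hg =>
    hn (h5 v l (hP l hl).1 (hP l hl).2 hg), ?_⟩
  intro N' k k' ι' A M hA hM hPb hv
  exact h7 N' k k' ι' A M hA hM hPb fun v l hl hn => hv v l hl fun hg =>
    hn (h5 v l (hP l hl).1 (hP l hl).2 hg)

end DX
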