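import Pool.Agent.Lib.MP_f80667_ag.Dc.Sta
import Pool.Agent.Lib.MP_f80667_ag.Dc.Glo
import Pool.Agent.Lib.MP_f80667_ag.Cv.CyP

/-! Varieties dominated by products of curves: the theorem in the form of the statement. -/

open ZC BE PE CV NE IsDedekindDomain NumberField TensorProduct

namespace DX

section var

variable {F : Type} [Field F] {N d : ℕ} {ι : Type} {f : ι → MvPolynomial (Fin N) F}

theorem tgc_eq (f : ι → MvPolynomial (Fin N) F) (x : Fin N → F) : Tgc f x = GX.tgs f x := by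
  ext t
  rw [Tgc, Submodule.mem_iInf, GX.mem_tgs]
  refine forall_congr' fun i => ?_
  rw [LinearMap.mem_ker, LinearMap.sum_apply]
  rfl

theorem nsg_of (hf : Nsp f d) : GX.Nsg f d where
  hom := hf.hom
  prime := hf.prime
  dim := hf.dim
  nsg x hx := by
    rw [← tgc_eq]
    refine hf.nsg x hx.1 fun i => ?_
    have h := hx.2 i
    rw [MvPolynomial.eval_map] at h
    exact h

end var

section prc

variable {F' : Type} [Field F'] {C : Crv F'} {L : Type} [Field L] [Algebra F' L]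

theorem ker_ev (φ : C.A →ₐ[F'] L) : RingHom.ker (Ev φ) = mx φ := by
  have h : ∀ x : L ⊗[F'] C.A, Ev φ x =
      Algebra.TensorProduct.lift (AlgHom.id L L) φ (fun _ _ => Commute.all _ _) x := by
    intro x
    induction x with
    | zero => rw [map_zero, map_zero]
    | tmul c a =>
      rw [Algebra.TensorProduct.lift_tmul]
      exact Algebra.TensorProduct.productMap_apply_tmul _ _ _ _
    | add x y hx hy => rw [map_add, map_add, hx, hy]
  ext x
  rw [RingHom.mem_ker, h x]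
  rfl

variable [IsAlgClosed L]

theorem cy_of_od {φ : C.A →ₐ[F'] L} {x : L ⊗[F'] C.A} (hx : x ≠ 0) {a : ℕ}
    (h : Od (Ev φ) x a) : cy (Ideal.span {x}) (some φ) = (a : ℤ) := by
  obtain ⟨h1, h2⟩ := h
  rw [ker_ev] at h1 h2
  have hI : (Ideal.span {x} : Ideal (L ⊗[F'] C.A)) ≠ ⊥ := by
    rw [Ne, Ideal.span_singleton_eq_bot]
    exact hx
  rw [← Ideal.span_singleton_le_iff_mem, cy_pow hI φ] at h1 h2
  push_cast at h2
  omega

/-- The point of the complete curve. -/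
def ups (φ : C.A →ₐ[F'] L) : C.V.pt L := some φ

omit [IsAlgClosed L] in
theorem ups_inj : Function.Injective (ups : (C.A →ₐ[F'] L) → C.V.pt L) :=
  fun _ _ h => Option.some.inj h

omit [IsAlgClosed L] in
theorem deg_ups (z : (C.A →ₐ[F'] L) →₀ ℤ) :
    C.V.deg L (Finsupp.mapDomain ups z) = z.sum fun _ m => m := by
  change Finsupp.liftAddHom (fun _ => AddMonoidHom.id ℤ) (Finsupp.mapDomain ups z) = _
  rw [Finsupp.liftAddHom_apply, Finsupp.sum_mapDomain_index]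
  · rfl
  · intro b
    exact map_zero _
  · intro b m m'
    exact map_add _ m m'

theorem pc_of_prc {z : (C.A →ₐ[F'] L) →₀ ℤ} (h : Prc z) : Finsupp.mapDomain ups z ∈ Pc C L := by
  obtain ⟨h0, x, y, hx, hy, h1⟩ := h
  have hI : (Ideal.span {x} : Ideal (L ⊗[F'] C.A)) ≠ ⊥ := by
    rw [Ne, Ideal.span_singleton_eq_bot]
    exact hx
  have hJ : (Ideal.span {y} : Ideal (L ⊗[F'] C.A)) ≠ ⊥ := by
    rw [Ne, Ideal.span_singleton_eq_bot]
    exact hy
  refine pc_of_rel hI hJ hy hx (mul_comm _ _) ((deg_ups z).trans h0) (k := 0) ?_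
  rw [Finsupp.single_zero, add_zero]
  ext R
  rcases R with _ | φ
  · have h2 : (Finsupp.mapDomain ups z : C.V.pt L →₀ ℤ) none = 0 := by
      refine Finsupp.mapDomain_notin_range _ _ ?_
      rintro ⟨ψ, hψ⟩
      exact Option.some_ne_none ψ hψ
    have h3 : (cy (Ideal.span {x}) - cy (Ideal.span {y}) : C.V.pt L →₀ ℤ) none = 0 := by
      rw [Finsupp.sub_apply, (cy_efc _).2, (cy_efc _).2, sub_zero]
    exact h2.trans h3.symm
  · obtain ⟨a, b, ha, hb, e⟩ := h1 φ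
    have h2 : (Finsupp.mapDomain ups z : C.V.pt L →₀ ℤ) (some φ) = z φ :=
      Finsupp.mapDomain_apply ups_inj z φ
    have h3 : (cy (Ideal.span {x}) - cy (Ideal.span {y}) : C.V.pt L →₀ ℤ) (some φ) = a - b := by
      rw [Finsupp.sub_apply, cy_of_od hx ha, cy_of_od hy hb]
    exact h2.trans (e.trans h3.symm)

end prc

section dom

variable {F F' : Type} [Field F] [Field F'] [Algebra F F'] {N n : ℕ} {ι : Type}
  {f : ι → MvPolynomial (Fin N) F} {C : Fin n → Crv F'}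
  {Φ : Fin N → MvPolynomial (Σ i, (C i).A) F'} {h : MvPolynomial (Fin N) F} {D : ℕ} {L : Type}
  [Field L] [Algebra F L] [Algebra F' L]

/-- The point of the product of the complete curves. -/
def up (Q : ∀ i, (C i).A →ₐ[F'] L) : ∀ i, (C i).V.pt L := fun i => ups (Q i)

omit [Algebra F F'] [Algebra F L] in
theorem up_inj : Function.Injective (up : (∀ i, (C i).A →ₐ[F'] L) → ∀ i, (C i).V.pt L) :=
  fun _ _ h => funext fun i => ups_inj (congrFun h i)

omit [Algebra F F'] [Algebra F L] in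
theorem vl_up {R : ∀ i, (C i).V.pt L} {x : Fin N → L} :
    DC.Vl C Φ R x ↔ ∃ Q, R = up Q ∧ Vl C Φ Q x :=
  Iff.rfl

omit [Algebra F F'] in
theorem fb_up (P : (GX.Xf f).pt L) :
    {R | ∃ x, GX.Co P x ∧ DC.Vl C Φ R x} = up '' Fb C Φ P := by
  ext R
  constructor
  · rintro ⟨x, hx, hR⟩
    obtain ⟨Q, rfl, hQ⟩ := vl_up.1 hR
    exact ⟨Q, ⟨x, hx, hQ⟩, rfl⟩
  · rintro ⟨Q, ⟨x, hx, hQ⟩, rfl⟩
    exact ⟨x, hx, vl_up.2 ⟨Q, rfl, hQ⟩⟩

theorem fb_co [IsScalarTower F F' L] (hD : Dom f C Φ h D) {P : (GX.Xf f).pt L} {x : Fin N → L}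
    (hx : GX.Co P x) : DC.Fb C Φ x = up '' Fb C Φ P := by
  rw [← fb_up P]
  ext R
  constructor
  · rintro ⟨c, hc, hR⟩
    refine ⟨_, ?_, hR⟩
    obtain ⟨Q, rfl, hQ⟩ := vl_up.1 hR
    have h1 := hD.eq L Q _ hQ
    have h0 := hQ.1
    obtain ⟨T, rfl, rfl⟩ := hx
    exact ⟨⟨fun j => c * T.x j, h0, h1⟩, Quotient.sound ⟨c, hc, rfl⟩, rfl⟩
  · rintro ⟨x', h1, h2⟩
    obtain ⟨c, hc, h3⟩ := GX.co_rel hx h1
    refine ⟨c, hc, ?_⟩
    have h4 : x' = fun j => c * x j := funext h3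
    rwa [h4] at h2

theorem dom_of (hD : Dom f C Φ h D) : DC.Dom f C Φ h D where
  eq L _ _ _ _ R x hR := by
    obtain ⟨Q, rfl, hQ⟩ := vl_up.1 hR
    exact hD.eq L Q x hQ
  hom := hD.hom
  ne := hD.ne
  deg L _ _ _ _ _ x hx := by
    obtain ⟨h0, h1, h2⟩ := hx
    obtain ⟨P, hP⟩ := GX.co_mk h0 h1
    rw [fb_co hD hP, Set.ncard_image_of_injective _ up_inj]
    exact hD.deg L P ⟨x, hP, h2⟩

/-- The sum over the preimages. -/
theorem sum_up {P : (GX.Xf f).pt L} (hP : (Fb C Φ P).Finite) (i : Fin n) :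
    ∑ᶠ R ∈ up '' Fb C Φ P, Finsupp.single (R i) (1 : ℤ) = Finsupp.mapDomain ups (Sb C Φ P i) := by
  rw [finsum_mem_image up_inj.injOn]
  have h1 := (Finsupp.mapDomain.addMonoidHom (M := ℤ)
    (ups : ((C i).A →ₐ[F'] L) → (C i).V.pt L)).map_finsum_mem
    (fun Q : ∀ i, (C i).A →ₐ[F'] L => Finsupp.single (Q i) (1 : ℤ)) hP
  refine Eq.trans ?_ h1.symm
  refine finsum_mem_congr rfl fun Q _ => ?_
  exact (Finsupp.mapDomain_single).symm

theorem fin_fb [IsScalarTower F F' L] [IsAlgClosed L] (hD : Dom f C Φ h D) (h0 : D ≠ 0)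
    {P : (GX.Xf f).pt L} (hP : Hnz h P) : (Fb C Φ P).Finite := by
  refine Set.finite_of_ncard_ne_zero ?_
  rw [hD.deg L P hP]
  exact h0

theorem cst_of (hD : Dom f C Φ h D) (h0 : D ≠ 0) (hC : Cst f C Φ h) : DC.Cst f C Φ h := by
  intro L _ _ _ _ _ x x' hx hx' i
  obtain ⟨h1, h2, h3⟩ := hx
  obtain ⟨h1', h2', h3'⟩ := hx'
  obtain ⟨P, hP⟩ := GX.co_mk h1 h2
  obtain ⟨P', hP'⟩ := GX.co_mk h1' h2'
  have hn : Hnz h P := ⟨x, hP, h3⟩
  have hn' : Hnz h P' := ⟨x', hP', h3'⟩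
  rw [fb_co hD hP, fb_co hD hP', sum_up (fin_fb hD h0 hn), sum_up (fin_fb hD h0 hn')]
  have h4 := pc_of_prc (hC L P P' hn hn' i)
  have h5 := (Finsupp.mapDomain.addMonoidHom (M := ℤ)
    (ups : ((C i).A →ₐ[F'] L) → (C i).V.pt L)).map_sub (Sb C Φ P i) (Sb C Φ P' i)
  exact h5 ▸ h4

end dom

section alb

variable {F : Type} [Field F] {N N' n k k' : ℕ} {ι ι' : Type} {f : ι → MvPolynomial (Fin N) F}
  {A : GX.Gv F N' k' ι'} {M : GX.Mf f A k}

theorem gok_of (h : Gok A) : A.Ok where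
  hm := h.hm
  o1 := h.o1
  oc := h.oc
  ne := h.ne
  sub := h.sub

theorem sg0_iff {E : Type} [Field E] [Algebra F E] (z : (GX.Xf f).pt E →₀ ℤ) :
    Sg0 M z ↔ M.S E z = (A.G.grp E).zero := by
  let _ : AddCommGroup ((GX.Xf A.a).pt E) := A.G.grp E
  have h1 : M.S E z = z.sum fun P m => m • M.φ E P := by
    change Finsupp.liftAddHom (fun x => (zmultiplesHom ((GX.Xf A.a).pt E)) x)
      (Finsupp.mapDomain (M.φ E) z) = _
    rw [Finsupp.liftAddHom_apply, Finsupp.sum_mapDomain_index]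
    · rfl
    · intro b
      exact map_zero _
    · intro b m m'
      exact map_add _ m m'
  rw [h1]
  exact Iff.rfl

theorem plb_of {F' : Type} [Field F'] [Algebra F F'] {C : Fin n → Crv F'}
    {Φ : Fin N → MvPolynomial (Σ i, (C i).A) F'} {h : MvPolynomial (Fin N) F} {D : ℕ}
    (hD : Dom f C Φ h D) (h0 : D ≠ 0) (hP : Pbk C Φ h M) : DC.Plb C Φ h M := by
  intro L _ _ _ _ _ z h1 h2 h3 i
  have h4 := pc_of_prc (hP L z h1 h2 ((sg0_iff z).2 h3) i)
  have h5 : (z.sum fun P m => m • ∑ᶠ Q ∈ {Q | ∃ x, GX.Co P x ∧ DC.Vl C Φ Q x},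
      Finsupp.single (Q i) (1 : ℤ)) =
      Finsupp.mapDomain ups (z.sum fun P m => m • Sb C Φ P i) := by
    have h6 := map_finsuppSum (Finsupp.mapDomain.addMonoidHom (M := ℤ)
      (ups : ((C i).A →ₐ[F'] L) → (C i).V.pt L)) z fun P m => m • Sb C Φ P i
    refine Eq.trans ?_ h6.symm
    refine Finsupp.sum_congr fun P hP' => ?_
    rw [fb_up P, sum_up (fin_fb hD h0 (h1 P hP'))]
    exact ((Finsupp.mapDomain.addMonoidHom (M := ℤ)
      (ups : ((C i).A →ₐ[F'] L) → (C i).V.pt L)).map_zsmul _ _).symm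
  rw [h5]
  exact h4

theorem dvl_iff {K : Type} [Field K] [Algebra F K] {l : ℕ} : Dvl M K l ↔ GX.DvS M K l := by
  have h : ∀ z : Zc (GX.Xf f) K, Sg0 M z.cy ↔ GX.Sz M z := fun z => sg0_iff z.cy
  refine forall_congr' fun z => ?_
  rw [h z]
  refine imp_congr Iff.rfl (exists_congr fun z' => ?_)
  rw [h z']

variable [NumberField F]

theorem alx_iff {c : Fam (GX.Xf f)} : Alx M c ↔ GX.AlbX M c :=
  and_congr (forall_congr' fun v => sg0_iff (c.f v).cy) (forall_congr' fun v => sg0_iff (c.i v).cy)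

theorem smx_iff {P : Set ℕ} {z : LHat (FA (GX.Xf f))} : Smx M P z ↔ GX.SumX M P z := by
  refine exists_congr fun x => forall_congr' fun m => imp_congr Iff.rfl ?_
  refine exists_congr fun c => exists_congr fun c' => exists_congr fun d => ?_
  refine and_congr Iff.rfl (and_congr Iff.rfl (and_congr Iff.rfl (forall_congr' fun v => ?_)))
  exact exists_congr fun u => sg0_iff _

end alb

/-- **The theorem.** -/
theorem main {F F' E : Type} [Field F] [NumberField F] [Field F'] [Field E] [NumberField E]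
    [Algebra F F'] [Algebra F E] [Algebra F' E] [IsScalarTower F F' E] {N n d D : ℕ} {ι : Type}
    {f : ι → MvPolynomial (Fin N) F} {C : Fin n → Crv F'}
    {Φ : Fin N → MvPolynomial (Σ i, (C i).A) F'} {h : MvPolynomial (Fin N) F} (hf : Nsp f d)
    (h0 : D ≠ 0) (hD : Dom f C Φ h D) :
    {v : HeightOneSpectrum (𝓞 F) | ¬ Gdv C E v}.Finite ∧ ∃ l₀ : ℕ,
      (∀ v : HeightOneSpectrum (𝓞 F), Gdv C E v → ∀ l : ℕ, l.Prime → l₀ < l →
        (Cst f C Φ h → Zdv (GX.Xf f) (FK F v) l) ∧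
        ∀ (N' k k' : ℕ) (ι' : Type) (A : GX.Gv F N' k' ι') (M : GX.Mf f A k), Gok A → M.Ok →
          Pbk C Φ h M → Dvl M (FK F v) l) ∧
      ∀ P : Set ℕ, (∀ l ∈ P, l.Prime ∧ l₀ < l) →
        (Cst f C Φ h →
          (∀ v : HeightOneSpectrum (𝓞 F), ¬ Gdv C E v → ∀ l ∈ P, Zdv (GX.Xf f) (FK F v) l) →
          QPr (GX.Xf f) P) ∧
        ∀ (N' k k' : ℕ) (ι' : Type) (A : GX.Gv F N' k' ι') (M : GX.Mf f A k), Gok A → M.Ok →
          Pbk C Φ h M →
          (∀ v : HeightOneSpectrum (𝓞 F), ¬ Gdv C E v → ∀ l ∈ P, Dvl M (FK F v) l) →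
          (∀ m : ℕ, m ≠ 0 → Sf P m → ∀ c : Fam (GX.Xf f), Alx M c →
            ∃ c' : Fam (GX.Xf f), Alx M c' ∧ c.cl = m • c'.cl) ∧
          ∀ z : LHat (FA (GX.Xf f)), ImDeS P z ↔ Smx M P z := by
  obtain ⟨h1, l₀, h2, h3⟩ := DC.main_C (nsg_of hf) (dom_of hD) h0 E
  refine ⟨h1, l₀, fun v hv l hl hlt => ⟨fun hC => (h2 v hv l hl hlt).1 (cst_of hD h0 hC),
    fun N' k k' ι' A M hA hM hP =>
      dvl_iff.2 ((h2 v hv l hl hlt).2 N' k k' ι' A M (gok_of hA) hM (plb_of hD h0 hP))⟩,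
    fun P hPr => ⟨fun hC => (h3 P hPr).1 (cst_of hD h0 hC), fun N' k k' ι' A M hA hM hP hb => ?_⟩⟩
  obtain ⟨h4, h5⟩ := (h3 P hPr).2 N' k k' ι' A M (gok_of hA) hM (plb_of hD h0 hP)
    fun v hv l hl => dvl_iff.1 (hb v hv l hl)
  refine ⟨fun m hm hS c hc => ?_, fun z => (h5 z).trans smx_iff.symm⟩
  obtain ⟨c', h6, h7⟩ := h4 m hm hS c (alx_iff.1 hc)
  exact ⟨c', alx_iff.2 h6, h7⟩

end DX
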