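import Pool.Agent.Lib.MP_f80667_ag.Dc.Sta
import Pool.Agent.Lib.MP_f80667_ag.Cv.Lc

/-!
Curves whose classes are divisible over unramified extensions and norms from unramified extensions: the definitions for the statement.

* `Urx p M N`: the unramified extension of `M` generated by the roots of `X ^ (p ^ N) - X`.
* `Una C K Ω p l`: over all finite extensions `M` of `K` in the algebraic closure `Ω` the classes of degree `0` on the curve `C` are
  divisible by `l` over an unramified extension, and modulo `l` norms from all unramified extensions.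
* `Unv C v l`: over a finite extension of `F_v` of degree prime to `l` the curves `C i` have this property.
* `Gdl C E v l`: the curves have good reduction at the places of `E` above `v`, or `Unv C v l`.
* `Fmt C d`: `C` is the Fermat curve of degree `d`.
-/

open ZC BE PE CV IsDedekindDomain NumberField

namespace DX

section loc

variable {F' : Type} [Field F'] {K Ω : Type} [Field K] [Field Ω] [Algebra K Ω]

/-- The extension of `M` generated by the roots of `X ^ (p ^ N) - X`. For a local field `K` of residue characteristic `p` it is the
unramified extension of `M` generated by the roots of unity of order `p ^ N - 1`. -/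
noncomputable def Urx (p : ℕ) (M : IntermediateField K Ω) (N : ℕ) : IntermediateField K Ω :=
  M ⊔ IntermediateField.adjoin K {x | x ^ p ^ N = x}

variable [Algebra F' K] [Algebra F' Ω] [IsScalarTower F' K Ω]

variable (K Ω) in
/-- Let `K` be a local field of residue characteristic `p` and `Ω` an algebraic closure of `K`, `M` a finite extension of `K`.
`dv`: every cycle of degree `0` on `C` over `M` is, up to a principal cycle, `l` times a cycle of degree `0` over the unramified
extensions of `M` of degree divisible by a number `N`. `nm`: every cycle of degree `0` on `C` over `M` is, up to `l` times a cycle of degree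
`0` over `M` and a principal cycle, the norm of a cycle of degree `0` over any given unramified extension of `M`. -/
structure Una (C : Crv F') (p l : ℕ) : Prop where
  dv : ∀ M : IntermediateField K Ω, FiniteDimensional K M → ∀ z ∈ Zd C.V M,
    ∃ N : ℕ, N ≠ 0 ∧ ∀ N' : ℕ, N' ≠ 0 → N ∣ N' →
      ∃ z' ∈ Zd C.V (Urx p M N'), z - l • z' ∈ Pc C Ω
  nm : ∀ M : IntermediateField K Ω, FiniteDimensional K M → ∀ z ∈ Zd C.V M, ∀ N : ℕ, N ≠ 0 →
    ∃ z' ∈ Zd C.V (Urx p M N), ∃ z'' ∈ Zd C.V M,
      z - rtr C.V M (Urx p M N) z' - l • z'' ∈ Pc C Ω

end loc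

section glo

variable {F F' : Type} [Field F] [NumberField F] [Field F'] [Algebra F F'] {n : ℕ}

/-- Over a finite extension `K` of `F_v` of degree prime to `l` which contains `F'` the curves `C i` have the property `Una`. -/
def Unv (C : Fin n → Crv F') (v : HeightOneSpectrum (𝓞 F)) (l : ℕ) : Prop :=
  ∀ p : ℕ, p.Prime → (p : 𝓞 F) ∈ v.asIdeal →
    ∃ (K : IntermediateField (FK F v) (AlgebraicClosure (FK F v))) (_ : Algebra F' K)
      (_ : Algebra F' (AlgebraicClosure (FK F v))) (_ : IsScalarTower F F' K)
      (_ : IsScalarTower F' K (AlgebraicClosure (FK F v))), FiniteDimensional (FK F v) K ∧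
        (Module.finrank (FK F v) K).Coprime l ∧
          ∀ i, Una K (AlgebraicClosure (FK F v)) (C i) p l

/-- The curves have good reduction at the places of `E` above `v`, or `Unv C v l`. -/
def Gdl (C : Fin n → Crv F') (E : Type) [Field E] [NumberField E] [Algebra F E] [Algebra F' E]
    (v : HeightOneSpectrum (𝓞 F)) (l : ℕ) : Prop :=
  Gdv C E v ∨ Unv C v l

/-- `C` is the Fermat curve `s ^ d = x ^ d + y ^ d` with the point `x = 1`, `y = ε`, `s = 0` at infinity, `ε ^ d = -1`: in the coordinates
`y - ε x = 1` its affine ring is generated by `x` and `s` with the relation `s ^ d = x ^ d + (1 + ε x) ^ d`, and `x` has the order `d` at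
infinity. -/
def Fmt (C : Crv F') (d : ℕ) : Prop :=
  ∃ (ε : F') (x s : C.A), ε ^ d = -1 ∧ s ^ d = x ^ d + (1 + algebraMap F' C.A ε * x) ^ d ∧
    Algebra.adjoin F' {x, s} = ⊤ ∧ C.G.d x = d ∧
    ∀ (B : Type) [CommRing B] [Algebra F' B] (y t : B),
      t ^ d = y ^ d + (1 + algebraMap F' B ε * y) ^ d → ∃ φ : C.A →ₐ[F'] B, φ x = y ∧ φ s = t

end glo

end DX
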