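import Pool.Agent.Lib.MP_f80667_ag.Dc.UBc
import Pool.Agent.Lib.MP_f80667_ag.Dk.Ld
import Pool.Agent.Lib.MP_f80667_ag.Dh.L4

/-!
Fermat curves: divisibility and norms over unramified extensions at all places.

* `una_of`: `DvL` and `NmL` give `Una`. `exists_rqN`, `exists_r4N`: the numbers of the models over an extension of a given field.
* `una_p`, `una_4`, `una_g`: degree `p` over `p`, degree `4` over `2`, the other places. `una_fer`: the result.
-/

open ZC BE PE CV QS Polynomial TensorProduct IntermediateField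

namespace DC

section una

variable {F' : Type} [Field F'] {K Ω : Type} [Field K] [Field Ω] [Algebra K Ω] [Algebra F' K]
  [Algebra F' Ω] [IsScalarTower F' K Ω]

theorem una_of {L : Ld K Ω} {C : Crv F'} {p l : ℕ} (hp : L.p = p) (h : DH.DvL L C l)
    (h' : DH.NmL L C l) : DX.Una K Ω C p l := by
  subst hp
  exact ⟨h, h'⟩

end una

/-- The numbers in a larger field. -/
theorem rq_map {M M' : Type} [Field M] [Field M'] {p : ℕ} (R : DK.Rq M p) (σ : M →+* M') :
    Nonempty (DK.Rq M' p) := by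
  refine ⟨{ l := σ R.l, π := σ R.π, s := fun i => σ (R.s i), t := fun i => σ (R.t i)
            hl := ?_, hπ := ?_, hs := fun i => ?_, ht := fun i => ?_ }⟩
  · rw [← map_pow, R.hl, map_natCast]
  · rw [← map_pow, R.hπ, map_pow]
  · have h := congrArg σ (R.hs i)
    simpa only [map_mul, map_add, map_natCast, map_ofNat, map_pow, map_neg, map_one] using h
  · rw [← map_pow, R.ht i, map_add, map_one, map_pow]

/-- The numbers in a larger field. -/
theorem r4_map {M M' : Type} [Field M] [Field M'] (R : DH.R4 M) (σ : M →+* M') :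
    Nonempty (DH.R4 M') := by
  refine ⟨{ b := σ R.b, s := σ R.s, t := σ R.t, α := σ R.α, hs := ?_, hst := ?_, ht := ?_, hα := ?_ }⟩
  · have h := congrArg σ R.hs
    simpa only [map_mul, map_pow, map_ofNat] using h
  · have h := congrArg σ R.hst
    simpa only [map_mul, map_sub, map_one, map_pow, map_ofNat] using h
  · have h := congrArg σ R.ht
    simpa only [map_sub, map_pow] using h
  · have h := congrArg σ R.hα
    simpa only [map_pow, map_ofNat] using h

section num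

variable {K Ω : Type} [Field K] [CharZero K] [Field Ω] [Algebra K Ω] [IsAlgClosure K Ω]

/-- The numbers over an extension of `N`. Compare `exists_rq` in `Dk/Ld.lean`. -/
theorem exists_rqN {p : ℕ} (hp : p.Prime) (h2 : p ≠ 2) (N : IntermediateField K Ω)
    (hN : FiniteDimensional K N) :
    ∃ N' : IntermediateField K Ω, N ≤ N' ∧ FiniteDimensional K N' ∧ Nonempty (DK.Rq N' p) ∧
      ∃ k : ℕ, Module.finrank K N' = Module.finrank K N * k ∧ DH.Pf (2 * p * (p - 1)) k := by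
  have hc : IsAlgClosed Ω := IsAlgClosure.isAlgClosed K
  have hz : CharZero Ω := charZero_of_injective_algebraMap (algebraMap K Ω).injective
  have h3 : 2 < p := lt_of_le_of_ne hp.two_le (Ne.symm h2)
  have hnat : ∀ (N : IntermediateField K Ω) (k : ℕ), (k : Ω) ∈ N := fun N k =>
    IntermediateField.natCast_mem N k
  obtain ⟨N₁, l, h₁, hf₁, hl, hl2, k₁, hk₁, hp₁⟩ :=
    DH.exists_root N (d := p - 1) (by omega) (S := ((p : ℕ) : Ω)) (hnat _ p)
  obtain ⟨N₂, π, h₂, hf₂, hπ, hπ2, k₂, hk₂, hp₂⟩ :=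
    DH.exists_root N₁ (d := 2) two_pos (S := l ^ p) (pow_mem hl p)
  obtain ⟨N₃, s, h₃, hf₃, hs, k₃, hk₃, hp₃⟩ :=
    DH.exists_roots N₂ (Finset.univ : Finset (Fin (p - 2))) (fun _ => p) (fun _ _ => hp.pos)
      (fun i => -(((i : ℕ) + 1 : ℕ) : Ω) / (((i : ℕ) + 2 : ℕ) : Ω))
      (fun i _ => div_mem (neg_mem (hnat _ _)) (hnat _ _)) (D := p) (fun _ _ => dvd_rfl)
  obtain ⟨N₄, t, h₄, hf₄, ht, k₄, hk₄, hp₄⟩ :=
    DH.exists_roots N₃ (Finset.univ : Finset (Fin (p - 2))) (fun _ => p) (fun _ _ => hp.pos)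
      (fun i => 1 + s i ^ p)
      (fun i hi => add_mem (one_mem _) (pow_mem (hs i hi).1 p)) (D := p) (fun _ _ => dvd_rfl)
  have hlN : l ∈ N₄ := h₄ (h₃ (h₂ hl))
  have hπN : π ∈ N₄ := h₄ (h₃ hπ)
  have hsN : ∀ i, s i ∈ N₄ := fun i => h₄ (hs i (Finset.mem_univ i)).1
  have htN : ∀ i, t i ∈ N₄ := fun i => (ht i (Finset.mem_univ i)).1
  have hss : ∀ i : Fin (p - 2), (((i : ℕ) : Ω) + 2) * s i ^ p = -(((i : ℕ) : Ω) + 1) := by
    intro i
    have h6 : s i ^ p = -(((i : ℕ) + 1 : ℕ) : Ω) / (((i : ℕ) + 2 : ℕ) : Ω) :=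
      (hs i (Finset.mem_univ i)).2
    have h7 : (((i : ℕ) + 2 : ℕ) : Ω) ≠ 0 := Nat.cast_ne_zero.2 (by omega)
    rw [h6]
    push_cast at h7 ⊢
    rw [mul_div_cancel₀ _ h7]
  refine ⟨N₄, h₁.trans (h₂.trans (h₃.trans h₄)), hf₄, ⟨?_⟩, k₁ * k₂ * k₃ * k₄, ?_, ?_⟩
  · exact
      { l := ⟨l, hlN⟩
        π := ⟨π, hπN⟩
        s := fun i => ⟨s i, hsN i⟩
        t := fun i => ⟨t i, htN i⟩
        hl := by
          apply Subtype.ext
          push_cast
          exact hl2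
        hπ := Subtype.ext hπ2
        hs := fun i => by
          apply Subtype.ext
          push_cast
          exact hss i
        ht := fun i => Subtype.ext (ht i (Finset.mem_univ i)).2 }
  · rw [hk₄, hk₃, hk₂, hk₁]
    ring
  · have d1 : p - 1 ∣ 2 * p * (p - 1) := Dvd.intro_left _ rfl
    have d2 : 2 ∣ 2 * p * (p - 1) := by
      rw [mul_assoc]
      exact Dvd.intro _ rfl
    have d3 : p ∣ 2 * p * (p - 1) := by
      rw [mul_comm 2 p, mul_assoc]
      exact Dvd.intro _ rfl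
    exact (((hp₁.mono d1).mul (hp₂.mono d2)).mul (hp₃.mono d3)).mul (hp₄.mono d3)

/-- The numbers over an extension of `N`. Compare `exists_r4` in `Dh/L4.lean`. -/
theorem exists_r4N (N : IntermediateField K Ω) (hN : FiniteDimensional K N) :
    ∃ N' : IntermediateField K Ω, N ≤ N' ∧ FiniteDimensional K N' ∧ Nonempty (DH.R4 N') ∧
      ∃ k : ℕ, Module.finrank K N' = Module.finrank K N * k ∧ DH.Pf 2 k := by
  have hc : IsAlgClosed Ω := IsAlgClosure.isAlgClosed K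
  have hz : CharZero Ω := charZero_of_injective_algebraMap (algebraMap K Ω).injective
  have hnat : ∀ (N : IntermediateField K Ω) (k : ℕ), (k : Ω) ∈ N := fun N k =>
    IntermediateField.natCast_mem N k
  obtain ⟨N₁, r, h₁, hf₁, hr, hr2, k₁, hk₁, hp₁⟩ :=
    DH.exists_root N (d := 2) two_pos (S := ((3 : ℕ) : Ω)) (hnat _ 3)
  obtain ⟨N₂, b, h₂, hf₂, hb, hb2, k₂, hk₂, hp₂⟩ :=
    DH.exists_root N₁ (d := 2) two_pos (S := 1 + ((2 : ℕ) : Ω) / r)
      (add_mem (one_mem _) (div_mem (hnat _ 2) hr))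
  obtain ⟨N₃, s, h₃, hf₃, hs, hs2, k₃, hk₃, hp₃⟩ :=
    DH.exists_root N₂ (d := 2) two_pos (S := ((3 : ℕ) : Ω) * b) (mul_mem (hnat _ 3) hb)
  obtain ⟨N₄, α, h₄, hf₄, hα, hα2, k₄, hk₄, hp₄⟩ :=
    DH.exists_root N₃ (d := 2) two_pos (S := ((2 : ℕ) : Ω)) (hnat _ 2)
  have hbN : b ∈ N₄ := h₄ (h₃ hb)
  have hsN : s ∈ N₄ := h₄ hs
  rw [Nat.cast_ofNat] at hr2 hb2 hs2 hα2
  have hr0 : r ≠ 0 := by
    rintro rfl
    norm_num at hr2
  have hbq : 3 * (b ^ 2 - 1) ^ 2 = 4 := by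
    have h1 : b ^ 2 - 1 = 2 / r := by rw [hb2]; ring
    rw [h1, div_pow, hr2]
    norm_num
  have hb0 : b ≠ 0 := by
    rintro rfl
    norm_num at hbq
  have hs0 : s ≠ 0 := by
    rintro rfl
    rw [zero_pow two_ne_zero] at hs2
    exact hb0 ((mul_eq_zero.1 hs2.symm).resolve_left three_ne_zero)
  have h2s : 2 * s ≠ 0 := mul_ne_zero two_ne_zero hs0
  obtain ⟨t, ht⟩ : ∃ t : Ω, t = (3 * b ^ 2 - 1) / (2 * s) := ⟨_, rfl⟩
  have htN : t ∈ N₄ := by
    rw [ht]
    have h2 : (2 : Ω) ∈ N₄ := by exact_mod_cast hnat N₄ 2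
    have h3 : (3 : Ω) ∈ N₄ := by exact_mod_cast hnat N₄ 3
    exact div_mem (sub_mem (mul_mem h3 (pow_mem hbN 2)) (one_mem _)) (mul_mem h2 hsN)
  have hst : 2 * (s * t) = 3 * b ^ 2 - 1 := by
    rw [ht, ← mul_assoc, mul_div_cancel₀ _ h2s]
  have htt : t ^ 2 = b ^ 3 - b := by
    have h1 : (2 * (s * t)) ^ 2 = (3 * b ^ 2 - 1) ^ 2 := by rw [hst]
    have h2 : 12 * b * t ^ 2 = 12 * b * (b ^ 3 - b) := by
      linear_combination h1 - 4 * t ^ 2 * hs2 - hbq
    exact mul_left_cancel₀ (mul_ne_zero (by norm_num) hb0) h2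
  refine ⟨N₄, h₁.trans (h₂.trans (h₃.trans h₄)), hf₄, ⟨?_⟩, k₁ * k₂ * k₃ * k₄, ?_, ?_⟩
  · exact
      { b := ⟨b, hbN⟩
        s := ⟨s, hsN⟩
        t := ⟨t, htN⟩
        α := ⟨α, hα⟩
        hs := Subtype.ext hs2
        hst := Subtype.ext hst
        ht := Subtype.ext htt
        hα := Subtype.ext hα2 }
  · rw [hk₄, hk₃, hk₂, hk₁]
    ring
  · exact ((hp₁.mul hp₂).mul hp₃).mul hp₄

end num

section cases

variable {M : Type} [Field M] [CharZero M] {Ω : Type} [Field Ω] [Algebra M Ω] [IsAlgClosure M Ω]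
  (L : Ld M Ω) {D : Crv M} {ε : M}

/-- Odd prime degree, `v` over the degree. -/
theorem una_p {p : ℕ} (c : Cu D p (DH.Af p ε)) (hp : p.Prime) (h2 : p ≠ 2) (hε : ε ^ p = -1)
    (hL : L.p = p) (R : DK.Rq M p) {l : ℕ} (hl : l.Prime) (hlp : l ≠ p) :
    DX.Una M Ω D L.p l := by
  obtain ⟨hd, hn⟩ := DK.dvnmp c hp L h2 hε (fun i => DK.mod_ci hp L hL R i) hl hlp
    (by rw [hL]; exact hlp)
  exact una_of rfl hd hn

/-- A number of absolute value less than `1` is in the maximal ideal. -/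
private theorem uf_two (hp : L.p = 2) : (2 : Ok L) ∈ IsLocalRing.maximalIdeal (Ok L) := by
  rw [IsLocalRing.mem_maximalIdeal, mem_nonunits_iff]
  intro hu
  obtain ⟨y, hy⟩ := hu.exists_right_inv
  have h1 : (2 : Ω) * algebraMap M Ω (y : M) = 1 := by
    have h2 := congrArg (fun z : Ok L => algebraMap M Ω (z : M)) hy
    have h3 : algebraMap M Ω (((2 : Ok L) * y : Ok L) : M) = 2 * algebraMap M Ω (y : M) := by
      rw [← map_ofNat (algebraMap M Ω) 2, ← map_mul]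
      rfl
    have h4 : algebraMap M Ω ((1 : Ok L) : M) = 1 := map_one (algebraMap M Ω)
    exact h3.symm.trans (h2.trans h4)
  have h5 : L.nm (algebraMap M Ω (y : M)) ≤ 1 := y.2
  have h6 : L.nm (2 : Ω) < 1 := by
    have := L.lt
    rw [hp] at this
    exact_mod_cast this
  have h7 := congrArg L.nm h1
  rw [L.mul, L.one] at h7
  have h8 : 0 ≤ L.nm (2 : Ω) := L.nonneg _
  have h9 : 0 ≤ L.nm (algebraMap M Ω (y : M)) := L.nonneg _
  nlinarith

/-- Degree `4`, `v` over `2`. -/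
theorem una_4 (c : Cu D 4 (DH.Af 4 ε)) (hε : ε ^ 4 = -1) (hL : L.p = 2) (R : DH.R4 M) {l : ℕ}
    (hl : l.Prime) (h2 : l ≠ 2) : DX.Una M Ω D L.p l := by
  obtain ⟨E, ⟨e⟩⟩ := DH.exists_e4 M
  obtain ⟨m⟩ : Nonempty (Mod E (Ok L) M) := DH.e4_mod e R (uf_two L hL)
  obtain ⟨hd, hn⟩ := DH.dvnm4 c e L hε m hl h2 (by rw [hL]; exact h2)
  exact una_of rfl hd hn

/-- The degree is prime to the residue characteristic. -/
theorem una_g {d : ℕ} (c : Cu D d (DH.Af d ε)) (hd : 2 ≤ d) (hε : ε ^ d = -1)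
    (hp : ¬ L.p ∣ d) {l : ℕ} (hl : l.Prime) (h : l ≠ L.p) : DX.Una M Ω D L.p l := by
  have hd0 : d ≠ 0 := by omega
  have h1 : L.nm (algebraMap M Ω ε) = 1 := by
    have h3 : L.nm (algebraMap M Ω ε) ^ d = 1 := by
      rw [← L.pow, ← map_pow, hε, map_neg, map_one, L.neg, L.one]
    exact (pow_eq_one_iff_of_nonneg (L.nonneg _) hd0).1 h3
  have hu : IsUnit (d : Ok L) := by
    have h11 : L.nm (d : Ω) = 1 := L.nat_unit hp
    have h10 : (d : Ω) ≠ 0 := L.ne_zero (by rw [h11]; exact one_pos)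
    have h12 : (d : M) ≠ 0 := fun e => h10 (by rw [← map_natCast (algebraMap M Ω), e, map_zero])
    have h13 : (d : M)⁻¹ ∈ Ok L := by
      change L.nm (algebraMap M Ω (d : M)⁻¹) ≤ 1
      rw [map_inv₀, map_natCast, L.inv, h11, inv_one]
    exact IsUnit.of_mul_eq_one (⟨(d : M)⁻¹, h13⟩ : Ok L) (Subtype.ext (mul_inv_cancel₀ h12))
  have he : ε ∈ Ok L := by
    change L.nm (algebraMap M Ω ε) ≤ 1
    rw [h1]
  obtain ⟨m⟩ := DH.fer_mod (O := Ok L) c hd hu (e := ⟨ε, he⟩) (Subtype.ext hε) rfl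
  exact una_of rfl (DH.dvL_of m hl h) (DH.nmL_of m hl h)

end cases

/-- From the curve `D` over `K'` with the same equation to `C`. -/
private theorem una_tr {K Ω : Type} [Field K] [CharZero K] [Field Ω] [Algebra K Ω]
    [IsAlgClosure K Ω] (L : Ld K Ω) {F' : Type} [Field F'] [Algebra F' Ω] {C : Crv F'} {d : ℕ}
    (hC : DX.Fmt C d) (hd : 2 ≤ d) (K' : IntermediateField K Ω) (hK : FiniteDimensional K K')
    [Algebra F' K'] [IsScalarTower F' K' Ω] {l : ℕ}
    (H : ∀ (_ : CharZero K') (_ : IsAlgClosure K' Ω) (L' : Ld K' Ω) (D : Crv K') (ε : K'),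
      L'.p = L.p → ε ^ d = -1 → Cu D d (DH.Af d ε) → DX.Una K' Ω D L'.p l) :
    DX.Una K' Ω C L.p l := by
  obtain ⟨ε, hε, ⟨c⟩⟩ := fmt_cu hC
  obtain ⟨L', hp', -⟩ := L.exists_bsL K'
  have hcl : IsAlgClosure K' Ω := ⟨IsAlgClosure.isAlgClosed K, inferInstance⟩
  have hcz : CharZero K' := charZero_of_injective_algebraMap (algebraMap K K').injective
  have hε' : (algebraMap F' K' ε) ^ d = -1 := by rw [← map_pow, hε, map_neg, map_one]
  obtain ⟨D, ⟨c'⟩⟩ := DH.exists_fer (M := K') hd hε'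
  have h1 : (DH.Af d ε).map (algebraMap F' K') = DH.Af d (algebraMap F' K' ε) := by
    rw [DH.Af, DH.Af, Polynomial.map_add, Polynomial.map_pow, Polynomial.map_pow,
      Polynomial.map_add, Polynomial.map_mul, Polynomial.map_one, map_X, map_C]
  obtain ⟨e⟩ := cu_bc c (D := D) (h1.symm ▸ c')
  have h2 := H hcz hcl L' D _ hp' hε' c'
  rw [hp'] at h2
  exact una_bc e h2

/-- **Fermat curves of degree `4` or odd prime degree, any local field, `l` prime to `2 d (d - 1)` and to the residue characteristic.**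
Over an extension of `N` of degree with prime factors dividing `2 d (d - 1)` and over all its finite extensions `K'`. Proof: `una_tr`
with `una_p`, `una_4`, `una_g`. -/
theorem una_fer {K Ω : Type} [Field K] [CharZero K] [Field Ω] [Algebra K Ω] [IsAlgClosure K Ω]
    (L : Ld K Ω) {F' : Type} [Field F'] [Algebra F' Ω] {C : Crv F'} {d : ℕ} (hC : DX.Fmt C d)
    (hd : d = 4 ∨ d.Prime ∧ Odd d) (N : IntermediateField K Ω) (hN : FiniteDimensional K N) :
    ∃ N' : IntermediateField K Ω, N ≤ N' ∧ FiniteDimensional K N' ∧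
      (∃ k : ℕ, Module.finrank K N' = Module.finrank K N * k ∧ DH.Pf (2 * d * (d - 1)) k) ∧
      ∀ K' : IntermediateField K Ω, N' ≤ K' → FiniteDimensional K K' →
        ∀ (_ : Algebra F' K') (_ : IsScalarTower F' K' Ω) (l : ℕ), l.Prime →
          ¬ l ∣ 2 * d * (d - 1) → l ≠ L.p → DX.Una K' Ω C L.p l := by
  have h2d : 2 ≤ d := by
    rcases hd with rfl | ⟨hd, -⟩
    · norm_num
    · exact hd.two_le
  by_cases hp : L.p ∣ d
  · rcases hd with rfl | ⟨hdp, hodd⟩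
    · have hp2 : L.p = 2 := by
        have h1 : L.p ∣ 2 ^ 2 := hp
        exact (Nat.prime_dvd_prime_iff_eq L.pp Nat.prime_two).1 (L.pp.dvd_of_dvd_pow h1)
      obtain ⟨N', hle, hfd, ⟨R⟩, k, hk, hpf⟩ := exists_r4N N hN
      refine ⟨N', hle, hfd, ⟨k, hk, hpf.mono (by norm_num)⟩, ?_⟩
      intro K' hK' hf i1 i2 l hl hld hlp
      obtain ⟨R'⟩ := r4_map R (IntermediateField.inclusion hK').toRingHom
      refine una_tr L hC h2d K' hf fun j1 j2 L' D ε hL' hε c => ?_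
      exact una_4 L' c hε (hL'.trans hp2) R' hl (by rw [← hp2]; exact hlp)
    · have hpd : L.p = d := (Nat.prime_dvd_prime_iff_eq L.pp hdp).1 hp
      have hd2 : d ≠ 2 := by
        rintro rfl
        exact absurd hodd (by decide)
      obtain ⟨N', hle, hfd, ⟨R⟩, k, hk, hpf⟩ := exists_rqN hdp hd2 N hN
      refine ⟨N', hle, hfd, ⟨k, hk, hpf⟩, ?_⟩
      intro K' hK' hf i1 i2 l hl hld hlp
      obtain ⟨R'⟩ := rq_map R (IntermediateField.inclusion hK').toRingHom
      refine una_tr L hC h2d K' hf fun j1 j2 L' D ε hL' hε c => ?_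
      exact una_p L' c hdp hd2 hε (hL'.trans hpd) R' hl (by rw [← hpd]; exact hlp)
  · refine ⟨N, le_rfl, hN, ⟨1, (mul_one _).symm, DH.Pf.one _⟩, ?_⟩
    intro K' hK' hf i1 i2 l hl hld hlp
    refine una_tr L hC h2d K' hf fun j1 j2 L' D ε hL' hε c => ?_
    exact una_g L' c h2d hε (by rw [hL']; exact hp) hl (by rw [hL']; exact hlp)

end DC
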