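import Pool.Agent.Lib.MP_f80667_ag.Dc.UMod
import Pool.Agent.Lib.MP_f80667_ag.Dc.UFer

/-! Curves with good reduction at `v` and Fermat curves: all places are `l`-good. -/

open ZC BE PE CV IsDedekindDomain NumberField Polynomial TensorProduct IntermediateField

namespace DC

/-- Two prime numbers in a prime ideal. -/
theorem p_eq {F : Type} [Field F] [NumberField F] (v : HeightOneSpectrum (𝓞 F)) {p q : ℕ}
    (hp : p.Prime) (hq : q.Prime) (h : (p : 𝓞 F) ∈ v.asIdeal) (h' : (q : 𝓞 F) ∈ v.asIdeal) :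
    p = q := by
  by_contra hne
  have h1 : IsCoprime (p : ℤ) (q : ℤ) :=
    Nat.isCoprime_iff_coprime.2 ((Nat.coprime_primes hp hq).2 hne)
  obtain ⟨a, b, hab⟩ := h1
  refine v.isPrime.ne_top ((Ideal.eq_top_iff_one _).2 ?_)
  have h2 := congrArg (Int.cast : ℤ → 𝓞 F) hab
  push_cast at h2
  rw [← h2]
  exact add_mem (Ideal.mul_mem_left _ _ h) (Ideal.mul_mem_left _ _ h')

/-- A number prime to a number of the ideal. -/
theorem d_notMem {F : Type} [Field F] [NumberField F] (v : HeightOneSpectrum (𝓞 F)) {l d : ℕ}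
    (hl : l.Prime) (hd : ¬ l ∣ d) (h : (l : 𝓞 F) ∈ v.asIdeal) : (d : 𝓞 F) ∉ v.asIdeal := by
  intro h'
  have h1 : IsCoprime (l : ℤ) (d : ℤ) :=
    Nat.isCoprime_iff_coprime.2 ((Nat.Prime.coprime_iff_not_dvd hl).2 hd)
  obtain ⟨a, b, hab⟩ := h1
  refine v.isPrime.ne_top ((Ideal.eq_top_iff_one _).2 ?_)
  have h2 := congrArg (Int.cast : ℤ → 𝓞 F) hab
  push_cast at h2
  rw [← h2]
  exact add_mem (Ideal.mul_mem_left _ _ h) (Ideal.mul_mem_left _ _ h')

/-- Good reduction of Fermat curves at the places not over the degree. -/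
theorem fmt_w {F' E : Type} [Field F'] [Field E] [NumberField E] [Algebra F' E] {C : Crv F'}
    {d : ℕ} (hC : DX.Fmt C d) (hd : 2 ≤ d) (w : HeightOneSpectrum (𝓞 E))
    (h : (d : 𝓞 E) ∉ w.asIdeal) : Nonempty (Mod C (w.valuation E).valuationSubring E) := by
  have h1 : w.valuation E (d : E) = 1 := by
    have h2 : w.valuation E ((d : 𝓞 E) : E) ≤ 1 := w.valuation_le_one _
    have h3 : ¬ w.valuation E ((d : 𝓞 E) : E) < 1 := fun h4 =>
      h ((w.valuation_lt_one_iff_mem _).1 h4)
    have h5 := le_antisymm h2 (not_lt.1 h3)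
    rw [← h5]
    exact congrArg _ (map_natCast (algebraMap (𝓞 E) E) d).symm
  refine fmt_mod hC hd ?_ ?_
  · have h2 : (d : E) ≠ 0 := by
      intro h0
      rw [h0, map_zero] at h1
      exact zero_ne_one h1
    have hxi : (d : E)⁻¹ ∈ (w.valuation E).valuationSubring := by
      rw [Valuation.mem_valuationSubring_iff, map_inv₀, h1, inv_one]
    refine IsUnit.of_mul_eq_one (⟨_, hxi⟩ : (w.valuation E).valuationSubring) (Subtype.ext ?_)
    push_cast
    exact mul_inv_cancel₀ h2
  · intro x hx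
    have h2 : w.valuation E x ^ d = 1 := by
      rw [← map_pow, hx, Valuation.map_neg, map_one]
    have h3 : w.valuation E x = 1 := (pow_eq_one_iff_of_nonneg zero_le (by omega)).1 h2
    refine ⟨⟨x, ?_⟩, Subtype.ext ?_, rfl⟩
    · rw [Valuation.mem_valuationSubring_iff, h3]
    · push_cast
      exact hx

theorem ldp_mem {F : Type} [Field F] [NumberField F] {v : HeightOneSpectrum (𝓞 F)}
    {L : Ld (FK F v) (AlgebraicClosure (FK F v))} {c : ℝ}
    (hL : ∀ (x : F) (n : ℤ), v.valuation F x = WithZero.exp (-n) →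
      L.nm (algebraMap F _ x) = c ^ n) : (L.p : 𝓞 F) ∈ v.asIdeal := by
  by_contra h0
  have h1 : v.valuation F ((L.p : 𝓞 F) : F) = 1 := by
    have h2 : v.valuation F ((L.p : 𝓞 F) : F) ≤ 1 := v.valuation_le_one _
    refine le_antisymm h2 (not_lt.1 fun h3 => h0 ?_)
    exact (v.valuation_lt_one_iff_mem _).1 h3
  have h4 : v.valuation F ((L.p : ℕ) : F) = WithZero.exp (-(0 : ℤ)) := by
    rw [neg_zero, WithZero.exp_zero, ← h1]
    exact congrArg _ (map_natCast (algebraMap (𝓞 F) F) L.p).symm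
  have h5 := hL _ _ h4
  rw [map_natCast, zpow_zero] at h5
  exact absurd h5 L.lt.ne

/-- **Places not over `l`.** -/
theorem unv_mix {F F' E : Type} [Field F] [NumberField F] [Field F'] [Algebra F F'] [Field E]
    [NumberField E] [Algebra F E] [Algebra F' E] [IsScalarTower F F' E] {n : ℕ}
    {C : Fin n → Crv F'} {dg : Fin n → ℕ} (v : HeightOneSpectrum (𝓞 F)) {l : ℕ} (hl : l.Prime)
    (hv : (l : 𝓞 F) ∉ v.asIdeal) (hE : ¬ l ∣ Module.finrank F E)
    (hC : ∀ i, (∀ w : HeightOneSpectrum (𝓞 E), Abo v w →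
        Nonempty (Mod (C i) (w.valuation E).valuationSubring E)) ∨
      (dg i = 4 ∨ (dg i).Prime ∧ Odd (dg i)) ∧ DX.Fmt (C i) (dg i) ∧
        ¬ l ∣ 2 * dg i * (dg i - 1)) : DX.Unv C v l := by
  intro p hp hpv
  have hc : CharZero (FK F v) := charZero_of_injective_algebraMap (algebraMap F (FK F v)).injective
  obtain ⟨L, c, hc0, hc1, hL, -, hd⟩ := DN.exists_ldD v
  have hLp : L.p = p := p_eq v L.pp hp (ldp_mem hL) hpv
  have hne : l ≠ L.p := fun h => hv (by rw [h, hLp]; exact hpv)
  have hfin : FiniteDimensional F E := FiniteDimensional.right ℚ F E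
  obtain ⟨σ, hMf, hMc⟩ := DN.exists_emb (F := F) (F' := E) (K := FK F v)
    (Ω := AlgebraicClosure (FK F v)) hl hE
  obtain ⟨w, c', hvw, h0', h1', hw, -⟩ := exists_plb v L hc0 hc1 hL hd σ
  obtain ⟨B, hBe⟩ : ∃ B : IntermediateField (FK F v) (AlgebraicClosure (FK F v)),
      B = IntermediateField.adjoin (FK F v) (Set.range σ) := ⟨_, rfl⟩
  rw [← hBe] at hMf hMc
  have hσM : ∀ x, σ x ∈ B := fun x => by
    rw [hBe]
    exact subset_adjoin _ _ ⟨x, rfl⟩
  let iΩ : Algebra E (AlgebraicClosure (FK F v)) :=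
    (σ : E →+* AlgebraicClosure (FK F v)).toAlgebra
  let jΩ : Algebra F' (AlgebraicClosure (FK F v)) :=
    ((algebraMap E (AlgebraicClosure (FK F v))).comp (algebraMap F' E)).toAlgebra
  have key : ∀ s : Finset (Fin n), ∃ N : IntermediateField (FK F v) (AlgebraicClosure (FK F v)),
      B ≤ N ∧ FiniteDimensional (FK F v) N ∧ (Module.finrank (FK F v) N).Coprime l ∧
        ∀ i ∈ s, ∀ K' : IntermediateField (FK F v) (AlgebraicClosure (FK F v)), N ≤ K' →
          FiniteDimensional (FK F v) K' → ∀ (_ : Algebra F' K')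
            (_ : IsScalarTower F' K' (AlgebraicClosure (FK F v))),
              DX.Una K' (AlgebraicClosure (FK F v)) (C i) L.p l := by
    intro s
    induction s using Finset.induction_on with
    | empty => exact ⟨B, le_rfl, hMf, hMc, fun i hi => absurd hi (Finset.notMem_empty i)⟩
    | insert i s his ih =>
      obtain ⟨N, hBN, hNf, hNc, hN⟩ := ih
      rcases hC i with hg | ⟨hdi, hFi, hli⟩
      · refine ⟨N, hBN, hNf, hNc, fun j hj K' hK' hf' i1 i2 => ?_⟩
        rcases Finset.mem_insert.1 hj with rfl | hj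
        · have hσK : ∀ x, σ x ∈ K' := fun x => hK' (hBN (hσM x))
          let iM : Algebra E K' :=
            ((σ : E →+* AlgebraicClosure (FK F v)).codRestrict K' hσK).toAlgebra
          have t1 : IsScalarTower E K' (AlgebraicClosure (FK F v)) :=
            IsScalarTower.of_algebraMap_eq fun _ => rfl
          have t3 : IsScalarTower F' E K' := by
            refine IsScalarTower.of_algebraMap_eq fun x => Subtype.ext ?_
            exact (IsScalarTower.algebraMap_apply F' K' (AlgebraicClosure (FK F v)) x).symm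
          have hac : IsAlgClosure K' (AlgebraicClosure (FK F v)) :=
            ⟨inferInstance, Algebra.IsAlgebraic.tower_top (K := FK F v) K'⟩
          have hcz : CharZero K' :=
            charZero_of_injective_algebraMap (algebraMap (FK F v) K').injective
          exact una_md (GX.xt L K') (mod_w (GX.xt L K') w h0' h1'
            (fun x n hx => hw x n hx) (hg w hvw)) hl hne
        · exact hN j hj K' hK' hf' i1 i2
      · obtain ⟨N', hNN, hNf', ⟨k, hk, hpf⟩, hN'⟩ := una_fer L hFi hdi N hNf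
        refine ⟨N', hBN.trans hNN, hNf', ?_, fun j hj K' hK' hf' i1 i2 => ?_⟩
        · rw [hk]
          exact Nat.Coprime.mul_left hNc (hpf.coprime hl hli)
        · rcases Finset.mem_insert.1 hj with rfl | hj
          · exact hN' K' hK' hf' i1 i2 l hl hli hne
          · exact hN j hj K' (hNN.trans hK') hf' i1 i2
  obtain ⟨N, hBN, hNf, hNc, hN⟩ := key Finset.univ
  have hσN : ∀ x : F', σ (algebraMap F' E x) ∈ N := fun x => hBN (hσM _)
  let jN : Algebra F' N := (((σ : E →+* AlgebraicClosure (FK F v)).comp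
    (algebraMap F' E)).codRestrict N hσN).toAlgebra
  have t4 : IsScalarTower F' N (AlgebraicClosure (FK F v)) :=
    IsScalarTower.of_algebraMap_eq fun _ => rfl
  have e1 : ∀ x : F, σ (algebraMap F' E (algebraMap F F' x)) =
      algebraMap F (AlgebraicClosure (FK F v)) x := fun x => by
    rw [← IsScalarTower.algebraMap_apply F F' E]
    exact σ.commutes x
  have t6 : IsScalarTower F F' N :=
    IsScalarTower.of_algebraMap_eq fun x => Subtype.ext (e1 x).symm
  refine ⟨N, jN, jΩ, t6, t4, hNf, hNc, fun i => ?_⟩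
  rw [← hLp]
  exact hN i (Finset.mem_univ i) N le_rfl hNf jN t4

end DC
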