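import Pool.Agent.Lib.MP_f80667_ag.Dc.StaP
import Pool.Agent.Lib.MP_f80667_ag.Dc.UMix

/-! Varieties dominated by products of curves: the theorem with the places which are good for `l`, for the statement. -/

open ZC BE PE CV IsDedekindDomain NumberField

namespace DX

/-- Places where every curve has good reduction or is a Fermat curve. -/
theorem gdl_mix {F F' : Type} [Field F] [NumberField F] [Field F'] [Algebra F F'] {n : ℕ}
    (C : Fin n → Crv F') (E : Type) [Field E] [NumberField E] [Algebra F E] [Algebra F' E]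
    [IsScalarTower F F' E] : ∃ l₁ : ℕ, ∀ (v : HeightOneSpectrum (𝓞 F)) (l : ℕ), l.Prime →
      l₁ < l → (∀ i, Gdv (fun _ : Fin 1 => C i) E v ∨
        ∃ e : ℕ, (e = 4 ∨ e.Prime ∧ Odd e) ∧ Fmt (C i) e) → Gdl C E v l := by
  classical
  have hfin : FiniteDimensional F E := FiniteDimensional.right ℚ F E
  have h1 : ∀ i, ∃ e : ℕ, (e = 4 ∨ e.Prime ∧ Odd e) ∧
      ((∃ e : ℕ, (e = 4 ∨ e.Prime ∧ Odd e) ∧ Fmt (C i) e) → Fmt (C i) e) := by
    intro i
    by_cases h : ∃ e : ℕ, (e = 4 ∨ e.Prime ∧ Odd e) ∧ Fmt (C i) e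
    · obtain ⟨e, he, hF⟩ := h
      exact ⟨e, he, fun _ => hF⟩
    · exact ⟨4, Or.inl rfl, fun h' => absurd h' h⟩
  choose dg hdg hF using h1
  have hd2 : ∀ i, 2 ≤ dg i := by
    intro i
    rcases hdg i with h | ⟨h, -⟩
    · omega
    · exact h.two_le
  have hm : (∏ i, 2 * dg i * (dg i - 1)) * Module.finrank F E ≠ 0 := by
    refine mul_ne_zero (Finset.prod_ne_zero_iff.2 fun i _ => ?_) Module.finrank_pos.ne'
    have h2 := hd2 i
    exact mul_ne_zero (by omega) (by omega)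
  refine ⟨(∏ i, 2 * dg i * (dg i - 1)) * Module.finrank F E, fun v l hl hlt hC => ?_⟩
  have hln : ¬ l ∣ (∏ i, 2 * dg i * (dg i - 1)) * Module.finrank F E := fun h =>
    absurd (Nat.le_of_dvd (Nat.pos_of_ne_zero hm) h) (not_le.2 hlt)
  have hE : ¬ l ∣ Module.finrank F E := fun h => hln (h.mul_left _)
  have hli : ∀ i, ¬ l ∣ 2 * dg i * (dg i - 1) := fun i h =>
    hln ((h.trans (Finset.dvd_prod_of_mem (fun i => 2 * dg i * (dg i - 1))
      (Finset.mem_univ i))).mul_right _)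
  by_cases hv : (l : 𝓞 F) ∈ v.asIdeal
  · refine Or.inl fun w hw i => ?_
    rcases hC i with hg | hFi
    · exact hg w hw 0
    · have hlw : (l : 𝓞 E) ∈ w.asIdeal := by
        rw [← hw, Ideal.mem_comap, map_natCast] at hv
        exact hv
      have hld : ¬ l ∣ dg i := fun h => hli i ((h.mul_left 2).mul_right _)
      exact DC.fmt_w (hF i hFi) (hd2 i) w (DC.d_notMem w hl hld hlw)
  · refine Or.inr (DC.unv_mix (E := E) (dg := dg) v hl hv hE fun i => ?_)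
    rcases hC i with hg | hFi
    · exact Or.inl fun w hw => hg w hw 0
    · exact Or.inr ⟨hdg i, hF i hFi, hli i⟩

/-- **The theorem.** -/
theorem main_u {F F' E : Type} [Field F] [NumberField F] [Field F'] [Field E] [NumberField E]
    [Algebra F F'] [Algebra F E] [Algebra F' E] [IsScalarTower F F' E] {N n d D : ℕ} {ι : Type}
    {f : ι → MvPolynomial (Fin N) F} {C : Fin n → Crv F'}
    {Φ : Fin N → MvPolynomial (Σ i, (C i).A) F'} {h : MvPolynomial (Fin N) F} (hf : Nsp f d)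
    (h0 : D ≠ 0) (hD : Dom f C Φ h D) :
    {v : HeightOneSpectrum (𝓞 F) | ¬ Gdv C E v}.Finite ∧ ∃ l₀ : ℕ,
      (∀ (v : HeightOneSpectrum (𝓞 F)) (l : ℕ), l.Prime → l₀ < l → Gdl C E v l →
        (Cst f C Φ h → Zdv (GX.Xf f) (FK F v) l) ∧
        ∀ (N' k k' : ℕ) (ι' : Type) (A : GX.Gv F N' k' ι') (M : GX.Mf f A k), Gok A → M.Ok →
          Pbk C Φ h M → Dvl M (FK F v) l) ∧
      (∀ P : Set ℕ, (∀ l ∈ P, l.Prime ∧ l₀ < l) →
        (Cst f C Φ h →
          (∀ v : HeightOneSpectrum (𝓞 F), ∀ l ∈ P, ¬ Gdl C E v l → Zdv (GX.Xf f) (FK F v) l) →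
          QPr (GX.Xf f) P) ∧
        ∀ (N' k k' : ℕ) (ι' : Type) (A : GX.Gv F N' k' ι') (M : GX.Mf f A k), Gok A → M.Ok →
          Pbk C Φ h M →
          (∀ v : HeightOneSpectrum (𝓞 F), ∀ l ∈ P, ¬ Gdl C E v l → Dvl M (FK F v) l) →
          (∀ m : ℕ, m ≠ 0 → Sf P m → ∀ c : Fam (GX.Xf f), Alx M c →
            ∃ c' : Fam (GX.Xf f), Alx M c' ∧ c.cl = m • c'.cl) ∧
          ∀ z : LHat (FA (GX.Xf f)), ImDeS P z ↔ Smx M P z) ∧
      ∀ (v : HeightOneSpectrum (𝓞 F)) (l : ℕ), l.Prime → l₀ < l →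
        (∀ i, Gdv (fun _ : Fin 1 => C i) E v ∨
          ∃ e : ℕ, (e = 4 ∨ e.Prime ∧ Odd e) ∧ Fmt (C i) e) → Gdl C E v l := by
  obtain ⟨h1, l₀, h2, h3⟩ := DC.main_U (nsg_of hf) (dom_of hD) h0 E
  obtain ⟨l₁, h4⟩ := gdl_mix C E (F := F)
  have lt0 : ∀ {l : ℕ}, max l₀ l₁ < l → l₀ < l := fun h => (le_max_left _ _).trans_lt h
  refine ⟨h1, max l₀ l₁, fun v l hl hlt hv =>
    ⟨fun hC => (h2 v l hl (lt0 hlt) hv).1 (cst_of hD h0 hC), fun N' k k' ι' A M hA hM hP =>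
      dvl_iff.2 ((h2 v l hl (lt0 hlt) hv).2 N' k k' ι' A M (gok_of hA) hM (plb_of hD h0 hP))⟩,
    fun P hPr => ⟨fun hC => (h3 P fun l hl => ⟨(hPr l hl).1, lt0 (hPr l hl).2⟩).1
      (cst_of hD h0 hC), fun N' k k' ι' A M hA hM hP hb => ?_⟩,
    fun v l hl hlt hC => h4 v l hl ((le_max_right _ _).trans_lt hlt) hC⟩
  obtain ⟨h5, h6⟩ := (h3 P fun l hl => ⟨(hPr l hl).1, lt0 (hPr l hl).2⟩).2 N' k k' ι' A M
    (gok_of hA) hM (plb_of hD h0 hP) fun v l hl hv => dvl_iff.1 (hb v l hl hv)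
  refine ⟨fun m hm hS c hc => ?_, fun z => (h6 z).trans smx_iff.symm⟩
  obtain ⟨c', h7, h8⟩ := h5 m hm hS c (alx_iff.1 hc)
  exact ⟨c', alx_iff.2 h7, h8⟩

end DX
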