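import Pool.Agent.Lib.MP_f80667_ag.Dc.Sta

/-!
Places where the curves have good reduction or are Fermat curves: the definitions for the statement.

* `Frm G d`: the pointed curve with the order `G` at infinity is the Fermat curve of degree `d`.
* `Gdf C E v`: every curve has good reduction at the places of `E` above `v` or is a Fermat curve of degree `4` or of odd prime degree.
-/

open CV IsDedekindDomain NumberField

namespace DX

/-- The affine algebra `A` with the order `G` at infinity is the Fermat curve `s ^ d = x ^ d + y ^ d` with the point `x = 1`, `y = ε`,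
`s = 0` at infinity, `ε ^ d = -1`: in the coordinates `y - ε x = 1` the algebra is generated by `x` and `s` with the relation
`s ^ d = x ^ d + (1 + ε x) ^ d`, and `x` has the order `d` at infinity. -/
def Frm {F A : Type} [Field F] [CommRing A] [Algebra F A] (G : Dg F A) (d : ℕ) : Prop :=
  ∃ (ε : F) (x s : A), ε ^ d = -1 ∧ s ^ d = x ^ d + (1 + ε • x) ^ d ∧
    Algebra.adjoin F {x, s} = ⊤ ∧ G.d x = d ∧
    ∀ (B : Type) [CommRing B] [Algebra F B] (y t : B),
      t ^ d = y ^ d + (1 + ε • y) ^ d → ∃ φ : A →ₐ[F] B, φ x = y ∧ φ s = t

/-- Every curve `C i` has good reduction at all places of `E` above `v` or is a Fermat curve of degree `4` or of odd prime degree. -/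
def Gdf {F F' : Type} [Field F] [NumberField F] [Field F'] [Algebra F F'] {n : ℕ}
    (C : Fin n → Crv F') (E : Type) [Field E] [NumberField E] [Algebra F E] [Algebra F' E]
    (v : HeightOneSpectrum (𝓞 F)) : Prop :=
  ∀ i, Gdv (fun _ : Fin 1 => C i) E v ∨ ∃ e : ℕ, (e = 4 ∨ e.Prime ∧ Odd e) ∧ Frm (C i).G e

end DX
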