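import Pool.Agent.Lib.MP_f80667_ag.Dc.StaUP
import Pool.Agent.Lib.MP_f80667_ag.Dc.StaV

/-! Varieties dominated by products of curves: the theorem for places where the curves have good reduction or are Fermat curves. -/

open ZC BE PE CV IsDedekindDomain NumberField

namespace DX

theorem fmt_of_frm {F' : Type} [Field F'] {C : Crv F'} {d : ℕ} (h : Frm C.G d) : Fmt C d := by
  obtain ⟨ε, x, s, h1, h2, h3, h4, h5⟩ := h
  refine ⟨ε, x, s, h1, ?_, h3, h4, fun B _ _ y t hyt => h5 B y t ?_⟩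
  · rw [h2, Algebra.smul_def]
  · rw [hyt, Algebra.smul_def]

theorem frm_of_fmt {F' : Type} [Field F'] {C : Crv F'} {d : ℕ} (h : Fmt C d) : Frm C.G d := by
  obtain ⟨ε, x, s, h1, h2, h3, h4, h5⟩ := h
  refine ⟨ε, x, s, h1, ?_, h3, h4, fun B _ _ y t hyt => h5 B y t ?_⟩
  · rw [h2, Algebra.smul_def]
  · rw [hyt, Algebra.smul_def]

/-- **The theorem.** -/
theorem main_v {F F' E : Type} [Field F] [NumberField F] [Field F'] [Field E] [NumberField E]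
    [Algebra F F'] [Algebra F E] [Algebra F' E] [IsScalarTower F F' E] {N n d D : ℕ} {ι : Type}
    {f : ι → MvPolynomial (Fin N) F} {C : Fin n → Crv F'}
    {Φ : Fin N → MvPolynomial (Σ i, (C i).A) F'} {h : MvPolynomial (Fin N) F} (hf : Nsp f d)
    (h0 : D ≠ 0) (hD : Dom f C Φ h D) :
    {v : HeightOneSpectrum (𝓞 F) | ¬ Gdv C E v}.Finite ∧ ∃ l₀ : ℕ,
      (∀ (v : HeightOneSpectrum (𝓞 F)) (l : ℕ), l.Prime → l₀ < l → Gdf C E v →
        (Cst f C Φ h → Zdv (GX.Xf f) (FK F v) l) ∧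
        ∀ (N' k k' : ℕ) (ι' : Type) (A : GX.Gv F N' k' ι') (M : GX.Mf f A k), Gok A → M.Ok →
          Pbk C Φ h M → Dvl M (FK F v) l) ∧
      ∀ P : Set ℕ, (∀ l ∈ P, l.Prime ∧ l₀ < l) →
        (Cst f C Φ h →
          (∀ v : HeightOneSpectrum (𝓞 F), ¬ Gdf C E v → ∀ l ∈ P, Zdv (GX.Xf f) (FK F v) l) →
          QPr (GX.Xf f) P) ∧
        ∀ (N' k k' : ℕ) (ι' : Type) (A : GX.Gv F N' k' ι') (M : GX.Mf f A k), Gok A → M.Ok →
          Pbk C Φ h M →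
          (∀ v : HeightOneSpectrum (𝓞 F), ¬ Gdf C E v → ∀ l ∈ P, Dvl M (FK F v) l) →
          (∀ m : ℕ, m ≠ 0 → Sf P m → ∀ c : Fam (GX.Xf f), Alx M c →
            ∃ c' : Fam (GX.Xf f), Alx M c' ∧ c.cl = m • c'.cl) ∧
          ∀ z : LHat (FA (GX.Xf f)), ImDeS P z ↔ Smx M P z := by
  obtain ⟨h1, l₀, h2, h3, h4⟩ := main_u (E := E) hf h0 hD
  have h5 : ∀ (v : HeightOneSpectrum (𝓞 F)) (l : ℕ), l.Prime → l₀ < l → Gdf C E v →
      Gdl C E v l := fun v l hl hlt hv => h4 v l hl hlt fun i => by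
    rcases hv i with h | ⟨e, he, hF⟩
    · exact Or.inl h
    · exact Or.inr ⟨e, he, fmt_of_frm hF⟩
  refine ⟨h1, l₀, fun v l hl hlt hv => h2 v l hl hlt (h5 v l hl hlt hv), fun P hP => ?_⟩
  obtain ⟨h6, h7⟩ := h3 P hP
  refine ⟨fun hC hv => h6 hC fun v l hl hn => hv v (fun hg =>
    hn (h5 v l (hP l hl).1 (hP l hl).2 hg)) l hl, ?_⟩
  intro N' k k' ι' A M hA hM hPb hv
  exact h7 N' k k' ι' A M hA hM hPb fun v l hl hn => hv v (fun hg =>
    hn (h5 v l (hP l hl).1 (hP l hl).2 hg)) l hl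

end DX
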