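import Pool.Agent.Lib.MP_f80667_ag.Dc.StaU
import Pool.Agent.Lib.MP_f80667_ag.Qs.Cu
import Pool.Agent.Lib.MP_f80667_ag.Dh.Fer
import Pool.Agent.Lib.MP_f80667_ag.Cv.CyP

/-! Base change of pointed curves: models, divisibility and norms over unramified extensions. -/

open ZC BE PE CV QS Polynomial TensorProduct IntermediateField

namespace DC

section bc

variable {F' : Type} [Field F'] {K : Type} [Field K] [Algebra F' K]

/-- The Fermat curve has the equation `s ^ d = x ^ d + (1 + ε x) ^ d`. -/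
theorem fmt_cu {C : Crv F'} {d : ℕ} (h : DX.Fmt C d) :
    ∃ ε : F', ε ^ d = -1 ∧ Nonempty (Cu C d (DH.Af d ε)) := by
  obtain ⟨ε, x, s, h1, h2, h3, h4, h5⟩ := h
  have key : ∀ (B : Type) [CommRing B] [Algebra F' B] (y : B),
      aeval y (DH.Af d ε) = y ^ d + (1 + algebraMap F' B ε * y) ^ d := by
    intro B _ _ y
    simp [DH.Af]
  refine ⟨ε, h1, ⟨{ X := x, U := s, eq := ?_, gen := h3, lift := ?_, deg := h4 }⟩⟩
  · rw [key]
    exact h2
  · intro B _ _ y t h
    exact h5 B y t (by rw [h, key])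

/-- The affine ring of the curve over `K` with the same equation. -/
theorem cu_bc {C : Crv F'} {d : ℕ} {a : F'[X]} (c : Cu C d a) {D : Crv K}
    (c' : Cu D d (a.map (algebraMap F' K))) : Nonempty (K ⊗[F'] C.A ≃ₐ[K] D.A) := by
  let iA : Algebra F' D.A := ((algebraMap K D.A).comp (algebraMap F' K)).toAlgebra
  have : IsScalarTower F' K D.A := IsScalarTower.of_algebraMap_eq fun _ => rfl
  obtain ⟨φ, hφX, hφU⟩ := c.lift D.A c'.X c'.U (by
    rw [c'.eq, aeval_map_algebraMap])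
  let f : K ⊗[F'] C.A →ₐ[K] D.A :=
    Algebra.TensorProduct.lift (Algebra.ofId K D.A) φ fun _ _ => Commute.all _ _
  have hfr : ∀ b : C.A, f (1 ⊗ₜ b) = φ b := fun b => by
    simp [f]
  obtain ⟨g, hgX, hgU⟩ := c'.lift (K ⊗[F'] C.A) (1 ⊗ₜ c.X) (1 ⊗ₜ c.U) (by
    rw [aeval_map_algebraMap, Algebra.TensorProduct.tmul_pow, one_pow, c.eq]
    have h := (aeval_algHom_apply (Algebra.TensorProduct.includeRight : C.A →ₐ[F'] K ⊗[F'] C.A)
      c.X a)
    exact h.symm)
  refine ⟨AlgEquiv.ofAlgHom f g ?_ ?_⟩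
  · refine c'.hom_ext ?_ ?_
    · rw [AlgHom.comp_apply, hgX, hfr, hφX]
      rfl
    · rw [AlgHom.comp_apply, hgU, hfr, hφU]
      rfl
  · refine Algebra.TensorProduct.ext (by ext) ?_
    refine c.hom_ext ?_ ?_
    · change g (f (1 ⊗ₜ c.X)) = 1 ⊗ₜ c.X
      rw [hfr, hφX, hgX]
    · change g (f (1 ⊗ₜ c.U)) = 1 ⊗ₜ c.U
      rw [hfr, hφU, hgU]

/-- Base change of models. -/
theorem mod_bc {C : Crv F'} {D : Crv K} (e : K ⊗[F'] C.A ≃ₐ[K] D.A) {O : Type} [CommRing O]
    [IsLocalRing O] [Algebra O K] (m : Nonempty (Mod D O K)) : Nonempty (Mod C O K) := by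
  obtain ⟨m⟩ := m
  exact ⟨{ R := m.R, sm := m.sm, iso := (m.iso.trans (Algebra.TensorProduct.lid K D.A)).trans e.symm,
           Gg := m.Gg, Gs := m.Gs, h := m.h, N := m.N, b := m.b, lo := m.lo, hi := m.hi }⟩

variable {Ω : Type} [Field Ω] [Algebra K Ω] [Algebra F' Ω] [IsScalarTower F' K Ω]

variable {C : Crv F'} {D : Crv K} (e : K ⊗[F'] C.A ≃ₐ[K] D.A)

/-- The homomorphisms. -/
noncomputable def qe : (D.A →ₐ[K] Ω) ≃ (C.A →ₐ[F'] Ω) where
  toFun Φ := ((Φ.comp e.toAlgHom).restrictScalars F').comp Algebra.TensorProduct.includeRight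
  invFun φ := (Algebra.TensorProduct.lift (Algebra.ofId K Ω) φ fun _ _ => Commute.all _ _).comp
    e.symm.toAlgHom
  left_inv Φ := by
    have h : (Algebra.TensorProduct.lift (Algebra.ofId K Ω)
        (((Φ.comp e.toAlgHom).restrictScalars F').comp Algebra.TensorProduct.includeRight)
          fun _ _ => Commute.all _ _) = Φ.comp e.toAlgHom := by
      refine Algebra.TensorProduct.ext (by ext) ?_
      ext a
      simp
    ext x
    have h1 := congrArg (fun g : K ⊗[F'] C.A →ₐ[K] Ω => g (e.symm x)) h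
    refine h1.trans ?_
    change Φ (e (e.symm x)) = Φ x
    rw [e.apply_symm_apply]
  right_inv φ := by
    ext a
    change (Algebra.TensorProduct.lift (Algebra.ofId K Ω) φ fun _ _ => Commute.all _ _)
      (e.symm (e (1 ⊗ₜ a))) = φ a
    rw [e.symm_apply_apply]
    simp

theorem qe_apply (Φ : D.A →ₐ[K] Ω) (a : C.A) : qe e Φ a = Φ (e (1 ⊗ₜ a)) := rfl

/-- The points. -/
noncomputable def qp : D.V.pt Ω ≃ C.V.pt Ω := Equiv.optionCongr (qe e)

theorem qp_act (γ : Ω ≃ₐ[K] Ω) (x : D.V.pt Ω) : qp e (D.V.act γ x) = C.V.act γ (qp e x) := by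
  rcases x with _ | Φ
  · rfl
  · rfl

/-- The cycles. -/
noncomputable def qz : (D.V.pt Ω →₀ ℤ) ≃+ (C.V.pt Ω →₀ ℤ) := Finsupp.domCongr (qp e)

theorem qz_single (x : D.V.pt Ω) (n : ℤ) :
    qz e (Finsupp.single x n) = Finsupp.single (qp e x) n := by
  rw [qz, Finsupp.domCongr_apply, Finsupp.equivMapDomain_single]

theorem qz_act (γ : Ω ≃ₐ[K] Ω) (z : D.V.pt Ω →₀ ℤ) :
    qz e (Finsupp.mapDomain (D.V.act γ) z) = Finsupp.mapDomain (C.V.act γ) (qz e z) := by
  have h : (qz e).toAddMonoidHom.comp (Finsupp.mapDomain.addMonoidHom (D.V.act γ)) =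
      (Finsupp.mapDomain.addMonoidHom (C.V.act γ)).comp (qz (Ω := Ω) e).toAddMonoidHom := by
    refine Finsupp.addHom_ext fun x n => ?_
    change qz e (Finsupp.mapDomain (D.V.act γ) (Finsupp.single x n)) =
      Finsupp.mapDomain (C.V.act γ) (qz e (Finsupp.single x n))
    rw [Finsupp.mapDomain_single, qz_single, qz_single, Finsupp.mapDomain_single, qp_act]
  exact DFunLike.congr_fun h z

theorem qz_deg (z : D.V.pt Ω →₀ ℤ) : C.V.deg Ω (qz e z) = D.V.deg Ω z := by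
  have h : (C.V.deg Ω).comp (qz (Ω := Ω) e).toAddMonoidHom = D.V.deg Ω := by
    refine Finsupp.addHom_ext fun x n => ?_
    change C.V.deg Ω (qz e (Finsupp.single x n)) = D.V.deg Ω (Finsupp.single x n)
    rw [qz_single]
    have h1 : C.V.deg Ω (Finsupp.single (qp e x) n) = n := Finsupp.liftAddHom_apply_single _ _ _
    have h2 : D.V.deg Ω (Finsupp.single x n) = n := Finsupp.liftAddHom_apply_single _ _ _
    rw [h1, h2]
  exact DFunLike.congr_fun h z

theorem qz_zd {M : IntermediateField K Ω} {z : D.V.pt Ω →₀ ℤ} :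
    qz e z ∈ Zd C.V M ↔ z ∈ Zd D.V M := by
  constructor
  · rintro ⟨h1, h2⟩
    refine ⟨fun γ hγ => (qz e).injective ?_, by rw [← qz_deg e, h2]⟩
    rw [qz_act, h1 γ hγ]
  · rintro ⟨h1, h2⟩
    refine ⟨fun γ hγ => ?_, by rw [qz_deg, h2]⟩
    rw [← qz_act, h1 γ hγ]

/-- Conjugation with `qz`. -/
noncomputable def qj : ((D.V.pt Ω →₀ ℤ) →+ (D.V.pt Ω →₀ ℤ)) ≃+ ((C.V.pt Ω →₀ ℤ) →+ (C.V.pt Ω →₀ ℤ)) where
  toFun f := ((qz e).toAddMonoidHom.comp f).comp (qz e).symm.toAddMonoidHom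
  invFun f := ((qz e).symm.toAddMonoidHom.comp f).comp (qz e).toAddMonoidHom
  left_inv f := by
    refine AddMonoidHom.ext fun x => ?_
    change (qz e).symm ((qz e) (f ((qz e).symm ((qz e) x)))) = f x
    rw [(qz e).symm_apply_apply, (qz e).symm_apply_apply]
  right_inv f := by
    refine AddMonoidHom.ext fun x => ?_
    change (qz e) ((qz e).symm (f ((qz e) ((qz e).symm x)))) = f x
    rw [(qz e).apply_symm_apply, (qz e).apply_symm_apply]
  map_add' f g := by
    refine AddMonoidHom.ext fun x => ?_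
    change (qz e) (f ((qz e).symm x) + g ((qz e).symm x)) = _
    rw [map_add]
    rfl

theorem qz_rtr (M M' : IntermediateField K Ω) (z : D.V.pt Ω →₀ ℤ) :
    qz e (rtr D.V M M' z) = rtr C.V M M' (qz e z) := by
  have h : qj e (rtr D.V M M') = rtr C.V M M' := by
    unfold rtr
    rw [AddEquiv.map_finsum]
    refine finsum_congr fun q => ?_
    refine AddMonoidHom.ext fun x => ?_
    change qz e (Finsupp.mapDomain (D.V.act _) ((qz e).symm x)) = Finsupp.mapDomain (C.V.act _) x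
    rw [qz_act, (qz e).apply_symm_apply]
  have h1 := DFunLike.congr_fun h (qz e z)
  refine Eq.trans ?_ h1
  change _ = qz e (rtr D.V M M' ((qz e).symm (qz e z)))
  rw [(qz e).symm_apply_apply]

/-- The functions. -/
noncomputable def qT : Ω ⊗[K] D.A ≃ₐ[Ω] Ω ⊗[F'] C.A :=
  (Algebra.TensorProduct.congr AlgEquiv.refl e.symm).trans
    (Algebra.TensorProduct.cancelBaseChange F' K Ω Ω C.A)

theorem qT_lift (Φ : D.A →ₐ[K] Ω) (x : Ω ⊗[K] D.A) :
    Algebra.TensorProduct.lift (AlgHom.id Ω Ω) (qe e Φ) (fun _ _ => Commute.all _ _) (qT e x) =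
      Algebra.TensorProduct.lift (AlgHom.id Ω Ω) Φ (fun _ _ => Commute.all _ _) x := by
  have h : (Algebra.TensorProduct.lift (AlgHom.id Ω Ω) (qe e Φ)
      (fun _ _ => Commute.all _ _)).comp (qT (Ω := Ω) e).toAlgHom =
        Algebra.TensorProduct.lift (AlgHom.id Ω Ω) Φ (fun _ _ => Commute.all _ _) := by
    refine Algebra.TensorProduct.ext (by ext) ?_
    ext y
    obtain ⟨y, rfl⟩ := e.surjective y
    change Algebra.TensorProduct.lift (AlgHom.id Ω Ω) (qe e Φ) (fun _ _ => Commute.all _ _)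
      (Algebra.TensorProduct.cancelBaseChange F' K Ω Ω C.A
        (Algebra.TensorProduct.congr AlgEquiv.refl e.symm (1 ⊗ₜ e y))) = 
      Algebra.TensorProduct.lift (AlgHom.id Ω Ω) Φ (fun _ _ => Commute.all _ _) (1 ⊗ₜ e y)
    rw [Algebra.TensorProduct.congr_apply, Algebra.TensorProduct.map_tmul,
      Algebra.TensorProduct.lift_tmul, map_one, map_one, one_mul]
    change Algebra.TensorProduct.lift (AlgHom.id Ω Ω) (qe e Φ) (fun _ _ => Commute.all _ _)
      (Algebra.TensorProduct.cancelBaseChange F' K Ω Ω C.A (1 ⊗ₜ (e.symm (e y)))) = Φ (e y)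
    rw [e.symm_apply_apply]
    induction y using TensorProduct.induction_on with
    | zero => simp
    | tmul k a =>
      rw [Algebra.TensorProduct.cancelBaseChange_tmul, Algebra.TensorProduct.lift_tmul, qe_apply]
      have h1 : (k ⊗ₜ[F'] a : K ⊗[F'] C.A) = k • (1 ⊗ₜ[F'] a) := by
        rw [TensorProduct.smul_tmul', smul_eq_mul, mul_one]
      have h2 : e (k • (1 ⊗ₜ[F'] a)) = k • e (1 ⊗ₜ[F'] a) := map_smul e _ _
      have h3 : Φ (k • e (1 ⊗ₜ[F'] a)) = k • Φ (e (1 ⊗ₜ[F'] a)) := map_smul Φ _ _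
      rw [h1, h2, h3, Algebra.smul_def, Algebra.smul_def]
      change (algebraMap K Ω k * 1) * _ = _
      rw [mul_one]
    | add x y hx hy =>
      rw [TensorProduct.tmul_add, map_add, map_add, hx, hy, map_add, map_add]
  exact DFunLike.congr_fun h x

theorem mx_map (Φ : D.A →ₐ[K] Ω) :
    (mx Φ).map (qT (Ω := Ω) e).toRingEquiv.toRingHom = mx (qe e Φ) := by
  have h : (mx Φ).map (qT (Ω := Ω) e).toRingEquiv = mx (qe e Φ) := by
    rw [← Ideal.comap_symm]
    ext x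
    rw [Ideal.mem_comap]
    obtain ⟨y, rfl⟩ := (qT (Ω := Ω) e).surjective x
    have h1 := qT_lift e Φ y
    have h2 : ((qT (Ω := Ω) e).toRingEquiv.symm ((qT (Ω := Ω) e) y)) = y :=
      (qT (Ω := Ω) e).symm_apply_apply y
    rw [h2]
    unfold mx
    rw [RingHom.mem_ker, RingHom.mem_ker]
    exact (Eq.congr_left h1.symm)
  exact h

/-- The factor of a point. -/
noncomputable def mi {F : Type} [Field F] (C : Crv F) {Ω : Type} [Field Ω] [Algebra F Ω]
    (x : C.V.pt Ω) (n : ℤ) : Ideal (Ω ⊗[F] C.A) :=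
  match (x : Option (C.A →ₐ[F] Ω)) with
  | none => 1
  | some φ => mx φ ^ n.toNat

theorem idl_mi {F : Type} [Field F] (C : Crv F) {Ω : Type} [Field Ω] [Algebra F Ω]
    (z : C.V.pt Ω →₀ ℤ) : CV.idl C z = z.prod (mi C) := by
  unfold CV.idl
  refine Finset.prod_congr rfl fun x _ => ?_
  rcases x with _ | Φ
  · rfl
  · rfl

theorem idl_map (z : D.V.pt Ω →₀ ℤ) :
    (CV.idl D z).map (qT (Ω := Ω) e).toRingEquiv.toRingHom = CV.idl C (qz e z) := by
  rw [idl_mi, idl_mi, qz, Finsupp.domCongr_apply, Finsupp.prod_equivMapDomain]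
  unfold Finsupp.prod
  have h1 := map_prod (Ideal.mapHom (qT (Ω := Ω) e).toRingEquiv.toRingHom)
    (fun x : D.V.pt Ω => mi D x (z x)) z.support
  refine h1.trans (Finset.prod_congr rfl fun x _ => ?_)
  rcases x with _ | Φ
  · change Ideal.map _ 1 = 1
    rw [Ideal.one_eq_top, Ideal.map_top, Ideal.one_eq_top]
  · change Ideal.map _ (mx Φ ^ _) = mx (qe e Φ) ^ _
    rw [Ideal.map_pow, mx_map]

/-- Base change of principal cycles. -/
theorem qz_pc {z : D.V.pt Ω →₀ ℤ} (h : z ∈ Pc D Ω) : qz e z ∈ Pc C Ω := by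
  obtain ⟨h0, f, g, hf, hg, h1⟩ := mem_Pc.1 h
  refine mem_Pc.2 ⟨by rw [qz_deg, h0], qT e f, qT e g, ?_, ?_, ?_⟩
  · exact (map_ne_zero_iff _ (qT (Ω := Ω) e).injective).2 hf
  · exact (map_ne_zero_iff _ (qT (Ω := Ω) e).injective).2 hg
  · have h2 := congrArg (Ideal.map (qT (Ω := Ω) e).toRingEquiv.toRingHom) h1
    rw [Ideal.map_mul, Ideal.map_mul, Ideal.map_span, Ideal.map_span, Set.image_singleton,
      Set.image_singleton, idl_map, idl_map, map_neg] at h2
    exact h2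

include e in
/-- Base change of divisibility and norms. -/
theorem una_bc {p l : ℕ} (h : DX.Una K Ω D p l) : DX.Una K Ω C p l := by
  refine ⟨fun M hM z hz => ?_, fun M hM z hz N hN => ?_⟩
  · obtain ⟨z, rfl⟩ := (qz e).surjective z
    obtain ⟨N, hN, h1⟩ := h.dv M hM z ((qz_zd e).1 hz)
    refine ⟨N, hN, fun N' hN' hd => ?_⟩
    obtain ⟨z', hz', h2⟩ := h1 N' hN' hd
    refine ⟨qz e z', (qz_zd e).2 hz', ?_⟩
    rw [← map_nsmul, ← map_sub]
    exact qz_pc e h2
  · obtain ⟨z, rfl⟩ := (qz e).surjective z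
    obtain ⟨z', hz', z'', hz'', h2⟩ := h.nm M hM z ((qz_zd e).1 hz) N hN
    refine ⟨qz e z', (qz_zd e).2 hz', qz e z'', (qz_zd e).2 hz'', ?_⟩
    rw [← qz_rtr, ← map_nsmul, ← map_sub, ← map_sub]
    exact qz_pc e h2

end bc

end DC
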