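import Pool.Agent.Lib.MP_f80667_ag.Dc.StaU
import Pool.Agent.Lib.MP_f80667_ag.Dc.Glo
import Pool.Agent.Lib.MP_f80667_ag.Dh.Bn
import Pool.Agent.Lib.MP_f80667_ag.Cv.Xp5

/-! Varieties dominated by products of curves: places where the curves have unramified divisibility and norms. -/

open ZC BE PE Polynomial IntermediateField IsDedekindDomain NumberField CV NE

namespace DC

section loc

variable {F : Type} [Field F] {K Ω : Type} [Field K] [Field Ω] [Algebra K Ω] [Algebra F K]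
  [Algebra F Ω] [IsScalarTower F K Ω]

theorem una_dv {C : Crv F} {L : Ld K Ω} {l : ℕ} (h : DX.Una K Ω C L.p l) : DH.DvL L C l := h.dv

theorem una_nm {C : Crv F} {L : Ld K Ω} {l : ℕ} (h : DX.Una K Ω C L.p l) : DH.NmL L C l := h.nm

end loc

section place

variable {F F' : Type} [Field F] [NumberField F] [Field F'] [Algebra F F']
  {N N' n d k k' : ℕ} {ι ι' : Type} {f : ι → MvPolynomial (Fin N) F} {A : GX.Gv F N' k' ι'}
  {M : GX.Mf f A k} {C : Fin n → Crv F'} {Φ : Fin N → MvPolynomial (Σ i, (C i).A) F'}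
  {h : MvPolynomial (Fin N) F} {D : ℕ} {r : Fin n → ℕ}

/-- **One place.** -/
theorem one_u {l : ℕ} (v : HeightOneSpectrum (𝓞 F)) (hg : DX.Unv C v l)
    {P : ∀ (K Ω : Type) [Field K] [Field Ω] [Algebra K Ω] [Algebra F K] [Algebra F Ω]
      [IsScalarTower F K Ω], Prop}
    (hP : ∀ (K Ω : Type) [Field K] [CharZero K] [Field Ω] [Algebra K Ω] [IsAlgClosure K Ω]
      [Algebra F K] [Algebra F Ω] [IsScalarTower F K Ω] [Algebra F' K] [Algebra F' Ω]
      [IsScalarTower F' K Ω] [IsScalarTower F F' K] [IsScalarTower F F' Ω],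
      DvG (fun i => (C i).V) K Ω l → P K Ω)
    (ht : ∀ (K Ω : Type) [Field K] [CharZero K] [Field Ω] [Algebra K Ω] [IsAlgClosure K Ω]
      [Algebra F K] [Algebra F Ω] [IsScalarTower F K Ω] (M : IntermediateField K Ω)
      [FiniteDimensional K M] [IsScalarTower F M Ω], (Module.finrank K M).Coprime l → P M Ω →
        P K Ω) :
    P (FK F v) (AlgebraicClosure (FK F v)) := by
  have hc : CharZero (FK F v) := charZero_of_injective_algebraMap (algebraMap F (FK F v)).injective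
  obtain ⟨L, c, hc0, hc1, hL, hv, hd⟩ := DN.exists_ldD v
  have hp : (L.p : 𝓞 F) ∈ v.asIdeal := by
    by_contra h0
    have h1 : v.valuation F ((L.p : 𝓞 F) : F) = 1 := by
      have h2 : v.valuation F ((L.p : 𝓞 F) : F) ≤ 1 := v.valuation_le_one _
      refine le_antisymm h2 (not_lt.1 fun h3 => h0 ?_)
      exact (v.valuation_lt_one_iff_mem _).1 h3
    have h4 : v.valuation F ((L.p : ℕ) : F) = WithZero.exp (-(0 : ℤ)) := by
      rw [neg_zero, WithZero.exp_zero, ← h1]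
      exact congrArg _ (map_natCast (algebraMap (𝓞 F) F) L.p).symm
    have h5 := hL _ _ h4
    rw [map_natCast, zpow_zero] at h5
    exact absurd h5 L.lt.ne
  obtain ⟨B, iB, iΩ, t1, t2, hBf, hBc, hU⟩ := hg L.p L.pp hp
  have hcl : IsAlgClosed (AlgebraicClosure (FK F v)) := inferInstance
  have hal : Algebra.IsAlgebraic (FK F v) (AlgebraicClosure (FK F v)) :=
    AlgebraicClosure.isAlgebraic _
  have hac : IsAlgClosure B (AlgebraicClosure (FK F v)) :=
    ⟨hcl, Algebra.IsAlgebraic.tower_top (K := FK F v) B⟩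
  have t3 : IsScalarTower F B (AlgebraicClosure (FK F v)) :=
    IsScalarTower.of_algebraMap_eq fun _ => rfl
  have t4 : IsScalarTower F F' (AlgebraicClosure (FK F v)) := by
    refine IsScalarTower.of_algebraMap_eq fun x => ?_
    rw [IsScalarTower.algebraMap_apply F' B, ← IsScalarTower.algebraMap_apply F F' B]
    rfl
  have hcB : CharZero B := charZero_of_injective_algebraMap (algebraMap (FK F v) B).injective
  have hdv : DvG (fun i => (C i).V) B (AlgebraicClosure (FK F v)) l :=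
    DH.dvG_of (L := GX.xt L B) (fun i => exPr (C i)) (fun i => una_dv (L := GX.xt L B) (hU i))
      fun i => una_nm (L := GX.xt L B) (hU i)
  exact ht _ _ B hBc (hP B (AlgebraicClosure (FK F v)) hdv)

/-- **One place.** -/
theorem dm_u (hf : GX.Nsg f d) (hD : Dom f C Φ h D) (h0 : D ≠ 0) (hC : Cst f C Φ h)
    (hr : ∀ i, ExPen (C i) (r i)) {l : ℕ} (hl : l.Prime) (h1 : ¬ l ∣ nb r * D)
    (v : HeightOneSpectrum (𝓞 F)) (hg : DX.Unv C v l) :
    Dm (GX.Xf f) (FK F v) (AlgebraicClosure (FK F v)) l := by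
  refine one_u (P := fun K Ω _ _ _ _ _ _ => Dm (GX.Xf f) K Ω l) v hg ?_ ?_
  · intro K Ω _ _ _ _ _ _ _ _ _ _ _ _ _ hd
    exact dm_X hf hD h0 hC hr ((Nat.Prime.coprime_iff_not_dvd hl).2 h1) hd
  · intro K Ω _ _ _ _ _ _ _ _ M _ _ hc hd
    exact KM.dm_tr (GX.fct f) M hc hd

/-- **One place.** -/
theorem dw_u (hf : GX.Nsg f d) (hA : A.Ok) (hM : M.Ok) (hD : Dom f C Φ h D) (h0 : D ≠ 0)
    (hP : Plb C Φ h M) (hr : ∀ i, ExPen (C i) (r i)) {l : ℕ} (hl : l.Prime)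
    (h1 : ¬ l ∣ nb r * D) (v : HeightOneSpectrum (𝓞 F))
    (hg : DX.Unv C v l) (j : ℕ) : DN.Dw M (FK F v) (AlgebraicClosure (FK F v)) (l ^ j) := by
  refine one_u (P := fun K Ω _ _ _ _ _ _ => DN.Dw M K Ω (l ^ j)) v hg ?_ ?_
  · intro K Ω _ _ _ _ _ _ _ _ _ _ _ _ _ hd
    exact dw_X hf hA hM hD h0 hP hr (((Nat.Prime.coprime_iff_not_dvd hl).2 h1).pow_left j)
      (DN.dvG_pow hd j)
  · intro K Ω _ _ _ _ _ _ _ _ M _ _ hc hd
    exact DN.dw_tr M (hc.pow_right j) hd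

/-- **One place**: the kernel of the sum is divisible by `l`. -/
theorem dvS_u (hf : GX.Nsg f d) (hA : A.Ok) (hM : M.Ok) (hD : Dom f C Φ h D) (h0 : D ≠ 0)
    (hP : Plb C Φ h M) (hr : ∀ i, ExPen (C i) (r i)) {l : ℕ} (hl : l.Prime)
    (h1 : ¬ l ∣ nb r * D) (v : HeightOneSpectrum (𝓞 F)) (hg : DX.Unv C v l) :
    GX.DvS M (FK F v) l := by
  have hc : CharZero (FK F v) := charZero_of_injective_algebraMap (algebraMap F (FK F v)).injective
  obtain ⟨L, -⟩ := DN.exists_ldD v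
  let _ : AddCommGroup ((GX.Xf A.a).pt (AlgebraicClosure (FK F v))) := A.G.grp _
  obtain ⟨e, he⟩ : ∃ e : ℕ, ∀ R : (GX.Xf A.a).pt (AlgebraicClosure (FK F v)),
      (∀ γ : AlgebraicClosure (FK F v) ≃ₐ[FK F v] AlgebraicClosure (FK F v),
        (GX.Xf A.a).act γ R = R) → ∀ j : ℕ, l ^ j • R = 0 → l ^ e • R = 0 :=
    DN.bdd_tor L hA hl
  intro z hz
  have hz0 : M.S (AlgebraicClosure (FK F v)) z.cy = 0 := hz
  obtain ⟨z', hz', hr'⟩ := dw_u hf hA hM hD h0 hP hr hl h1 v hg (e + 1) z.1 z.2 hz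
  have hs1 : M.S (AlgebraicClosure (FK F v)) (z.cy - l ^ (e + 1) • z') = 0 :=
    RS.rs (K := FK F v) hf.hom hA hM hr'
  have hs2 : l ^ (e + 1) • M.S (AlgebraicClosure (FK F v)) z' = 0 := by
    rw [map_sub, hz0, zero_sub, neg_eq_zero, map_nsmul] at hs1
    exact hs1
  have hs3 : l ^ e • M.S (AlgebraicClosure (FK F v)) z' = 0 := by
    refine he _ (fun γ => ?_) (e + 1) hs2
    have h3 := GX.mfS_act hM γ z'
    rw [← h3]
    congr 1
    exact hz'.1 γ
  refine ⟨⟨l ^ e • z', nsmul_mem hz' _⟩, ?_, ?_⟩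
  · change M.S (AlgebraicClosure (FK F v)) (l ^ e • z') = 0
    rw [map_nsmul]
    exact hs3
  · refine GX.cl_of ?_
    change z.cy - l • (l ^ e • z') ∈ _
    rw [smul_smul, ← pow_succ']
    exact hr'

end place

variable {F F' : Type} [Field F] [NumberField F] [Field F'] [Algebra F F'] {N n d : ℕ} {ι : Type}
  {f : ι → MvPolynomial (Fin N) F} {C : Fin n → Crv F'}
  {Φ : Fin N → MvPolynomial (Σ i, (C i).A) F'} {h : MvPolynomial (Fin N) F} {D : ℕ}

/-- **The theorem.** -/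
theorem main_U (hf : GX.Nsg f d) (hD : Dom f C Φ h D) (h0 : D ≠ 0) (E : Type) [Field E]
    [NumberField E] [Algebra F E] [Algebra F' E] [IsScalarTower F F' E] :
    {v : HeightOneSpectrum (𝓞 F) | ¬ Gdv C E v}.Finite ∧
    ∃ l₀ : ℕ,
      (∀ (v : HeightOneSpectrum (𝓞 F)) (l : ℕ), l.Prime → l₀ < l → DX.Gdl C E v l →
        (Cst f C Φ h → ∀ z : Zc (GX.Xf f) (FK F v), ∃ z' : Zc (GX.Xf f) (FK F v),
          z.cl = l • z'.cl) ∧
        ∀ (N' k k' : ℕ) (ι' : Type) (A : GX.Gv F N' k' ι') (M : GX.Mf f A k), A.Ok → M.Ok →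
          Plb C Φ h M → GX.DvS M (FK F v) l) ∧
      ∀ P : Set ℕ, (∀ l ∈ P, l.Prime ∧ l₀ < l) →
        (Cst f C Φ h → (∀ (v : HeightOneSpectrum (𝓞 F)), ∀ l ∈ P, ¬ DX.Gdl C E v l →
            ∀ z : Zc (GX.Xf f) (FK F v), ∃ z' : Zc (GX.Xf f) (FK F v), z.cl = l • z'.cl) →
          QP (GX.Xf f) P) ∧
        ∀ (N' k k' : ℕ) (ι' : Type) (A : GX.Gv F N' k' ι') (M : GX.Mf f A k), A.Ok → M.Ok →
          Plb C Φ h M →
          (∀ (v : HeightOneSpectrum (𝓞 F)), ∀ l ∈ P, ¬ DX.Gdl C E v l →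
            GX.DvS M (FK F v) l) →
          (∀ m : ℕ, m ≠ 0 → Sf P m → ∀ c : Fam (GX.Xf f), GX.AlbX M c →
            ∃ c' : Fam (GX.Xf f), GX.AlbX M c' ∧ c.cl = m • c'.cl) ∧
          ∀ z : LHat (FA (GX.Xf f)), ImDeS P z ↔ GX.SumX M P z := by
  choose r hr using fun i => exists_pen (C i)
  have hfin : FiniteDimensional F E := FiniteDimensional.right ℚ F E
  have hne : nb r * D * Module.finrank F E ≠ 0 := by
    refine mul_ne_zero (mul_ne_zero ?_ h0) Module.finrank_pos.ne'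
    refine List.prod_ne_zero ?_
    rw [List.mem_map]
    rintro ⟨i, -, hi⟩
    exact Nat.factorial_ne_zero _ hi
  obtain ⟨l₀, h2l, hl₀⟩ := exists_sl E hne
  have loc1 : Cst f C Φ h → ∀ (v : HeightOneSpectrum (𝓞 F)) (l : ℕ), l.Prime → l₀ < l →
      DX.Gdl C E v l → ∀ z : Zc (GX.Xf f) (FK F v), ∃ z' : Zc (GX.Xf f) (FK F v),
        z.cl = l • z'.cl := by
    intro hC v l hl hlt hg
    rcases hg with hv | hu
    · exact dm_cl (dm_v hf hD h0 hC hr (hl₀ l hl hlt) v hv)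
    · exact dm_cl (dm_u hf hD h0 hC hr hl
        (fun hh => (hl₀ l hl hlt).2.2.1 (hh.mul_right _)) v hu)
  have loc2 : ∀ (N' k k' : ℕ) (ι' : Type) (A : GX.Gv F N' k' ι') (M : GX.Mf f A k), A.Ok →
      M.Ok → Plb C Φ h M → ∀ (v : HeightOneSpectrum (𝓞 F)) (l : ℕ), l.Prime → l₀ < l →
        DX.Gdl C E v l → GX.DvS M (FK F v) l := by
    intro N' k k' ι' A M hA hM hP v l hl hlt hg
    rcases hg with hv | hu
    · exact dvS_v hf hA hM hD h0 hP hr (hl₀ l hl hlt) v hv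
    · exact dvS_u hf hA hM hD h0 hP hr hl
        (fun hh => (hl₀ l hl hlt).2.2.1 (hh.mul_right _)) v hu
  refine ⟨gdv_fin C E, l₀, fun v l hl hlt hv => ⟨fun hC => loc1 hC v l hl hlt hv,
    fun N' k k' ι' A M hA hM hP => loc2 N' k k' ι' A M hA hM hP v l hl hlt hv⟩,
    fun P hPr => ⟨fun hC hb => ?_, fun N' k k' ι' A M hA hM hP hb => ?_⟩⟩
  · have h2 : 2 ∉ P := fun h => absurd (hPr 2 h).2 (not_lt.2 h2l)
    have key : ∀ m : ℕ, m ≠ 0 → Sf P m →
        ∀ c : Fam (GX.Xf f), ∃ c' : Fam (GX.Xf f), c.cl = m • c'.cl := by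
      intro m hm hS
      have h3 : Odd m := by
        rw [← Nat.not_even_iff_odd, even_iff_two_dvd]
        exact fun h' => h2 (hS 2 Nat.prime_two h')
      refine fam_m h3 fun v => cl_sf (fun l hl => ?_) hm hS
      by_cases hv : DX.Gdl C E v l
      · exact loc1 hC v l (hPr l hl).1 (hPr l hl).2 hv
      · exact hb v l hl hv
    exact ⟨key, im_m key⟩
  · have h2 : 2 ∉ P := fun h => absurd (hPr 2 h).2 (not_lt.2 h2l)
    have key : ∀ l ∈ P, l.Prime → ∀ v : HeightOneSpectrum (𝓞 F), GX.DvS M (FK F v) l := by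
      intro l hl _ v
      by_cases hv : DX.Gdl C E v l
      · exact loc2 N' k k' ι' A M hA hM hP v l (hPr l hl).1 (hPr l hl).2 hv
      · exact hb v l hl hv
    exact ⟨GX.famX_dv h2 key, GX.imX_sum h2 key⟩

end DC
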