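import Pool.Agent.Lib.MP_f80667_ag.Dc.UBc
import Pool.Agent.Lib.MP_f80667_ag.Dc.UGlo
import Pool.Agent.Lib.MP_f80667_ag.Dh.FerM
import Pool.Agent.Lib.MP_f80667_ag.Cv.Up

/-! Good reduction: models over local fields, Fermat curves, divisibility and norms. -/

open ZC BE PE CV IsDedekindDomain NumberField Polynomial TensorProduct

namespace DC

/-- The model over the place `w` gives a model over the local field. -/
theorem mod_w {F' E : Type} [Field F'] [Field E] [NumberField E] [Algebra F' E]
    {C : Crv F'} {K Ω : Type} [Field K] [CharZero K] [Field Ω] [Algebra K Ω]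
    [Algebra F' K] [Algebra E K]
    [Algebra E Ω] [IsScalarTower E K Ω] [IsScalarTower F' E K] (L : Ld K Ω)
    (w : HeightOneSpectrum (𝓞 E)) {c : ℝ} (h0 : 0 < c) (h1 : c < 1)
    (hL : ∀ (x : E) (n : ℤ), w.valuation E x = WithZero.exp (-n) →
      L.nm (algebraMap E Ω x) = c ^ n)
    (hg : Nonempty (Mod C (w.valuation E).valuationSubring E)) :
    Nonempty (Mod C (Ok L) K) := by
  have hn : ∀ x : E, x ≠ 0 → L.nm (algebraMap E Ω x) =
      c ^ (-WithZero.log (w.valuation E x)) := by
    intro x hx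
    have h3 : w.valuation E x ≠ 0 := (Valuation.ne_zero_iff _).2 hx
    exact hL x _ (by rw [neg_neg, WithZero.exp_log h3])
  have hle : ∀ x : E, w.valuation E x ≤ 1 → L.nm (algebraMap E K x |> algebraMap K Ω) ≤ 1 := by
    intro x hx
    rw [← IsScalarTower.algebraMap_apply E K Ω]
    by_cases hx0 : x = 0
    · rw [hx0, map_zero, L.zero]
      exact zero_le_one
    have h3 : w.valuation E x ≠ 0 := (Valuation.ne_zero_iff _).2 hx0
    rw [hn x hx0]
    have h4 : WithZero.log (w.valuation E x) ≤ 0 := by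
      rw [← WithZero.exp_log h3, ← WithZero.exp_zero] at hx
      exact WithZero.exp_le_exp.1 hx
    exact zpow_le_one₀ h0 h1.le (by omega)
  have hge : ∀ x : E, L.nm (algebraMap K Ω (algebraMap E K x)) = 1 → w.valuation E x = 1 := by
    intro x hx
    rw [← IsScalarTower.algebraMap_apply E K Ω] at hx
    have hx0 : x ≠ 0 := by
      intro h
      rw [h, map_zero, L.zero] at hx
      exact zero_ne_one hx
    have h3 : w.valuation E x ≠ 0 := (Valuation.ne_zero_iff _).2 hx0
    rw [hn x hx0, ← zpow_zero c] at hx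
    have h4 := zpow_right_injective₀ h0 h1.ne hx
    rw [← WithZero.exp_log h3, ← WithZero.exp_zero]
    exact congrArg _ (by omega)
  let jO : (w.valuation E).valuationSubring →+* Ok L :=
    ((algebraMap E K).comp (w.valuation E).valuationSubring.subtype).codRestrict (Ok L)
      fun x => hle x.1 x.2
  let i2 : Algebra (w.valuation E).valuationSubring (Ok L) := jO.toAlgebra
  let i3 : Algebra (w.valuation E).valuationSubring K :=
    ((algebraMap E K).comp (w.valuation E).valuationSubring.subtype).toAlgebra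
  have t1 : IsScalarTower (w.valuation E).valuationSubring (Ok L) K :=
    IsScalarTower.of_algebraMap_eq fun _ => rfl
  have t2 : IsScalarTower (w.valuation E).valuationSubring E K :=
    IsScalarTower.of_algebraMap_eq fun _ => rfl
  have hloc : IsLocalHom (algebraMap (w.valuation E).valuationSubring (Ok L)) := by
    refine ⟨fun x hx => ?_⟩
    obtain ⟨y, hy⟩ := isUnit_iff_exists_inv.1 hx
    have e1 : L.nm (algebraMap K Ω (algebraMap E K x.1)) *
        L.nm (algebraMap K Ω (y : K)) = 1 := by
      have h3 : (algebraMap E K x.1) * (y : K) = 1 := congrArg (fun z : Ok L => (z : K)) hy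
      rw [← L.mul, ← map_mul, h3, map_one, L.one]
    have e3 := hle x.1 x.2
    have e4 : L.nm (algebraMap K Ω (y : K)) ≤ 1 := y.2
    have e5 : 1 ≤ L.nm (algebraMap K Ω (algebraMap E K x.1)) := by
      have h3 := L.nonneg (algebraMap K Ω (algebraMap E K x.1))
      nlinarith
    have e6 := hge x.1 (le_antisymm e3 e5)
    have hx0 : x.1 ≠ 0 := by
      intro h
      rw [h, map_zero] at e6
      exact zero_ne_one e6
    have hxi : x.1⁻¹ ∈ (w.valuation E).valuationSubring := by
      rw [Valuation.mem_valuationSubring_iff, map_inv₀, e6, inv_one]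
    exact IsUnit.of_mul_eq_one (⟨_, hxi⟩ : (w.valuation E).valuationSubring)
      (Subtype.ext (mul_inv_cancel₀ hx0))
  obtain ⟨m⟩ := hg
  exact ⟨m.up⟩

/-- Good reduction. -/
theorem una_md {F' : Type} [Field F'] {C : Crv F'} {K Ω : Type} [Field K] [CharZero K] [Field Ω]
    [Algebra K Ω] [IsAlgClosure K Ω] [Algebra F' K] [Algebra F' Ω] [IsScalarTower F' K Ω]
    (L : Ld K Ω) (hg : Nonempty (Mod C (Ok L) K)) {l : ℕ} (hl : l.Prime) (h : l ≠ L.p) :
    DX.Una K Ω C L.p l := by
  obtain ⟨m⟩ := hg
  exact ⟨DH.dvL_of m hl h, DH.nmL_of m hl h⟩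

theorem af_map {M M' : Type} [Field M] [Field M'] [Algebra M M'] (d : ℕ) (ε : M) :
    (DH.Af d ε).map (algebraMap M M') = DH.Af d (algebraMap M M' ε) := by
  unfold DH.Af
  rw [Polynomial.map_add, Polynomial.map_pow, Polynomial.map_pow, Polynomial.map_add,
    Polynomial.map_mul, Polynomial.map_one, map_X, map_C]

/-- Good reduction of Fermat curves if the degree is a unit. -/
theorem fmt_mod {F' : Type} [Field F'] {C : Crv F'} {d : ℕ} (hC : DX.Fmt C d) (hd : 2 ≤ d)
    {K : Type} [Field K] [CharZero K] [Algebra F' K] {O : Type} [CommRing O] [IsLocalRing O]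
    [Algebra O K] (hu : IsUnit (d : O))
    (hO : ∀ x : K, x ^ d = -1 → ∃ e : O, e ^ d = -1 ∧ algebraMap O K e = x) :
    Nonempty (Mod C O K) := by
  obtain ⟨ε, hε, ⟨c⟩⟩ := fmt_cu hC
  have hε' : algebraMap F' K ε ^ d = -1 := by rw [← map_pow, hε, map_neg, map_one]
  obtain ⟨D, ⟨c'⟩⟩ := DH.exists_fer hd hε'
  have c'' : QS.Cu D d ((DH.Af d ε).map (algebraMap F' K)) := by
    rw [af_map]
    exact c'
  obtain ⟨e⟩ := cu_bc c c''
  obtain ⟨e', he', he''⟩ := hO _ hε'
  exact mod_bc e (DH.fer_mod c' hd hu he' he'')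

end DC
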